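import Pool.Agent.N858.R4.MDefs

set_option autoImplicit false

/-!
Conditions on exponents: definitions.
-/

open Finset

namespace Pool.Agent.N858.R3

open Pool.Agent.N858.R4

/-- The differences `e (p i) 0 - e (p i) 1` of the exponents at the four points `p i` are not integers,
and the exponents at all points can be ordered (`κ x` is the number of the first one) such that the sum
of the first exponents is an integer and the differences are opposite to each other modulo the integers
in two pairs of points. -/
def SplitPairs {X : Type*} [Fintype X] (e : X → Fin 2 → ℚ) (p : Fin 4 → X) : Prop :=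
  (∀ i, ¬ ∃ w : ℤ, e (p i) 0 - e (p i) 1 = w) ∧
    ∃ (κ : X → Fin 2) (σ : Equiv.Perm (Fin 4)),
      (∃ w : ℤ, ∑ x, e x (κ x) = w) ∧
      (∃ w : ℤ, (e (p (σ 0)) (κ (p (σ 0))) - e (p (σ 0)) (1 - κ (p (σ 0)))) +
        (e (p (σ 1)) (κ (p (σ 1))) - e (p (σ 1)) (1 - κ (p (σ 1)))) = w) ∧
      ∃ w : ℤ, (e (p (σ 2)) (κ (p (σ 2))) - e (p (σ 2)) (1 - κ (p (σ 2)))) +
        (e (p (σ 3)) (κ (p (σ 3))) - e (p (σ 3)) (1 - κ (p (σ 3)))) = w

/-- The exponents at the three points `p x` are not congruent to one another, and they agree up to the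
order and up to shifts, modulo the integers. -/
def SameTriples {X : Type*} (e : X → Fin 3 → ℚ) (p : Fin 3 → X) : Prop :=
  (∀ x l l', l ≠ l' → ¬ Cong (e (p x) l) (e (p x) l')) ∧
    ∃ τ : Fin 3 → Equiv.Perm (Fin 3), ∀ x y l l',
      Cong (e (p x) (τ x l) - e (p x) (τ x l')) (e (p y) (τ y l) - e (p y) (τ y l'))

section defs

variable {X : Type*} [Fintype X] {n : ℕ}

open Classical in
/-- There are two exponents at one point `x`, not congruent to each other modulo the integers, and
exponents at all the other points except one (`z`), whose multiplicities have a sum greater than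
`(number of points - 2) n`. -/
def LargeMult (e : X → Fin n → ℚ) : Prop :=
  ∃ x z : X, x ≠ z ∧ ∃ (k k' : Fin n) (κ : X → Fin n), ¬ Cong (e x k) (e x k') ∧
    Fintype.card X * n <
      mult e x k + mult e x k' + ∑ y ∈ (univ.erase x).erase z, mult e y (κ y) + 2 * n

/-- The index of rigidity `(2 - number of points) n ^ 2 + ∑ pairs` is at least zero. -/
def IndexNonneg (e : X → Fin n → ℚ) : Prop :=
  Fintype.card X * n ^ 2 ≤ ∑ x, pairs e x + 2 * n ^ 2

/-- At all points outside of the set `S` the exponents are congruent to one another. -/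
def ScalarOff (e : X → Fin n → ℚ) (S : Finset X) : Prop :=
  ∀ x, x ∉ S → ∀ l l', Cong (e x l) (e x l')

/-- There are exactly three points where the exponents are not congruent to one another, and all
multiplicities there are `n / 3`, or there are exactly four such points, and all multiplicities there
are `n / 2`. -/
def ExcType (e : X → Fin n → ℚ) : Prop :=
  (∃ S : Finset X, S.card = 3 ∧ ScalarOff e S ∧ ∀ x ∈ S, ∀ k, 3 * mult e x k = n) ∨
    ∃ S : Finset X, S.card = 4 ∧ ScalarOff e S ∧ ∀ x ∈ S, ∀ k, 2 * mult e x k = n

end defs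

/-- The differences of the exponents at every point and the sums of exponents, one for each point, have
a common denominator without prime factors `≤ B`. -/
def RoughSums {X : Type*} [Fintype X] {n : ℕ} (B : ℕ) (e : X → Fin n → ℚ) : Prop :=
  ∃ q : ℕ, 0 < q ∧ (∀ p : ℕ, p.Prime → p ∣ q → B < p) ∧
    (∀ x l l', ∃ w : ℤ, (q : ℚ) * (e x l - e x l') = w) ∧
    ∀ κ : X → Fin n, ∃ w : ℤ, (q : ℚ) * ∑ x, e x (κ x) = w

/-- In rank two, if the two exponents are congruent at all points except the four points `p i`:
`SplitPairs`. In rank three, if the exponents are congruent at all points except the three points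
`p i`: `SameTriples`. -/
def Refined {X : Type*} [Fintype X] {r : ℕ} (e : X → Fin r → ℚ) : Prop :=
  (∀ (h : r = 2) (p : Fin 4 → X), Function.Injective p →
    (∀ x, (∀ i, x ≠ p i) → ∀ l l', Cong (e x l) (e x l')) →
      SplitPairs (fun x l => e x (Fin.cast h.symm l)) p) ∧
  ∀ (h : r = 3) (p : Fin 3 → X), Function.Injective p → ScalarOutside e p →
    SameTriples (fun x l => e x (Fin.cast h.symm l)) p

end Pool.Agent.N858.R3
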