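import Pool.Agent.N858.R4.Final
import Pool.Agent.N858.R3.Defs

set_option autoImplicit false

/-!
Multiplicities with index of rigidity at least zero.
-/

open Finset

namespace Pool.Agent.N858.R3

open Pool.Agent.N858.R4

section comb

variable {X : Type*} [Fintype X] {n : ℕ} {e : X → Fin n → ℚ}

omit [Fintype X] in
lemma cong_equiv (e : X → Fin n → ℚ) (x : X) : Equivalence fun i j => Cong (e x i) (e x j) :=
  equiv_cong (e x)

omit [Fintype X] in
lemma mult_pos (e : X → Fin n → ℚ) (x : X) (k : Fin n) : 0 < mult e x k := by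
  classical
  unfold mult
  exact card_pos.2 ⟨k, mem_filter.2 ⟨mem_univ _, (cong_equiv e x).refl k⟩⟩

omit [Fintype X] in
lemma mult_le (e : X → Fin n → ℚ) (x : X) (k : Fin n) : mult e x k ≤ n := by
  classical
  unfold mult
  exact (card_le_univ _).trans (by simp)

omit [Fintype X] in
lemma mult_cong {x : X} {k k' : Fin n} (h : Cong (e x k) (e x k')) :
    mult e x k = mult e x k' := by
  classical
  unfold mult
  congr 1
  ext l
  simp only [mem_filter, mem_univ, true_and]
  exact ⟨fun h1 => (cong_equiv e x).trans ((cong_equiv e x).symm h) h1,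
    fun h1 => (cong_equiv e x).trans h h1⟩

omit [Fintype X] in
lemma scalar_of_mult {x : X} {k : Fin n} (h : mult e x k = n) (l l' : Fin n) :
    Cong (e x l) (e x l') := by
  classical
  unfold mult at h
  have h1 : (univ.filter fun l => Cong (e x k) (e x l)) = univ :=
    eq_univ_of_card _ (by rw [h]; simp)
  have h2 : ∀ l, Cong (e x k) (e x l) := by
    intro l
    have h3 := mem_univ l
    rw [← h1] at h3
    exact (mem_filter.1 h3).2
  exact (cong_equiv e x).trans ((cong_equiv e x).symm (h2 l)) (h2 l')

omit [Fintype X] in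
/-- All multiplicities equal: they divide the rank. -/
lemma dvd_of_const {x : X} {μ : ℕ} (h : ∀ k, mult e x k = μ) : μ ∣ n := by
  classical
  let s : Setoid (Fin n) := ⟨_, cong_equiv e x⟩
  let f : Fin n → Fin n := fun i => (Quotient.mk s i).out
  have hf : ∀ i j, Cong (e x i) (e x j) ↔ f i = f j := by
    intro i j
    constructor
    · intro h
      have : Quotient.mk s i = Quotient.mk s j := Quotient.sound h
      simp only [f, this]
    · intro h
      have h1 : Quotient.mk s i = Quotient.mk s j := by
        rw [← Quotient.out_eq (Quotient.mk s i), ← Quotient.out_eq (Quotient.mk s j)]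
        exact congrArg _ h
      exact Quotient.exact h1
  have h1 := card_eq_sum_card_image f (univ : Finset (Fin n))
  rw [card_univ, Fintype.card_fin] at h1
  have h2 : ∀ b ∈ univ.image f, (univ.filter fun a => f a = b).card = μ := by
    intro b hb
    obtain ⟨k, -, rfl⟩ := mem_image.1 hb
    rw [← h k]
    unfold mult
    congr 1
    ext l
    simp only [mem_filter, mem_univ, true_and]
    rw [hf k l]
    exact eq_comm
  rw [sum_congr rfl h2, sum_const, smul_eq_mul] at h1
  exact ⟨_, by rw [mul_comm]; exact h1⟩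

omit [Fintype X] in
lemma pairs_le {x : X} {M : ℕ} (h : ∀ k, mult e x k ≤ M) : pairs e x ≤ n * M := by
  unfold pairs
  calc ∑ k, mult e x k ≤ ∑ _k : Fin n, M := sum_le_sum fun k _ => h k
    _ = n * M := by simp

omit [Fintype X] in
lemma pairs_le2 {x : X} {t : Fin n} {u : ℤ} (h : ∀ k, ¬ Cong (e x t) (e x k) → (mult e x k : ℤ) ≤ u) :
    (pairs e x : ℤ) ≤ (mult e x t : ℤ) ^ 2 + (n - mult e x t) * u := by
  classical
  have h1 : (mult e x t : ℤ) = ∑ k, if Cong (e x t) (e x k) then 1 else 0 := by
    conv_lhs => unfold mult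
    rw [card_filter]
    push_cast
    rfl
  have h2 : (pairs e x : ℤ) ≤ ∑ k, ((if Cong (e x t) (e x k) then (1 : ℤ) else 0) * mult e x t +
      (1 - if Cong (e x t) (e x k) then (1 : ℤ) else 0) * u) := by
    unfold pairs
    push_cast
    refine sum_le_sum fun k _ => ?_
    split_ifs with hk
    · rw [← mult_cong hk]
      linarith
    · have := h k hk
      linarith
  refine h2.trans (le_of_eq ?_)
  rw [sum_add_distrib, ← sum_mul, ← sum_mul, sum_sub_distrib, ← h1]
  simp
  ring

omit [Fintype X] in
lemma const_of_pairs {x : X} {M : ℕ} (h : ∀ k, mult e x k ≤ M) (h' : n * M ≤ pairs e x) (k : Fin n) :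
    mult e x k = M := by
  have h1 : ∑ k, (M - mult e x k) = 0 := by
    have h2 : ∑ k, (M - mult e x k) + ∑ k, mult e x k = ∑ _k : Fin n, M := by
      rw [← sum_add_distrib]
      exact sum_congr rfl fun k _ => Nat.sub_add_cancel (h k)
    have h3 : ∑ _k : Fin n, M = n * M := by simp
    unfold pairs at h'
    omega
  have h2 := (sum_eq_zero_iff.1 h1) k (mem_univ _)
  have := h k
  omega

/-- **The classification**: if the index of rigidity is at least zero, the multiplicities are large or
exceptional. -/
theorem index_class (hn : 0 < n) (hX : 2 ≤ Fintype.card X)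
    (hns : ∃ x k k', ¬ Cong (e x k) (e x k')) (hI : IndexNonneg e) : LargeMult e ∨ ExcType e := by
  classical
  by_contra hcon
  push Not at hcon
  obtain ⟨hL, hE⟩ := hcon
  have : Nonempty X := Fintype.card_pos_iff.1 (by omega)
  -- the largest multiplicities
  have htop : ∀ x, ∃ t, ∀ k, mult e x k ≤ mult e x t := by
    intro x
    obtain ⟨t, -, ht⟩ := exists_max_image (univ : Finset (Fin n)) (mult e x) ⟨⟨0, hn⟩, mem_univ _⟩
    exact ⟨t, fun k => ht k (mem_univ _)⟩
  choose top htop using htop
  obtain ⟨z, -, hz⟩ := exists_min_image (univ : Finset X) (fun x => mult e x (top x)) univ_nonempty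
  have hz' : ∀ x, mult e z (top z) ≤ mult e x (top x) := fun x => hz x (mem_univ _)
  obtain ⟨M, hM⟩ : ∃ M : X → ℤ, M = fun x => (mult e x (top x) : ℤ) := ⟨_, rfl⟩
  have hMx : ∀ x, (mult e x (top x) : ℤ) = M x := fun x => by rw [hM]
  obtain ⟨S', hS'⟩ : ∃ S', S' = ∑ y ∈ univ.erase z, M y := ⟨_, rfl⟩
  obtain ⟨u, hu⟩ : ∃ u : ℤ, u = Fintype.card X * n - 2 * n - S' := ⟨_, rfl⟩
  have hMle : ∀ x, M x ≤ n := fun x => by rw [← hMx]; exact_mod_cast mult_le e x _
  have hM0 : ∀ x, 0 < M x := fun x => by rw [← hMx]; exact_mod_cast mult_pos e x _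
  have hμ : ∀ x, M z ≤ M x := fun x => by rw [← hMx, ← hMx]; exact_mod_cast hz' x
  -- the second multiplicities
  have hsec : ∀ x, x ≠ z → ∀ k, ¬ Cong (e x (top x)) (e x k) → (mult e x k : ℤ) ≤ u := by
    intro x hx k hk
    by_contra hlt
    push Not at hlt
    apply hL
    refine ⟨x, z, hx, top x, k, top, hk, ?_⟩
    have h1 : S' = M x + ∑ y ∈ (univ.erase x).erase z, M y := by
      rw [hS', ← add_sum_erase (univ.erase z) M (mem_erase.2 ⟨hx, mem_univ x⟩), erase_right_comm]
    have h2 : ((∑ y ∈ (univ.erase x).erase z, mult e y (top y) : ℕ) : ℤ) =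
        ∑ y ∈ (univ.erase x).erase z, M y := by
      push_cast
      exact sum_congr rfl fun y _ => hMx y
    have h3 := hMx x
    zify
    rw [← h2] at h1
    push_cast at h1
    linarith
  -- a non-scalar point different from `z`
  have hu0 : 0 < u := by
    have key : ∃ x, x ≠ z ∧ ∃ k, ¬ Cong (e x (top x)) (e x k) := by
      by_contra hno
      push Not at hno
      have hsc : ∀ x, x ≠ z → mult e x (top x) = n := by
        intro x hx
        unfold mult
        rw [filter_true_of_mem fun k _ => hno x hx k]
        simp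
      obtain ⟨x, k, k', hk⟩ := hns
      have hxz : x = z := by
        by_contra hx
        exact hk ((cong_equiv e x).trans ((cong_equiv e x).symm (hno x hx k)) (hno x hx k'))
      subst hxz
      obtain ⟨w, hw⟩ : ∃ w, w ≠ x := by
        have : 1 < Fintype.card X := by omega
        exact Fintype.exists_ne_of_one_lt_card this x
      apply hL
      refine ⟨x, w, hw.symm, k, k', top, hk, ?_⟩
      have h1 : ∑ y ∈ (univ.erase x).erase w, mult e y (top y) =
          ((univ.erase x).erase w).card * n := by
        rw [sum_congr rfl fun y hy => hsc y (by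
          simp only [mem_erase] at hy
          exact hy.2.1), sum_const, smul_eq_mul]
      have h2 : (((univ : Finset X).erase x).erase w).card + 2 = Fintype.card X := by
        have e1 := card_erase_add_one (s := (univ : Finset X).erase x) (a := w)
          (mem_erase.2 ⟨hw, mem_univ w⟩)
        have e2 := card_erase_add_one (s := (univ : Finset X)) (a := x) (mem_univ x)
        rw [card_univ] at e2
        omega
      rw [h1, ← h2]
      have := mult_pos e x k
      nlinarith
    obtain ⟨x, hx, k, hk⟩ := key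
    have h1 := hsec x hx k hk
    have h2 : (0 : ℤ) < mult e x k := by exact_mod_cast mult_pos e x k
    omega
  -- the bounds for the numbers of pairs
  have hI' : (Fintype.card X : ℤ) * n ^ 2 ≤ (pairs e z : ℤ) +
      ∑ x ∈ univ.erase z, (pairs e x : ℤ) + 2 * n ^ 2 := by
    have h1 : (Fintype.card X : ℤ) * n ^ 2 ≤ ∑ x, (pairs e x : ℤ) + 2 * n ^ 2 := by
      have h2 := hI
      unfold IndexNonneg at h2
      exact_mod_cast h2
    rwa [← add_sum_erase univ (fun x => (pairs e x : ℤ)) (mem_univ z)] at h1
  have hp1 : ∀ x, (pairs e x : ℤ) ≤ n * M x := by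
    intro x
    rw [← hMx]
    exact_mod_cast pairs_le (htop x)
  have hn' : (0 : ℤ) < n := by exact_mod_cast hn
  have hcard : ((univ.erase z).card : ℤ) = Fintype.card X - 1 := by
    have := card_erase_add_one (s := (univ : Finset X)) (a := z) (mem_univ z)
    rw [card_univ] at this
    omega
  have huμ : u ≤ M z := by
    by_contra hlt
    push Not at hlt
    have h1 : ∑ x ∈ univ.erase z, (pairs e x : ℤ) ≤ ∑ x ∈ univ.erase z, n * M x :=
      sum_le_sum fun x _ => hp1 x
    rw [← mul_sum, ← hS'] at h1
    have h2 := hp1 z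
    have h3 : (n : ℤ) * (Fintype.card X * n) ≤ n * (M z + S' + 2 * n) := by nlinarith
    have h4 := le_of_mul_le_mul_left h3 hn'
    linarith
  -- the slacks
  set A : X → ℤ := fun x => M x ^ 2 + (n - M x) * u - pairs e x with hA
  set B : X → ℤ := fun x => (n - M x) * (M x - M z) with hB
  have hA0 : ∀ x ∈ univ.erase z, 0 ≤ A x := by
    intro x hx
    have h1 := pairs_le2 (e := e) (x := x) (t := top x) (u := u) (hsec x (mem_erase.1 hx).1)
    rw [hMx] at h1
    simp only [hA]
    linarith
  have hB0 : ∀ x ∈ univ.erase z, 0 ≤ B x := fun x _ =>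
    mul_nonneg (by have := hMle x; linarith) (by have := hμ x; linarith)
  have hc : ∑ x ∈ univ.erase z, ((n : ℤ) - M x) = n + u := by
    rw [sum_sub_distrib, sum_const, nsmul_eq_mul, hcard, ← hS', hu]
    ring
  have hsum : ∑ x ∈ univ.erase z, (A x + B x) + (n * M z - pairs e z) +
      u * (M z - u) ≤ 0 := by
    have h1 : ∀ x, A x + B x = n ^ 2 - (n + M z - u) * (n - M x) - pairs e x := by
      intro x
      simp only [hA, hB]
      ring
    rw [sum_congr rfl fun x _ => h1 x, sum_sub_distrib, sum_sub_distrib, ← mul_sum, hc, sum_const,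
      nsmul_eq_mul, hcard]
    nlinarith
  have hAB : 0 ≤ ∑ x ∈ univ.erase z, (A x + B x) :=
    sum_nonneg fun x hx => add_nonneg (hA0 x hx) (hB0 x hx)
  have hz1 := hp1 z
  have hz2 : 0 ≤ u * (M z - u) := mul_nonneg hu0.le (by linarith)
  have hu' : u = M z := by
    have h1 : u * (M z - u) = 0 := by linarith
    rcases mul_eq_zero.1 h1 with h | h <;> linarith
  have hAB0 := (sum_eq_zero_iff_of_nonneg fun x hx => add_nonneg (hA0 x hx) (hB0 x hx)).1
    (le_antisymm (by linarith) hAB)
  have hzc : ∀ k, mult e z k = mult e z (top z) := const_of_pairs (htop z) (by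
    have h1 : (n : ℤ) * M z ≤ pairs e z := by linarith
    rw [← hMx] at h1
    exact_mod_cast h1)
  have hor : ∀ x, x ≠ z → M x = n ∨ (M x = M z ∧ ∀ k, mult e x k = mult e x (top x)) := by
    intro x hx
    have hx' : x ∈ univ.erase z := mem_erase.2 ⟨hx, mem_univ _⟩
    have h1 := hAB0 x hx'
    have h2 := hA0 x hx'
    have h3 := hB0 x hx'
    have h4 : B x = 0 := by linarith
    have h5 : A x = 0 := by linarith
    rcases mul_eq_zero.1 h4 with h | h
    · left; linarith
    · right
      have h6 : M x = M z := by linarith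
      refine ⟨h6, const_of_pairs (htop x) ?_⟩
      have h7 : (n : ℤ) * M x ≤ pairs e x := by
        simp only [hA] at h5
        rw [hu', ← h6] at h5
        nlinarith
      rw [← hMx] at h7
      exact_mod_cast h7
  have hzn : M z < n := by
    by_contra hge
    push Not at hge
    obtain ⟨x, k, k', hk⟩ := hns
    have h1 : M x = n := le_antisymm (hMle x) (hge.trans (hμ x))
    rw [← hMx] at h1
    exact hk (scalar_of_mult (by exact_mod_cast h1) k k')
  -- the non-scalar points
  set S : Finset X := univ.filter fun x => M x = M z with hSdef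
  have hzS : z ∈ S := mem_filter.2 ⟨mem_univ _, rfl⟩
  have hSm : ∀ x ∈ S, ∀ k, (mult e x k : ℤ) = M z := by
    intro x hx k
    have h1 : M x = M z := (mem_filter.1 hx).2
    by_cases hxz : x = z
    · rw [hxz, hzc k, hMx]
    · rcases hor x hxz with h | h
      · omega
      · rw [h.2 k, hMx, h.1]
  have hSs : ScalarOff e S := by
    intro x hx l l'
    have h1 : M x ≠ M z := fun h => hx (mem_filter.2 ⟨mem_univ _, h⟩)
    have h2 : M x = n := by
      rcases hor x (fun h => h1 (by rw [h])) with h | h
      · exact h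
      · exact absurd h.1 h1
    rw [← hMx] at h2
    exact scalar_of_mult (by exact_mod_cast h2) l l'
  have hcount : ((S.card : ℤ) - 1) * (n - M z) = n + M z := by
    rw [← hu', ← hc, hu']
    have h1 : ∑ x ∈ univ.erase z, ((n : ℤ) - M x) = ∑ x ∈ S.erase z, ((n : ℤ) - M x) := by
      symm
      refine sum_subset (erase_subset_erase _ (subset_univ _)) fun x hx hx' => ?_
      have hxz : x ≠ z := (mem_erase.1 hx).1
      have h2 : M x ≠ M z := fun h => hx' (mem_erase.2 ⟨hxz, mem_filter.2 ⟨mem_univ _, h⟩⟩)
      rcases hor x hxz with h | h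
      · linarith
      · exact absurd h.1 h2
    rw [h1, sum_congr rfl fun x hx => by rw [(mem_filter.1 (mem_of_mem_erase hx)).2], sum_const,
      nsmul_eq_mul]
    have h3 := card_erase_add_one (s := S) (a := z) hzS
    have h4 : (((S.erase z).card : ℕ) : ℤ) = S.card - 1 := by omega
    rw [h4]
  obtain ⟨r, hr⟩ := dvd_of_const hzc
  have hr' : (n : ℤ) = M z * r := by
    rw [← hMx]
    exact_mod_cast hr
  have hMz := hM0 z
  have h5 : ((S.card : ℤ) - 2) * (r - 1) = 2 := by
    have h6 : M z * (((S.card : ℤ) - 1) * (r - 1)) = M z * (r + 1) := by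
      rw [hr'] at hcount
      linarith
    have h7 := mul_left_cancel₀ hMz.ne' h6
    linarith
  have hr1 : 1 < (r : ℤ) := by
    by_contra hle
    push Not at hle
    have : M z * r ≤ M z * 1 := mul_le_mul_of_nonneg_left hle hMz.le
    linarith
  have h6 : (r : ℤ) - 1 ∣ 2 := ⟨_, by rw [mul_comm] at h5; exact h5.symm⟩
  have h7 := Int.le_of_dvd (by norm_num) h6
  apply hE
  have h8 : (r : ℤ) = 2 ∨ (r : ℤ) = 3 := by omega
  rcases h8 with h8 | h8
  · right
    refine ⟨S, ?_, hSs, fun x hx k => ?_⟩
    · rw [h8] at h5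
      omega
    · have := hSm x hx k
      zify
      rw [this, hr', h8]
      ring
  · left
    refine ⟨S, ?_, hSs, fun x hx k => ?_⟩
    · rw [h8] at h5
      omega
    · have := hSm x hx k
      zify
      rw [this, hr', h8]
      ring

end comb

end Pool.Agent.N858.R3
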