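import Pool.Agent.N858.R3.Abs3

set_option autoImplicit false

/-!
Systems of rank three with rough denominators and at most three non-scalar points: the exponents are
those of a sum of three systems of rank one.
-/

open Finset

namespace Pool.Agent.N858.R3

open Pool.Agent.N858.PC
open Pool.Agent.N858.R4

/-- The exponents are modulo the integers those of a sum of systems of rank one with finite
monodromy: after a renumbering `σ x` of the exponents at each point `x`, the sum over the points of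
the exponents with the same number is an integer. -/
def Decomposes {X : Type*} [Fintype X] {n : ℕ} (e : X → Fin n → ℚ) : Prop :=
  ∃ σ : X → Equiv.Perm (Fin n), ∀ l, ∃ w : ℤ, ∑ x, e x (σ x l) = w

/-- The inequalities for all the conjugates. -/
lemma conj_ineq {m n : ℕ} (hn : 0 < n) {lam : Fin m → Fin n → ℚ}
    {phi : Fin n → ℚ} {N : ℕ} {F : ℤ} {p : Fin 3 → Option (Fin m)}
    (hF : ∑ j, ∑ l, lam j l = ∑ l, phi l + F)
    (hp : Function.Injective p) (hsc : ScalarOutside (allExp lam phi) p)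
    (hSS : ∀ a : ℤ, IsCoprime a (N : ℤ) → Pool.Agent.Y227.SS.SemistableWeights ℂ
      (fun j l => (a : ℝ) * lam j l) (fun l => (a : ℝ) * phi l)) (a : ℤ)
    (ha : IsCoprime a (N : ℤ)) :
    LineSS (fun x l => (a : ℝ) * allExp lam phi x l) ∧
      DPos p ⟨0, hn⟩ fun x l => (a : ℝ) * allExp lam phi x l := by
  have hFa : ∀ a : ℤ, ∑ j, ∑ l, (a : ℝ) * lam j l = ∑ l, (a : ℝ) * phi l + ((a * F : ℤ) : ℝ) := by
    intro a
    have h1 := congrArg (fun r : ℚ => (a : ℝ) * (r : ℝ)) hF
    push_cast at h1 ⊢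
    simp only [← mul_sum]
    linarith
  obtain ⟨D, W, hD, hW⟩ := Pool.Agent.N858.P5.common_den
    fun t : Option (Fin m) × Fin n => allExp lam phi t.1 t.2
  constructor
  · rw [allExp_mul]
    exact lineSS_of (hSS a ha) _ (hFa a)
  · have h1 : SSW (fun x l => (a : ℝ) * ((allExp lam phi x l : ℚ) : ℝ)) := by
      refine semiWeights_congr (hSS a ha) (fun j l => ⟨0, ?_⟩) fun l => ⟨0, ?_⟩
      · simp [allExp]
      · simp [allExp]
    intro x y w hxy hyw hxw k
    refine dk_nonneg h1 hD (fun q l => ⟨a * W (q, l), ?_⟩) (fun e => hxy (hp e))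
      (fun e => hxw (hp e)) (fun e => hyw (hp e)) ⟨0, hn⟩ (fun q hqx hqy hqw l => ?_) k
    · have h2 := congrArg (fun r : ℚ => (r : ℝ)) (hW (q, l))
      push_cast at h2 ⊢
      rw [← h2]
      ring
    · obtain ⟨z, hz⟩ := hsc q (by
        intro i
        have : i = x ∨ i = y ∨ i = w := by
          clear * - hxy hyw hxw
          revert x y w i
          decide
        rcases this with e | e | e <;> rw [e] <;> assumption) l ⟨0, hn⟩
      refine ⟨a * z, ?_⟩
      have h2 := congrArg (fun r : ℚ => (r : ℝ)) hz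
      push_cast at h2 ⊢
      rw [← h2]
      ring

theorem decomposition (m n : ℕ) (hn : 0 < n) (hDec : DecN n) :
    ∃ B : ℕ, ∀ (lam : Fin m → Fin n → ℚ)
    (phi : Fin n → ℚ) (N : ℕ) (F : ℤ) (p : Fin 3 → Option (Fin m)), 0 < N →
    ∑ j, ∑ l, lam j l = ∑ l, phi l + F →
    Rough B (allExp lam phi) → Function.Injective p → ScalarOutside (allExp lam phi) p →
    (∀ a : ℤ, IsCoprime a (N : ℤ) → Pool.Agent.Y227.SS.SemistableWeights ℂ
      (fun j l => (a : ℝ) * lam j l) (fun l => (a : ℝ) * phi l)) →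
    Decomposes (allExp lam phi) := by
  classical
  obtain ⟨B, hB⟩ := abs_dec (Option (Fin m)) n hn hDec
  refine ⟨B, fun lam phi N F p hN hF hR hp hsc hSS => ?_⟩
  obtain ⟨q, hq, hrough, hd⟩ := hR
  have htr : ∃ w : ℤ, ∑ x, ∑ l, allExp lam phi x l = w := by
    refine ⟨F, ?_⟩
    rw [Fintype.sum_option]
    simp only [allExp, sum_neg_distrib, hF]
    ring
  exact hB (allExp lam phi) q N p hp hq hN hrough hd htr
    (fun a ha => (conj_ineq hn hF hp hsc hSS a ha).1)
    (fun a ha => (conj_ineq hn hF hp hsc hSS a ha).2)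
    (fun x hx l l' => hsc x hx l l')

section sys

open Pool.Agent.W432.PC Pool.Agent.W432.TC Pool.Agent.Y227.SS

universe u

theorem dec_sys (n r : ℕ) (hr : 0 < r) (hDec : DecN r) :
    ∃ (ε : ℝ) (B : ℕ), 0 < ε ∧
      ∀ (R : Type u) [CommRing R] [IsDomain R] [CharZero R] [Algebra.FiniteType ℤ R]
        (α : Fin n → R) (A : Fin n → Matrix (Fin r) (Fin r) R)
        (lam : Fin n → Fin r → ℚ) (phi : Fin r → ℚ) (N : ℕ) (p : Fin 3 → Option (Fin n)),
        (∀ i j, i ≠ j → IsUnit (α i - α j)) →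
        (∀ j, HasExponents (A j) (lam j)) → HasExponents (∑ j, A j) phi →
        0 < N → (∀ j l, ∃ m : ℤ, (N : ℚ) * lam j l = m) → (∀ l, ∃ m : ℤ, (N : ℚ) * phi l = m) →
        Rough B (allExp lam phi) → Function.Injective p → ScalarOutside (allExp lam phi) p →
        Decomposes (allExp lam phi) ∨ (BadClasses α A N ε 1 ∧ ¬ CondII α A) := by
  obtain ⟨ε, 𝒟, hε, -, huni⟩ := uniform.{u} n r
  obtain ⟨B, hB⟩ := decomposition n r hr hDec
  refine ⟨ε, B, hε, ?_⟩
  intro R _ _ _ _ α A lam phi N p hα hlam hphi hN hNlam hNphi hR hp hsc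
  have hF : ∑ j, ∑ l, lam j l = ∑ l, phi l + ((0 : ℤ) : ℚ) := by
    rw [sum_exponents hlam hphi]; simp
  rcases (huni R α A lam phi N hα hlam hphi hN hNlam hNphi).1 with ⟨-, h⟩ | h
  · exact Or.inl (hB lam phi N 0 p hN hF hR hp hsc h)
  · exact Or.inr h

lemma thrice_aux {r : ℕ} (lam : Fin 3 → Fin r → ℚ) (x : Fin 3) :
    allExp (fun j : Fin 2 => lam j.castSucc) (fun l => -lam 2 l)
      ((![some 0, some 1, none] : Fin 3 → Option (Fin 2)) x) = lam x := by
  funext l
  fin_cases x
  · rfl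
  · rfl
  · show - -lam 2 l = lam 2 l
    rw [neg_neg]

/-- Systems on the thrice punctured line. -/
theorem dec_thrice (r : ℕ) (hr : 0 < r) (hDec : DecN r) :
    ∃ (ε : ℝ) (B : ℕ), 0 < ε ∧
      ∀ (R : Type u) [CommRing R] [IsDomain R] [CharZero R] [Algebra.FiniteType ℤ R]
        (b c : Matrix (Fin r) (Fin r) R) (lam : Fin 3 → Fin r → ℚ) (N : ℕ),
        HasExponents b (lam 0) → HasExponents c (lam 1) →
        HasExponents (b + c) (fun l => -lam 2 l) →
        0 < N → (∀ j l, ∃ m : ℤ, (N : ℚ) * lam j l = m) → Rough B lam →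
        Decomposes lam ∨ (BadClasses ![0, 1] ![b, c] N ε 1 ∧ ¬ CondII ![0, 1] ![b, c]) := by
  obtain ⟨ε, B, hε, h⟩ := dec_sys.{u} 2 r hr hDec
  refine ⟨ε, B, hε, ?_⟩
  intro R _ _ _ _ b c lam N h0 h1 h2 hN hNlam hR
  obtain ⟨p, hpdef⟩ : ∃ p : Fin 3 → Option (Fin 2), p = ![some 0, some 1, none] := ⟨_, rfl⟩
  have hp : Function.Injective p := by rw [hpdef]; decide
  have hps : Function.Surjective p := by rw [hpdef]; decide
  have hE' : ∀ x, allExp (fun j : Fin 2 => lam j.castSucc) (fun l => -lam 2 l) (p x) = lam x :=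
    fun x => by rw [hpdef]; exact thrice_aux lam x
  have key := h R ![0, 1] ![b, c] (fun j => lam j.castSucc) (fun l => -lam 2 l) N p (by
      intro i j hij
      fin_cases i <;> fin_cases j
      · exact absurd rfl hij
      · simp
      · simp
      · exact absurd rfl hij) (by
      intro j
      fin_cases j
      · exact h0
      · exact h1) (by
      rw [Fin.sum_univ_two]
      exact h2) hN (fun j l => hNlam _ l) (fun l => by
      obtain ⟨m, hm⟩ := hNlam 2 l
      exact ⟨-m, by push_cast; rw [← hm]; ring⟩) (by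
      obtain ⟨q, hq, hrough, hd⟩ := hR
      refine ⟨q, hq, hrough, fun x l l' => ?_⟩
      obtain ⟨y, rfl⟩ := hps x
      rw [hE']
      exact hd y l l') hp (by
      intro x hx
      obtain ⟨y, rfl⟩ := hps x
      exact absurd rfl (hx y))
  refine key.imp ?_ id
  rintro ⟨σ, hσ⟩
  refine ⟨fun x => σ (p x), fun l => ?_⟩
  obtain ⟨w, hw⟩ := hσ l
  refine ⟨w, ?_⟩
  have p0 : p 0 = some 0 := by rw [hpdef]; rfl
  have p1 : p 1 = some 1 := by rw [hpdef]; rfl
  have p2 : p 2 = none := by rw [hpdef]; rfl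
  rw [← hw, Fintype.sum_option, Fin.sum_univ_two, Fin.sum_univ_three]
  have e0 := congrFun (hE' 0) (σ (p 0) l)
  have e1 := congrFun (hE' 1) (σ (p 1) l)
  have e2 := congrFun (hE' 2) (σ (p 2) l)
  rw [← e0, ← e1, ← e2, p0, p1, p2]
  ring

end sys

lemma dec3 : DecN 3 := core3

end Pool.Agent.N858.R3
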