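import Pool.Agent.N858.R3.Tor
import Pool.Agent.N858.R3.Final3
import Pool.Agent.N858.R3.Defs

set_option autoImplicit false

/-!
Irreducible systems of rank three with rough denominators and at most three non-scalar points.
-/

open Finset Filter

namespace Pool.Agent.N858.R3

open Pool.Agent.N858.PC
open Pool.Agent.N858.R4

variable {X : Type*} [Fintype X] [DecidableEq X] {n : ℕ}

/-- The quadratic inequality for a generic one-parameter subgroup. -/
theorem dk_vec [Nonempty X] (S : Seq X n) (F : Ultrafilter ℕ) (hF : (F : Filter ℕ) ≤ atTop)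
    (hn : 0 < n) {V : X × Fin n → ℤ} (hV : Gv S F V) {p : Fin 3 → X} (hp : Function.Injective p)
    (l0 : Fin n)
    (hD : ∀ᶠ j in (F : Filter ℕ), ∀ a : ℤ, IsCoprime a (S.N j : ℤ) →
      DPos p l0 fun x l => (a : ℝ) * S.e j x l) (y0 : Fin 3) :
    ∀ x y z : Fin 3, x ≠ y → y ≠ z → x ≠ z → ∀ (k : Fin n) (t : ℝ),
      0 ≤ DK (fun l => t * vec V p l0 y0 x l) (fun l => t * vec V p l0 y0 y l)
        (fun l => t * vec V p l0 y0 z l) k := by
  intro x y w hxy hyw hxw k t
  have h1 := dk_close S F hF hn hp l0 hD (hV.ann t) x y w hxy hyw hxw k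
  have hO : ((univ.erase (p x)).erase (p y)).erase (p w) = out p := by
    ext q
    rw [mem_out]
    simp only [mem_erase, mem_univ, and_true]
    constructor
    · rintro ⟨a, b, c⟩ i
      have : i = x ∨ i = y ∨ i = w := by
        clear * - hxy hyw hxw
        revert x y w i
        decide
      rcases this with e | e | e <;> rw [e] <;> assumption
    · intro h
      exact ⟨h w, h y, h x⟩
  set sft : Fin 3 → ℤ := fun y => if y = y0 then ∑ q ∈ out p, V (q, l0) else 0 with hsft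
  have h2 : (sft x : ℝ) + sft y + sft w = ∑ q ∈ out p, (V (q, l0) : ℝ) := by
    have := sum3 hxy hyw hxw sft
    rw [hsft] at this
    simp only [sum_ite_eq', mem_univ, if_true] at this
    have h3 : ((∑ q ∈ out p, V (q, l0) : ℤ) : ℝ) = ((sft x + sft y + sft w : ℤ) : ℝ) := by
      rw [this]
    push_cast at h3
    rw [h3]
  have e2 : ∀ x : Fin 3, (fun l => t * (vec V p l0 y0 x l : ℝ)) =
      fun l => t * (V (p x, l) : ℝ) + t * (sft x : ℝ) := by
    intro x
    funext l
    simp only [vec, hsft]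
    push_cast
    ring
  rw [e2, e2, e2, DK_add]
  rw [hO, ← mul_sum] at h1
  have e3 : t * (sft x : ℝ) + t * sft y + t * sft w = t * ∑ q ∈ out p, (V (q, l0) : ℝ) := by
    rw [← mul_add, ← mul_add, h2]
  rw [e3]
  exact h1

/-- Two differences which agree in the lattice. -/
lemma cong_of_quad (S : Seq X n) (F : Ultrafilter ℕ) {x y : X} {i i' j j' : Fin n}
    (h : dif x i i' - dif y j j' ∈ S.R F) :
    ∀ᶠ N in (F : Filter ℕ), Cong (S.e N x i - S.e N x i') (S.e N y j - S.e N y j') := by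
  filter_upwards [mem_rel.1 h] with N hN
  obtain ⟨z, hz⟩ := hN
  refine ⟨z, ?_⟩
  rw [← hz]
  have h1 := sum_dif (R := ℚ) x i i' fun t => S.E N t.1 t.2
  have h2 := sum_dif (R := ℚ) y j j' fun t => S.E N t.1 t.2
  simp only [Pi.sub_apply]
  push_cast
  simp only [sub_mul, sum_sub_distrib]
  rw [h1, h2, S.he, S.he, S.he, S.he]
  ring

/-- The exponents agree. -/
theorem exists_same [Nonempty X] (S : Seq X 3) (F : Ultrafilter ℕ) (hF : (F : Filter ℕ) ≤ atTop)
    {p : Fin 3 → X} (hp : Function.Injective p) (l0 : Fin 3)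
    (hD : ∀ᶠ j in (F : Filter ℕ), ∀ a : ℤ, IsCoprime a (S.N j : ℤ) →
      DPos p l0 fun x l => (a : ℝ) * S.e j x l)
    (hSt : ∀ᶠ j in (F : Filter ℕ), ∀ a : ℤ, IsCoprime a (S.N j : ℤ) →
      LineSt fun x l => (a : ℝ) * S.e j x l)
    (hsc : ∀ x, (∀ i, x ≠ p i) → ∀ l, S.cl F (x, l) = S.cl F (x, l0)) :
    ∀ᶠ N in (F : Filter ℕ), SameTriples (S.e N) p := by
  obtain ⟨V, hV⟩ := exists_gv S F hF
  have hout : ∀ q ∈ out p, ∀ l, V (q, l) = V (q, l0) := fun q hq l =>
    eq_of_cl hV (hsc q (mem_out.1 hq) l)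
  obtain ⟨σ, hσ⟩ := core3 (vec V p l0 0) (sum_vec_all hp l0 0 hout hV.trace)
    (dk_vec S F hF (by norm_num) hV hp l0 hD 0)
  obtain ⟨hinj, τ, hτ⟩ := same3 (strict_torus S F hF (by norm_num) hSt hV hp l0 hsc 0) hσ
  have hdiff : ∀ y l l', vec V p l0 0 y l - vec V p l0 0 y l' = V (p y, l) - V (p y, l') := by
    intro y l l'
    unfold vec
    ring
  have h1 : ∀ᶠ N in (F : Filter ℕ), ∀ x l l', l ≠ l' → ¬ Cong (S.e N (p x) l) (S.e N (p x) l') := by
    refine Filter.eventually_all.2 fun x => Filter.eventually_all.2 fun l =>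
      Filter.eventually_all.2 fun l' => ?_
    by_cases hl : l = l'
    · exact Eventually.of_forall fun N h => absurd hl h
    · have h2 : S.cl F (p x, l) ≠ S.cl F (p x, l') := by
        intro h
        apply hl
        apply hinj x
        have := hdiff x l l'
        have := eq_of_cl hV h
        omega
      have h3 : ∀ᶠ N in (F : Filter ℕ), ¬ ∃ w : ℤ, S.e N (p x) l - S.e N (p x) l' = w :=
        Ultrafilter.eventually_not.2 fun h3 => h2 ((cl_eq_iff S F hF _ _ _).2 h3)
      filter_upwards [h3] with N hN _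
      exact hN
  have h2 : ∀ᶠ N in (F : Filter ℕ), ∀ x y l l', Cong (S.e N (p x) (τ x l) - S.e N (p x) (τ x l'))
      (S.e N (p y) (τ y l) - S.e N (p y) (τ y l')) := by
    refine Filter.eventually_all.2 fun x => Filter.eventually_all.2 fun y =>
      Filter.eventually_all.2 fun l => Filter.eventually_all.2 fun l' => ?_
    refine cong_of_quad S F (hV.quad _ _ _ _ _ _ ?_)
    have := hτ x y l l'
    rw [hdiff, hdiff] at this
    exact this
  filter_upwards [h1, h2] with N a1 a2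
  exact ⟨a1, τ, a2⟩

/-- The abstract theorem. -/
theorem abs_same (X : Type*) [Fintype X] [DecidableEq X] [Nonempty X] :
    ∃ B : ℕ, ∀ (e : X → Fin 3 → ℚ) (q N : ℕ) (p : Fin 3 → X), Function.Injective p →
      0 < q → 0 < N →
      (∀ p : ℕ, p.Prime → p ∣ q → B < p) →
      (∀ x l l', ∃ w : ℤ, (q : ℚ) * (e x l - e x l') = w) →
      (∃ w : ℤ, ∑ x, ∑ l, e x l = w) →
      (∀ a : ℤ, IsCoprime a (N : ℤ) → LineSS fun x l => (a : ℝ) * e x l) →
      (∀ a : ℤ, IsCoprime a (N : ℤ) → LineSt fun x l => (a : ℝ) * e x l) →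
      (∀ a : ℤ, IsCoprime a (N : ℤ) → DPos p 0 fun x l => (a : ℝ) * e x l) →
      (∀ x, (∀ i, x ≠ p i) → ∀ l l', ∃ z : ℤ, e x l - e x l' = z) →
      SameTriples e p := by
  classical
  have hn : 0 < 3 := by norm_num
  by_contra hcon
  push Not at hcon
  choose e q N p hp hq hN hrough hd ht hSS hSt hDP hsc hfail using fun j : ℕ => hcon (j + 3)
  have hnorm : ∀ j, ∃ (E : X → Fin 3 → ℚ) (ε : X → ℚ), (∀ x l, e j x l = E x l + ε x) ∧
      (∀ x l, ∃ z : ℤ, (q j : ℚ) * E x l = z) ∧ ∃ k : ℤ, ((3 : ℕ) : ℚ) * ∑ x, ε x = k := fun j =>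
    normalize hn (hq j) (coprime_rough (hrough j) hn (by omega)) (hd j) (ht j)
  choose E ε he hE hε using hnorm
  let S : Seq X 3 :=
    { e := e, E := E, ε := ε, q := q, N := N, hq := hq, hN := hN
      rough := fun j p hp hpq => by have := hrough j p hp hpq; omega
      he := he, hE := hE, hε := hε, htr := ht, hSS := hSS }
  set F : Ultrafilter ℕ := Filter.hyperfilter ℕ with hFdef
  have hF : (F : Filter ℕ) ≤ atTop := Nat.hyperfilter_le_atTop
  -- the three points
  obtain ⟨p₀, hp₀⟩ : ∃ p₀ : Fin 3 → X, ∀ᶠ j in (F : Filter ℕ), p j = p₀ := by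
    by_contra hno
    have h1 : ∀ p₀ : Fin 3 → X, ∀ᶠ j in (F : Filter ℕ), ¬ p j = p₀ := fun p₀ =>
      Ultrafilter.eventually_not.2 fun h => hno ⟨p₀, h⟩
    obtain ⟨j, hj⟩ := (Filter.eventually_all.2 h1).exists
    exact hj (p j) rfl
  have hp₀i : Function.Injective p₀ := by
    obtain ⟨j, hj⟩ := hp₀.exists
    rw [← hj]
    exact hp j
  have hDP' : ∀ᶠ j in (F : Filter ℕ), ∀ a : ℤ, IsCoprime a (S.N j : ℤ) →
      DPos p₀ 0 fun x l => (a : ℝ) * S.e j x l := by
    filter_upwards [hp₀] with j hj a ha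
    rw [← hj]
    exact hDP j a ha
  have hsc' : ∀ x, (∀ i, x ≠ p₀ i) → ∀ l, S.cl F (x, l) = S.cl F (x, 0) := by
    intro x hx l
    rw [cl_eq_iff S F hF]
    filter_upwards [hp₀] with j hj
    exact hsc j x (by rw [hj]; exact hx) l 0
  obtain ⟨j, hj1, hj2⟩ := ((exists_same S F hF hp₀i 0 hDP' (Eventually.of_forall hSt) hsc').and
    hp₀).exists
  apply hfail j
  rw [hj2]
  exact hj1

end Pool.Agent.N858.R3
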