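import Pool.Agent.N858.R3.Arc
import Pool.Agent.N858.R3.Idx
import Pool.Agent.N858.R3.Irr3

set_option autoImplicit false

/-!
Irreducible systems with rough denominators and large multiplicities.
-/

open Finset Filter

namespace Pool.Agent.N858.R3

open Pool.Agent.N858.PC
open Pool.Agent.N858.R4

section arc0

variable {Y : Type*} [Fintype Y] [DecidableEq Y] {n : ℕ}

omit [DecidableEq Y] in
/-- The number of the entries equal to given numbers with sum zero. -/
theorem arc_zero {v : Y → Fin n → ℤ} (hs : StrictS v) {s : Y → ℤ} (s0 : ∑ y, s y = 0) :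
    ∑ y, cnt (v y) (s y) + 2 * n ≤ Fintype.card Y * n := by
  obtain ⟨Q, hQ⟩ : ∃ Q : ℤ, Q = 1 + (∑ y, ∑ l, |v y l - s y| +
      ∑ y, ∑ l, ∑ l', |v y l - v y l'|) := ⟨_, rfl⟩
  have n1 : 0 ≤ ∑ y, ∑ l, |v y l - s y| := sum_nonneg fun _ _ => sum_nonneg fun _ _ => abs_nonneg _
  have n3 : 0 ≤ ∑ y, ∑ l, ∑ l', |v y l - v y l'| :=
    sum_nonneg fun _ _ => sum_nonneg fun _ _ => sum_nonneg fun _ _ => abs_nonneg _
  have b1 : ∀ y l, |v y l - s y| < Q := by
    intro y l
    have h1 : |v y l - s y| ≤ ∑ l, |v y l - s y| :=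
      single_le_sum (f := fun l => |v y l - s y|) (fun _ _ => abs_nonneg _) (mem_univ l)
    have h2 : ∑ l, |v y l - s y| ≤ ∑ y, ∑ l, |v y l - s y| :=
      single_le_sum (f := fun y => ∑ l, |v y l - s y|)
        (fun _ _ => sum_nonneg fun _ _ => abs_nonneg _) (mem_univ y)
    omega
  have b3 : ∀ y l l', |v y l - v y l'| < Q := by
    intro y l l'
    have h1 : |v y l - v y l'| ≤ ∑ l', |v y l - v y l'| :=
      single_le_sum (f := fun l' => |v y l - v y l'|) (fun _ _ => abs_nonneg _) (mem_univ l')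
    have h2 : ∑ l', |v y l - v y l'| ≤ ∑ l, ∑ l', |v y l - v y l'| :=
      single_le_sum (f := fun l => ∑ l', |v y l - v y l'|)
        (fun _ _ => sum_nonneg fun _ _ => abs_nonneg _) (mem_univ l)
    have h3 : ∑ l, ∑ l', |v y l - v y l'| ≤ ∑ y, ∑ l, ∑ l', |v y l - v y l'| :=
      single_le_sum (f := fun y => ∑ l, ∑ l', |v y l - v y l'|)
        (fun _ _ => sum_nonneg fun _ _ => sum_nonneg fun _ _ => abs_nonneg _) (mem_univ y)
    omega
  have hQ0 : 0 < Q := by omega
  obtain ⟨t, ht⟩ : ∃ t : ℝ, t = tq 1 Q := ⟨_, rfl⟩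
  have gen : ∀ d : ℤ, d ≠ 0 → |d| < Q → ∀ e : ℝ, (e = t ∨ e = -t) → ¬ ∃ w : ℤ, e * (d : ℝ) = w := by
    rintro d h0 h1 e he ⟨w, hw⟩
    rcases he with rfl | rfl
    · exact tq_gen one_pos hQ0 h0 h1 ⟨w, by rw [← ht]; exact hw⟩
    · refine tq_gen one_pos hQ0 h0 h1 ⟨-w, ?_⟩
      rw [← ht]
      push_cast
      rw [← hw]
      ring
  have k1 := hs t s (fun y l l' hne => gen _ (sub_ne_zero.2 hne) (b3 y l l') t (Or.inl rfl)) s0
    (fun y l hne => gen _ (sub_ne_zero.2 hne) (b1 y l) t (Or.inl rfl))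
  have k2 := hs (-t) s (fun y l l' hne => gen _ (sub_ne_zero.2 hne) (b3 y l l') (-t) (Or.inr rfl)) s0
    (fun y l hne => gen _ (sub_ne_zero.2 hne) (b1 y l) (-t) (Or.inr rfl))
  have k3 : ∑ y, cnt (v y) (s y) - Fintype.card Y * n ≤
      ∑ y, ∑ l, (⌊t * ((v y l - s y : ℤ) : ℝ)⌋ + ⌊-t * ((v y l - s y : ℤ) : ℝ)⌋) := by
    have e1 : ∑ y, cnt (v y) (s y) - Fintype.card Y * n =
        ∑ y, ∑ l, ((if v y l = s y then (1 : ℤ) else 0) - 1) := by
      simp only [sum_sub_distrib, cnt]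
      simp
    rw [e1]
    refine sum_le_sum fun y _ => sum_le_sum fun l _ => ?_
    have := arc_y t (v y l - s y)
    simp only [sub_eq_zero] at this
    exact this
  simp only [sum_add_distrib] at k3
  linarith

end arc0

variable {X : Type*} [Fintype X] [DecidableEq X] {n : ℕ}

/-- Congruence of exponents and the generic vector. -/
lemma cong_iff (S : Seq X n) (F : Ultrafilter ℕ) (hF : (F : Filter ℕ) ≤ atTop)
    {V : X × Fin n → ℤ} (hV : Gv S F V) :
    ∀ᶠ N in (F : Filter ℕ), ∀ x i j, Cong (S.e N x i) (S.e N x j) ↔ V (x, i) = V (x, j) := by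
  refine Filter.eventually_all.2 fun x => Filter.eventually_all.2 fun i =>
    Filter.eventually_all.2 fun j => ?_
  by_cases h : S.cl F (x, i) = S.cl F (x, j)
  · filter_upwards [(cl_eq_iff S F hF _ _ _).1 h] with N hN
    exact ⟨fun _ => eq_of_cl hV h, fun _ => hN⟩
  · have h2 : ∀ᶠ N in (F : Filter ℕ), ¬ ∃ w : ℤ, S.e N x i - S.e N x j = w :=
      Ultrafilter.eventually_not.2 fun h3 => h ((cl_eq_iff S F hF _ _ _).2 h3)
    filter_upwards [h2] with N hN
    exact ⟨fun h3 => absurd h3 hN, fun h3 => absurd (cl_of_dif S F (hV.dif _ _ _ h3)) h⟩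

lemma out_id : out (id : X → X) = ∅ := by
  ext q
  rw [mem_out]
  simp only [id, notMem_empty, iff_false, not_forall, not_not]
  exact ⟨q, rfl⟩

/-- All the strict inequalities. -/
lemma strictS_torus [Nonempty X] (S : Seq X n) (F : Ultrafilter ℕ) (hF : (F : Filter ℕ) ≤ atTop)
    (hn : 0 < n)
    (hSt : ∀ᶠ j in (F : Filter ℕ), ∀ a : ℤ, IsCoprime a (S.N j : ℤ) →
      LineSt fun x l => (a : ℝ) * S.e j x l)
    {V : X × Fin n → ℤ} (hV : Gv S F V) : StrictS fun x l => V (x, l) := by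
  obtain ⟨y0⟩ := ‹Nonempty X›
  have hvec : vec V (id : X → X) ⟨0, hn⟩ y0 = fun x l => V (x, l) := by
    funext x l
    unfold vec
    rw [out_id]
    simp
  have h1 := strict_torus S F hF hn hSt hV (p := (id : X → X)) Function.injective_id ⟨0, hn⟩
    (fun x hx => absurd rfl (hx x)) y0
  rw [hvec] at h1
  refine strictS_of h1 fun t s hs => ?_
  have h2 := S.good F hF hn (hV.ann t) s hs
  have h3 : ∑ x, ∑ l, t * (V (x, l) : ℝ) = 0 := by
    simp only [← mul_sum]
    have : ((∑ x, ∑ l, V (x, l) : ℤ) : ℝ) = 0 := by rw [hV.trace]; simp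
    push_cast at this
    rw [this, mul_zero]
  simp only at h2
  rw [h3] at h2
  exact_mod_cast h2

/-- The abstract theorem. -/
theorem abs_large (X : Type*) [Fintype X] [DecidableEq X] [Nonempty X] (n : ℕ) (hn : 0 < n) :
    ∃ B : ℕ, ∀ (e : X → Fin n → ℚ) (q N : ℕ),
      0 < q → 0 < N →
      (∀ p : ℕ, p.Prime → p ∣ q → B < p) →
      (∀ x l l', ∃ w : ℤ, (q : ℚ) * (e x l - e x l') = w) →
      (∃ w : ℤ, ∑ x, ∑ l, e x l = w) →
      (∀ a : ℤ, IsCoprime a (N : ℤ) → LineSS fun x l => (a : ℝ) * e x l) →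
      (∀ a : ℤ, IsCoprime a (N : ℤ) → LineSt fun x l => (a : ℝ) * e x l) →
      ¬ LargeMult e ∧ (∃ x k k', ¬ Cong (e x k) (e x k')) ∧ 2 ≤ Fintype.card X := by
  classical
  by_contra hcon
  push Not at hcon
  choose e q N hq hN hrough hd ht hSS hSt hB using fun j : ℕ => hcon (j + n)
  have hnorm : ∀ j, ∃ (E : X → Fin n → ℚ) (ε : X → ℚ), (∀ x l, e j x l = E x l + ε x) ∧
      (∀ x l, ∃ z : ℤ, (q j : ℚ) * E x l = z) ∧ ∃ k : ℤ, (n : ℚ) * ∑ x, ε x = k := fun j =>
    normalize hn (hq j) (coprime_rough (hrough j) hn (by omega)) (hd j) (ht j)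
  choose E ε he hE hε using hnorm
  let S : Seq X n :=
    { e := e, E := E, ε := ε, q := q, N := N, hq := hq, hN := hN
      rough := fun j p hp hpq => by have := hrough j p hp hpq; omega
      he := he, hE := hE, hε := hε, htr := ht, hSS := hSS }
  set F : Ultrafilter ℕ := Filter.hyperfilter ℕ with hFdef
  have hF : (F : Filter ℕ) ≤ atTop := Nat.hyperfilter_le_atTop
  obtain ⟨V, hV⟩ := exists_gv S F hF
  have hs := strictS_torus S F hF hn (Eventually.of_forall hSt) hV
  obtain ⟨j, hj⟩ := (cong_iff S F hF hV).exists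
  have hmult : ∀ x k, (mult (e j) x k : ℤ) = cnt (fun l => V (x, l)) (V (x, k)) := by
    intro x k
    conv_lhs => unfold mult
    rw [card_filter]
    push_cast
    unfold cnt
    refine sum_congr rfl fun l _ => ?_
    have : Cong (e j x k) (e j x l) ↔ V (x, l) = V (x, k) := (hj x k l).trans eq_comm
    simp only [this]
  -- a non-scalar point
  have hns : ∃ x k k', ¬ Cong (e j x k) (e j x k') := by
    by_contra hno
    push Not at hno
    have h1 : ∀ x l l', V (x, l) = V (x, l') := fun x l l' => (hj x l l').1 (hno x l l')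
    have h2 : ∑ x, V (x, ⟨0, hn⟩) = 0 := by
      have h3 := hV.trace
      rw [sum_congr rfl fun x _ => sum_congr rfl fun l _ => h1 x l ⟨0, hn⟩] at h3
      simp only [sum_const, card_univ, Fintype.card_fin, nsmul_eq_mul] at h3
      rw [← mul_sum] at h3
      rcases mul_eq_zero.1 h3 with h4 | h4
      · exact absurd h4 (by exact_mod_cast hn.ne')
      · exact h4
    have h4 := arc_zero hs h2
    have h5 : ∀ x : X, cnt (fun l => V (x, l)) (V (x, ⟨0, hn⟩)) = n := by
      intro x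
      unfold cnt
      rw [sum_congr rfl fun l _ => if_pos (h1 x l _)]
      simp
    rw [sum_congr rfl fun x _ => h5 x] at h4
    simp only [sum_const, card_univ, nsmul_eq_mul] at h4
    omega
  have hcard : 2 ≤ Fintype.card X := by
    have h4 := arc_zero hs (s := fun _ => 0) (by simp)
    have h5 : 0 ≤ ∑ y : X, cnt (fun l => V (y, l)) 0 := sum_nonneg fun y _ => cnt_nonneg _ _
    by_contra hlt
    push Not at hlt
    have h6 : Fintype.card X ≤ 1 := by omega
    have h7 : (Fintype.card X : ℤ) * n ≤ 1 * n :=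
      mul_le_mul_of_nonneg_right (by exact_mod_cast h6) (by positivity)
    have h8 : (0 : ℤ) < n := by exact_mod_cast hn
    linarith
  have hL : ¬ LargeMult (e j) := by
    rintro ⟨x, z, hxz, k, k', κ, hk, hlt⟩
    have h1 := arc_bound hs hxz (a := k) (a' := k') (fun h => hk ((hj x k k').2 h)) κ
    have h2 : (Fintype.card X : ℤ) * n < mult (e j) x k + mult (e j) x k' +
        ∑ y ∈ (univ.erase x).erase z, (mult (e j) y (κ y) : ℤ) + 2 * n := by
      zify at hlt
      convert hlt using 4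
      ext y
      simp only [mem_erase, mem_univ, and_true]
    simp only [hmult] at h2
    linarith
  have h3 := hB j hL hns
  omega

open Pool.Agent.W432.PC Pool.Agent.W432.TC Pool.Agent.Y227.SS

theorem large_weights (m n : ℕ) (hn : 1 < n) :
    ∃ B : ℕ, ∀ (lam : Fin m → Fin n → ℚ)
    (phi : Fin n → ℚ) (N : ℕ) (F : ℤ), 0 < N →
    ∑ j, ∑ l, lam j l = ∑ l, phi l + F →
    Rough B (allExp lam phi) →
    (∀ a : ℤ, IsCoprime a (N : ℤ) → StableWeights ℂ
      (fun j l => (a : ℝ) * lam j l) (fun l => (a : ℝ) * phi l)) →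
    ¬ LargeMult (allExp lam phi) ∧ (IndexNonneg (allExp lam phi) → ExcType (allExp lam phi)) := by
  classical
  obtain ⟨B, hB⟩ := abs_large (Option (Fin m)) n (by omega)
  refine ⟨B, fun lam phi N F hN hF hR hSt => ?_⟩
  obtain ⟨q, hq, hrough, hd⟩ := hR
  have htr : ∃ w : ℤ, ∑ x, ∑ l, allExp lam phi x l = w := by
    refine ⟨F, ?_⟩
    rw [Fintype.sum_option]
    simp only [allExp, sum_neg_distrib, hF]
    ring
  have hFa : ∀ a : ℤ, ∑ j, ∑ l, (a : ℝ) * lam j l = ∑ l, (a : ℝ) * phi l + ((a * F : ℤ) : ℝ) := by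
    intro a
    have h1 := congrArg (fun r : ℚ => (a : ℝ) * (r : ℝ)) hF
    push_cast at h1 ⊢
    simp only [← mul_sum]
    linarith
  obtain ⟨h1, h2, h3⟩ := hB (allExp lam phi) q N hq hN hrough hd htr
    (fun a ha => by
      rw [allExp_mul]
      exact lineSS_of (semistable_of_stable (hSt a ha)) _ (hFa a))
    (fun a ha => by
      rw [allExp_mul]
      exact lineSt_of hn (hSt a ha) _ (hFa a))
  exact ⟨h1, fun hI => (index_class (by omega) h3 h2 hI).resolve_left h1⟩

universe u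

/-- Systems. -/
theorem large_sys (n r : ℕ) (hr : 1 < r) :
    ∃ (ε : ℝ) (B : ℕ), 0 < ε ∧
      ∀ (R : Type u) [CommRing R] [IsDomain R] [CharZero R] [Algebra.FiniteType ℤ R]
        (α : Fin n → R) (A : Fin n → Matrix (Fin r) (Fin r) R)
        (lam : Fin n → Fin r → ℚ) (phi : Fin r → ℚ) (N : ℕ),
        (∀ i j, i ≠ j → IsUnit (α i - α j)) → AbsIrreducible α A →
        (∀ j, HasExponents (A j) (lam j)) → HasExponents (∑ j, A j) phi →
        0 < N → (∀ j l, ∃ m : ℤ, (N : ℚ) * lam j l = m) → (∀ l, ∃ m : ℤ, (N : ℚ) * phi l = m) →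
        Rough B (allExp lam phi) →
        (LargeMult (allExp lam phi) ∨
          (IndexNonneg (allExp lam phi) ∧ ¬ ExcType (allExp lam phi))) →
          (∃ g : R, g ≠ 0 ∧ BadClasses α A N ε g) ∧ ¬ CondII α A := by
  obtain ⟨ε, 𝒟, hε, -, huni⟩ := uniform.{u} n r
  obtain ⟨B, hB⟩ := large_weights n r hr
  refine ⟨ε, B, hε, ?_⟩
  intro R _ _ _ _ α A lam phi N hα hirr hlam hphi hN hNlam hNphi hR hor
  have hF : ∑ j, ∑ l, lam j l = ∑ l, phi l + ((0 : ℤ) : ℚ) := by
    rw [sum_exponents hlam hphi]; simp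
  rcases (huni R α A lam phi N hα hlam hphi hN hNlam hNphi).2 hirr with h | h
  · obtain ⟨h1, h2⟩ := hB lam phi N 0 hN hF hR h
    rcases hor with h3 | ⟨h3, h4⟩
    · exact absurd h3 h1
    · exact absurd (h2 h3) h4
  · exact h

end Pool.Agent.N858.R3
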