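import Pool.Agent.N858.R3.NT
import Pool.Agent.N858.R3.AbsE

set_option autoImplicit false

/-!
Effective version: denominators without prime factors at most twice the rank.
-/

open Finset

namespace Pool.Agent.N858.R3

open Pool.Agent.N858.PC
open Pool.Agent.N858.R4

/-- An integer with a given residue which is prime to `N`. -/
lemma exists_lift {q N : ℕ} (hq : 0 < q) (hN : 0 < N) {u : ℤ} (hu : IsCoprime u (q : ℤ)) :
    ∃ a : ℤ, IsCoprime a (N : ℤ) ∧ (q : ℤ) ∣ a - u := by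
  have : NeZero (N * q) := ⟨(Nat.mul_pos hN hq).ne'⟩
  have hdvd : q ∣ N * q := Dvd.intro_left N rfl
  obtain ⟨v, hv⟩ := ZMod.unitsMap_surjective hdvd (ZMod.unitOfIsCoprime u hu)
  refine ⟨((v : ZMod (N * q)).val : ℤ), ?_, ?_⟩
  · have h1 : Nat.Coprime (v : ZMod (N * q)).val (N * q) := ZMod.val_coe_unit_coprime v
    exact Nat.isCoprime_iff_coprime.2 (Nat.Coprime.coprime_mul_right_right h1)
  · rw [← ZMod.intCast_zmod_eq_zero_iff_dvd]
    have h1 := congrArg (fun w : (ZMod q)ˣ => (w : ZMod q)) hv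
    simp only [ZMod.unitsMap_def, Units.coe_map, ZMod.coe_unitOfIsCoprime] at h1
    push_cast
    rw [sub_eq_zero, ← h1]
    exact (ZMod.natCast_val _)

lemma floor_pair (r : ℝ) : -1 ≤ ⌊r⌋ + ⌊-r⌋ := by
  have h7 : -⌊r⌋ - 1 ≤ ⌊-r⌋ := by
    rw [Int.le_floor]
    push_cast
    have := Int.lt_floor_add_one r
    linarith
  omega

lemma floor_pair_int {r : ℝ} (h : ∃ z : ℤ, r = z) : ⌊r⌋ + ⌊-r⌋ = 0 := by
  obtain ⟨z, rfl⟩ := h
  rw [Int.floor_intCast, ← Int.cast_neg, Int.floor_intCast]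
  ring

/-- The point with the short arc. -/
lemma eff_x {U δ γ : ℝ} {w : ℤ} (hδ : δ = γ + w) (h0 : 0 < γ) (h1 : γ < 1) :
    (w - 1 ≤ ⌊U⌋ + ⌊-U + δ⌋) ∧ ((∃ z : ℤ, U = z) → ⌊U⌋ + ⌊-U + δ⌋ = w) ∧
      ((∃ z : ℤ, -U + δ = z) → ⌊U⌋ + ⌊-U + δ⌋ = w) := by
  refine ⟨?_, ?_, ?_⟩
  · have h2 : w - ⌊U⌋ - 1 ≤ ⌊-U + δ⌋ := by
      rw [Int.le_floor, hδ]
      push_cast
      have := Int.lt_floor_add_one U
      linarith
    omega
  · rintro ⟨z, rfl⟩
    have : -(z : ℝ) + δ = γ + ((w - z : ℤ) : ℝ) := by rw [hδ]; push_cast; ring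
    rw [this, Int.floor_intCast, Int.floor_add_intCast, Int.floor_eq_zero_iff.2 ⟨h0.le, h1⟩]
    ring
  · rintro ⟨z, hz⟩
    have : U = γ + ((w - z : ℤ) : ℝ) := by
      push_cast
      linarith
    rw [hz, this, Int.floor_intCast, Int.floor_add_intCast, Int.floor_eq_zero_iff.2 ⟨h0.le, h1⟩]
    ring

/-- The point with the long arc. -/
lemma eff_z {W δ γ : ℝ} {w : ℤ} (hδ : δ = γ + w) (h : W + γ ≤ ⌊W⌋ + 1) :
    -w - 1 ≤ ⌊W⌋ + ⌊-W - δ⌋ := by
  have h2 : -w - ⌊W⌋ - 1 ≤ ⌊-W - δ⌋ := by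
    rw [Int.le_floor, hδ]
    push_cast
    linarith
  omega

lemma frac_le {m q g : ℤ} (hq : 0 < q) (h : m % q + g ≤ q) :
    (m : ℝ) / q + (g : ℝ) / q ≤ ⌊(m : ℝ) / q⌋ + 1 := by
  have hq' : (0 : ℝ) < q := by exact_mod_cast hq
  have h1 : m / q ≤ ⌊(m : ℝ) / q⌋ := by
    rw [Int.le_floor, le_div_iff₀ hq']
    have := Int.ediv_mul_le m hq.ne'
    exact_mod_cast this
  have h2 : m + g ≤ (m / q + 1) * q := by
    have := Int.emod_add_mul_ediv m q
    linarith
  have h3 : ((m : ℝ) + g) ≤ ((m / q : ℤ) + 1) * q := by exact_mod_cast h2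
  have h4 : ((m / q : ℤ) : ℝ) ≤ ⌊(m : ℝ) / q⌋ := by exact_mod_cast h1
  rw [← add_div, div_le_iff₀ hq']
  nlinarith

variable {X : Type*} [Fintype X] [DecidableEq X] {n : ℕ}

omit [DecidableEq X] in
/-- The number of points is at least two. -/
lemma eff_card {e : X → Fin n → ℚ} {N : ℕ} (hn : 0 < n)
    (hSt : ∀ a : ℤ, IsCoprime a (N : ℤ) → LineSt fun x l => (a : ℝ) * e x l) :
    2 ≤ Fintype.card X := by
  by_contra hlt
  push Not at hlt
  have h1 := hSt 1 isCoprime_one_left (fun _ => 0) (by simp)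
  have h2 := hSt (-1) (isCoprime_one_left.neg_left) (fun _ => 0) (by simp)
  simp only [Int.cast_one, one_mul, sub_zero, Int.cast_neg, neg_one_mul] at h1 h2
  have h3 : ((∑ x, ∑ l, (⌊(e x l : ℝ)⌋ + ⌊-(e x l : ℝ)⌋) : ℤ) : ℝ) + 2 * n ≤ 0 := by
    simp only [sum_add_distrib]
    push_cast at h1 h2 ⊢
    simp only [sum_neg_distrib] at h2
    linarith
  have h4 : ∑ x : X, ∑ l : Fin n, (⌊(e x l : ℝ)⌋ + ⌊-(e x l : ℝ)⌋) + 2 * (n : ℤ) ≤ 0 := by
    exact_mod_cast h3
  have h5 : ∑ _x : X, ∑ _l : Fin n, (-1 : ℤ) ≤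
      ∑ x : X, ∑ l : Fin n, (⌊(e x l : ℝ)⌋ + ⌊-(e x l : ℝ)⌋) :=
    sum_le_sum fun x _ => sum_le_sum fun l _ => floor_pair _
  simp only [sum_const, card_univ, Fintype.card_fin, nsmul_eq_mul, mul_neg, mul_one] at h5
  have h6 : (Fintype.card X : ℤ) * n ≤ 1 * n :=
    mul_le_mul_of_nonneg_right (by exact_mod_cast Nat.lt_succ_iff.1 hlt) (by positivity)
  have h7 : (0 : ℤ) < n := by exact_mod_cast hn
  linarith

/-- There are exponents which are not congruent. -/
lemma eff_ns {e : X → Fin n → ℚ} {N : ℕ} (hn : 0 < n) (hX : 0 < Fintype.card X)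
    (hR : RoughSums (2 * n) e) (ht : ∃ w : ℤ, ∑ x, ∑ l, e x l = w)
    (hSt : ∀ a : ℤ, IsCoprime a (N : ℤ) → LineSt fun x l => (a : ℝ) * e x l) :
    ∃ x k k', ¬ Cong (e x k) (e x k') := by
  by_contra hno
  push Not at hno
  obtain ⟨q, hq, hr, -, hs⟩ := hR
  obtain ⟨D, hD⟩ : ∃ D : ℚ, D = ∑ x, e x ⟨0, hn⟩ := ⟨_, rfl⟩
  obtain ⟨w1, hw1⟩ := hs fun _ => ⟨0, hn⟩
  rw [← hD] at hw1
  choose z hz using fun x l => hno x l ⟨0, hn⟩
  obtain ⟨T, hT⟩ := ht
  have h1 : (n : ℚ) * D = ((T - ∑ x, ∑ l, z x l : ℤ) : ℚ) := by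
    push_cast
    rw [← hT]
    simp only [← hz, sum_sub_distrib, sum_const, card_univ, Fintype.card_fin, nsmul_eq_mul,
      ← mul_sum, ← hD]
    ring
  have hco : IsCoprime (q : ℤ) (n : ℤ) := by
    rw [Nat.isCoprime_iff_coprime]
    by_contra hnc
    obtain ⟨p, hp, h2, h3⟩ := Nat.Prime.not_coprime_iff_dvd.1 hnc
    have h4 := hr p hp h2
    have h5 := Nat.le_of_dvd hn h3
    omega
  obtain ⟨a, b, hab⟩ := hco
  have h2 : D = ((a * w1 + b * (T - ∑ x, ∑ l, z x l) : ℤ) : ℚ) := by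
    have h3 : ((a : ℚ) * q + b * n) = 1 := by exact_mod_cast hab
    calc D = ((a : ℚ) * q + b * n) * D := by rw [h3, one_mul]
      _ = a * (q * D) + b * (n * D) := by ring
      _ = _ := by rw [hw1, h1]; push_cast; ring
  obtain ⟨d, hd⟩ : ∃ d : ℤ, D = d := ⟨_, h2⟩
  haveI : Nonempty X := Fintype.card_pos_iff.1 hX
  obtain ⟨x₀⟩ := ‹Nonempty X›
  have h3 := hSt 1 isCoprime_one_left
    (fun x => (e x ⟨0, hn⟩ : ℝ) - if x = x₀ then (d : ℝ) else 0) (by
      rw [sum_sub_distrib, sum_ite_eq' univ x₀, if_pos (mem_univ _)]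
      have : (∑ x, (e x ⟨0, hn⟩ : ℝ)) = ((D : ℚ) : ℝ) := by rw [hD]; push_cast; rfl
      rw [this, hd]
      simp)
  simp only [Int.cast_one, one_mul] at h3
  have h4 : ∀ x l, ⌊(e x l : ℝ) - ((e x ⟨0, hn⟩ : ℝ) - if x = x₀ then (d : ℝ) else 0)⌋ =
      z x l + if x = x₀ then d else 0 := by
    intro x l
    have h5 := congrArg (fun r : ℚ => (r : ℝ)) (hz x l)
    push_cast at h5
    have : (e x l : ℝ) - ((e x ⟨0, hn⟩ : ℝ) - if x = x₀ then (d : ℝ) else 0) =
        ((z x l + if x = x₀ then d else 0 : ℤ) : ℝ) := by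
      push_cast
      rw [← h5]
      ring
    rw [this, Int.floor_intCast]
  simp only [h4] at h3
  have h5 : ((∑ x, ∑ l : Fin n, (z x l + if x = x₀ then d else 0) : ℤ) : ℝ) =
      ∑ x, ∑ l, (e x l : ℝ) := by
    simp only [sum_add_distrib, sum_const, card_univ, Fintype.card_fin, nsmul_eq_mul]
    rw [← mul_sum, sum_ite_eq' univ x₀, if_pos (mem_univ _)]
    have h6 : (T : ℚ) = n * d + ∑ x, ∑ l, (z x l : ℚ) := by
      have := h1
      rw [hd] at this
      push_cast at this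
      linarith
    have h7 : ∑ x, ∑ l, (e x l : ℝ) = ((T : ℚ) : ℝ) := by rw [← hT]; push_cast; rfl
    rw [h7, h6]
    push_cast
    ring
  rw [h5] at h3
  have : (0 : ℝ) < n := by exact_mod_cast hn
  linarith

open Classical in
/-- **The effective bound.** -/
theorem eff_bound {e : X → Fin n → ℚ} {N : ℕ} (hn : 0 < n) (hN : 0 < N)
    (hR : RoughSums (2 * n) e)
    (hSt : ∀ a : ℤ, IsCoprime a (N : ℤ) → LineSt fun x l => (a : ℝ) * e x l) :
    ¬ LargeMult e := by
  rintro ⟨x, z, hxz, k, k', κ, hk, hlt⟩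
  obtain ⟨q, hq, hr, hd, hs⟩ := hR
  have hq' : (0 : ℝ) < q := by exact_mod_cast hq
  obtain ⟨T, hT⟩ : ∃ T : ℚ, T = ∑ y ∈ (univ.erase x).erase z, e y (κ y) := ⟨_, rfl⟩
  -- the difference and the sums
  obtain ⟨c0, hc0⟩ := hd x k' k
  have hc0' : ¬ (q : ℤ) ∣ c0 := by
    rintro ⟨w, hw⟩
    apply hk
    refine ⟨-w, ?_⟩
    have hq0 : (q : ℚ) ≠ 0 := by exact_mod_cast hq.ne'
    rw [hw] at hc0
    push_cast at hc0 ⊢
    have := mul_left_cancel₀ hq0 hc0
    linarith
  have hc : ∀ l, ∃ c : ℤ, (q : ℚ) * (e z l + e x k + T) = c := by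
    intro l
    obtain ⟨w, hw⟩ := hs fun y => if y = x then k else if y = z then l else κ y
    refine ⟨w, ?_⟩
    rw [← hw, sum_split2 hxz]
    simp only [if_true, hxz.symm, if_false]
    congr 1
    rw [hT, add_comm (e x k)]
    congr 1
    refine sum_congr (by ext y; simp only [mem_erase, mem_univ, and_true]) fun y hy => ?_
    simp only [mem_erase, mem_univ, and_true] at hy
    rw [if_neg hy.2, if_neg hy.1]
  choose c hc using hc
  obtain ⟨u, g, hu, hg0, hgq, -, hug, hgood⟩ := exists_unit hn hq hr hc0' c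
  obtain ⟨a, ha, hau⟩ := exists_lift hq hN hu
  have hq0 : (0 : ℤ) < q := by exact_mod_cast hq
  -- the residues
  obtain ⟨w, hw⟩ : (q : ℤ) ∣ a * c0 - g := by
    have : a * c0 - g = (a - u) * c0 + (u * c0 - g) := by ring
    rw [this]
    exact dvd_add (Dvd.dvd.mul_right hau _) hug
  have hgood' : ∀ l, (a * c l) % (q : ℤ) + g ≤ q := by
    intro l
    have h1 : (a * c l) % (q : ℤ) = (u * c l) % (q : ℤ) := by
      apply Int.ModEq.eq
      refine (Int.modEq_iff_dvd.2 ?_).symm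
      have : a * c l - u * c l = (a - u) * c l := by ring
      rw [this]
      exact Dvd.dvd.mul_right hau _
    rw [h1]
    exact hgood l
  set γ : ℝ := (g : ℝ) / q with hγ
  have hγ0 : 0 < γ := div_pos (by exact_mod_cast hg0) hq'
  have hγ1 : γ < 1 := by
    rw [hγ, div_lt_one hq']
    exact_mod_cast hgq
  have hδ : (a : ℝ) * ((e x k' : ℝ) - e x k) = γ + w := by
    have h1 := congrArg (fun r : ℚ => (r : ℝ)) hc0
    push_cast at h1
    have h2 : (a : ℝ) * c0 - g = q * w := by exact_mod_cast hw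
    rw [hγ]
    field_simp
    rw [← h1] at h2
    linarith
  have hW : ∀ l, (a : ℝ) * ((e z l : ℝ) + e x k + T) + γ ≤
      ⌊(a : ℝ) * ((e z l : ℝ) + e x k + T)⌋ + 1 := by
    intro l
    have h1 := congrArg (fun r : ℚ => (r : ℝ)) (hc l)
    push_cast at h1
    have h2 : (a : ℝ) * ((e z l : ℝ) + e x k + T) = ((a * c l : ℤ) : ℝ) / ((q : ℤ) : ℝ) := by
      push_cast
      rw [← h1]
      field_simp
    rw [h2]
    have h3 := frac_le hq0 (g := g) (hgood' l)
    push_cast at h3 ⊢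
    exact h3
  -- the two inequalities
  obtain ⟨β, hβ⟩ : ∃ β : X → ℝ, β = fun y => if y = x then (a : ℝ) * e x k else
    if y = z then -((a : ℝ) * e x k + a * T) else (a : ℝ) * e y (κ y) := ⟨_, rfl⟩
  obtain ⟨β', hβ'⟩ : ∃ β' : X → ℝ, β' = fun y => if y = x then -((a : ℝ) * e x k') else
    if y = z then (a : ℝ) * e x k' + a * T else -((a : ℝ) * e y (κ y)) := ⟨_, rfl⟩
  have bx : β x = (a : ℝ) * e x k := by rw [hβ]; exact if_pos rfl
  have bz : β z = -((a : ℝ) * e x k + a * T) := by rw [hβ]; simp [hxz.symm]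
  have by' : ∀ y ∈ (univ.erase x).erase z, β y = (a : ℝ) * e y (κ y) := by
    intro y hy
    simp only [mem_erase, mem_univ, and_true] at hy
    rw [hβ]
    simp only
    rw [if_neg hy.2, if_neg hy.1]
  have bx' : β' x = -((a : ℝ) * e x k') := by rw [hβ']; exact if_pos rfl
  have bz' : β' z = (a : ℝ) * e x k' + a * T := by rw [hβ']; simp [hxz.symm]
  have by'' : ∀ y ∈ (univ.erase x).erase z, β' y = -((a : ℝ) * e y (κ y)) := by
    intro y hy
    simp only [mem_erase, mem_univ, and_true] at hy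
    rw [hβ']
    simp only
    rw [if_neg hy.2, if_neg hy.1]
  have hTr : ((T : ℚ) : ℝ) = ∑ y ∈ (univ.erase x).erase z, (e y (κ y) : ℝ) := by
    rw [hT]; push_cast; rfl
  have b0 : 0 ≤ ∑ y, β y := by
    rw [sum_split2 hxz, bx, bz, sum_congr rfl by', ← mul_sum]
    have : ∑ y ∈ (univ.erase x).erase z, (e y (κ y) : ℝ) = T := by
      rw [hTr]
    rw [this]
    linarith
  have b0' : 0 ≤ ∑ y, β' y := by
    rw [sum_split2 hxz, bx', bz', sum_congr rfl by'', sum_neg_distrib, ← mul_sum]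
    have : ∑ y ∈ (univ.erase x).erase z, (e y (κ y) : ℝ) = T := by
      rw [hTr]
    rw [this]
    linarith
  have k1 := hSt a ha β b0
  have k2 := hSt (-a) ha.neg_left β' b0'
  set H : X → ℤ := fun y => ∑ l, (⌊(a : ℝ) * e y l - β y⌋ + ⌊((-a : ℤ) : ℝ) * e y l - β' y⌋) with hH
  have k3 : ∑ y, H y + 2 * (n : ℤ) ≤ 0 := by
    have h1 : ((∑ y, H y : ℤ) : ℝ) + 2 * n ≤ 0 := by
      simp only [hH, sum_add_distrib]
      push_cast at k1 k2 ⊢
      simp only [neg_mul, sum_neg_distrib] at k2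
      have e1 : ∀ y l, ⌊-((a : ℝ) * e y l) - β' y⌋ = ⌊-(a : ℝ) * e y l - β' y⌋ := by
        intro y l
        rw [neg_mul]
      simp only [e1] at k2
      linarith
    exact_mod_cast h1
  have hx : (mult e x k : ℤ) + mult e x k' - n + n * w ≤ H x := by
    have e1 : (mult e x k : ℤ) + mult e x k' - n + n * w =
        ∑ l, ((if Cong (e x k) (e x l) then (1 : ℤ) else 0) +
          (if Cong (e x k') (e x l) then 1 else 0) - 1 + w) := by
      simp only [sum_add_distrib, sum_sub_distrib]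
      unfold mult
      rw [card_filter, card_filter]
      simp
    rw [e1]
    refine sum_le_sum fun l _ => ?_
    obtain ⟨g1, g2, g3⟩ := eff_x (U := (a : ℝ) * e x l - β x) hδ hγ0 hγ1
    have e2 : ((-a : ℤ) : ℝ) * e x l - β' x =
        -((a : ℝ) * e x l - β x) + (a : ℝ) * ((e x k' : ℝ) - e x k) := by
      rw [bx, bx']
      push_cast
      ring
    rw [e2]
    by_cases h1 : Cong (e x k) (e x l)
    · have h2 : ¬ Cong (e x k') (e x l) := fun h => hk ((cong_equiv e x).trans h1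
        ((cong_equiv e x).symm h))
      rw [if_pos h1, if_neg h2, g2]
      · omega
      · obtain ⟨v, hv⟩ := h1
        refine ⟨-(a * v), ?_⟩
        have := congrArg (fun r : ℚ => (r : ℝ)) hv
        push_cast at this ⊢
        rw [bx, ← this]
        ring
    · rw [if_neg h1]
      by_cases h2 : Cong (e x k') (e x l)
      · rw [if_pos h2, g3]
        · omega
        · obtain ⟨v, hv⟩ := h2
          refine ⟨a * v, ?_⟩
          have := congrArg (fun r : ℚ => (r : ℝ)) hv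
          push_cast at this ⊢
          rw [bx, ← this]
          ring
      · rw [if_neg h2]
        omega
  have hz : -(n : ℤ) - n * w ≤ H z := by
    have e1 : -(n : ℤ) - n * w = ∑ _l : Fin n, (-w - 1) := by simp; ring
    rw [e1]
    refine sum_le_sum fun l _ => ?_
    have h1 := eff_z (W := (a : ℝ) * ((e z l : ℝ) + e x k + T)) hδ (hW l)
    have e2 : (a : ℝ) * e z l - β z = (a : ℝ) * ((e z l : ℝ) + e x k + T) := by
      rw [bz]
      ring
    have e3 : ((-a : ℤ) : ℝ) * e z l - β' z = -((a : ℝ) * ((e z l : ℝ) + e x k + T)) -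
        (a : ℝ) * ((e x k' : ℝ) - e x k) := by
      rw [bz']
      push_cast
      ring
    rw [e2, e3]
    exact h1
  have hy : ∀ y ∈ (univ.erase x).erase z, (mult e y (κ y) : ℤ) - n ≤ H y := by
    intro y hy
    have e1 : (mult e y (κ y) : ℤ) - n =
        ∑ l, ((if Cong (e y (κ y)) (e y l) then (1 : ℤ) else 0) - 1) := by
      simp only [sum_sub_distrib]
      unfold mult
      rw [card_filter]
      simp
    rw [e1]
    refine sum_le_sum fun l _ => ?_
    have e2 : ((-a : ℤ) : ℝ) * e y l - β' y = -((a : ℝ) * e y l - β y) := by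
      rw [by'' y hy, by' y hy]
      push_cast
      ring
    rw [e2]
    split_ifs with h1
    · rw [floor_pair_int]
      · omega
      · obtain ⟨v, hv⟩ := h1
        refine ⟨-(a * v), ?_⟩
        have := congrArg (fun r : ℚ => (r : ℝ)) hv
        push_cast at this ⊢
        rw [by' y hy, ← this]
        ring
    · have := floor_pair ((a : ℝ) * e y l - β y)
      omega
  rw [sum_split2 hxz] at k3
  have k4 := sum_le_sum hy
  rw [sum_sub_distrib, sum_const, nsmul_eq_mul] at k4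
  have hcard : ((((univ : Finset X).erase x).erase z).card : ℤ) = Fintype.card X - 2 := by
    have h1 : (((univ : Finset X).erase x).erase z).card + 2 = Fintype.card X := by
      have e1 := card_erase_add_one (s := (univ : Finset X).erase x) (a := z)
        (mem_erase.2 ⟨hxz.symm, mem_univ z⟩)
      have e2 := card_erase_add_one (s := (univ : Finset X)) (a := x) (mem_univ x)
      rw [card_univ] at e2
      omega
    omega
  rw [hcard] at k4
  have h2 : (Fintype.card X : ℤ) * n < mult e x k + mult e x k' +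
      ∑ y ∈ (univ.erase x).erase z, (mult e y (κ y) : ℤ) + 2 * n := by
    zify at hlt
    convert hlt using 4
    ext y
    simp only [mem_erase, mem_univ, and_true]
  linarith

end Pool.Agent.N858.R3
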