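import Pool.Agent.N858.R3.NT2
import Pool.Agent.N858.R3.Eff

set_option autoImplicit false

/-!
Effective version: mild conditions on the denominators.
-/

open Finset

namespace Pool.Agent.N858.R3

open Pool.Agent.N858.PC
open Pool.Agent.N858.R4

lemma den_div {D : ℕ} (hD : 0 < D) (z : ℤ) : ((z : ℚ) / (D : ℕ)).den = D / Int.gcd z D := by
  have h1 : ((z : ℚ) / (D : ℚ)) = Rat.divInt z (D : ℤ) := by
    rw [Rat.divInt_eq_div]; push_cast; rfl
  rw [h1, Rat.den_divInt, if_neg (by exact_mod_cast hD.ne')]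
  simp [Int.gcd, Nat.gcd_comm]

lemma gcd_unit {q g : ℕ} [NeZero q] {c0 : ℤ} {u : (ZMod q)ˣ} (hc : (c0 : ZMod q) = u * g)
    (hg : g ∣ q) : Int.gcd c0 q = g := by
  obtain ⟨d, hd⟩ := hg
  have h1 : (q : ℤ) ∣ c0 - ((u : ZMod q).val * g : ℕ) := by
    rw [← ZMod.intCast_zmod_eq_zero_iff_dvd]
    push_cast
    rw [ZMod.natCast_zmod_val, hc, sub_self]
  obtain ⟨t, ht⟩ := h1
  have h2 : c0 = ((u : ZMod q).val * g : ℕ) + q * t := by linarith
  have h3 : Int.gcd c0 q = Nat.gcd ((u : ZMod q).val * g) q := by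
    rw [h2]
    have : Int.gcd ((((u : ZMod q).val * g : ℕ) : ℤ) + q * t) q =
        Int.gcd (((u : ZMod q).val * g : ℕ) : ℤ) q := by
      rw [← Int.gcd_emod, Int.add_mul_emod_self_left, Int.gcd_emod]
    rw [this]
    exact Int.gcd_natCast_natCast _ _
  have hco : Nat.Coprime (u : ZMod q).val q := ZMod.val_coe_unit_coprime u
  have h4 : Nat.Coprime (u : ZMod q).val d := Nat.Coprime.coprime_dvd_right ⟨g, by rw [hd]; ring⟩ hco
  obtain ⟨V, hV⟩ : ∃ V, V = (u : ZMod q).val := ⟨_, rfl⟩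
  rw [← hV] at h3 h4
  rw [h3, hd, mul_comm, Nat.gcd_mul_left, h4, mul_one]

lemma gcd_val {q g : ℕ} [NeZero q] {c : ℤ} (hg : g ∣ q) :
    Int.gcd c g = Nat.gcd g ((c : ZMod q)).val := by
  have h1 : (((c : ZMod q)).val : ℤ) = c % q := ZMod.val_intCast c
  have h2 : Int.gcd c g = Int.gcd (c % q) g := by
    rw [← Int.gcd_emod, ← Int.gcd_emod (c % q), Int.emod_emod_of_dvd c (by exact_mod_cast hg)]
  rw [h2, ← h1, Int.gcd_natCast_natCast, Nat.gcd_comm]

variable {X : Type*} [Fintype X] [DecidableEq X] {n : ℕ}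

omit [DecidableEq X] in
/-- There are exponents which are not congruent. -/
lemma eff_ns2 {e : X → Fin n → ℚ} {N : ℕ} (hn : 0 < n) (hX : 0 < Fintype.card X)
    (hSt : ∀ a : ℤ, IsCoprime a (N : ℤ) → LineSt fun x l => (a : ℝ) * e x l) :
    ∃ x k k', ¬ Cong (e x k) (e x k') := by
  classical
  by_contra hno
  push Not at hno
  obtain ⟨D, hD⟩ : ∃ D : ℚ, D = ∑ x, e x ⟨0, hn⟩ := ⟨_, rfl⟩
  choose z hz using fun x l => hno x l ⟨0, hn⟩
  have : Nonempty X := Fintype.card_pos_iff.1 hX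
  obtain ⟨x₀⟩ := this
  have h3 := hSt 1 isCoprime_one_left
    (fun x => (e x ⟨0, hn⟩ : ℝ) - if x = x₀ then (D : ℝ) else 0) (by
      rw [sum_sub_distrib, sum_ite_eq' univ x₀, if_pos (mem_univ _)]
      have : (∑ x, (e x ⟨0, hn⟩ : ℝ)) = ((D : ℚ) : ℝ) := by rw [hD]; push_cast; rfl
      rw [this]
      simp)
  simp only [Int.cast_one, one_mul] at h3
  have h4 : ∀ x l, ⌊(e x l : ℝ) - ((e x ⟨0, hn⟩ : ℝ) - if x = x₀ then (D : ℝ) else 0)⌋ =
      z x l + if x = x₀ then ⌊(D : ℝ)⌋ else 0 := by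
    intro x l
    have h5 := congrArg (fun r : ℚ => (r : ℝ)) (hz x l)
    push_cast at h5
    have : (e x l : ℝ) - ((e x ⟨0, hn⟩ : ℝ) - if x = x₀ then (D : ℝ) else 0) =
        (if x = x₀ then (D : ℝ) else 0) + ((z x l : ℤ) : ℝ) := by
      rw [← h5]
      ring
    rw [this, Int.floor_add_intCast]
    split_ifs
    · ring
    · simp
  simp only [h4] at h3
  have h5 : ((∑ x, ∑ l : Fin n, (z x l + if x = x₀ then ⌊(D : ℝ)⌋ else 0) : ℤ) : ℝ) =
      ∑ x, ∑ l, (e x l : ℝ) - n * D + n * ⌊(D : ℝ)⌋ := by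
    simp only [sum_add_distrib, sum_const, card_univ, Fintype.card_fin, nsmul_eq_mul]
    rw [← mul_sum, sum_ite_eq' univ x₀, if_pos (mem_univ _)]
    have h6 : ∑ x, ∑ l, (e x l : ℚ) = n * D + ∑ x, ∑ l, (z x l : ℚ) := by
      simp only [← hz, sum_sub_distrib, sum_const, card_univ, Fintype.card_fin, nsmul_eq_mul,
        ← mul_sum, ← hD]
      ring
    have h7 := congrArg (fun r : ℚ => (r : ℝ)) h6
    push_cast at h7 ⊢
    rw [h7]
    ring
  rw [h5] at h3
  have h6 : (0 : ℝ) < n := by exact_mod_cast hn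
  have h7 := Int.lt_floor_add_one (D : ℝ)
  nlinarith

omit [DecidableEq X] in
/-- Rough denominators are mild. -/
lemma mild_of_rough (hn : 0 < n) {e : X → Fin n → ℚ} (hR : RoughSums (2 * n) e) : MildDen e := by
  obtain ⟨q, hq, hr, hd, hs⟩ := hR
  intro x k' κ hk
  obtain ⟨d, hdd⟩ : ∃ d, d = (e x k' - e x (κ x)).den := ⟨_, rfl⟩
  rw [← hdd]
  obtain ⟨h, hh⟩ : ∃ h, h = ((d : ℚ) * ∑ y, e y (κ y)).den := ⟨_, rfl⟩
  rw [← hh]
  have hdvd : ∀ (r : ℚ) (w : ℤ), (q : ℚ) * r = w → r.den ∣ q := by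
    intro r w hw
    have hqQ : (q : ℚ) ≠ 0 := by exact_mod_cast hq.ne'
    have e1 : r = (w : ℚ) / (q : ℕ) := by
      rw [eq_div_iff hqQ, ← hw]
      ring
    rw [e1, den_div hq]
    exact Nat.div_dvd_of_dvd (by exact_mod_cast Int.gcd_dvd_right w q)
  have hdq : d ∣ q := by
    obtain ⟨w, hw⟩ := hd x k' (κ x)
    rw [hdd]
    exact hdvd _ w hw
  have hhq : h ∣ q := by
    obtain ⟨w, hw⟩ := hs κ
    rw [hh]
    exact hdvd _ (d * w) (by push_cast; rw [← hw]; ring)
  have hd1 : d ≠ 1 := by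
    intro h1
    apply hk
    rw [hdd] at h1
    obtain ⟨w, hw⟩ : ∃ w : ℤ, e x k' - e x (κ x) = w := ⟨_, ((Rat.den_eq_one_iff _).1 h1).symm⟩
    exact ⟨-w, by push_cast; rw [← hw]; ring⟩
  have hd2 : 2 * n < d := by
    obtain ⟨r, hr1, hr2⟩ := Nat.exists_prime_and_dvd hd1
    exact (hr r hr1 (hr2.trans hdq)).trans_le (Nat.le_of_dvd (Nat.pos_of_dvd_of_pos hdq hq) hr2)
  by_cases h1 : h = 1
  · exact Or.inl h1
  · right
    obtain ⟨p, hp, hph⟩ := Nat.exists_prime_and_dvd h1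
    refine ⟨p, 1, hp, one_pos, by rwa [pow_one], ?_⟩
    have := fin_ineq hn (hr p hp (hph.trans hhq)) hd2
    simpa using this

omit [DecidableEq X] in
/-- A common denominator which is a prime number is mild. -/
lemma mild_of_prime {e : X → Fin n → ℚ} {q : ℕ} (hq : q.Prime)
    (hd : ∀ x l l', ∃ w : ℤ, (q : ℚ) * (e x l - e x l') = w)
    (hs : ∀ κ : X → Fin n, ∃ w : ℤ, (q : ℚ) * ∑ x, e x (κ x) = w) : MildDen e := by
  intro x k' κ hk
  obtain ⟨d, hdd⟩ : ∃ d, d = (e x k' - e x (κ x)).den := ⟨_, rfl⟩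
  rw [← hdd]
  have hdq : d ∣ q := by
    obtain ⟨w, hw⟩ := hd x k' (κ x)
    have hqQ : (q : ℚ) ≠ 0 := by exact_mod_cast hq.ne_zero
    have e1 : e x k' - e x (κ x) = (w : ℚ) / (q : ℕ) := by
      rw [eq_div_iff hqQ, ← hw]
      ring
    rw [hdd, e1, den_div hq.pos]
    exact Nat.div_dvd_of_dvd (by exact_mod_cast Int.gcd_dvd_right w q)
  have hd1 : d ≠ 1 := by
    intro h1
    apply hk
    rw [hdd] at h1
    obtain ⟨w, hw⟩ : ∃ w : ℤ, e x k' - e x (κ x) = w := ⟨_, ((Rat.den_eq_one_iff _).1 h1).symm⟩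
    exact ⟨-w, by push_cast; rw [← hw]; ring⟩
  have hdq' : d = q := (hq.eq_one_or_self_of_dvd d hdq).resolve_left hd1
  obtain ⟨w, hw⟩ := hs κ
  left
  rw [hdq', hw]
  exact Rat.den_intCast w

open Classical in
/-- **The effective bound.** -/
theorem eff_bound2 {e : X → Fin n → ℚ} {q : ℕ} (hn : 0 < n) (hq : 0 < q)
    (hqe : ∀ x l, ∃ w : ℤ, (q : ℚ) * e x l = w) (hM : MildDen e)
    (hSt : ∀ a : ℤ, IsCoprime a (q : ℤ) → LineSt fun x l => (a : ℝ) * e x l) :
    ¬ LargeMult e := by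
  rintro ⟨x, z, hxz, k, k', κ, hk, hlt⟩
  choose W hW0 using hqe
  have hd : ∀ x l l', ∃ w : ℤ, (q : ℚ) * (e x l - e x l') = w := fun x l l' =>
    ⟨W x l - W x l', by push_cast; rw [← hW0, ← hW0]; ring⟩
  have hs : ∀ κ : X → Fin n, ∃ w : ℤ, (q : ℚ) * ∑ x, e x (κ x) = w := fun κ =>
    ⟨∑ x, W x (κ x), by push_cast; rw [mul_sum]; exact sum_congr rfl fun x _ => hW0 x _⟩
  have hq' : (0 : ℝ) < q := by exact_mod_cast hq
  obtain ⟨T, hT⟩ : ∃ T : ℚ, T = ∑ y ∈ (univ.erase x).erase z, e y (κ y) := ⟨_, rfl⟩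
  -- the difference and the sums
  obtain ⟨c0, hc0⟩ := hd x k' k
  have hc0' : ¬ (q : ℤ) ∣ c0 := by
    rintro ⟨w, hw⟩
    apply hk
    refine ⟨-w, ?_⟩
    have hq0 : (q : ℚ) ≠ 0 := by exact_mod_cast hq.ne'
    rw [hw] at hc0
    push_cast at hc0 ⊢
    have := mul_left_cancel₀ hq0 hc0
    linarith
  have hsum : ∀ l, ∑ y, e y ((fun y => if y = x then k else if y = z then l else κ y : X → Fin n) y) =
      e z l + e x k + T := by
    intro l
    rw [sum_split2 hxz]
    simp only [if_true, hxz.symm, if_false]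
    rw [hT, add_comm (e x k)]
    congr 1
    refine sum_congr (by ext y; simp only [mem_erase, mem_univ, and_true]) fun y hy => ?_
    simp only [mem_erase, mem_univ, and_true] at hy
    rw [if_neg hy.2, if_neg hy.1]
  have hc : ∀ l, ∃ c : ℤ, (q : ℚ) * (e z l + e x k + T) = c := by
    intro l
    obtain ⟨w, hw⟩ := hs fun y => if y = x then k else if y = z then l else κ y
    exact ⟨w, by rw [← hw, ← hsum l]⟩
  choose c hc using hc
  have hqQ : (q : ℚ) ≠ 0 := by exact_mod_cast hq.ne'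
  have : NeZero q := ⟨hq.ne'⟩
  have hmild : ∀ (g : ℕ) (u : (ZMod q)ˣ), g ∣ q → (c0 : ZMod q) = u * g →
      ∀ l, Mild n (q / g) (g / Nat.gcd g ((c l : ℤ) : ZMod q).val) := by
    intro g u hg hcg l
    have hg0 : 0 < g := Nat.pos_of_dvd_of_pos hg hq
    have h1 := hM x k' (fun y => if y = x then k else if y = z then l else κ y) (by
      rw [if_pos rfl]; exact hk)
    rw [hsum l] at h1
    simp only [if_true] at h1
    have e1 : e x k' - e x k = (c0 : ℚ) / (q : ℕ) := by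
      rw [eq_div_iff hqQ, ← hc0]
      ring
    have e2 : (e x k' - e x k).den = q / g := by
      rw [e1, den_div hq, gcd_unit hcg hg]
    rw [e2] at h1
    have e3 : ((q / g : ℕ) : ℚ) * (e z l + e x k + T) = (c l : ℚ) / (g : ℕ) := by
      have hgQ : (g : ℚ) ≠ 0 := by exact_mod_cast hg0.ne'
      rw [Nat.cast_div hg hgQ, ← hc l]
      field_simp
    rw [e3, den_div hg0, gcd_val hg] at h1
    exact h1
  obtain ⟨a, g, ha, hg0, hgq, -, hug, hgood⟩ := exists_unit2 hn hq hc0' c hmild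
  have hq0 : (0 : ℤ) < q := by exact_mod_cast hq
  -- the residues
  obtain ⟨w, hw⟩ : (q : ℤ) ∣ a * c0 - g := hug
  have hgood' : ∀ l, (a * c l) % (q : ℤ) + g ≤ q := hgood
  set γ : ℝ := (g : ℝ) / q with hγ
  have hγ0 : 0 < γ := div_pos (by exact_mod_cast hg0) hq'
  have hγ1 : γ < 1 := by
    rw [hγ, div_lt_one hq']
    exact_mod_cast hgq
  have hδ : (a : ℝ) * ((e x k' : ℝ) - e x k) = γ + w := by
    have h1 := congrArg (fun r : ℚ => (r : ℝ)) hc0
    push_cast at h1
    have h2 : (a : ℝ) * c0 - g = q * w := by exact_mod_cast hw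
    rw [hγ]
    field_simp
    rw [← h1] at h2
    linarith
  have hW : ∀ l, (a : ℝ) * ((e z l : ℝ) + e x k + T) + γ ≤
      ⌊(a : ℝ) * ((e z l : ℝ) + e x k + T)⌋ + 1 := by
    intro l
    have h1 := congrArg (fun r : ℚ => (r : ℝ)) (hc l)
    push_cast at h1
    have h2 : (a : ℝ) * ((e z l : ℝ) + e x k + T) = ((a * c l : ℤ) : ℝ) / ((q : ℤ) : ℝ) := by
      push_cast
      rw [← h1]
      field_simp
    rw [h2]
    have h3 := frac_le hq0 (g := g) (hgood' l)
    push_cast at h3 ⊢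
    exact h3
  -- the two inequalities
  obtain ⟨β, hβ⟩ : ∃ β : X → ℝ, β = fun y => if y = x then (a : ℝ) * e x k else
    if y = z then -((a : ℝ) * e x k + a * T) else (a : ℝ) * e y (κ y) := ⟨_, rfl⟩
  obtain ⟨β', hβ'⟩ : ∃ β' : X → ℝ, β' = fun y => if y = x then -((a : ℝ) * e x k') else
    if y = z then (a : ℝ) * e x k' + a * T else -((a : ℝ) * e y (κ y)) := ⟨_, rfl⟩
  have bx : β x = (a : ℝ) * e x k := by rw [hβ]; exact if_pos rfl
  have bz : β z = -((a : ℝ) * e x k + a * T) := by rw [hβ]; simp [hxz.symm]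
  have by' : ∀ y ∈ (univ.erase x).erase z, β y = (a : ℝ) * e y (κ y) := by
    intro y hy
    simp only [mem_erase, mem_univ, and_true] at hy
    rw [hβ]
    simp only
    rw [if_neg hy.2, if_neg hy.1]
  have bx' : β' x = -((a : ℝ) * e x k') := by rw [hβ']; exact if_pos rfl
  have bz' : β' z = (a : ℝ) * e x k' + a * T := by rw [hβ']; simp [hxz.symm]
  have by'' : ∀ y ∈ (univ.erase x).erase z, β' y = -((a : ℝ) * e y (κ y)) := by
    intro y hy
    simp only [mem_erase, mem_univ, and_true] at hy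
    rw [hβ']
    simp only
    rw [if_neg hy.2, if_neg hy.1]
  have hTr : ((T : ℚ) : ℝ) = ∑ y ∈ (univ.erase x).erase z, (e y (κ y) : ℝ) := by
    rw [hT]; push_cast; rfl
  have b0 : 0 ≤ ∑ y, β y := by
    rw [sum_split2 hxz, bx, bz, sum_congr rfl by', ← mul_sum]
    have : ∑ y ∈ (univ.erase x).erase z, (e y (κ y) : ℝ) = T := by
      rw [hTr]
    rw [this]
    linarith
  have b0' : 0 ≤ ∑ y, β' y := by
    rw [sum_split2 hxz, bx', bz', sum_congr rfl by'', sum_neg_distrib, ← mul_sum]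
    have : ∑ y ∈ (univ.erase x).erase z, (e y (κ y) : ℝ) = T := by
      rw [hTr]
    rw [this]
    linarith
  have k1 := hSt a ha β b0
  have k2 := hSt (-a) ha.neg_left β' b0'
  set H : X → ℤ := fun y => ∑ l, (⌊(a : ℝ) * e y l - β y⌋ + ⌊((-a : ℤ) : ℝ) * e y l - β' y⌋) with hH
  have k3 : ∑ y, H y + 2 * (n : ℤ) ≤ 0 := by
    have h1 : ((∑ y, H y : ℤ) : ℝ) + 2 * n ≤ 0 := by
      simp only [hH, sum_add_distrib]
      push_cast at k1 k2 ⊢
      simp only [neg_mul, sum_neg_distrib] at k2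
      have e1 : ∀ y l, ⌊-((a : ℝ) * e y l) - β' y⌋ = ⌊-(a : ℝ) * e y l - β' y⌋ := by
        intro y l
        rw [neg_mul]
      simp only [e1] at k2
      linarith
    exact_mod_cast h1
  have hx : (mult e x k : ℤ) + mult e x k' - n + n * w ≤ H x := by
    have e1 : (mult e x k : ℤ) + mult e x k' - n + n * w =
        ∑ l, ((if Cong (e x k) (e x l) then (1 : ℤ) else 0) +
          (if Cong (e x k') (e x l) then 1 else 0) - 1 + w) := by
      simp only [sum_add_distrib, sum_sub_distrib]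
      unfold mult
      rw [card_filter, card_filter]
      simp
    rw [e1]
    refine sum_le_sum fun l _ => ?_
    obtain ⟨g1, g2, g3⟩ := eff_x (U := (a : ℝ) * e x l - β x) hδ hγ0 hγ1
    have e2 : ((-a : ℤ) : ℝ) * e x l - β' x =
        -((a : ℝ) * e x l - β x) + (a : ℝ) * ((e x k' : ℝ) - e x k) := by
      rw [bx, bx']
      push_cast
      ring
    rw [e2]
    by_cases h1 : Cong (e x k) (e x l)
    · have h2 : ¬ Cong (e x k') (e x l) := fun h => hk ((cong_equiv e x).trans h1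
        ((cong_equiv e x).symm h))
      rw [if_pos h1, if_neg h2, g2]
      · omega
      · obtain ⟨v, hv⟩ := h1
        refine ⟨-(a * v), ?_⟩
        have := congrArg (fun r : ℚ => (r : ℝ)) hv
        push_cast at this ⊢
        rw [bx, ← this]
        ring
    · rw [if_neg h1]
      by_cases h2 : Cong (e x k') (e x l)
      · rw [if_pos h2, g3]
        · omega
        · obtain ⟨v, hv⟩ := h2
          refine ⟨a * v, ?_⟩
          have := congrArg (fun r : ℚ => (r : ℝ)) hv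
          push_cast at this ⊢
          rw [bx, ← this]
          ring
      · rw [if_neg h2]
        omega
  have hz : -(n : ℤ) - n * w ≤ H z := by
    have e1 : -(n : ℤ) - n * w = ∑ _l : Fin n, (-w - 1) := by simp; ring
    rw [e1]
    refine sum_le_sum fun l _ => ?_
    have h1 := eff_z (W := (a : ℝ) * ((e z l : ℝ) + e x k + T)) hδ (hW l)
    have e2 : (a : ℝ) * e z l - β z = (a : ℝ) * ((e z l : ℝ) + e x k + T) := by
      rw [bz]
      ring
    have e3 : ((-a : ℤ) : ℝ) * e z l - β' z = -((a : ℝ) * ((e z l : ℝ) + e x k + T)) -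
        (a : ℝ) * ((e x k' : ℝ) - e x k) := by
      rw [bz']
      push_cast
      ring
    rw [e2, e3]
    exact h1
  have hy : ∀ y ∈ (univ.erase x).erase z, (mult e y (κ y) : ℤ) - n ≤ H y := by
    intro y hy
    have e1 : (mult e y (κ y) : ℤ) - n =
        ∑ l, ((if Cong (e y (κ y)) (e y l) then (1 : ℤ) else 0) - 1) := by
      simp only [sum_sub_distrib]
      unfold mult
      rw [card_filter]
      simp
    rw [e1]
    refine sum_le_sum fun l _ => ?_
    have e2 : ((-a : ℤ) : ℝ) * e y l - β' y = -((a : ℝ) * e y l - β y) := by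
      rw [by'' y hy, by' y hy]
      push_cast
      ring
    rw [e2]
    split_ifs with h1
    · rw [floor_pair_int]
      · omega
      · obtain ⟨v, hv⟩ := h1
        refine ⟨-(a * v), ?_⟩
        have := congrArg (fun r : ℚ => (r : ℝ)) hv
        push_cast at this ⊢
        rw [by' y hy, ← this]
        ring
    · have := floor_pair ((a : ℝ) * e y l - β y)
      omega
  rw [sum_split2 hxz] at k3
  have k4 := sum_le_sum hy
  rw [sum_sub_distrib, sum_const, nsmul_eq_mul] at k4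
  have hcard : ((((univ : Finset X).erase x).erase z).card : ℤ) = Fintype.card X - 2 := by
    have h1 : (((univ : Finset X).erase x).erase z).card + 2 = Fintype.card X := by
      have e1 := card_erase_add_one (s := (univ : Finset X).erase x) (a := z)
        (mem_erase.2 ⟨hxz.symm, mem_univ z⟩)
      have e2 := card_erase_add_one (s := (univ : Finset X)) (a := x) (mem_univ x)
      rw [card_univ] at e2
      omega
    omega
  rw [hcard] at k4
  have h2 : (Fintype.card X : ℤ) * n < mult e x k + mult e x k' +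
      ∑ y ∈ (univ.erase x).erase z, (mult e y (κ y) : ℤ) + 2 * n := by
    zify at hlt
    convert hlt using 4
    ext y
    simp only [mem_erase, mem_univ, and_true]
  linarith

end Pool.Agent.N858.R3
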