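import Pool.Agent.N858.R3.Irr3

set_option autoImplicit false

/-!
Irreducible systems of rank three with rough denominators and at most three non-scalar points.
-/

open Finset

namespace Pool.Agent.N858.R3

open Pool.Agent.N858.PC
open Pool.Agent.N858.R4
open Pool.Agent.W432.PC Pool.Agent.W432.TC Pool.Agent.Y227.SS

theorem same_weights (m : ℕ) :
    ∃ B : ℕ, ∀ (lam : Fin m → Fin 3 → ℚ)
    (phi : Fin 3 → ℚ) (N : ℕ) (F : ℤ) (p : Fin 3 → Option (Fin m)), 0 < N →
    ∑ j, ∑ l, lam j l = ∑ l, phi l + F →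
    Rough B (allExp lam phi) → Function.Injective p → ScalarOutside (allExp lam phi) p →
    (∀ a : ℤ, IsCoprime a (N : ℤ) → StableWeights ℂ
      (fun j l => (a : ℝ) * lam j l) (fun l => (a : ℝ) * phi l)) →
    SameTriples (allExp lam phi) p := by
  classical
  obtain ⟨B, hB⟩ := abs_same (Option (Fin m))
  refine ⟨B, fun lam phi N F p hN hF hR hp hsc hSt => ?_⟩
  obtain ⟨q, hq, hrough, hd⟩ := hR
  have htr : ∃ w : ℤ, ∑ x, ∑ l, allExp lam phi x l = w := by
    refine ⟨F, ?_⟩
    rw [Fintype.sum_option]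
    simp only [allExp, sum_neg_distrib, hF]
    ring
  have hSS := fun a ha => semistable_of_stable (hSt a ha)
  have hFa : ∀ a : ℤ, ∑ j, ∑ l, (a : ℝ) * lam j l = ∑ l, (a : ℝ) * phi l + ((a * F : ℤ) : ℝ) := by
    intro a
    have h1 := congrArg (fun r : ℚ => (a : ℝ) * (r : ℝ)) hF
    push_cast at h1 ⊢
    simp only [← mul_sum]
    linarith
  exact hB (allExp lam phi) q N p hp hq hN hrough hd htr
    (fun a ha => (conj_ineq (by norm_num) hF hp hsc hSS a ha).1)
    (fun a ha => by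
      rw [allExp_mul]
      exact lineSt_of (by norm_num) (hSt a ha) _ (hFa a))
    (fun a ha => (conj_ineq (by norm_num) hF hp hsc hSS a ha).2)
    (fun x hx l l' => hsc x hx l l')

universe u

theorem same_sys (n : ℕ) :
    ∃ (ε : ℝ) (B : ℕ), 0 < ε ∧
      ∀ (R : Type u) [CommRing R] [IsDomain R] [CharZero R] [Algebra.FiniteType ℤ R]
        (α : Fin n → R) (A : Fin n → Matrix (Fin 3) (Fin 3) R)
        (lam : Fin n → Fin 3 → ℚ) (phi : Fin 3 → ℚ) (N : ℕ) (p : Fin 3 → Option (Fin n)),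
        (∀ i j, i ≠ j → IsUnit (α i - α j)) → AbsIrreducible α A →
        (∀ j, HasExponents (A j) (lam j)) → HasExponents (∑ j, A j) phi →
        0 < N → (∀ j l, ∃ m : ℤ, (N : ℚ) * lam j l = m) → (∀ l, ∃ m : ℤ, (N : ℚ) * phi l = m) →
        Rough B (allExp lam phi) → Function.Injective p → ScalarOutside (allExp lam phi) p →
        SameTriples (allExp lam phi) p ∨
          ((∃ g : R, g ≠ 0 ∧ BadClasses α A N ε g) ∧ ¬ CondII α A) := by
  obtain ⟨ε, 𝒟, hε, -, huni⟩ := uniform.{u} n 3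
  obtain ⟨B, hB⟩ := same_weights n
  refine ⟨ε, B, hε, ?_⟩
  intro R _ _ _ _ α A lam phi N p hα hirr hlam hphi hN hNlam hNphi hR hp hsc
  have hF : ∑ j, ∑ l, lam j l = ∑ l, phi l + ((0 : ℤ) : ℚ) := by
    rw [sum_exponents hlam hphi]; simp
  rcases (huni R α A lam phi N hα hlam hphi hN hNlam hNphi).2 hirr with h | h
  · exact Or.inl (hB lam phi N 0 p hN hF hR hp hsc h)
  · exact Or.inr h

/-- Systems on the thrice punctured line. -/
theorem same_thrice :
    ∃ (ε : ℝ) (B : ℕ), 0 < ε ∧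
      ∀ (R : Type u) [CommRing R] [IsDomain R] [CharZero R] [Algebra.FiniteType ℤ R]
        (b c : Matrix (Fin 3) (Fin 3) R) (lam : Fin 3 → Fin 3 → ℚ) (N : ℕ),
        AbsIrreducible (![0, 1] : Fin 2 → R) ![b, c] →
        HasExponents b (lam 0) → HasExponents c (lam 1) →
        HasExponents (b + c) (fun l => -lam 2 l) →
        0 < N → (∀ j l, ∃ m : ℤ, (N : ℚ) * lam j l = m) → Rough B lam →
        SameTriples lam id ∨
          ((∃ g : R, g ≠ 0 ∧ BadClasses ![0, 1] ![b, c] N ε g) ∧ ¬ CondII ![0, 1] ![b, c]) := by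
  obtain ⟨ε, B, hε, h⟩ := same_sys.{u} 2
  refine ⟨ε, B, hε, ?_⟩
  intro R _ _ _ _ b c lam N hirr h0 h1 h2 hN hNlam hR
  obtain ⟨p, hpdef⟩ : ∃ p : Fin 3 → Option (Fin 2), p = ![some 0, some 1, none] := ⟨_, rfl⟩
  have hp : Function.Injective p := by rw [hpdef]; decide
  have hps : Function.Surjective p := by rw [hpdef]; decide
  have hE' : ∀ x, allExp (fun j : Fin 2 => lam j.castSucc) (fun l => -lam 2 l) (p x) = lam x :=
    fun x => by rw [hpdef]; exact thrice_aux lam x
  have key := h R ![0, 1] ![b, c] (fun j => lam j.castSucc) (fun l => -lam 2 l) N p (by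
      intro i j hij
      fin_cases i <;> fin_cases j
      · exact absurd rfl hij
      · simp
      · simp
      · exact absurd rfl hij) hirr (by
      intro j
      fin_cases j
      · exact h0
      · exact h1) (by
      rw [Fin.sum_univ_two]
      exact h2) hN (fun j l => hNlam _ l) (fun l => by
      obtain ⟨m, hm⟩ := hNlam 2 l
      exact ⟨-m, by push_cast; rw [← hm]; ring⟩) (by
      obtain ⟨q, hq, hrough, hd⟩ := hR
      refine ⟨q, hq, hrough, fun x l l' => ?_⟩
      obtain ⟨y, rfl⟩ := hps x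
      rw [hE']
      exact hd y l l') hp (by
      intro x hx
      obtain ⟨y, rfl⟩ := hps x
      exact absurd rfl (hx y))
  refine key.imp ?_ id
  rintro ⟨h1, τ, h2⟩
  simp only [hE'] at h1 h2
  exact ⟨h1, τ, h2⟩

end Pool.Agent.N858.R3
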