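import Pool.Agent.N858.R3.Same

set_option autoImplicit false

/-!
Rank two, four points: the strict inequalities for the resonances imply that the differences of the
exponents agree in pairs.
-/

open Finset

namespace Pool.Agent.N858.R3

open Pool.Agent.N858.R4

lemma perm_four : ∀ x y : Fin 4, x ≠ y → ∃ σ : Equiv.Perm (Fin 4), σ 0 = x ∧ σ 1 = y := by
  decide

/-- Strictness in terms of differences. -/
def StrictD (a : Fin 4 → ℤ) : Prop :=
  ∀ t : ℝ, (∀ y, a y ≠ 0 → ¬ ∃ z : ℤ, t * (a y : ℝ) = z) →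
    ∑ y, ⌊t * (a y : ℝ)⌋ + 2 ≤ 0 ∧ ∑ y, ⌊t * ((-a y : ℤ) : ℝ)⌋ + 2 ≤ 0

lemma strictD {v : Fin 4 → Fin 2 → ℤ} (hs : Strict v) (h0 : ∑ y, v y 0 = 0)
    (h1 : ∑ y, v y 1 = 0) : StrictD fun y => v y 0 - v y 1 := by
  intro t hG
  have hG' : Gen v t := by
    intro y l l' hne hz
    have e : ∀ l l' : Fin 2, l = l' ∨ (l = 0 ∧ l' = 1) ∨ (l = 1 ∧ l' = 0) := by decide
    rcases e l l' with rfl | ⟨rfl, rfl⟩ | ⟨rfl, rfl⟩
    · exact hne rfl
    · exact hG y (by show v y 0 - v y 1 ≠ 0; omega) hz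
    · refine hG y (by show v y 0 - v y 1 ≠ 0; omega) ?_
      obtain ⟨z, hz⟩ := hz
      refine ⟨-z, ?_⟩
      push_cast at hz ⊢
      rw [← hz]
      ring
  constructor
  · have := hs t (fun _ => 1) hG' h1
    simp only [Fin.sum_univ_two, sub_self, Int.cast_zero, mul_zero, Int.floor_zero, add_zero]
      at this
    exact_mod_cast this
  · have := hs t (fun _ => 0) hG' h0
    simp only [Fin.sum_univ_two, sub_self, Int.cast_zero, mul_zero, Int.floor_zero, zero_add]
      at this
    simp only [neg_sub]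
    exact_mod_cast this

/-- The signs. -/
lemma StrictD.sign {a : Fin 4 → ℤ} (h : StrictD a) :
    (∀ y, a y ≠ 0) ∧ 2 ≤ ∑ y, (if a y < 0 then (1 : ℤ) else 0) ∧
      2 ≤ ∑ y, (if 0 < a y then (1 : ℤ) else 0) := by
  obtain ⟨P, hP⟩ : ∃ P : ℤ, P = 1 + ∑ y, |a y| := ⟨_, rfl⟩
  have hb : ∀ y, |a y| < P := by
    intro y
    have h1 : |a y| ≤ ∑ y, |a y| :=
      single_le_sum (f := fun y => |a y|) (fun _ _ => abs_nonneg _) (mem_univ y)
    omega
  have hP0 : 0 < P := by
    rw [hP]
    have : 0 ≤ ∑ y, |a y| := sum_nonneg fun _ _ => abs_nonneg _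
    omega
  have hPr : (0 : ℝ) < P := by exact_mod_cast hP0
  have hfl : ∀ d : ℤ, |d| < P → ⌊1 / (P : ℝ) * (d : ℝ)⌋ = -(if d < 0 then 1 else 0) := by
    intro d hd
    rw [abs_lt] at hd
    split_ifs with h0
    · rw [Int.floor_eq_iff]
      push_cast
      have h1 : (-(P : ℝ)) < d := by exact_mod_cast hd.1
      have h2 : (d : ℝ) < 0 := by exact_mod_cast h0
      constructor
      · rw [one_div, ← div_eq_inv_mul, le_div_iff₀ hPr]; linarith
      · rw [one_div, ← div_eq_inv_mul, div_lt_iff₀ hPr]; linarith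
    · rw [Int.floor_eq_iff]
      push_cast
      have h1 : (d : ℝ) < P := by exact_mod_cast hd.2
      have h2 : (0 : ℝ) ≤ d := by exact_mod_cast (not_lt.1 h0)
      constructor
      · rw [neg_zero]; positivity
      · rw [one_div, ← div_eq_inv_mul, div_lt_iff₀ hPr]; linarith
  obtain ⟨h1, h2⟩ := h (1 / P) (by
    rintro y hy ⟨z, hz⟩
    have h1 : (a y : ℝ) = P * z := by
      rw [← hz]
      field_simp
    have h2 : a y = P * z := by exact_mod_cast h1
    have h3 := hb y
    rw [h2, abs_mul, abs_of_pos hP0] at h3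
    have h5 : z = 0 := by
      by_contra hz0
      have h6 : 1 ≤ |z| := Int.one_le_abs hz0
      nlinarith
    rw [h5, mul_zero] at h2
    exact hy h2)
  rw [sum_congr rfl fun y _ => hfl (a y) (hb y), sum_neg_distrib] at h1
  rw [sum_congr rfl fun y _ => hfl (-a y) (by rw [abs_neg]; exact hb y), sum_neg_distrib] at h2
  have e : ∀ y, (if -a y < 0 then (1 : ℤ) else 0) = if 0 < a y then 1 else 0 := by
    intro y
    have : (-a y < 0) ↔ (0 < a y) := by omega
    simp only [this]
  rw [sum_congr rfl fun y _ => e y] at h2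
  refine ⟨?_, by omega, by omega⟩
  have k : (∑ y, (if a y < 0 then (1 : ℤ) else 0)) + (∑ y, (if 0 < a y then (1 : ℤ) else 0)) +
      ∑ y, (if a y = 0 then (1 : ℤ) else 0) = 4 := by
    rw [← sum_add_distrib, ← sum_add_distrib]
    have : ∀ y : Fin 4, ((if a y < 0 then (1 : ℤ) else 0) + (if 0 < a y then (1 : ℤ) else 0)) +
        (if a y = 0 then (1 : ℤ) else 0) = 1 := by
      intro y
      rcases lt_trichotomy (a y) 0 with h | h | h
      · rw [if_pos h, if_neg (by omega), if_neg (by omega)]; norm_num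
      · rw [if_neg (by omega), if_neg (by omega), if_pos h]; norm_num
      · rw [if_neg (by omega), if_pos h, if_neg (by omega)]; norm_num
    rw [sum_congr rfl fun y _ => this y]
    simp
  intro y hy
  have h3 : (1 : ℤ) ≤ ∑ y, (if a y = 0 then (1 : ℤ) else 0) := by
    have := single_le_sum (f := fun y => if a y = 0 then (1 : ℤ) else 0)
      (fun y _ => by show (0 : ℤ) ≤ if a y = 0 then 1 else 0; split_ifs <;> norm_num) (mem_univ y)
    simp only [hy, if_true] at this
    exact this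
  omega

/-- Two opposite differences. -/
lemma StrictD.opp {a : Fin 4 → ℤ} (h : StrictD a) : ∃ x y, x ≠ y ∧ a x + a y = 0 := by
  obtain ⟨h0, h1, h2⟩ := h.sign
  obtain ⟨x₀, -, hx₀⟩ := exists_max_image univ (fun y => |a y|) ⟨0, mem_univ _⟩
  obtain ⟨P, hP⟩ : ∃ P : ℤ, P = |a x₀| := ⟨_, rfl⟩
  have hb : ∀ y, |a y| ≤ P := fun y => by rw [hP]; exact hx₀ y (mem_univ _)
  have hpos : ∃ x, 0 < a x := by
    by_contra hno
    push Not at hno
    rw [sum_congr rfl fun y _ => if_neg (by have := hno y; omega)] at h2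
    simp at h2
  have hneg : ∃ x, a x < 0 := by
    by_contra hno
    push Not at hno
    rw [sum_congr rfl fun y _ => if_neg (by have := hno y; omega)] at h1
    simp at h1
  by_cases hP1 : P ≤ 1
  · obtain ⟨x, hx⟩ := hpos
    obtain ⟨y, hy⟩ := hneg
    refine ⟨x, y, ?_, ?_⟩
    · rintro rfl
      omega
    · have hx1 := hb x
      have hy1 := hb y
      rw [abs_le] at hx1 hy1
      omega
  · have hP2 : 2 ≤ P := by omega
    obtain ⟨k1, k2⟩ := h (tp P) (fun y hy => tp_gen hP2 hy (hb y))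
    have hfl : ∀ d : ℤ, d ≠ 0 → |d| ≤ P → ⌊tp P * (d : ℝ)⌋ =
        (if d = P then 1 else 0) - (if d < 0 then 1 else 0) - (if d = -P then 1 else 0) := by
      intro d hd hdP
      rw [abs_le] at hdP
      rcases lt_or_gt_of_ne hd with hlt | hgt
      · by_cases hd2 : d = -P
        · rw [tp_two hP2 hd2, if_neg (by omega), if_pos hlt, if_pos hd2]; norm_num
        · rw [tp_neg hP2 hlt (by omega), if_neg (by omega), if_pos hlt, if_neg hd2]; norm_num
      · by_cases hd2 : d = P
        · rw [hd2, tp_one hP2, if_pos rfl, if_neg (by omega), if_neg (by omega)]; norm_num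
        · rw [tp_zero hP2 (by omega) (by omega), if_neg hd2, if_neg (by omega), if_neg (by omega)]
          norm_num
    rw [sum_congr rfl fun y _ => hfl (a y) (h0 y) (hb y), sum_sub_distrib, sum_sub_distrib] at k1
    rw [sum_congr rfl fun y _ => hfl (-a y) (neg_ne_zero.2 (h0 y)) (by rw [abs_neg]; exact hb y),
      sum_sub_distrib, sum_sub_distrib] at k2
    have e1 : ∀ y, (if -a y < 0 then (1 : ℤ) else 0) = if 0 < a y then 1 else 0 := by
      intro y
      have : (-a y < 0) ↔ (0 < a y) := by omega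
      simp only [this]
    have e2 : ∀ y, (if -a y = P then (1 : ℤ) else 0) = if a y = -P then 1 else 0 := by
      intro y
      have : (-a y = P) ↔ (a y = -P) := by omega
      simp only [this]
    have e3 : ∀ y, (if -a y = -P then (1 : ℤ) else 0) = if a y = P then 1 else 0 := by
      intro y
      have : (-a y = -P) ↔ (a y = P) := by omega
      simp only [this]
    rw [sum_congr rfl fun y _ => e1 y, sum_congr rfl fun y _ => e2 y,
      sum_congr rfl fun y _ => e3 y] at k2
    have hk : (∑ y, (if a y < 0 then (1 : ℤ) else 0)) + (∑ y, (if 0 < a y then (1 : ℤ) else 0)) =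
        4 := by
      rw [← sum_add_distrib]
      have : ∀ y : Fin 4, ((if a y < 0 then (1 : ℤ) else 0) + (if 0 < a y then (1 : ℤ) else 0)) =
          1 := by
        intro y
        rcases lt_or_gt_of_ne (h0 y) with h | h
        · rw [if_pos h, if_neg (by omega)]; norm_num
        · rw [if_neg (by omega), if_pos h]; norm_num
      rw [sum_congr rfl fun y _ => this y]
      simp
    have hex : ∀ s : ℤ, (∑ y, (if a y = s then (1 : ℤ) else 0)) ≠ 0 → ∃ y, a y = s := by
      intro s hs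
      by_contra hno
      push Not at hno
      apply hs
      exact sum_eq_zero fun y _ => if_neg (hno y)
    have hge : ∀ (s : ℤ) (y : Fin 4), a y = s → 1 ≤ ∑ y, (if a y = s then (1 : ℤ) else 0) := by
      intro s y hy
      have := single_le_sum (f := fun y => if a y = s then (1 : ℤ) else 0)
        (fun y _ => by show (0 : ℤ) ≤ if a y = s then 1 else 0; split_ifs <;> norm_num) (mem_univ y)
      simp only [hy, if_true] at this
      exact this
    obtain ⟨m1, hm1⟩ : ∃ m, m = ∑ y, (if a y = P then (1 : ℤ) else 0) := ⟨_, rfl⟩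
    obtain ⟨m2, hm2⟩ : ∃ m, m = ∑ y, (if a y = -P then (1 : ℤ) else 0) := ⟨_, rfl⟩
    rw [← hm1, ← hm2] at k1 k2
    have hm12 : m1 = m2 := by omega
    have hm0 : 1 ≤ m1 ∨ 1 ≤ m2 := by
      rcases abs_choice (a x₀) with h | h
      · left
        rw [hm1]
        exact hge _ x₀ (by omega)
      · right
        rw [hm2]
        exact hge _ x₀ (by omega)
    obtain ⟨x, hx⟩ := hex P (by omega)
    obtain ⟨y, hy⟩ := hex (-P) (by omega)
    exact ⟨x, y, by rintro rfl; omega, by omega⟩

/-- **The differences agree in pairs.** -/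
theorem split4 {v : Fin 4 → Fin 2 → ℤ} (hs : Strict v) (κ : Fin 4 → Fin 2)
    (h0 : ∑ y, v y (κ y) = 0) (h1 : ∑ y, v y (1 - κ y) = 0) :
    (∀ y, v y (κ y) ≠ v y (1 - κ y)) ∧ ∃ σ : Equiv.Perm (Fin 4),
      (v (σ 0) (κ (σ 0)) - v (σ 0) (1 - κ (σ 0))) +
        (v (σ 1) (κ (σ 1)) - v (σ 1) (1 - κ (σ 1))) = 0 ∧
      (v (σ 2) (κ (σ 2)) - v (σ 2) (1 - κ (σ 2))) +
        (v (σ 3) (κ (σ 3)) - v (σ 3) (1 - κ (σ 3))) = 0 := by
  have e0 : ∀ k : Fin 2, (if k = 0 then Equiv.refl (Fin 2) else Equiv.swap 0 1) 0 = k := by decide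
  have e1 : ∀ k : Fin 2, (if k = 0 then Equiv.refl (Fin 2) else Equiv.swap 0 1) 1 = 1 - k := by
    decide
  have hs' := hs.perm fun y => if κ y = 0 then Equiv.refl (Fin 2) else Equiv.swap 0 1
  have hD := strictD hs' (by simp only [e0]; exact h0) (by simp only [e1]; exact h1)
  simp only [e0, e1] at hD
  obtain ⟨x, y, hxy, hsum⟩ := hD.opp
  obtain ⟨σ, rfl, rfl⟩ := perm_four x y hxy
  refine ⟨fun y hy => hD.sign.1 y (by omega), σ, hsum, ?_⟩
  have h2 : ∑ y, (v y (κ y) - v y (1 - κ y)) = 0 := by rw [sum_sub_distrib, h0, h1, sub_zero]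
  rw [← Equiv.sum_comp σ, Fin.sum_univ_four] at h2
  omega

end Pool.Agent.N858.R3
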