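import Pool.Agent.N858.R3.Irr3
import Pool.Agent.N858.R3.Split
import Pool.Agent.N858.P5.Final

set_option autoImplicit false

/-!
Irreducible systems of rank two with rough denominators and at most four non-scalar points.
-/

open Finset Filter

namespace Pool.Agent.N858.R3

open Pool.Agent.N858.PC

variable {X : Type*} [Fintype X] [DecidableEq X]

/-- Two opposite differences in the lattice. -/
lemma int_of_quad' {n : ℕ} (S : Seq X n) (F : Ultrafilter ℕ) {x y : X} {i i' j j' : Fin n}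
    (h : dif x i i' + dif y j j' ∈ S.R F) :
    ∀ᶠ N in (F : Filter ℕ), ∃ w : ℤ,
      (S.e N x i - S.e N x i') + (S.e N y j - S.e N y j') = w := by
  filter_upwards [mem_rel.1 h] with N hN
  obtain ⟨z, hz⟩ := hN
  refine ⟨z, ?_⟩
  rw [← hz]
  have h1 := sum_dif (R := ℚ) x i i' fun t => S.E N t.1 t.2
  have h2 := sum_dif (R := ℚ) y j j' fun t => S.E N t.1 t.2
  simp only [Pi.add_apply]
  push_cast
  simp only [add_mul, sum_add_distrib]
  rw [h1, h2, S.he, S.he, S.he, S.he]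
  ring

lemma fin2_sum {M : Type*} [AddCommMonoid M] (f : Fin 2 → M) (k : Fin 2) :
    ∑ l, f l = f k + f (1 - k) := by
  rw [Fin.sum_univ_two]
  fin_cases k
  · rfl
  · show f 0 + f 1 = f 1 + f (1 - 1)
    rw [add_comm]
    rfl

/-- The exponents split. -/
theorem exists_split [Nonempty X] (S : Seq X 2) (F : Ultrafilter ℕ) (hF : (F : Filter ℕ) ≤ atTop)
    {p : Fin 4 → X} (hp : Function.Injective p)
    (hSt : ∀ᶠ j in (F : Filter ℕ), ∀ a : ℤ, IsCoprime a (S.N j : ℤ) →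
      LineSt fun x l => (a : ℝ) * S.e j x l)
    (hsc : ∀ x, (∀ i, x ≠ p i) → dif x (0 : Fin 2) 1 ∈ S.R F) :
    ∀ᶠ N in (F : Filter ℕ), SplitPairs (S.e N) p := by
  classical
  have hsc' : ∀ x, (∀ y, x ≠ p y) → ∀ l, S.cl F (x, l) = S.cl F (x, 0) := by
    intro x hx l
    have h1 := cl_of_dif S F (hsc x hx)
    have e : l = 0 ∨ l = 1 := by
      clear * -
      revert l
      decide
    rcases e with rfl | rfl
    · rfl
    · exact h1.symm
  obtain ⟨V, hV⟩ := exists_gv S F hF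
  have hout : ∀ q ∈ out p, ∀ l, V (q, l) = V (q, 0) := fun q hq l =>
    eq_of_cl hV (hsc' q (mem_out.1 hq) l)
  obtain ⟨κ, hκ⟩ := P5.exists_del S F hF (univ.image p)
    (le_trans card_image_le (by simp)) (by
    intro x hx
    exact hsc x fun i hi => hx (mem_image.2 ⟨i, mem_univ _, hi.symm⟩))
  have hVκ : ∑ x, V (x, κ x) = 0 := by
    have h1 := hV.rel _ hκ
    have h2 := R4.sum_del κ V
    rw [← h2]
    refine Eq.trans (sum_congr rfl fun t _ => ?_) h1
    unfold P5.del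
    split_ifs <;> simp
  have hdiff : ∀ y l l', vec V p 0 0 y l - vec V p 0 0 y l' = V (p y, l) - V (p y, l') := by
    intro y l l'
    unfold vec
    ring
  have h0 : ∑ y, vec V p 0 0 y (κ (p y)) = 0 := by
    rw [sum_vec V hp 0 0 fun y => κ (p y), ← hVκ]
    refine sum_congr rfl fun x _ => ?_
    by_cases hx : x ∈ out p
    · rw [hout x hx, hout x hx (κ x)]
    · rw [mem_out] at hx
      push Not at hx
      obtain ⟨y, rfl⟩ := hx
      rw [ex_p hp]
  have h1 : ∑ y, vec V p 0 0 y (1 - κ (p y)) = 0 := by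
    have h2 := sum_vec_all hp 0 0 hout hV.trace
    rw [sum_congr rfl fun y _ => fin2_sum (vec V p 0 0 y) (κ (p y)), sum_add_distrib, h0,
      zero_add] at h2
    exact h2
  obtain ⟨hne, σ, q1, q2⟩ := split4 (strict_torus S F hF (by norm_num) hSt hV hp 0 hsc' 0)
    (fun y => κ (p y)) h0 h1
  simp only [hdiff] at q1 q2
  have k1 : ∀ᶠ N in (F : Filter ℕ), ∀ i, ¬ ∃ w : ℤ, S.e N (p i) 0 - S.e N (p i) 1 = w := by
    refine Filter.eventually_all.2 fun i => ?_
    have h2 : S.cl F (p i, 0) ≠ S.cl F (p i, 1) := by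
      intro h
      have h3 := eq_of_cl hV h
      apply hne i
      have h4 := hdiff i (κ (p i)) (1 - κ (p i))
      have e : ∀ k : Fin 2, V (p i, k) = V (p i, 1 - k) := by
        intro k
        fin_cases k
        · exact h3
        · exact h3.symm
      have := e (κ (p i))
      omega
    exact Ultrafilter.eventually_not.2 fun h3 => h2 ((R4.cl_eq_iff S F hF _ _ _).2 h3)
  have k2 := int_of_degree S F hF (by norm_num) hκ (d := 1) (by
    intro x
    unfold P5.del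
    simp)
  have k3 := int_of_quad' S F (hV.quad' (p (σ 0)) (κ (p (σ 0))) (1 - κ (p (σ 0))) (p (σ 1))
    (κ (p (σ 1))) (1 - κ (p (σ 1))) (by omega))
  have k4 := int_of_quad' S F (hV.quad' (p (σ 2)) (κ (p (σ 2))) (1 - κ (p (σ 2))) (p (σ 3))
    (κ (p (σ 3))) (1 - κ (p (σ 3))) (by omega))
  filter_upwards [k1, k2, k3, k4] with N a1 a2 a3 a4
  refine ⟨a1, κ, σ, ?_, a3, a4⟩
  obtain ⟨w, hw⟩ := a2
  refine ⟨w, ?_⟩
  rw [← hw]
  refine sum_congr rfl fun x _ => ?_
  show S.e N x (κ x) = ∑ l, ((P5.del κ (x, l) : ℤ) : ℚ) * S.e N x l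
  unfold P5.del
  simp

/-- The abstract theorem. -/
theorem abs_split (X : Type*) [Fintype X] [DecidableEq X] [Nonempty X] :
    ∃ B : ℕ, ∀ (e : X → Fin 2 → ℚ) (q N : ℕ) (p : Fin 4 → X), Function.Injective p →
      0 < q → 0 < N →
      (∀ p : ℕ, p.Prime → p ∣ q → B < p) →
      (∀ x l l', ∃ w : ℤ, (q : ℚ) * (e x l - e x l') = w) →
      (∃ w : ℤ, ∑ x, ∑ l, e x l = w) →
      (∀ a : ℤ, IsCoprime a (N : ℤ) → LineSS fun x l => (a : ℝ) * e x l) →
      (∀ a : ℤ, IsCoprime a (N : ℤ) → LineSt fun x l => (a : ℝ) * e x l) →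
      (∀ x, (∀ i, x ≠ p i) → ∀ l l', ∃ z : ℤ, e x l - e x l' = z) →
      SplitPairs e p := by
  classical
  have hn : 0 < 2 := by norm_num
  by_contra hcon
  push Not at hcon
  choose e q N p hp hq hN hrough hd ht hSS hSt hsc hfail using fun j : ℕ => hcon (j + 2)
  have hnorm : ∀ j, ∃ (E : X → Fin 2 → ℚ) (ε : X → ℚ), (∀ x l, e j x l = E x l + ε x) ∧
      (∀ x l, ∃ z : ℤ, (q j : ℚ) * E x l = z) ∧ ∃ k : ℤ, ((2 : ℕ) : ℚ) * ∑ x, ε x = k := fun j =>
    normalize hn (hq j) (coprime_rough (hrough j) hn (by omega)) (hd j) (ht j)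
  choose E ε he hE hε using hnorm
  let S : Seq X 2 :=
    { e := e, E := E, ε := ε, q := q, N := N, hq := hq, hN := hN
      rough := fun j p hp hpq => by have := hrough j p hp hpq; omega
      he := he, hE := hE, hε := hε, htr := ht, hSS := hSS }
  set F : Ultrafilter ℕ := Filter.hyperfilter ℕ with hFdef
  have hF : (F : Filter ℕ) ≤ atTop := Nat.hyperfilter_le_atTop
  -- the four points
  obtain ⟨p₀, hp₀⟩ : ∃ p₀ : Fin 4 → X, ∀ᶠ j in (F : Filter ℕ), p j = p₀ := by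
    by_contra hno
    have h1 : ∀ p₀ : Fin 4 → X, ∀ᶠ j in (F : Filter ℕ), ¬ p j = p₀ := fun p₀ =>
      Ultrafilter.eventually_not.2 fun h => hno ⟨p₀, h⟩
    obtain ⟨j, hj⟩ := (Filter.eventually_all.2 h1).exists
    exact hj (p j) rfl
  have hp₀i : Function.Injective p₀ := by
    obtain ⟨j, hj⟩ := hp₀.exists
    rw [← hj]
    exact hp j
  have hsc' : ∀ x, (∀ i, x ≠ p₀ i) → dif x (0 : Fin 2) 1 ∈ S.R F := by
    intro x hx
    refine mem_rel.2 ?_
    filter_upwards [hp₀] with j hj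
    obtain ⟨z, hz⟩ := hsc j x (by rw [hj]; exact hx) 0 1
    refine ⟨z, ?_⟩
    have h1 := sum_dif (R := ℚ) x 0 1 fun t => S.E j t.1 t.2
    rw [h1, ← hz]
    show E j x 0 - E j x 1 = _
    rw [he, he]
    ring
  obtain ⟨j, hj1, hj2⟩ := ((exists_split S F hF hp₀i (Eventually.of_forall hSt) hsc').and
    hp₀).exists
  apply hfail j
  rw [hj2]
  exact hj1

open Pool.Agent.W432.PC Pool.Agent.W432.TC Pool.Agent.Y227.SS

theorem split_weights (m : ℕ) :
    ∃ B : ℕ, ∀ (lam : Fin m → Fin 2 → ℚ)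
    (phi : Fin 2 → ℚ) (N : ℕ) (F : ℤ) (p : Fin 4 → Option (Fin m)), 0 < N →
    ∑ j, ∑ l, lam j l = ∑ l, phi l + F →
    Rough B (allExp lam phi) → Function.Injective p →
    (∀ x, (∀ i, x ≠ p i) → ∀ l l', ∃ z : ℤ, allExp lam phi x l - allExp lam phi x l' = z) →
    (∀ a : ℤ, IsCoprime a (N : ℤ) → StableWeights ℂ
      (fun j l => (a : ℝ) * lam j l) (fun l => (a : ℝ) * phi l)) →
    SplitPairs (allExp lam phi) p := by
  classical
  obtain ⟨B, hB⟩ := abs_split (Option (Fin m))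
  refine ⟨B, fun lam phi N F p hN hF hR hp hsc hSt => ?_⟩
  obtain ⟨q, hq, hrough, hd⟩ := hR
  have htr : ∃ w : ℤ, ∑ x, ∑ l, allExp lam phi x l = w := by
    refine ⟨F, ?_⟩
    rw [Fintype.sum_option]
    simp only [allExp, sum_neg_distrib, hF]
    ring
  have hFa : ∀ a : ℤ, ∑ j, ∑ l, (a : ℝ) * lam j l = ∑ l, (a : ℝ) * phi l + ((a * F : ℤ) : ℝ) := by
    intro a
    have h1 := congrArg (fun r : ℚ => (a : ℝ) * (r : ℝ)) hF
    push_cast at h1 ⊢
    simp only [← mul_sum]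
    linarith
  exact hB (allExp lam phi) q N p hp hq hN hrough hd htr
    (fun a ha => by
      rw [allExp_mul]
      exact lineSS_of (semistable_of_stable (hSt a ha)) _ (hFa a))
    (fun a ha => by
      rw [allExp_mul]
      exact lineSt_of (by norm_num) (hSt a ha) _ (hFa a))
    (fun x hx l l' => hsc x hx l l')

universe u

theorem split_sys (n : ℕ) :
    ∃ (ε : ℝ) (B : ℕ), 0 < ε ∧
      ∀ (R : Type u) [CommRing R] [IsDomain R] [CharZero R] [Algebra.FiniteType ℤ R]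
        (α : Fin n → R) (A : Fin n → Matrix (Fin 2) (Fin 2) R)
        (lam : Fin n → Fin 2 → ℚ) (phi : Fin 2 → ℚ) (N : ℕ) (p : Fin 4 → Option (Fin n)),
        (∀ i j, i ≠ j → IsUnit (α i - α j)) → AbsIrreducible α A →
        (∀ j, HasExponents (A j) (lam j)) → HasExponents (∑ j, A j) phi →
        0 < N → (∀ j l, ∃ m : ℤ, (N : ℚ) * lam j l = m) → (∀ l, ∃ m : ℤ, (N : ℚ) * phi l = m) →
        Rough B (allExp lam phi) → Function.Injective p →
        (∀ x, (∀ i, x ≠ p i) → ∀ l l', ∃ z : ℤ, allExp lam phi x l - allExp lam phi x l' = z) →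
        SplitPairs (allExp lam phi) p ∨
          ((∃ g : R, g ≠ 0 ∧ BadClasses α A N ε g) ∧ ¬ CondII α A) := by
  obtain ⟨ε, 𝒟, hε, -, huni⟩ := uniform.{u} n 2
  obtain ⟨B, hB⟩ := split_weights n
  refine ⟨ε, B, hε, ?_⟩
  intro R _ _ _ _ α A lam phi N p hα hirr hlam hphi hN hNlam hNphi hR hp hsc
  have hF : ∑ j, ∑ l, lam j l = ∑ l, phi l + ((0 : ℤ) : ℚ) := by
    rw [sum_exponents hlam hphi]; simp
  rcases (huni R α A lam phi N hα hlam hphi hN hNlam hNphi).2 hirr with h | h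
  · exact Or.inl (hB lam phi N 0 p hN hF hR hp hsc h)
  · exact Or.inr h

end Pool.Agent.N858.R3
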