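import Pool.Agent.N858.R3.FinE
import Pool.Agent.N858.R3.Eff2
import Pool.Agent.N858.R3.Irr2
import Pool.Agent.N858.R3.FinIrr
import Pool.Agent.N858.PC.FinalOp

set_option autoImplicit false

/-!
Irreducible systems and operators with index of rigidity at least zero.
-/

open Finset

namespace Pool.Agent.N858.R3

open Pool.Agent.N858.PC
open Pool.Agent.N858.R4
open Pool.Agent.W432.PC Pool.Agent.W432.TC Pool.Agent.Y227.SS

lemma rough_mono {X : Type*} {n : ℕ} {B B' : ℕ} {e : X → Fin n → ℚ} (h : B' ≤ B) (hR : Rough B e) :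
    Rough B' e := by
  obtain ⟨q, h1, h2, h3⟩ := hR
  exact ⟨q, h1, fun p hp hpq => h.trans_lt (h2 p hp hpq), h3⟩

/-- The weights: mild denominators. -/
theorem eff_weights2 {m n : ℕ} (hn : 1 < n) (lam : Fin m → Fin n → ℚ)
    (phi : Fin n → ℚ) (N : ℕ) (F : ℤ) (hN : 0 < N)
    (hNl : ∀ j l, ∃ m : ℤ, (N : ℚ) * lam j l = m) (hNp : ∀ l, ∃ m : ℤ, (N : ℚ) * phi l = m)
    (hF : ∑ j, ∑ l, lam j l = ∑ l, phi l + F)
    (hM : MildDen (allExp lam phi))
    (hSt : ∀ a : ℤ, IsCoprime a (N : ℤ) → StableWeights ℂ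
      (fun j l => (a : ℝ) * lam j l) (fun l => (a : ℝ) * phi l)) :
    ¬ LargeMult (allExp lam phi) ∧ (IndexNonneg (allExp lam phi) → ExcType (allExp lam phi)) := by
  have hFa : ∀ a : ℤ, ∑ j, ∑ l, (a : ℝ) * lam j l = ∑ l, (a : ℝ) * phi l + ((a * F : ℤ) : ℝ) := by
    intro a
    have h1 := congrArg (fun r : ℚ => (a : ℝ) * (r : ℝ)) hF
    push_cast at h1 ⊢
    simp only [← mul_sum]
    linarith
  have hNe : ∀ x l, ∃ w : ℤ, (N : ℚ) * allExp lam phi x l = w := by
    rintro (_ | j) l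
    · obtain ⟨w, hw⟩ := hNp l
      exact ⟨-w, by simp only [allExp]; push_cast; rw [← hw]; ring⟩
    · exact hNl j l
  have hL : ∀ a : ℤ, IsCoprime a (N : ℤ) → LineSt fun x l => (a : ℝ) * allExp lam phi x l := by
    intro a ha
    rw [allExp_mul]
    exact lineSt_of hn (hSt a ha) _ (hFa a)
  have h1 := eff_bound2 (by omega) hN hNe hM hL
  have h3 := eff_card (by omega) hL
  have h2 := eff_ns2 (by omega) (by omega) hL
  exact ⟨h1, fun hI => (index_class (by omega) h3 h2 hI).resolve_left h1⟩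

lemma move_mild {X Y : Type*} [Fintype X] [Fintype Y] {n : ℕ} {e : X → Fin n → ℚ}
    {e' : Y → Fin n → ℚ} (φ : X ≃ Y) (h : ∀ x, e' (φ x) = e x) (hM : MildDen e) : MildDen e' := by
  intro y k' κ hk
  obtain ⟨x, rfl⟩ := φ.surjective y
  have h1 := hM x k' (fun x => κ (φ x)) (by rw [← h x]; exact hk)
  have h2 : ∑ y, e' y (κ y) = ∑ x, e x (κ (φ x)) := by
    rw [← Equiv.sum_comp φ]
    exact sum_congr rfl fun x _ => by rw [h x]
  rw [h2, h x]
  exact h1

/-- The weights. -/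
theorem all_weights (m r : ℕ) (hr : 1 < r) :
    ∃ B : ℕ, ∀ (lam : Fin m → Fin r → ℚ) (phi : Fin r → ℚ) (N : ℕ) (F : ℤ), 0 < N →
    (∀ j l, ∃ m : ℤ, (N : ℚ) * lam j l = m) → (∀ l, ∃ m : ℤ, (N : ℚ) * phi l = m) →
    ∑ j, ∑ l, lam j l = ∑ l, phi l + F →
    (∀ a : ℤ, IsCoprime a (N : ℤ) → StableWeights ℂ
      (fun j l => (a : ℝ) * lam j l) (fun l => (a : ℝ) * phi l)) →
    ((RoughSums (2 * r) (allExp lam phi) ∨ MildDen (allExp lam phi) ∨
        Rough B (allExp lam phi)) →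
      ¬ LargeMult (allExp lam phi) ∧ (IndexNonneg (allExp lam phi) → ExcType (allExp lam phi))) ∧
    (Rough B (allExp lam phi) → Refined (allExp lam phi)) := by
  obtain ⟨B1, h1⟩ := large_weights m r hr
  obtain ⟨B2, h2⟩ := split_weights m
  obtain ⟨B3, h3⟩ := same_weights m
  refine ⟨max B1 (max B2 B3), fun lam phi N F hN hNl hNp hF hSt =>
    ⟨fun hor => ?_, fun hR => ⟨?_, ?_⟩⟩⟩
  · rcases hor with h | h | h
    · exact eff_weights2 hr lam phi N F hN hNl hNp hF (mild_of_rough (by omega) h) hSt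
    · exact eff_weights2 hr lam phi N F hN hNl hNp hF h hSt
    · exact h1 lam phi N F hN hF (rough_mono (le_max_left _ _) h) hSt
  · intro h p hp hsc
    subst h
    exact h2 lam phi N F p hN hF (rough_mono ((le_max_left _ _).trans (le_max_right _ _)) hR) hp
      (fun x hx l l' => hsc x hx l l') hSt
  · intro h p hp hsc
    subst h
    exact h3 lam phi N F p hN hF (rough_mono ((le_max_right _ _).trans (le_max_right _ _)) hR) hp hsc hSt

universe u

/-- Systems. -/
theorem all_sys (n r : ℕ) (hr : 1 < r) :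
    ∃ (ε : ℝ) (B : ℕ), 0 < ε ∧
      ∀ (R : Type u) [CommRing R] [IsDomain R] [CharZero R] [Algebra.FiniteType ℤ R]
        (α : Fin n → R) (A : Fin n → Matrix (Fin r) (Fin r) R)
        (lam : Fin n → Fin r → ℚ) (phi : Fin r → ℚ) (N : ℕ),
        (∀ i j, i ≠ j → IsUnit (α i - α j)) → AbsIrreducible α A →
        (∀ j, HasExponents (A j) (lam j)) → HasExponents (∑ j, A j) phi →
        0 < N → (∀ j l, ∃ m : ℤ, (N : ℚ) * lam j l = m) → (∀ l, ∃ m : ℤ, (N : ℚ) * phi l = m) →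
        (RoughSums (2 * r) (allExp lam phi) ∨ MildDen (allExp lam phi) ∨
          Rough B (allExp lam phi)) →
        (LargeMult (allExp lam phi) ∨ IndexNonneg (allExp lam phi)) →
        (ExcType (allExp lam phi) ∧ ¬ LargeMult (allExp lam phi) ∧
          (Rough B (allExp lam phi) → Refined (allExp lam phi))) ∨
          ((∃ g : R, g ≠ 0 ∧ BadClasses α A N ε g) ∧ ¬ CondII α A) := by
  obtain ⟨ε, 𝒟, hε, -, huni⟩ := uniform.{u} n r
  obtain ⟨B, hB⟩ := all_weights n r hr
  refine ⟨ε, B, hε, ?_⟩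
  intro R _ _ _ _ α A lam phi N hα hirr hlam hphi hN hNlam hNphi hor hI
  have hF : ∑ j, ∑ l, lam j l = ∑ l, phi l + ((0 : ℤ) : ℚ) := by
    rw [sum_exponents hlam hphi]; simp
  rcases (huni R α A lam phi N hα hlam hphi hN hNlam hNphi).2 hirr with h | h
  · left
    obtain ⟨h1, h2⟩ := hB lam phi N 0 hN hNlam hNphi hF h
    obtain ⟨h3, h4⟩ := h1 hor
    exact ⟨h4 (hI.resolve_left h3), h3, h2⟩
  · exact Or.inr h

/-- Systems on the thrice punctured line. -/
theorem index_thrice (r : ℕ) (hr : 1 < r) :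
    ∃ (ε : ℝ) (B : ℕ), 0 < ε ∧
      ∀ (R : Type u) [CommRing R] [IsDomain R] [CharZero R] [Algebra.FiniteType ℤ R]
        (b c : Matrix (Fin r) (Fin r) R) (lam : Fin 3 → Fin r → ℚ) (N : ℕ),
        AbsIrreducible (![0, 1] : Fin 2 → R) ![b, c] →
        HasExponents b (lam 0) → HasExponents c (lam 1) →
        HasExponents (b + c) (fun l => -lam 2 l) →
        0 < N → (∀ j l, ∃ m : ℤ, (N : ℚ) * lam j l = m) →
        (RoughSums (2 * r) lam ∨ MildDen lam ∨ Rough B lam) →
        (LargeMult lam ∨ (IndexNonneg lam ∧ ¬ ExcType lam)) →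
          (∃ g : R, g ≠ 0 ∧ BadClasses ![0, 1] ![b, c] N ε g) ∧ ¬ CondII ![0, 1] ![b, c] := by
  obtain ⟨ε, B, hε, h⟩ := all_sys.{u} 2 r hr
  refine ⟨ε, B, hε, ?_⟩
  intro R _ _ _ _ b c lam N hirr h0 h1 h2 hN hNlam hR hor
  obtain ⟨p, hpdef⟩ : ∃ p : Fin 3 → Option (Fin 2), p = ![some 0, some 1, none] := ⟨_, rfl⟩
  have hp : Function.Injective p := by rw [hpdef]; decide
  have hps : Function.Surjective p := by rw [hpdef]; decide
  have hE' : ∀ x, allExp (fun j : Fin 2 => lam j.castSucc) (fun l => -lam 2 l) (p x) = lam x :=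
    fun x => by rw [hpdef]; exact thrice_aux lam x
  let φ : Fin 3 ≃ Option (Fin 2) := Equiv.ofBijective p ⟨hp, hps⟩
  have hφ : ∀ x, allExp (fun j : Fin 2 => lam j.castSucc) (fun l => -lam 2 l) (φ x) = lam x := hE'
  have hφ' : ∀ y, lam (φ.symm y) = allExp (fun j : Fin 2 => lam j.castSucc) (fun l => -lam 2 l) y :=
    fun y => by rw [← hφ (φ.symm y), Equiv.apply_symm_apply]
  have key := h R ![0, 1] ![b, c] (fun j => lam j.castSucc) (fun l => -lam 2 l) N (by
      intro i j hij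
      fin_cases i <;> fin_cases j
      · exact absurd rfl hij
      · simp
      · simp
      · exact absurd rfl hij) hirr (by
      intro j
      fin_cases j
      · exact h0
      · exact h1) (by
      rw [Fin.sum_univ_two]
      exact h2) hN (fun j l => hNlam _ l) (fun l => by
      obtain ⟨m, hm⟩ := hNlam 2 l
      exact ⟨-m, by push_cast; rw [← hm]; ring⟩) (hR.imp (move_rough φ hφ) (Or.imp (move_mild φ hφ) (by
        rintro ⟨q, k1, k2, k3⟩
        refine ⟨q, k1, k2, fun y l l' => ?_⟩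
        rw [← hφ' y]
        exact k3 _ l l'))) (hor.imp (move_large φ hφ) fun hh => move_index φ hφ hh.1)
  rcases key with ⟨k1, k2, -⟩ | k
  · rcases hor with h3 | ⟨-, h3⟩
    · exact absurd (move_large φ hφ h3) k2
    · exact absurd (move_exc φ.symm hφ' k1) h3
  · exact k

open Polynomial Pool.Agent.W432.WB Pool.Agent.W432.HK Pool.Agent.Y227.SO in
/-- Operators. -/
theorem all_op (m n : ℕ) (hm : 1 ≤ m) (hn : 1 < n) :
    ∃ (ε : ℝ) (B : ℕ), 0 < ε ∧ ∀ (b : Fin (n + 1) → ℤ[X]) (α : Fin m → AlgebraicClosure ℚ),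
      ¬ Reducible b →
      (∀ lam phi, FuchsianWith b α lam phi →
        (RoughSums (2 * n) (allExp lam phi) ∨ MildDen (allExp lam phi) ∨
          Rough B (allExp lam phi)) →
        (LargeMult (allExp lam phi) ∨ IndexNonneg (allExp lam phi)) →
        (ExcType (allExp lam phi) ∧ ¬ LargeMult (allExp lam phi) ∧
          (Rough B (allExp lam phi) → Refined (allExp lam phi))) ∨
        (¬ Cond b ∧ ¬ FewBad b ε ∧ ∀ N, CommonDen lam phi N → BadPrimes b N ε)) ∧
      (ZerosAmong b α → FewBad b ε → ∃ lam phi, FuchsianWith b α lam phi ∧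
        ((RoughSums (2 * n) (allExp lam phi) ∨ MildDen (allExp lam phi) ∨
          Rough B (allExp lam phi)) →
          ¬ LargeMult (allExp lam phi) ∧ (IndexNonneg (allExp lam phi) →
            ExcType (allExp lam phi) ∧ (Rough B (allExp lam phi) → Refined (allExp lam phi))))) := by
  obtain ⟨ε, 𝒟, hε, -, hden⟩ := density m n hm (by omega)
  obtain ⟨B, hB⟩ := all_weights m n hn
  have key : ∀ (b : Fin (n + 1) → ℤ[X]) (α : Fin m → AlgebraicClosure ℚ) lam phi,
      ¬ Reducible b → FuchsianWith b α lam phi → ∀ N, CommonDen lam phi N →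
      ConjGood b lam phi N →
      ((RoughSums (2 * n) (allExp lam phi) ∨ MildDen (allExp lam phi) ∨
          Rough B (allExp lam phi)) →
        ¬ LargeMult (allExp lam phi) ∧ (IndexNonneg (allExp lam phi) → ExcType (allExp lam phi))) ∧
      (Rough B (allExp lam phi) → Refined (allExp lam phi)) := by
    intro b α lam phi hred hF N hN hG
    obtain ⟨F, hFu⟩ := fuchs_int hm (by omega) hF
    exact hB lam phi N F hN.1 hN.2.1 hN.2.2 hFu fun a ha => (hG a ha).2.2 hred
  refine ⟨min (ε / 2) ε, B, lt_min (by positivity) hε, fun b α hred =>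
    ⟨fun lam phi hF hR hI => ?_, fun hZ hfew => ?_⟩⟩
  · obtain ⟨N₀, hN₀⟩ := exists_commonDen lam phi
    by_cases hall : ∀ N, CommonDen lam phi N → BadPrimes b N ε
    · right
      refine ⟨not_cond hN₀.1 hε (hall N₀ hN₀), fun hfew => ?_, fun N hN => ?_⟩
      · exact (hall N₀ hN₀).dens hN₀.1 hε (hfew.mono (min_le_left _ _))
      · exact (hall N hN).mono (min_le_right _ _)
    · left
      push Not at hall
      obtain ⟨N, hN, hbad⟩ := hall
      rcases (hden b α).1 lam phi N hF hN with h | ⟨h, -⟩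
      · exact absurd h hbad
      · obtain ⟨h1, h2⟩ := key b α lam phi hred hF N hN h
        obtain ⟨h3, h4⟩ := h1 hR
        exact ⟨h4 (hI.resolve_left h3), h3, h2⟩
  · obtain ⟨lam, phi, hF, ⟨N, hN⟩, hG, -⟩ := (hden b α).2 hZ (hfew.mono (min_le_right _ _))
    obtain ⟨h1, h2⟩ := key b α lam phi hred hF N hN (hG N hN)
    exact ⟨lam, phi, hF, fun hR => ⟨(h1 hR).1, fun hI => ⟨(h1 hR).2 hI, h2⟩⟩⟩

end Pool.Agent.N858.R3
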