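import Pool.Agent.N858.R3.Dec
import Pool.Agent.N858.R4.Final

set_option autoImplicit false

/-!
Exponents with rough denominators and at most three non-scalar points, rank three: if all conjugates
satisfy the quadratic inequality, the exponents are those of a sum of three systems of rank one.
-/

open Finset Filter

namespace Pool.Agent.N858.R3

open Pool.Agent.N858.PC
open Pool.Agent.N858.R4
open Pool.Agent.N858.P5 (common_den)

variable {X : Type*} [Fintype X] [DecidableEq X] {n : ℕ}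

/-- The decomposition of the rank one families in rank `n`. -/
def DecN (n : ℕ) : Prop :=
  ∀ v : Fin 3 → Fin n → ℤ, ∑ x, ∑ l, v x l = 0 →
    (∀ x y z : Fin 3, x ≠ y → y ≠ z → x ≠ z → ∀ (k : Fin n) (t : ℝ),
      0 ≤ DK (fun l => t * v x l) (fun l => t * v y l) (fun l => t * v z l) k) →
    ∃ σ : Fin 3 → Equiv.Perm (Fin n), ∀ l, ∑ x, v x (σ x l) = 0

open Classical in
/-- The resonances in the lattice of relations. -/
lemma exists_dec [Nonempty X] (S : Seq X n) (F : Ultrafilter ℕ) (hF : (F : Filter ℕ) ≤ atTop)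
    (hn : 0 < n) (hDec : DecN n) {p : Fin 3 → X} (hp : Function.Injective p) (l0 : Fin n)
    (hD : ∀ᶠ j in (F : Filter ℕ), ∀ a : ℤ, IsCoprime a (S.N j : ℤ) →
      DPos p l0 fun x l => (a : ℝ) * S.e j x l)
    (hsc : ∀ x, (∀ i, x ≠ p i) → ∀ l, S.cl F (x, l) = S.cl F (x, l0))
    :
    ∃ σ : X → Equiv.Perm (Fin n), ∀ l, del (fun x => σ x l) ∈ S.R F := by
  have hne : ∀ κ : X → Fin n, ∑ x, S.cl F (x, κ x) = 0 → del κ ∈ S.R F := by
    intro κ h
    have h1 : (fun t => (del κ t : ℚ)) ∈ S.U F := by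
      rw [← Submodule.ker_mkQ (S.U F), LinearMap.mem_ker, ← S.sum_cl F, ← h,
        ← sum_del κ (fun t => S.cl F t)]
      refine sum_congr rfl fun t _ => ?_
      unfold del
      split_ifs <;> simp
    obtain ⟨d, hd, c, hc, hdc⟩ := S.clear F h1
    refine rel_sat hF (q := S.q) (E := fun j (t : X × Fin n) => S.E j t.1 t.2)
      (fun j i => S.hE j i.1 i.2) S.rough (d := d) hd ?_
    have : (fun i : X × Fin n => (d : ℤ) * del κ i) = c := by
      funext t
      have := hdc t
      exact_mod_cast this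
    rw [this]
    exact hc
  obtain ⟨f, hf⟩ := Module.exists_dual_forall_apply_ne_zero (K := ℚ)
    (fun κ : {κ : X → Fin n // ∑ x, S.cl F (x, κ x) ≠ 0} => ∑ x, S.cl F (x, κ.1 x))
    (fun κ => κ.2)
  have hf1 : ∀ κ : X → Fin n, f (∑ x, S.cl F (x, κ x)) = 0 → ∑ x, S.cl F (x, κ x) = 0 := by
    intro κ h
    by_contra hcon
    exact hf ⟨κ, hcon⟩ h
  obtain ⟨m, V, hm, hV⟩ := common_den fun t : X × Fin n => f (S.cl F t)
  have hm' : (0 : ℚ) < m := by exact_mod_cast hm
  -- the trace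
  have htr : ∑ x, ∑ l, V (x, l) = 0 := by
    have h1 : ∑ t : X × Fin n, f (S.cl F t) = 0 := by
      have h2 : (fun _ => (1 : ℚ)) ∈ S.U F :=
        Submodule.subset_span ⟨_, S.trace_mem F, by simp⟩
      rw [← Submodule.ker_mkQ (S.U F), LinearMap.mem_ker, ← S.sum_cl F] at h2
      have h3 := congrArg f h2
      simpa [map_sum] using h3
    have h2 : ∑ t : X × Fin n, (V t : ℚ) = 0 := by
      rw [← mul_zero (m : ℚ), ← h1, mul_sum]
      exact sum_congr rfl fun t _ => (hV t).symm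
    have h3 : ∑ t : X × Fin n, V t = 0 := by exact_mod_cast h2
    rwa [Fintype.sum_prod_type] at h3
  have hVeq : ∀ x i j, S.cl F (x, i) = S.cl F (x, j) → V (x, i) = V (x, j) := by
    intro x i j h
    have h1 : (V (x, i) : ℚ) = V (x, j) := by rw [← hV, ← hV, h]
    exact_mod_cast h1
  have hAnn : ∀ t : ℝ, S.Ann F (fun i => t * (V i : ℝ)) := by
    intro t c hc
    refine ⟨0, ?_⟩
    rw [Int.cast_zero, ← S.ann_of_form F f (t * m) c hc]
    refine sum_congr rfl fun i _ => ?_
    have h1 : ((m : ℚ) : ℝ) * ((f (S.cl F i) : ℚ) : ℝ) = ((V i : ℚ) : ℝ) := by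
      exact_mod_cast congrArg (fun r : ℚ => (r : ℝ)) (hV i)
    push_cast at h1
    show (c i : ℝ) * (t * (V i : ℝ)) = _
    rw [← h1]
    ring
  -- the scalar points
  have h01 : p 0 ≠ p 1 := fun e => absurd (hp e) (by decide)
  have h12 : p 1 ≠ p 2 := fun e => absurd (hp e) (by decide)
  have h02 : p 0 ≠ p 2 := fun e => absurd (hp e) (by decide)
  set O : Finset X := ((univ.erase (p 0)).erase (p 1)).erase (p 2) with hO
  have hmO : ∀ q, q ∈ O ↔ ∀ i, q ≠ p i := by
    intro q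
    simp only [hO, mem_erase, mem_univ, and_true]
    constructor
    · rintro ⟨a, b, c⟩ i
      fin_cases i
      · exact c
      · exact b
      · exact a
    · intro h
      exact ⟨h 2, h 1, h 0⟩
  have hOO : ∀ x y w : Fin 3, x ≠ y → y ≠ w → x ≠ w →
      ((univ.erase (p x)).erase (p y)).erase (p w) = O := by
    intro x y w hxy hyw hxw
    ext q
    rw [hmO]
    simp only [mem_erase, mem_univ, and_true]
    constructor
    · rintro ⟨a, b, c⟩ i
      have : i = x ∨ i = y ∨ i = w := by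
        clear a b c
        revert x y w i
        decide
      rcases this with e | e | e <;> rw [e] <;> assumption
    · intro h
      exact ⟨h w, h y, h x⟩
  have hVO : ∀ q ∈ O, ∀ l, V (q, l) = V (q, l0) := fun q hq l =>
    hVeq q l l0 (hsc q ((hmO q).1 hq) l)
  set s : ℤ := ∑ q ∈ O, V (q, l0) with hs
  set sft : Fin 3 → ℤ := fun x => if x = 2 then s else 0 with hsft
  set v : Fin 3 → Fin n → ℤ := fun x l => V (p x, l) + sft x with hv
  have hsfts : ∑ x, sft x = s := by simp [hsft]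
  have hXsum : ∀ (G : X → ℤ), ∑ x, G x = ∑ x : Fin 3, G (p x) + ∑ q ∈ O, G q := by
    intro G
    rw [sum_split h01 h12 h02, Fin.sum_univ_three]
  have hsum : ∑ x, ∑ l, v x l = 0 := by
    rw [hXsum] at htr
    simp only [hv, sum_add_distrib, sum_const, card_univ, Fintype.card_fin, nsmul_eq_mul, ← mul_sum,
      hsfts]
    rw [sum_congr rfl fun q hq => sum_congr rfl fun l _ => hVO q hq l] at htr
    simp only [sum_const, card_univ, Fintype.card_fin, nsmul_eq_mul, ← mul_sum] at htr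
    linarith
  obtain ⟨σ, hσ⟩ := hDec v hsum (by
    intro x y w hxy hyw hxw k t
    have h1 := dk_close S F hF hn hp l0 hD (hAnn t) x y w hxy hyw hxw k
    have h2 : (sft x : ℝ) + sft y + sft w = s := by
      have := sum3 hxy hyw hxw sft
      rw [hsfts] at this
      rw [this]
      push_cast
      ring
    have e1 : DK (fun l => t * (v x l : ℝ)) (fun l => t * (v y l : ℝ)) (fun l => t * (v w l : ℝ)) k =
        DK (fun l => t * (V (p x, l) : ℝ)) (fun l => t * (V (p y, l) : ℝ))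
          (fun l => t * (V (p w, l) : ℝ) + ∑ q ∈ ((univ.erase (p x)).erase (p y)).erase (p w),
            t * (V (q, l0) : ℝ)) k := by
      have e2 : ∀ x : Fin 3, (fun l => t * (v x l : ℝ)) =
          fun l => t * (V (p x, l) : ℝ) + t * (sft x : ℝ) := by
        intro x
        funext l
        simp only [hv]
        push_cast
        ring
      rw [e2, e2, e2, DK_add, hOO x y w hxy hyw hxw, ← mul_sum]
      have e3 : t * (sft x : ℝ) + t * sft y + t * sft w = t * ∑ q ∈ O, (V (q, l0) : ℝ) := by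
        rw [← mul_add, ← mul_add, h2, hs]
        push_cast
        rfl
      rw [e3]
    rw [e1]
    exact h1)
  -- the permutations
  let τ : X → Equiv.Perm (Fin n) := fun x => if x = p 0 then σ 0 else
    if x = p 1 then σ 1 else if x = p 2 then σ 2 else 1
  have hτ : ∀ x, τ (p x) = σ x := by
    intro x
    fin_cases x
    · simp [τ]
    · simp [τ, h01.symm]
    · simp [τ, h02.symm, h12.symm]
  refine ⟨τ, fun l => hne _ (hf1 _ ?_)⟩
  have h3 : ∑ x, V (x, τ x l) = 0 := by
    rw [hXsum, sum_congr rfl fun q hq => hVO q hq _, ← hs, ← hσ l]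
    simp only [hv, hτ, sum_add_distrib, hsfts]
  rw [map_sum]
  have h1 : (m : ℚ) * ∑ x, f (S.cl F (x, τ x l)) = 0 := by
    rw [mul_sum, sum_congr rfl fun x _ => hV _]
    exact_mod_cast h3
  rcases mul_eq_zero.1 h1 with h | h
  · exact absurd h hm'.ne'
  · exact h

open Classical in
/-- Decomposition. -/
theorem abs_dec (X : Type*) [Fintype X] [DecidableEq X] [Nonempty X] (n : ℕ) (hn : 0 < n)
    (hDec : DecN n) :
    ∃ B : ℕ, ∀ (e : X → Fin n → ℚ) (q N : ℕ) (p : Fin 3 → X), Function.Injective p →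
      0 < q → 0 < N →
      (∀ p : ℕ, p.Prime → p ∣ q → B < p) →
      (∀ x l l', ∃ w : ℤ, (q : ℚ) * (e x l - e x l') = w) →
      (∃ w : ℤ, ∑ x, ∑ l, e x l = w) →
      (∀ a : ℤ, IsCoprime a (N : ℤ) → LineSS fun x l => (a : ℝ) * e x l) →
      (∀ a : ℤ, IsCoprime a (N : ℤ) → DPos p ⟨0, hn⟩ fun x l => (a : ℝ) * e x l) →
      (∀ x, (∀ i, x ≠ p i) → ∀ l l', ∃ z : ℤ, e x l - e x l' = z) →
      ∃ σ : X → Equiv.Perm (Fin n), ∀ l, ∃ w : ℤ, ∑ x, e x (σ x l) = w := by
  by_contra hcon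
  push Not at hcon
  choose e q N p hp hq hN hrough hd ht hSS hDP hsc hfail using fun j : ℕ => hcon (j + n)
  have hnorm : ∀ j, ∃ (E : X → Fin n → ℚ) (ε : X → ℚ), (∀ x l, e j x l = E x l + ε x) ∧
      (∀ x l, ∃ z : ℤ, (q j : ℚ) * E x l = z) ∧ ∃ k : ℤ, (n : ℚ) * ∑ x, ε x = k := fun j =>
    normalize hn (hq j) (coprime_rough (hrough j) hn (by omega)) (hd j) (ht j)
  choose E ε he hE hε using hnorm
  let S : Seq X n :=
    { e := e, E := E, ε := ε, q := q, N := N, hq := hq, hN := hN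
      rough := fun j p hp hpq => by have := hrough j p hp hpq; omega
      he := he, hE := hE, hε := hε, htr := ht, hSS := hSS }
  set F : Ultrafilter ℕ := Filter.hyperfilter ℕ with hFdef
  have hF : (F : Filter ℕ) ≤ atTop := Nat.hyperfilter_le_atTop
  -- the three points
  obtain ⟨p₀, hp₀⟩ : ∃ p₀ : Fin 3 → X, ∀ᶠ j in (F : Filter ℕ), p j = p₀ := by
    by_contra hno
    have h1 : ∀ p₀ : Fin 3 → X, ∀ᶠ j in (F : Filter ℕ), ¬ p j = p₀ := fun p₀ =>
      Ultrafilter.eventually_not.2 fun h => hno ⟨p₀, h⟩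
    obtain ⟨j, hj⟩ := (Filter.eventually_all.2 h1).exists
    exact hj (p j) rfl
  have hp₀i : Function.Injective p₀ := by
    obtain ⟨j, hj⟩ := hp₀.exists
    rw [← hj]
    exact hp j
  have hDP' : ∀ᶠ j in (F : Filter ℕ), ∀ a : ℤ, IsCoprime a (S.N j : ℤ) →
      DPos p₀ ⟨0, hn⟩ fun x l => (a : ℝ) * S.e j x l := by
    filter_upwards [hp₀] with j hj a ha
    rw [← hj]
    exact hDP j a ha
  have hsc' : ∀ x, (∀ i, x ≠ p₀ i) → ∀ l, S.cl F (x, l) = S.cl F (x, ⟨0, hn⟩) := by
    intro x hx l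
    rw [cl_eq_iff S F hF]
    filter_upwards [hp₀] with j hj
    exact hsc j x (by rw [hj]; exact hx) l ⟨0, hn⟩
  obtain ⟨σ, hσ⟩ := exists_dec S F hF hn hDec hp₀i ⟨0, hn⟩ hDP' hsc'
  have h1 : ∀ᶠ j in (F : Filter ℕ), ∀ l : Fin n, ∃ w : ℤ,
      ∑ x, ∑ l', ((del (fun x => σ x l) (x, l') : ℤ) : ℚ) * S.e j x l' = w :=
    Filter.eventually_all.2 fun l => int_of_degree S F hF hn (hσ l) (d := 1) (by
      intro x
      unfold del
      simp)
  obtain ⟨j, hj⟩ := h1.exists
  obtain ⟨l, hl⟩ := hfail j σ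
  obtain ⟨w, hw⟩ := hj l
  apply hl w
  rw [← hw]
  refine sum_congr rfl fun x _ => ?_
  show e j x (σ x l) = ∑ l', ((del (fun x => σ x l) (x, l') : ℤ) : ℚ) * e j x l'
  unfold del
  simp

end Pool.Agent.N858.R3
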