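import Pool.Agent.N858.R3.Dec

set_option autoImplicit false

/-!
Rank three, three points: the strict inequalities for the resonances imply that the exponents at the
three points agree up to shifts.
-/

open Finset

namespace Pool.Agent.N858.R3

open Pool.Agent.N858.R4

/-- No difference at the same point, multiplied by `t`, is an integer, unless it is zero. -/
def Gen {Y : Type*} {n : ℕ} (v : Y → Fin n → ℤ) (t : ℝ) : Prop :=
  ∀ y l l', v y l ≠ v y l' → ¬ ∃ z : ℤ, t * ((v y l - v y l' : ℤ) : ℝ) = z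

/-- The strict inequalities for line subbundles given by resonances. -/
def Strict {Y : Type*} [Fintype Y] {n : ℕ} (v : Y → Fin n → ℤ) : Prop :=
  ∀ (t : ℝ) (κ : Y → Fin n), Gen v t → ∑ y, v y (κ y) = 0 →
    ∑ y, ∑ l, ⌊t * ((v y l - v y (κ y) : ℤ) : ℝ)⌋ + n ≤ 0

lemma Strict.perm {Y : Type*} [Fintype Y] {n : ℕ} {v : Y → Fin n → ℤ} (h : Strict v)
    (τ : Y → Equiv.Perm (Fin n)) : Strict fun y l => v y (τ y l) := by
  intro t κ hG hκ
  have h1 := h t (fun y => τ y (κ y)) (by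
    intro y l l' hne hz
    obtain ⟨a, rfl⟩ := (τ y).surjective l
    obtain ⟨b, rfl⟩ := (τ y).surjective l'
    exact hG y a b hne hz) hκ
  rw [sum_congr rfl fun y _ => (Equiv.sum_comp (τ y) fun l =>
    ⌊t * ((v y l - v y (τ y (κ y)) : ℤ) : ℝ)⌋).symm] at h1
  exact h1

/-- The numbers of smaller and of larger exponents. -/
lemma Strict.less {Y : Type*} [Fintype Y] {n : ℕ} {v : Y → Fin n → ℤ} (h : Strict v)
    {κ : Y → Fin n} (hκ : ∑ y, v y (κ y) = 0) :
    (n : ℤ) ≤ (∑ y, ∑ l, if v y l < v y (κ y) then 1 else 0) ∧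
      (n : ℤ) ≤ ∑ y, ∑ l, if v y (κ y) < v y l then 1 else 0 := by
  classical
  obtain ⟨P, hP⟩ : ∃ P : ℤ, P = 1 + ∑ y, ∑ l, ∑ l', |v y l - v y l'| := ⟨_, rfl⟩
  have hb : ∀ y l l', |v y l - v y l'| < P := by
    intro y l l'
    have h1 : |v y l - v y l'| ≤ ∑ l', |v y l - v y l'| :=
      single_le_sum (f := fun l' => |v y l - v y l'|) (fun _ _ => abs_nonneg _) (mem_univ l')
    have h2 : ∑ l', |v y l - v y l'| ≤ ∑ l, ∑ l', |v y l - v y l'| :=
      single_le_sum (f := fun l => ∑ l', |v y l - v y l'|)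
        (fun _ _ => sum_nonneg fun _ _ => abs_nonneg _) (mem_univ l)
    have h3 : ∑ l, ∑ l', |v y l - v y l'| ≤ ∑ y, ∑ l, ∑ l', |v y l - v y l'| :=
      single_le_sum (f := fun y => ∑ l, ∑ l', |v y l - v y l'|)
        (fun _ _ => sum_nonneg fun _ _ => sum_nonneg fun _ _ => abs_nonneg _) (mem_univ y)
    omega
  have hP0 : 0 < P := by
    rw [hP]
    have : 0 ≤ ∑ y, ∑ l, ∑ l', |v y l - v y l'| :=
      sum_nonneg fun _ _ => sum_nonneg fun _ _ => sum_nonneg fun _ _ => abs_nonneg _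
    omega
  have hPr : (0 : ℝ) < P := by exact_mod_cast hP0
  have hG : ∀ s : ℝ, (s = 1 ∨ s = -1) → Gen v (s / P) := by
    intro s hs y l l' hne ⟨z, hz⟩
    have h1 : s * ((v y l - v y l' : ℤ) : ℝ) = P * z := by
      rw [← hz]
      field_simp
    have h2 : v y l - v y l' = P * z ∨ -(v y l - v y l') = P * z := by
      rcases hs with rfl | rfl
      · left
        rw [one_mul] at h1
        exact_mod_cast h1
      · right
        rw [neg_one_mul] at h1
        exact_mod_cast h1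
    have h3 := hb y l l'
    have h4 : |v y l - v y l'| = P * |z| := by
      rcases h2 with h2 | h2
      · rw [h2, abs_mul, abs_of_pos hP0]
      · rw [← abs_neg, h2, abs_mul, abs_of_pos hP0]
    have h5 : z = 0 := by
      by_contra hz0
      have h6 : 1 ≤ |z| := Int.one_le_abs hz0
      nlinarith
    rw [h5, abs_zero, mul_zero, abs_eq_zero] at h4
    omega
  have hfl : ∀ d : ℤ, |d| < P → ⌊1 / (P : ℝ) * (d : ℝ)⌋ = -(if d < 0 then 1 else 0) := by
    intro d hd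
    rw [abs_lt] at hd
    split_ifs with h0
    · rw [Int.floor_eq_iff]
      push_cast
      have h1 : (-(P : ℝ)) < d := by exact_mod_cast hd.1
      have h2 : (d : ℝ) < 0 := by exact_mod_cast h0
      constructor
      · rw [one_div, ← div_eq_inv_mul, le_div_iff₀ hPr]; linarith
      · rw [one_div, ← div_eq_inv_mul, div_lt_iff₀ hPr]; linarith
    · rw [Int.floor_eq_iff]
      push_cast
      have h1 : (d : ℝ) < P := by exact_mod_cast hd.2
      have h2 : (0 : ℝ) ≤ d := by exact_mod_cast (not_lt.1 h0)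
      constructor
      · rw [neg_zero]; positivity
      · rw [one_div, ← div_eq_inv_mul, div_lt_iff₀ hPr]; linarith
  constructor
  · have h1 := h (1 / P) κ (hG 1 (Or.inl rfl)) hκ
    have h2 : ∑ y, ∑ l, ⌊1 / (P : ℝ) * ((v y l - v y (κ y) : ℤ) : ℝ)⌋ =
        -∑ y, ∑ l, if v y l < v y (κ y) then 1 else 0 := by
      rw [← sum_neg_distrib]
      refine sum_congr rfl fun y _ => ?_
      rw [← sum_neg_distrib]
      refine sum_congr rfl fun l _ => ?_
      rw [hfl _ (hb y l (κ y))]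
      have : (v y l - v y (κ y) < 0) ↔ (v y l < v y (κ y)) := by omega
      simp only [this]
    rw [h2] at h1
    omega
  · have h1 := h (-1 / P) κ (hG (-1) (Or.inr rfl)) hκ
    have h2 : ∑ y, ∑ l, ⌊-1 / (P : ℝ) * ((v y l - v y (κ y) : ℤ) : ℝ)⌋ =
        -∑ y, ∑ l, if v y (κ y) < v y l then 1 else 0 := by
      rw [← sum_neg_distrib]
      refine sum_congr rfl fun y _ => ?_
      rw [← sum_neg_distrib]
      refine sum_congr rfl fun l _ => ?_
      have e : -1 / (P : ℝ) * ((v y l - v y (κ y) : ℤ) : ℝ) =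
          1 / (P : ℝ) * ((v y (κ y) - v y l : ℤ) : ℝ) := by
        push_cast; ring
      rw [e, hfl _ (hb y (κ y) l)]
      have : (v y (κ y) - v y l < 0) ↔ (v y (κ y) < v y l) := by omega
      simp only [this]
    rw [h2] at h1
    omega

section floors

variable {P : ℤ}

/-- The parameter just above `1 / P`. -/
noncomputable def tp (P : ℤ) : ℝ := 2 / (2 * P - 1)

lemma tp_zero (hP : 2 ≤ P) {d : ℤ} (h0 : 0 ≤ d) (h1 : d < P) : ⌊tp P * (d : ℝ)⌋ = 0 := by
  have hd : (0 : ℝ) < 2 * P - 1 := by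
    have : (2 : ℝ) ≤ P := by exact_mod_cast hP
    linarith
  rw [Int.floor_eq_iff, tp]
  push_cast
  have h2 : (0 : ℝ) ≤ d := by exact_mod_cast h0
  have h3 : (d : ℝ) + 1 ≤ P := by exact_mod_cast h1
  constructor
  · positivity
  · rw [div_mul_eq_mul_div, div_lt_iff₀ hd]; linarith

lemma tp_one (hP : 2 ≤ P) : ⌊tp P * (P : ℝ)⌋ = 1 := by
  have h2 : (2 : ℝ) ≤ P := by exact_mod_cast hP
  have hd : (0 : ℝ) < 2 * P - 1 := by linarith
  rw [Int.floor_eq_iff, tp]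
  push_cast
  constructor
  · rw [div_mul_eq_mul_div, le_div_iff₀ hd]; linarith
  · rw [div_mul_eq_mul_div, div_lt_iff₀ hd]; linarith

lemma tp_neg (hP : 2 ≤ P) {d : ℤ} (h0 : d < 0) (h1 : -P < d) : ⌊tp P * (d : ℝ)⌋ = -1 := by
  have h2 : (2 : ℝ) ≤ P := by exact_mod_cast hP
  have hd : (0 : ℝ) < 2 * P - 1 := by linarith
  have h3 : (d : ℝ) + 1 ≤ 0 := by exact_mod_cast h0
  have h4 : -(P : ℝ) + 1 ≤ d := by exact_mod_cast h1
  rw [Int.floor_eq_iff, tp]
  push_cast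
  constructor
  · rw [div_mul_eq_mul_div, le_div_iff₀ hd]; linarith
  · rw [div_mul_eq_mul_div, div_lt_iff₀ hd]; linarith

lemma tp_two (hP : 2 ≤ P) {d : ℤ} (h : d = -P) : ⌊tp P * (d : ℝ)⌋ = -2 := by
  have h2 : (2 : ℝ) ≤ P := by exact_mod_cast hP
  have hd : (0 : ℝ) < 2 * P - 1 := by linarith
  rw [Int.floor_eq_iff, tp, h]
  push_cast
  constructor
  · rw [div_mul_eq_mul_div, le_div_iff₀ hd]; linarith
  · rw [div_mul_eq_mul_div, div_lt_iff₀ hd]; linarith

lemma tp_gen (hP : 2 ≤ P) {d : ℤ} (h0 : d ≠ 0) (h1 : |d| ≤ P) :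
    ¬ ∃ z : ℤ, tp P * (d : ℝ) = z := by
  rintro ⟨z, hz⟩
  have h2 : (2 : ℝ) ≤ P := by exact_mod_cast hP
  have hd : (0 : ℝ) < 2 * P - 1 := by linarith
  rw [tp, div_mul_eq_mul_div, div_eq_iff hd.ne'] at hz
  have h3 : 2 * d = z * (2 * P - 1) := by exact_mod_cast hz
  rw [abs_le] at h1
  have h4 : z ≠ 0 := by
    rintro rfl
    rw [zero_mul] at h3
    omega
  have h5 : z < 2 := by
    by_contra h
    push Not at h
    nlinarith
  have h6 : -2 < z := by
    by_contra h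
    push Not at h
    nlinarith
  have h7 : z = 1 ∨ z = -1 := by omega
  rcases h7 with rfl | rfl <;> omega

/-- The sums of the values at the parameter just above `1 / P`. -/
lemma tp_sums (hP : 2 ≤ P) {a : Fin 3 → ℤ} (h0 : a 0 < a 1) (h1 : a 1 < a 2) (h2 : a 2 - a 0 ≤ P) :
    (∑ l, ⌊tp P * ((a l - a 0 : ℤ) : ℝ)⌋ = if a 2 - a 0 = P then 1 else 0) ∧
      (∑ l, ⌊tp P * ((a l - a 1 : ℤ) : ℝ)⌋ = -1) ∧
      (∑ l, ⌊tp P * ((a l - a 2 : ℤ) : ℝ)⌋ = -2 - if a 2 - a 0 = P then 1 else 0) := by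
  simp only [Fin.sum_univ_three]
  refine ⟨?_, ?_, ?_⟩
  · rw [tp_zero hP (d := a 0 - a 0) (by omega) (by omega),
      tp_zero hP (d := a 1 - a 0) (by omega) (by omega)]
    split_ifs with h
    · rw [h, tp_one hP]; norm_num
    · rw [tp_zero hP (by omega) (by omega)]; norm_num
  · rw [tp_neg hP (d := a 0 - a 1) (by omega) (by omega),
      tp_zero hP (d := a 1 - a 1) (by omega) (by omega),
      tp_zero hP (d := a 2 - a 1) (by omega) (by omega)]
    norm_num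
  · rw [tp_neg hP (d := a 1 - a 2) (by omega) (by omega),
      tp_zero hP (d := a 2 - a 2) (by omega) (by omega)]
    split_ifs with h
    · rw [tp_two hP (d := a 0 - a 2) (by omega)]; norm_num
    · rw [tp_neg hP (d := a 0 - a 2) (by omega) (by omega)]; norm_num

end floors

set_option maxRecDepth 100000 in
lemma cyc : ∀ ρ0 ρ1 ρ2 : Equiv.Perm (Fin 3),
    (∀ l, ((ρ0 l : Fin 3) : ℕ) + ((ρ1 l : Fin 3) : ℕ) + ((ρ2 l : Fin 3) : ℕ) = 3) →
    ((∃ l, ρ0 l = 0 ∧ ρ1 l = 1 ∧ ρ2 l = 2) ∧ (∃ l, ρ0 l = 1 ∧ ρ1 l = 2 ∧ ρ2 l = 0) ∧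
      (∃ l, ρ0 l = 2 ∧ ρ1 l = 0 ∧ ρ2 l = 1)) ∨
    ((∃ l, ρ0 l = 0 ∧ ρ1 l = 2 ∧ ρ2 l = 1) ∧ (∃ l, ρ0 l = 1 ∧ ρ1 l = 0 ∧ ρ2 l = 2) ∧
      (∃ l, ρ0 l = 2 ∧ ρ1 l = 1 ∧ ρ2 l = 0)) := by
  decide +kernel

/-- The same gaps. -/
lemma gaps {u : Fin 3 → Fin 3 → ℤ} (hs : Strict u) (h0 : ∀ y, u y 0 < u y 1)
    (h1 : ∀ y, u y 1 < u y 2) {a b c : Fin 3} (hab : a ≠ b) (hbc : b ≠ c) (hac : a ≠ c)
    (r1 : u a 0 + u b 1 + u c 2 = 0) (r2 : u a 1 + u b 2 + u c 0 = 0)
    (r3 : u a 2 + u b 0 + u c 1 = 0) :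
    u a 1 - u a 0 = u b 1 - u b 0 ∧ u a 1 - u a 0 = u c 1 - u c 0 ∧
      u a 2 - u a 0 = u b 2 - u b 0 ∧ u a 2 - u a 0 = u c 2 - u c 0 := by
  obtain ⟨P, hPa, hPb, hPc, hP⟩ : ∃ P : ℤ, u a 2 - u a 0 ≤ P ∧ u b 2 - u b 0 ≤ P ∧
      u c 2 - u c 0 ≤ P ∧ (u a 2 - u a 0 = P ∨ u b 2 - u b 0 = P ∨ u c 2 - u c 0 = P) := by
    rcases le_total (u a 2 - u a 0) (u b 2 - u b 0) with h | h <;>
      rcases le_total (u a 2 - u a 0) (u c 2 - u c 0) with h' | h' <;>
      rcases le_total (u b 2 - u b 0) (u c 2 - u c 0) with h'' | h''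
    all_goals first
      | exact ⟨u a 2 - u a 0, le_rfl, by omega, by omega, Or.inl rfl⟩
      | exact ⟨u b 2 - u b 0, by omega, le_rfl, by omega, Or.inr (Or.inl rfl)⟩
      | exact ⟨u c 2 - u c 0, by omega, by omega, le_rfl, Or.inr (Or.inr rfl)⟩
  have a0 := h0 a
  have a1 := h1 a
  have b0 := h0 b
  have b1 := h1 b
  have c0 := h0 c
  have c1 := h1 c
  have hP2 : 2 ≤ P := by omega
  have hall : ∀ y, y = a ∨ y = b ∨ y = c := by
    intro y
    revert hab hbc hac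
    clear * -
    revert a b c y
    decide
  have hsp : ∀ y l l', |u y l - u y l'| ≤ P := by
    intro y l l'
    have k0 := h0 y
    have k1 := h1 y
    have k2 : u y 2 - u y 0 ≤ P := by
      rcases hall y with e | e | e <;> rw [e] <;> assumption
    rw [abs_le]
    fin_cases l <;> fin_cases l' <;> simp <;> omega
  have hG : Gen u (tp P) := by
    intro y l l' hne
    exact tp_gen hP2 (by omega) (hsp y l l')
  have hκ : ∀ i j k : Fin 3, u a i + u b j + u c k = 0 →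
      (∑ l, ⌊tp P * ((u a l - u a i : ℤ) : ℝ)⌋) + (∑ l, ⌊tp P * ((u b l - u b j : ℤ) : ℝ)⌋) +
        (∑ l, ⌊tp P * ((u c l - u c k : ℤ) : ℝ)⌋) + 3 ≤ 0 := by
    intro i j k hijk
    have h2 := hs (tp P) (fun y => if y = a then i else if y = b then j else k) hG (by
      rw [sum3 hab hbc hac fun y => u y (if y = a then i else if y = b then j else k)]
      simp only [if_true, hab.symm, hac.symm, hbc.symm, if_false]
      exact hijk)
    rw [sum3 hab hbc hac fun y => ∑ l, ⌊tp P *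
      ((u y l - u y (if y = a then i else if y = b then j else k) : ℤ) : ℝ)⌋] at h2
    simp only [if_true, hab.symm, hac.symm, hbc.symm, if_false] at h2
    exact_mod_cast h2
  have k1 := hκ 0 1 2 r1
  have k2 := hκ 1 2 0 r2
  have k3 := hκ 2 0 1 r3
  obtain ⟨A0, A1, A2⟩ := tp_sums hP2 a0 a1 hPa
  obtain ⟨B0, B1, B2⟩ := tp_sums hP2 b0 b1 hPb
  obtain ⟨C0, C1, C2⟩ := tp_sums hP2 c0 c1 hPc
  rw [A0, B1, C2] at k1
  rw [A1, B2, C0] at k2
  rw [A2, B0, C1] at k3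
  have : u a 2 - u a 0 = P ∧ u b 2 - u b 0 = P ∧ u c 2 - u c 0 = P := by
    clear A0 A1 A2 B0 B1 B2 C0 C1 C2 hκ hG hsp hall hs h0 h1
    split_ifs at k1 k2 k3 <;> omega
  omega

lemma less_mu (a : Fin 3 → ℤ) (k : Fin 3) :
    (∑ l, if a l < a k then (1 : ℤ) else 0) + (∑ l, if a k < a l then (1 : ℤ) else 0) +
      mu (fun i j => a i = a j) k = 3 := by
  unfold mu
  rw [← sum_add_distrib, ← sum_add_distrib]
  have : ∀ l : Fin 3, ((if a l < a k then (1 : ℤ) else 0) + (if a k < a l then (1 : ℤ) else 0)) +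
      (if a k = a l then (1 : ℤ) else 0) = 1 := by
    intro l
    rcases lt_trichotomy (a l) (a k) with h | h | h
    · rw [if_pos h, if_neg (by omega), if_neg (by omega)]; norm_num
    · rw [if_neg (by omega), if_neg (by omega), if_pos h.symm]; norm_num
    · rw [if_neg (by omega), if_pos h, if_neg (by omega)]; norm_num
  rw [sum_congr rfl fun l _ => this l]
  simp

lemma pos_sorted {a : Fin 3 → ℤ} (h0 : a 0 < a 1) (h1 : a 1 < a 2) (k : Fin 3) :
    (∑ l, if a l < a k then (1 : ℤ) else 0) = ((k : ℕ) : ℤ) ∧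
      (∑ l, if a k < a l then (1 : ℤ) else 0) = 2 - ((k : ℕ) : ℤ) := by
  have h2 : a 0 < a 2 := h0.trans h1
  have e0 : ¬ a 1 < a 0 := by omega
  have e1 : ¬ a 2 < a 1 := by omega
  have e2 : ¬ a 2 < a 0 := by omega
  simp only [Fin.sum_univ_three]
  fin_cases k
  · simp [h0, h2, e0, e2]
  · simp [h0, h1, e0, e1]
  · simp [h1, h2, e1, e2]

/-- **The exponents at the three points agree up to shifts.** -/
theorem same3 {v : Fin 3 → Fin 3 → ℤ} (hs : Strict v) {σ : Fin 3 → Equiv.Perm (Fin 3)}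
    (hσ : ∀ l, ∑ x, v x (σ x l) = 0) :
    (∀ x, Function.Injective (v x)) ∧ ∃ τ : Fin 3 → Equiv.Perm (Fin 3), ∀ x y l l',
      v x (τ x l) - v x (τ x l') = v y (τ y l) - v y (τ y l') := by
  have hmu : ∀ (κ : Fin 3 → Fin 3), ∑ x, v x (κ x) = 0 → ∀ y,
      mu (fun i j => v y i = v y j) (κ y) = 1 := by
    intro κ hκ
    obtain ⟨h1, h2⟩ := hs.less hκ
    rw [Fin.sum_univ_three] at h1 h2
    have k0 := less_mu (v 0) (κ 0)
    have k1 := less_mu (v 1) (κ 1)
    have k2 := less_mu (v 2) (κ 2)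
    have m0 := pr_mu (v 0) (κ 0)
    have m1 := pr_mu (v 1) (κ 1)
    have m2 := pr_mu (v 2) (κ 2)
    push_cast at h1 h2
    intro y
    fin_cases y
    · show mu (fun i j => v 0 i = v 0 j) (κ 0) = 1
      omega
    · show mu (fun i j => v 1 i = v 1 j) (κ 1) = 1
      omega
    · show mu (fun i j => v 2 i = v 2 j) (κ 2) = 1
      omega
  have hinj : ∀ x, Function.Injective (v x) := by
    intro y l l' hll
    by_contra hne
    have h1 := hmu (fun x => σ x ((σ y).symm l)) (hσ _) y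
    simp only [Equiv.apply_symm_apply] at h1
    exact mu_two hne hll h1
  refine ⟨hinj, ?_⟩
  choose τ hτ0 hτ1 using fun x => exists_sort (hinj x)
  set u : Fin 3 → Fin 3 → ℤ := fun y l => v y (τ y l) with hu
  have hsu : Strict u := hs.perm τ
  have u0 : ∀ y, u y 0 < u y 1 := hτ0
  have u1 : ∀ y, u y 1 < u y 2 := hτ1
  set ρ : Fin 3 → Equiv.Perm (Fin 3) := fun y => (σ y).trans (τ y).symm with hρ
  have hur : ∀ l, ∑ y, u y (ρ y l) = 0 := by
    intro l
    rw [← hσ l]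
    refine sum_congr rfl fun y _ => ?_
    simp [hu, hρ]
  have hpos : ∀ l, ((ρ 0 l : Fin 3) : ℕ) + ((ρ 1 l : Fin 3) : ℕ) + ((ρ 2 l : Fin 3) : ℕ) = 3 := by
    intro l
    obtain ⟨h1, h2⟩ := hsu.less (hur l)
    rw [Fin.sum_univ_three] at h1 h2
    rw [(pos_sorted (u0 0) (u1 0) _).1, (pos_sorted (u0 1) (u1 1) _).1,
      (pos_sorted (u0 2) (u1 2) _).1] at h1
    rw [(pos_sorted (u0 0) (u1 0) _).2, (pos_sorted (u0 1) (u1 1) _).2,
      (pos_sorted (u0 2) (u1 2) _).2] at h2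
    push_cast at h1 h2
    omega
  have hr : ∀ i j k : Fin 3, (∃ l, ρ 0 l = i ∧ ρ 1 l = j ∧ ρ 2 l = k) →
      u 0 i + u 1 j + u 2 k = 0 := by
    rintro i j k ⟨l, rfl, rfl, rfl⟩
    have := hur l
    rwa [Fin.sum_univ_three] at this
  have key : ∃ g1 g2 : ℤ, ∀ y, u y 1 = u y 0 + g1 ∧ u y 2 = u y 0 + g2 := by
    rcases cyc (ρ 0) (ρ 1) (ρ 2) hpos with ⟨h1, h2, h3⟩ | ⟨h1, h2, h3⟩
    · obtain ⟨a1, a2, a3, a4⟩ := gaps hsu u0 u1 (a := 0) (b := 1) (c := 2) (by decide) (by decide)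
        (by decide) (hr _ _ _ h1) (hr _ _ _ h2) (hr _ _ _ h3)
      refine ⟨u 0 1 - u 0 0, u 0 2 - u 0 0, fun y => ?_⟩
      fin_cases y
      · exact ⟨by simp, by simp⟩
      · exact ⟨by show u 1 1 = u 1 0 + _; omega, by show u 1 2 = u 1 0 + _; omega⟩
      · exact ⟨by show u 2 1 = u 2 0 + _; omega, by show u 2 2 = u 2 0 + _; omega⟩
    · have e1 := hr _ _ _ h1
      have e2 := hr _ _ _ h2
      have e3 := hr _ _ _ h3
      obtain ⟨a1, a2, a3, a4⟩ := gaps hsu u0 u1 (a := 0) (b := 2) (c := 1) (by decide) (by decide)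
        (by decide) (by omega) (by omega) (by omega)
      refine ⟨u 0 1 - u 0 0, u 0 2 - u 0 0, fun y => ?_⟩
      fin_cases y
      · exact ⟨by simp, by simp⟩
      · exact ⟨by show u 1 1 = u 1 0 + _; omega, by show u 1 2 = u 1 0 + _; omega⟩
      · exact ⟨by show u 2 1 = u 2 0 + _; omega, by show u 2 2 = u 2 0 + _; omega⟩
  obtain ⟨g1, g2, hg⟩ := key
  have hgl : ∀ y l, u y l = u y 0 + ![0, g1, g2] l := by
    intro y l
    fin_cases l
    · simp
    · exact (hg y).1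
    · exact (hg y).2
  refine ⟨τ, fun x y l l' => ?_⟩
  have h1 := hgl x l
  have h2 := hgl x l'
  have h3 := hgl y l
  have h4 := hgl y l'
  simp only [hu] at h1 h2 h3 h4
  omega

end Pool.Agent.N858.R3
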