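import Pool.Agent.N858.R3.Str
import Pool.Agent.N858.R3.Same
import Pool.Agent.N858.R3.Abs3

set_option autoImplicit false

/-!
The strict inequalities for a generic one-parameter subgroup of the annihilator.
-/

open Finset Filter

namespace Pool.Agent.N858.R3

open Pool.Agent.N858.PC
open Pool.Agent.N858.R4

variable {X : Type*} [Fintype X] [DecidableEq X] {n : ℕ}

/-- The difference of two exponents at a point. -/
def dif (x : X) (i i' : Fin n) : X × Fin n → ℤ := Pi.single (x, i) 1 - Pi.single (x, i') 1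

lemma sum_dif {R : Type*} [CommRing R] (x : X) (i i' : Fin n) (g : X × Fin n → R) :
    ∑ t, ((dif x i i' t : ℤ) : R) * g t = g (x, i) - g (x, i') := by
  have e1 : ∀ t : X × Fin n, ((dif x i i' t : ℤ) : R) * g t = (if t = (x, i) then g t else 0) -
      (if t = (x, i') then g t else 0) := by
    intro t
    simp only [dif, Pi.sub_apply, Pi.single_apply]
    split_ifs <;> simp
  rw [sum_congr rfl fun t _ => e1 t, sum_sub_distrib, sum_ite_eq', sum_ite_eq',
    if_pos (mem_univ _), if_pos (mem_univ _)]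

lemma sum_del' {R : Type*} [CommRing R] (κ : X → Fin n) (g : X × Fin n → R) :
    ∑ t, ((del κ t : ℤ) : R) * g t = ∑ x, g (x, κ x) := by
  rw [← sum_del κ g]
  refine sum_congr rfl fun t _ => ?_
  unfold del
  split_ifs <;> simp

lemma cl_of_dif (S : Seq X n) (F : Ultrafilter ℕ) {x : X} {i i' : Fin n}
    (h : dif x i i' ∈ S.R F) : S.cl F (x, i) = S.cl F (x, i') := by
  rw [cl_sub]
  exact Submodule.subset_span ⟨_, h, rfl⟩

open Classical in
/-- The vectors for which the one-parameter subgroup has to be generic. -/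
noncomputable def fam (X : Type*) [Fintype X] [DecidableEq X] (n : ℕ) : Finset (X × Fin n → ℤ) :=
  (univ.image fun κ : X → Fin n => del κ) ∪
    (univ.image fun t : X × Fin n × Fin n => dif t.1 t.2.1 t.2.2) ∪
    (univ.image fun t : (X × Fin n × Fin n) × (X × Fin n × Fin n) =>
      dif t.1.1 t.1.2.1 t.1.2.2 - dif t.2.1 t.2.2.1 t.2.2.2) ∪
    (univ.image fun t : (X × Fin n × Fin n) × (X × Fin n × Fin n) =>
      dif t.1.1 t.1.2.1 t.1.2.2 + dif t.2.1 t.2.2.1 t.2.2.2)

/-- A generic vector of the annihilator. -/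
structure Gv (S : Seq X n) (F : Ultrafilter ℕ) (V : X × Fin n → ℤ) : Prop where
  ann : ∀ t : ℝ, S.Ann F fun i => t * (V i : ℝ)
  rel : ∀ c ∈ S.R F, ∑ i, c i * V i = 0
  del : ∀ κ : X → Fin n, ∑ x, V (x, κ x) = 0 → del κ ∈ S.R F
  dif : ∀ x i i', V (x, i) = V (x, i') → dif x i i' ∈ S.R F
  quad : ∀ x i i' y j j', V (x, i) - V (x, i') = V (y, j) - V (y, j') →
    R3.dif x i i' - R3.dif y j j' ∈ S.R F
  quad' : ∀ x i i' y j j', V (x, i) - V (x, i') = -(V (y, j) - V (y, j')) →
    R3.dif x i i' + R3.dif y j j' ∈ S.R F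

lemma exists_gv (S : Seq X n) (F : Ultrafilter ℕ) (hF : (F : Filter ℕ) ≤ atTop) :
    ∃ V, Gv S F V := by
  classical
  obtain ⟨V, h1, h2, h3⟩ := generic S F hF (fam X n)
  have hd : ∀ (x : X) (i i' : Fin n), ∑ t, dif x i i' t * V t = V (x, i) - V (x, i') := by
    intro x i i'
    have := sum_dif (R := ℤ) x i i' V
    simpa using this
  refine ⟨V, h1, h2, fun κ hκ => h3 _ ?_ ?_, fun x i i' h => h3 _ ?_ ?_,
    fun x i i' y j j' h => h3 _ ?_ ?_, fun x i i' y j j' h => h3 _ ?_ ?_⟩
  · unfold fam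
    simp only [mem_union]
    exact Or.inl (Or.inl (Or.inl (mem_image_of_mem _ (mem_univ κ))))
  · have := sum_del' (R := ℤ) κ V
    simp only [Int.cast_id] at this
    rw [this, hκ]
  · unfold fam
    simp only [mem_union]
    exact Or.inl (Or.inl (Or.inr (mem_image.2 ⟨(x, i, i'), mem_univ _, rfl⟩)))
  · rw [hd, h, sub_self]
  · unfold fam
    simp only [mem_union]
    exact Or.inl (Or.inr (mem_image.2 ⟨((x, i, i'), (y, j, j')), mem_univ _, rfl⟩))
  · simp only [Pi.sub_apply, sub_mul, sum_sub_distrib, hd]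
    rw [h, sub_self]
  · unfold fam
    simp only [mem_union]
    exact Or.inr (mem_image.2 ⟨((x, i, i'), (y, j, j')), mem_univ _, rfl⟩)
  · simp only [Pi.add_apply, add_mul, sum_add_distrib, hd]
    rw [h]
    ring

lemma Gv.trace {S : Seq X n} {F : Ultrafilter ℕ} {V : X × Fin n → ℤ} (h : Gv S F V) :
    ∑ x, ∑ l, V (x, l) = 0 := by
  have := h.rel _ (S.trace_mem F)
  rw [Fintype.sum_prod_type] at this
  simpa using this

lemma eq_of_cl {S : Seq X n} {F : Ultrafilter ℕ} {V : X × Fin n → ℤ} (h : Gv S F V)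
    {x : X} {i i' : Fin n} (hcl : S.cl F (x, i) = S.cl F (x, i')) : V (x, i) = V (x, i') := by
  rw [cl_sub] at hcl
  obtain ⟨d, hd, c, hc, hdc⟩ := S.clear F hcl
  have h1 := h.rel c hc
  have h2 : ∀ t, c t = d * R3.dif x i i' t := by
    intro t
    have := hdc t
    exact_mod_cast this.symm
  have hdd : ∑ t, R3.dif x i i' t * V t = V (x, i) - V (x, i') := by
    have := sum_dif (R := ℤ) x i i' V
    simpa using this
  rw [sum_congr rfl fun t _ => by rw [h2 t, mul_assoc], ← mul_sum, hdd] at h1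
  have hd' : (d : ℤ) ≠ 0 := by exact_mod_cast hd.ne'
  have := (mul_eq_zero.1 h1).resolve_left hd'
  omega

section pts

variable {Y : Type*} [Fintype Y] [DecidableEq Y]

open Classical in
/-- The points which are not among the `p y`. -/
noncomputable def out (p : Y → X) : Finset X := univ.filter fun q => ∀ y, q ≠ p y

lemma mem_out {p : Y → X} {q : X} : q ∈ out p ↔ ∀ y, q ≠ p y := by
  classical
  unfold out
  simp

lemma sum_out {M : Type*} [AddCommMonoid M] {p : Y → X} (hp : Function.Injective p) (G : X → M) :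
    ∑ x, G x = ∑ y, G (p y) + ∑ q ∈ out p, G q := by
  classical
  have h1 : (univ : Finset X) = (univ.image p) ∪ out p := by
    ext q
    simp only [mem_univ, mem_union, mem_image, true_and, true_iff, mem_out]
    by_cases h : ∃ y, p y = q
    · exact Or.inl h
    · push Not at h
      exact Or.inr fun y e => h y e.symm
  have h2 : Disjoint (univ.image p) (out p) := by
    rw [disjoint_left]
    intro q h h'
    obtain ⟨y, -, rfl⟩ := mem_image.1 h
    exact mem_out.1 h' y rfl
  rw [h1, sum_union h2, sum_image fun a _ b _ e => hp e]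

/-- The vector at the points `p y`, shifted at one of them by the values at the other points. -/
noncomputable def vec (V : X × Fin n → ℤ) (p : Y → X) (l0 : Fin n) (y0 : Y) (y : Y) (l : Fin n) : ℤ :=
  V (p y, l) + if y = y0 then ∑ q ∈ out p, V (q, l0) else 0

open Classical in
/-- Extension of a choice. -/
noncomputable def ex (p : Y → X) (l0 : Fin n) (κ : Y → Fin n) (x : X) : Fin n :=
  if h : ∃ y, p y = x then κ h.choose else l0

lemma ex_p {p : Y → X} (hp : Function.Injective p) (l0 : Fin n) (κ : Y → Fin n) (y : Y) :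
    ex p l0 κ (p y) = κ y := by
  classical
  unfold ex
  have h : ∃ y', p y' = p y := ⟨y, rfl⟩
  rw [dif_pos h, hp h.choose_spec]

lemma ex_out {p : Y → X} (l0 : Fin n) (κ : Y → Fin n) {q : X} (hq : q ∈ out p) :
    ex p l0 κ q = l0 := by
  classical
  unfold ex
  rw [dif_neg]
  rintro ⟨y, hy⟩
  exact mem_out.1 hq y hy.symm

lemma sum_vec (V : X × Fin n → ℤ) {p : Y → X} (hp : Function.Injective p) (l0 : Fin n) (y0 : Y)
    (κ : Y → Fin n) : ∑ y, vec V p l0 y0 y (κ y) = ∑ x, V (x, ex p l0 κ x) := by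
  rw [sum_out hp]
  unfold vec
  rw [sum_add_distrib, sum_ite_eq' univ y0, if_pos (mem_univ _)]
  congr 1
  · exact sum_congr rfl fun y _ => by rw [ex_p hp]
  · exact sum_congr rfl fun q hq => by rw [ex_out l0 κ hq]

lemma sum_vec_all {V : X × Fin n → ℤ} {p : Y → X} (hp : Function.Injective p) (l0 : Fin n) (y0 : Y)
    (hV : ∀ q ∈ out p, ∀ l, V (q, l) = V (q, l0)) (htr : ∑ x, ∑ l, V (x, l) = 0) :
    ∑ y, ∑ l, vec V p l0 y0 y l = 0 := by
  rw [← htr, sum_out hp]
  unfold vec
  simp only [sum_add_distrib]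
  congr 1
  rw [sum_congr rfl fun y _ => by rw [sum_const, card_univ, Fintype.card_fin, nsmul_eq_mul],
    ← mul_sum, sum_ite_eq' univ y0, if_pos (mem_univ _), mul_sum]
  refine sum_congr rfl fun q hq => ?_
  rw [sum_congr rfl fun l _ => hV q hq l, sum_const, card_univ, Fintype.card_fin, nsmul_eq_mul]

/-- The strict inequalities. -/
theorem strict_torus [Nonempty X] (S : Seq X n) (F : Ultrafilter ℕ) (hF : (F : Filter ℕ) ≤ atTop)
    (hn : 0 < n)
    (hSt : ∀ᶠ j in (F : Filter ℕ), ∀ a : ℤ, IsCoprime a (S.N j : ℤ) →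
      LineSt fun x l => (a : ℝ) * S.e j x l)
    {V : X × Fin n → ℤ} (hV : Gv S F V) {p : Y → X} (hp : Function.Injective p) (l0 : Fin n)
    (hsc : ∀ x, (∀ y, x ≠ p y) → ∀ l, S.cl F (x, l) = S.cl F (x, l0)) (y0 : Y) :
    Strict (vec V p l0 y0) := by
  intro t κ hG hκ
  have hout : ∀ q ∈ out p, ∀ l, V (q, l) = V (q, l0) := fun q hq l =>
    eq_of_cl hV (hsc q (mem_out.1 hq) l)
  have hdiff : ∀ y l l', vec V p l0 y0 y l - vec V p l0 y0 y l' = V (p y, l) - V (p y, l') := by
    intro y l l'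
    unfold vec
    ring
  have h0 : ∑ x, V (x, ex p l0 κ x) = 0 := by rw [← sum_vec V hp l0 y0 κ, hκ]
  have key := strict_close S F hF hn hSt (hV.ann t) (by
    simp only [← mul_sum]
    have : ((∑ x, ∑ l, V (x, l) : ℤ) : ℝ) = 0 := by rw [hV.trace]; simp
    push_cast at this
    rw [this, mul_zero]) (ex p l0 κ) (hV.del _ h0) (by
    simp only [← mul_sum]
    have : ((∑ x, V (x, ex p l0 κ x) : ℤ) : ℝ) = 0 := by rw [h0]; simp
    push_cast at this
    rw [this, mul_zero]) (by
    intro x l hz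
    have heq : V (x, l) = V (x, ex p l0 κ x) := by
      by_cases hx : x ∈ out p
      · rw [hout x hx l, hout x hx (ex p l0 κ x)]
      · rw [mem_out] at hx
        push Not at hx
        obtain ⟨y, rfl⟩ := hx
        by_contra hne
        obtain ⟨z, hz⟩ := hz
        apply hG y l (κ y) (by
          intro h
          apply hne
          rw [ex_p hp]
          have := hdiff y l (κ y)
          omega)
        refine ⟨z, ?_⟩
        rw [hdiff, ← hz, ex_p hp]
        push_cast
        ring
    exact ⟨cl_of_dif S F (hV.dif x l _ heq), by rw [heq]⟩)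
  rw [sum_out hp] at key
  have hz : ∑ q ∈ out p, ∑ l, ⌊t * (V (q, l) : ℝ) - t * (V (q, ex p l0 κ q) : ℝ)⌋ = 0 := by
    refine sum_eq_zero fun q hq => sum_eq_zero fun l _ => ?_
    rw [hout q hq l, hout q hq (ex p l0 κ q), sub_self, Int.floor_zero]
  rw [hz, add_zero] at key
  refine le_trans (le_of_eq ?_) key
  congr 1
  refine sum_congr rfl fun y _ => sum_congr rfl fun l _ => ?_
  rw [hdiff, ex_p hp]
  congr 1
  push_cast
  ring

end pts

end Pool.Agent.N858.R3
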