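import Pool.Agent.N858.R3.Sym
import Pool.Agent.N858.R3.Tor

set_option autoImplicit false

/-!
The inequalities for arcs just above `1 / P`: the multiplicities of two different exponents at one point
and of one exponent at all but one of the other points.
-/

open Finset

namespace Pool.Agent.N858.R3

open Pool.Agent.N858.R4

section arc

variable {Y : Type*} [Fintype Y] [DecidableEq Y] {n : ℕ}

/-- The strict inequalities for integral vectors with sum zero. -/
def StrictS (v : Y → Fin n → ℤ) : Prop :=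
  ∀ (t : ℝ) (s : Y → ℤ), Gen v t → ∑ y, s y = 0 →
    (∀ y l, v y l ≠ s y → ¬ ∃ z : ℤ, t * ((v y l - s y : ℤ) : ℝ) = z) →
    ∑ y, ∑ l, ⌊t * ((v y l - s y : ℤ) : ℝ)⌋ + n ≤ 0

/-- The inequalities for line subbundles. -/
def SemiV (v : Y → Fin n → ℤ) : Prop :=
  ∀ (t : ℝ) (s : Y → ℝ), 0 < ∑ y, s y → ∑ y, ∑ l, ⌊t * (v y l : ℝ) - s y⌋ + (n : ℤ) ≤ 0

lemma exists_slack (f : Fin n → ℝ) (hf : ∀ l, ¬ ∃ z : ℤ, f l = z) :
    ∃ τ : ℝ, 0 < τ ∧ ∀ l, ⌊f l - τ⌋ = ⌊f l⌋ := by
  have h1 : ∀ l, 0 < Int.fract (f l) := by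
    intro l
    refine lt_of_le_of_ne (Int.fract_nonneg _) fun h => hf l ⟨⌊f l⌋, ?_⟩
    have := Int.self_sub_floor (f l)
    rw [← h] at this
    linarith
  obtain ⟨τ, hτ, h⟩ : ∃ τ : ℝ, 0 < τ ∧ ∀ l, τ ≤ Int.fract (f l) := by
    rcases Nat.eq_zero_or_pos n with hn | hn
    · subst hn
      exact ⟨1, one_pos, fun l => l.elim0⟩
    · obtain ⟨l₀, -, hl₀⟩ := exists_min_image (univ : Finset (Fin n)) (fun l => Int.fract (f l))
        ⟨⟨0, hn⟩, mem_univ _⟩
      exact ⟨Int.fract (f l₀), h1 l₀, fun l => hl₀ l (mem_univ _)⟩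
  refine ⟨τ, hτ, fun l => ?_⟩
  rw [Int.floor_eq_iff]
  have h2 := Int.self_sub_floor (f l)
  have h3 := h l
  have h4 := Int.fract_lt_one (f l)
  constructor <;> linarith

/-- Strictness for resonances and the inequalities for line subbundles give the strict inequalities
for all integral vectors with sum zero. -/
theorem strictS_of {v : Y → Fin n → ℤ} (hs : Strict v) (hg : SemiV v) : StrictS v := by
  intro t s hG hsum hgen
  by_cases hres : ∀ y, ∃ l, v y l = s y
  · choose κ hκ using hres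
    have h1 := hs t κ hG (by rw [← hsum]; exact sum_congr rfl fun y _ => hκ y)
    simp only [hκ] at h1
    exact h1
  · push Not at hres
    obtain ⟨z, hz⟩ := hres
    obtain ⟨τ, hτ, h⟩ := exists_slack (fun l => t * ((v z l - s z : ℤ) : ℝ)) fun l => hgen z l (hz l)
    have h1 := hg t (fun y => t * (s y : ℝ) + if y = z then τ else 0) (by
      rw [sum_add_distrib, ← mul_sum, sum_ite_eq' univ z, if_pos (mem_univ _)]
      have : (∑ y, (s y : ℝ)) = ((∑ y, s y : ℤ) : ℝ) := by push_cast; rfl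
      rw [this, hsum]
      simpa using hτ)
    refine le_trans (le_of_eq ?_) h1
    congr 1
    refine sum_congr rfl fun y _ => sum_congr rfl fun l _ => ?_
    by_cases hy : y = z
    · subst hy
      rw [if_pos rfl, ← h l]
      congr 1
      push_cast
      ring
    · rw [if_neg hy]
      congr 1
      push_cast
      ring

variable {P Q : ℤ}

lemma tq_pos (hP : 0 < P) (hQ : 0 < Q) : 0 < tq P Q := by
  have hP' : (0 : ℝ) < P := by exact_mod_cast hP
  have hQ' : (0 : ℝ) < Q := by exact_mod_cast hQ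
  unfold tq
  positivity

lemma tq_mul (hP : 0 < P) (hQ : 0 < Q) : tq P Q * (P : ℝ) = 1 + 1 / Q := by
  have hP' : (P : ℝ) ≠ 0 := by exact_mod_cast hP.ne'
  have hQ' : (Q : ℝ) ≠ 0 := by exact_mod_cast hQ.ne'
  unfold tq
  field_simp

/-- The point with the long arc. -/
lemma arc_z (hP : 0 < P) {d : ℤ} (hQ : |d| + P < Q) :
    -2 ≤ ⌊tq P Q * (d : ℝ)⌋ + ⌊-tq P Q * ((d + P : ℤ) : ℝ)⌋ := by
  have hQ0 : 0 < Q := by have := abs_nonneg d; omega
  by_contra hcon
  push Not at hcon
  obtain ⟨F, hF⟩ : ∃ F : ℤ, F = ⌊tq P Q * (d : ℝ)⌋ + 1 := ⟨_, rfl⟩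
  have h1 : tq P Q * (d : ℝ) < F := by
    rw [hF]
    push_cast
    exact Int.lt_floor_add_one _
  have h2 : ⌊-tq P Q * ((d + P : ℤ) : ℝ)⌋ < -F - 1 := by omega
  have h3 : -tq P Q * ((d + P : ℤ) : ℝ) < ((-F - 1 : ℤ) : ℝ) := by
    by_contra h
    push Not at h
    have := Int.le_floor.2 h
    omega
  have hP' : (0 : ℝ) < P := by exact_mod_cast hP
  have hQ' : (0 : ℝ) < Q := by exact_mod_cast hQ0
  have h4 := tq_mul hP hQ0
  push_cast at h3
  have h5 : tq P Q * (d : ℝ) = ((Q : ℝ) + 1) * d / (P * Q) := by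
    unfold tq
    ring
  have hPQ : (0 : ℝ) < (P : ℝ) * Q := by positivity
  have h6 : ((Q : ℝ) + 1) * d < F * (P * Q) := by
    rw [h5, div_lt_iff₀ hPQ] at h1
    exact h1
  have h7 : (F : ℝ) * (P * Q) - P < ((Q : ℝ) + 1) * d := by
    have h8 : (F : ℝ) - 1 / Q < tq P Q * d := by
      have : tq P Q * ((d : ℝ) + P) = tq P Q * d + (1 + 1 / Q) := by rw [← h4]; ring
      linarith
    rw [h5, lt_div_iff₀ hPQ] at h8
    have h9 : ((F : ℝ) - 1 / Q) * (P * Q) = F * (P * Q) - P := by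
      field_simp
    rw [h9] at h8
    exact h8
  have h8 : (Q + 1) * d < F * (P * Q) := by exact_mod_cast h6
  have h9 : F * (P * Q) - P < (Q + 1) * d := by exact_mod_cast h7
  obtain ⟨j, hj⟩ : ∃ j : ℤ, j = F * (P * Q) - (Q + 1) * d := ⟨_, rfl⟩
  have hj0 : 0 < j := by omega
  have hjP : j < P := by omega
  have h10 : j + d = Q * (F * P - d) := by rw [hj]; ring
  have h11 : |j + d| < Q := by
    calc |j + d| ≤ |j| + |d| := abs_add_le _ _
      _ = j + |d| := by rw [abs_of_pos hj0]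
      _ < Q := by omega
  have h12 : F * P - d = 0 := by
    by_contra hne
    have h13 : Q ≤ |j + d| := by
      rw [h10, abs_mul, abs_of_pos hQ0]
      have : 1 ≤ |F * P - d| := Int.one_le_abs hne
      nlinarith
    omega
  have h13 : j = -F * P := by
    rw [h12, mul_zero] at h10
    have : d = F * P := by omega
    rw [this] at h10
    linarith
  have h14 : P ∣ j := ⟨-F, by rw [h13]; ring⟩
  have := Int.le_of_dvd hj0 h14
  omega

/-- The point with the short arc. -/
lemma arc_x (hP : 0 < P) (hQ : 0 < Q) (g : ℤ) :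
    (if g = 0 then 1 else 0) + (if g = P then 1 else 0) ≤
      ⌊tq P Q * (g : ℝ)⌋ + ⌊-tq P Q * ((g - P : ℤ) : ℝ)⌋ := by
  have hQ' : (0 : ℝ) < Q := by exact_mod_cast hQ
  have h4 := tq_mul hP hQ
  have hq : (0 : ℝ) < 1 / Q := by positivity
  have h5 : -tq P Q * ((g - P : ℤ) : ℝ) = -(tq P Q * g) + (1 + 1 / Q) := by
    rw [← h4]
    push_cast
    ring
  rw [h5]
  have h6 : 1 ≤ ⌊(1 : ℝ) + 1 / Q⌋ := Int.le_floor.2 (by push_cast; linarith)
  split_ifs with h1 h2 h2
  · omega
  · rw [h1]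
    simp only [Int.cast_zero, mul_zero, Int.floor_zero, neg_zero, zero_add]
    exact le_trans (by norm_num) h6
  · rw [h2, h4]
    have : ⌊-(1 + 1 / (Q : ℝ)) + (1 + 1 / Q)⌋ = 0 := by
      rw [neg_add_cancel, Int.floor_zero]
    rw [this]
    exact le_trans (by norm_num) (le_trans h6 (by omega))
  · have h7 : -⌊tq P Q * (g : ℝ)⌋ ≤ ⌊-(tq P Q * (g : ℝ)) + (1 + 1 / Q)⌋ := by
      rw [Int.le_floor]
      push_cast
      have := Int.lt_floor_add_one (tq P Q * (g : ℝ))
      linarith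
    omega

/-- The other points. -/
lemma arc_y (t : ℝ) (g : ℤ) :
    (if g = 0 then (1 : ℤ) else 0) - 1 ≤ ⌊t * (g : ℝ)⌋ + ⌊-t * ((g : ℤ) : ℝ)⌋ := by
  split_ifs with h1
  · rw [h1]; simp
  · have h7 : -⌊t * (g : ℝ)⌋ - 1 ≤ ⌊-t * (g : ℝ)⌋ := by
      rw [Int.le_floor]
      push_cast
      have := Int.lt_floor_add_one (t * (g : ℝ))
      linarith
    omega

lemma sum_split2 {M : Type*} [AddCommMonoid M] {x z : Y} (hxz : x ≠ z) (G : Y → M) :
    ∑ y, G y = G x + G z + ∑ y ∈ (univ.erase x).erase z, G y := by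
  rw [← add_sum_erase univ G (mem_univ x), ← add_sum_erase (univ.erase x) G
    (mem_erase.2 ⟨hxz.symm, mem_univ z⟩), add_assoc]

/-- **The bound for the multiplicities.** -/
theorem arc_bound {v : Y → Fin n → ℤ} (hs : StrictS v) {x z : Y} (hxz : x ≠ z) {a a' : Fin n}
    (ha : v x a ≠ v x a') (κ : Y → Fin n) :
    cnt (v x) (v x a) + cnt (v x) (v x a') +
      ∑ y ∈ (univ.erase x).erase z, cnt (v y) (v y (κ y)) + 2 * n ≤ Fintype.card Y * n := by
  classical
  wlog hlt : v x a < v x a' generalizing a a'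
  · have h := this ha.symm (by omega)
    linarith
  obtain ⟨P, hPdef⟩ : ∃ P, P = v x a' - v x a := ⟨_, rfl⟩
  have hP : 0 < P := by omega
  obtain ⟨T, hT⟩ : ∃ T, T = ∑ y ∈ (univ.erase x).erase z, v y (κ y) := ⟨_, rfl⟩
  set s : Y → ℤ := fun y => if y = x then v x a else if y = z then -(v x a + T) else v y (κ y)
    with hsdef
  set s' : Y → ℤ := fun y => if y = x then v x a' else if y = z then -(v x a' + T) else v y (κ y)
    with hs'def
  have sx : s x = v x a := if_pos rfl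
  have sz : s z = -(v x a + T) := by simp [hsdef, hxz.symm]
  have sy : ∀ y ∈ (univ.erase x).erase z, s y = v y (κ y) := by
    intro y hy
    simp only [mem_erase, mem_univ, and_true] at hy
    simp only [hsdef]
    rw [if_neg hy.2, if_neg hy.1]
  have sx' : s' x = v x a' := if_pos rfl
  have sz' : s' z = -(v x a' + T) := by simp [hs'def, hxz.symm]
  have sy' : ∀ y ∈ (univ.erase x).erase z, s' y = v y (κ y) := by
    intro y hy
    simp only [mem_erase, mem_univ, and_true] at hy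
    simp only [hs'def]
    rw [if_neg hy.2, if_neg hy.1]
  have s0 : ∑ y, s y = 0 := by
    rw [sum_split2 hxz, sx, sz, sum_congr rfl sy, ← hT]
    ring
  have s0' : ∑ y, s' y = 0 := by
    rw [sum_split2 hxz, sx', sz', sum_congr rfl sy', ← hT]
    ring
  -- the bound for the denominator
  obtain ⟨Q, hQ⟩ : ∃ Q : ℤ, Q = 1 + P + (∑ y, ∑ l, |v y l - s y| + ∑ y, ∑ l, |v y l - s' y| +
      ∑ y, ∑ l, ∑ l', |v y l - v y l'|) := ⟨_, rfl⟩
  have n1 : 0 ≤ ∑ y, ∑ l, |v y l - s y| := sum_nonneg fun _ _ => sum_nonneg fun _ _ => abs_nonneg _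
  have n2 : 0 ≤ ∑ y, ∑ l, |v y l - s' y| := sum_nonneg fun _ _ => sum_nonneg fun _ _ => abs_nonneg _
  have n3 : 0 ≤ ∑ y, ∑ l, ∑ l', |v y l - v y l'| :=
    sum_nonneg fun _ _ => sum_nonneg fun _ _ => sum_nonneg fun _ _ => abs_nonneg _
  have b1 : ∀ y l, |v y l - s y| + P < Q := by
    intro y l
    have h1 : |v y l - s y| ≤ ∑ l, |v y l - s y| :=
      single_le_sum (f := fun l => |v y l - s y|) (fun _ _ => abs_nonneg _) (mem_univ l)
    have h2 : ∑ l, |v y l - s y| ≤ ∑ y, ∑ l, |v y l - s y| :=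
      single_le_sum (f := fun y => ∑ l, |v y l - s y|)
        (fun _ _ => sum_nonneg fun _ _ => abs_nonneg _) (mem_univ y)
    omega
  have b2 : ∀ y l, |v y l - s' y| + P < Q := by
    intro y l
    have h1 : |v y l - s' y| ≤ ∑ l, |v y l - s' y| :=
      single_le_sum (f := fun l => |v y l - s' y|) (fun _ _ => abs_nonneg _) (mem_univ l)
    have h2 : ∑ l, |v y l - s' y| ≤ ∑ y, ∑ l, |v y l - s' y| :=
      single_le_sum (f := fun y => ∑ l, |v y l - s' y|)
        (fun _ _ => sum_nonneg fun _ _ => abs_nonneg _) (mem_univ y)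
    omega
  have b3 : ∀ y l l', |v y l - v y l'| < Q := by
    intro y l l'
    have h1 : |v y l - v y l'| ≤ ∑ l', |v y l - v y l'| :=
      single_le_sum (f := fun l' => |v y l - v y l'|) (fun _ _ => abs_nonneg _) (mem_univ l')
    have h2 : ∑ l', |v y l - v y l'| ≤ ∑ l, ∑ l', |v y l - v y l'| :=
      single_le_sum (f := fun l => ∑ l', |v y l - v y l'|)
        (fun _ _ => sum_nonneg fun _ _ => abs_nonneg _) (mem_univ l)
    have h3 : ∑ l, ∑ l', |v y l - v y l'| ≤ ∑ y, ∑ l, ∑ l', |v y l - v y l'| :=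
      single_le_sum (f := fun y => ∑ l, ∑ l', |v y l - v y l'|)
        (fun _ _ => sum_nonneg fun _ _ => sum_nonneg fun _ _ => abs_nonneg _) (mem_univ y)
    omega
  have hQ0 : 0 < Q := by omega
  obtain ⟨t, ht⟩ : ∃ t : ℝ, t = tq P Q := ⟨_, rfl⟩
  have gen : ∀ d : ℤ, d ≠ 0 → |d| < Q → ∀ e : ℝ, (e = t ∨ e = -t) → ¬ ∃ w : ℤ, e * (d : ℝ) = w := by
    rintro d h0 h1 e he ⟨w, hw⟩
    rcases he with rfl | rfl
    · exact tq_gen hP hQ0 h0 h1 ⟨w, by rw [← ht]; exact hw⟩
    · refine tq_gen hP hQ0 h0 h1 ⟨-w, ?_⟩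
      rw [← ht]
      push_cast
      rw [← hw]
      ring
  have k1 := hs t s (fun y l l' hne => gen _ (sub_ne_zero.2 hne) (b3 y l l') t (Or.inl rfl)) s0
    (fun y l hne => gen _ (sub_ne_zero.2 hne) (by have := b1 y l; omega) t (Or.inl rfl))
  have k2 := hs (-t) s' (fun y l l' hne => gen _ (sub_ne_zero.2 hne) (b3 y l l') (-t) (Or.inr rfl)) s0'
    (fun y l hne => gen _ (sub_ne_zero.2 hne) (by have := b2 y l; omega) (-t) (Or.inr rfl))
  set H : Y → ℤ := fun y => ∑ l, (⌊t * ((v y l - s y : ℤ) : ℝ)⌋ + ⌊-t * ((v y l - s' y : ℤ) : ℝ)⌋)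
    with hH
  have k3 : ∑ y, H y + 2 * n ≤ 0 := by
    simp only [hH, sum_add_distrib]
    linarith
  have hx : cnt (v x) (v x a) + cnt (v x) (v x a') ≤ H x := by
    simp only [hH, cnt]
    rw [← sum_add_distrib]
    refine sum_le_sum fun l _ => ?_
    have := arc_x hP hQ0 (v x l - v x a)
    rw [sx, sx', ht]
    have e1 : v x l - v x a' = v x l - v x a - P := by omega
    rw [e1]
    refine le_trans (le_of_eq ?_) this
    congr 1
    · simp only [sub_eq_zero]
    · have : (v x l = v x a') ↔ (v x l - v x a = P) := by omega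
      simp only [this]
  have hz : -(2 * n : ℤ) ≤ H z := by
    simp only [hH]
    calc -(2 * n : ℤ) = ∑ _l : Fin n, (-2 : ℤ) := by simp; ring
      _ ≤ _ := sum_le_sum fun l _ => by
        have hb := b1 z l
        have := arc_z hP (d := v z l - s z) hb
        rw [ht]
        have e1 : v z l - s' z = v z l - s z + P := by rw [sz, sz']; omega
        rw [e1]
        exact this
  have hy : ∀ y ∈ (univ.erase x).erase z, cnt (v y) (v y (κ y)) - n ≤ H y := by
    intro y hy
    simp only [hH, cnt]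
    rw [sy y hy, sy' y hy]
    calc (∑ l, if v y l = v y (κ y) then (1 : ℤ) else 0) - n
        = ∑ l, ((if v y l = v y (κ y) then (1 : ℤ) else 0) - 1) := by
          rw [sum_sub_distrib]; simp
      _ ≤ _ := sum_le_sum fun l _ => by
        have := arc_y t (v y l - v y (κ y))
        simp only [sub_eq_zero] at this
        exact this
  rw [sum_split2 hxz] at k3
  have k4 := sum_le_sum hy
  rw [sum_sub_distrib, sum_const, nsmul_eq_mul] at k4
  have hcard : ((((univ : Finset Y).erase x).erase z).card : ℤ) = Fintype.card Y - 2 := by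
    have h1 : (((univ : Finset Y).erase x).erase z).card + 2 = Fintype.card Y := by
      have e1 := card_erase_add_one (s := (univ : Finset Y).erase x) (a := z)
        (mem_erase.2 ⟨hxz.symm, mem_univ z⟩)
      have e2 := card_erase_add_one (s := (univ : Finset Y)) (a := x) (mem_univ x)
      rw [card_univ] at e2
      omega
    omega
  rw [hcard] at k4
  linarith

end arc

end Pool.Agent.N858.R3
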