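import Pool.Agent.N858.R3.Three

set_option autoImplicit false

/-!
Rank three, three points: the case of equal exponents and the decomposition.
-/

open Finset

namespace Pool.Agent.N858.R3

open Pool.Agent.N858.R4
open Pool.Agent.N858.P5 (bet)

lemma pr_mu (a : Fin 3 → ℤ) (k : Fin 3) :
    (mu (fun i j => a i = a j) k = 1 ∧ 3 ≤ pr (fun i j => a i = a j)) ∨
    (mu (fun i j => a i = a j) k = 2 ∧ pr (fun i j => a i = a j) = 5) ∨
    (mu (fun i j => a i = a j) k = 3 ∧ pr (fun i j => a i = a j) = 9) := by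
  unfold mu pr
  simp only [Fin.sum_univ_three]
  have c10 : (a 1 = a 0) = (a 0 = a 1) := propext eq_comm
  have c20 : (a 2 = a 0) = (a 0 = a 2) := propext eq_comm
  have c21 : (a 2 = a 1) = (a 1 = a 2) := propext eq_comm
  by_cases h01 : a 0 = a 1 <;> by_cases h02 : a 0 = a 2 <;> by_cases h12 : a 1 = a 2 <;>
    first
    | (exfalso; omega)
    | (fin_cases k <;> simp [h01, h02, h12, c10, c20, c21])

lemma mu_two {a : Fin 3 → ℤ} {k k' : Fin 3} (hk : k ≠ k') (h : a k = a k') :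
    mu (fun i j => a i = a j) k ≠ 1 := by
  have h1 : ∑ l ∈ ({k, k'} : Finset (Fin 3)), (if a k = a l then (1 : ℤ) else 0) = 2 := by
    rw [sum_pair hk]
    simp [h]
  have h2 : ∑ l ∈ ({k, k'} : Finset (Fin 3)), (if a k = a l then (1 : ℤ) else 0) ≤
      mu (fun i j => a i = a j) k :=
    sum_le_sum_of_subset_of_nonneg (subset_univ _) fun _ _ _ => by split_ifs <;> norm_num
  rw [h1] at h2
  omega

/-- The inequality between multiplicities. -/
lemma count {f g h : Fin 3 → ℤ} {k : Fin 3} (hpos : Pos f g h) :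
    0 ≤ 9 + pr (fun i j => f i = f j) + 2 * nr (fun i j => f k + g i + h j = 0) -
      pr (fun i j => g i = g j) - pr (fun i j => h i = h j) - 6 * mu (fun i j => f i = f j) k := by
  obtain ⟨S, hS, b1, b2, b3, b4⟩ := exists_bound f g h
  have key := (TT_nonneg hS f g h k (hpos k)).1
  unfold TT at key
  have e : ∀ {z : ℤ}, |z| < S → ((S : ℤ) ∣ z ↔ z = 0) := by
    intro z hz
    constructor
    · intro hd
      exact Int.eq_zero_of_abs_lt_dvd hd hz
    · rintro rfl
      exact dvd_zero _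
  rw [pr_congr (r := fun i j => (S : ℤ) ∣ f i - f j) (r' := fun i j => f i = f j) fun i j => by
      rw [e (b1 i j), sub_eq_zero],
    pr_congr (r := fun i j => (S : ℤ) ∣ g i - g j) (r' := fun i j => g i = g j) fun i j => by
      rw [e (b2 i j), sub_eq_zero],
    pr_congr (r := fun i j => (S : ℤ) ∣ h i - h j) (r' := fun i j => h i = h j) fun i j => by
      rw [e (b3 i j), sub_eq_zero],
    mu_congr (r := fun i j => (S : ℤ) ∣ f i - f j) (r' := fun i j => f i = f j) (fun i j => by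
      rw [e (b1 i j), sub_eq_zero]) k] at key
  have e2 : nr (fun i j => (S : ℤ) ∣ f k + g i + h j) = nr (fun i j => f k + g i + h j = 0) := by
    unfold nr
    exact sum_congr rfl fun i _ => sum_congr rfl fun j _ => by simp only [e (b4 k i j)]
  rw [e2] at key
  push_cast at key
  linarith

/-- The resonances are not contained in a row. -/
lemma not_row {f g h : Fin 3 → ℤ} {k : Fin 3} (hpos : Pos f g h)
    (hk : mu (fun i j => f i = f j) k ≠ 1) (i0 : Fin 3) :
    ∃ i j, i ≠ i0 ∧ f k + g i + h j = 0 := by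
  by_contra hcon
  push Not at hcon
  have h1 := count (k := k) hpos
  have h2 : nr (fun i j => f k + g i + h j = 0) = ∑ j, if f k + g i0 + h j = 0 then (1 : ℤ) else 0 := by
    unfold nr
    refine sum_eq_single i0 (fun i _ hi => ?_) (by simp)
    exact sum_eq_zero fun j _ => if_neg (hcon i j hi)
  have hg := pr_mu g 0
  have hg3 : 3 ≤ pr (fun i j => g i = g j) := by omega
  have hf := (pr_mu f k).resolve_left fun h => hk h.1
  by_cases hj : ∃ j0, f k + g i0 + h j0 = 0
  · obtain ⟨j0, hj0⟩ := hj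
    have h3 : (∑ j, if f k + g i0 + h j = 0 then (1 : ℤ) else 0) = mu (fun i j => h i = h j) j0 := by
      unfold mu
      refine sum_congr rfl fun j _ => ?_
      have : (f k + g i0 + h j = 0) ↔ (h j0 = h j) := by omega
      simp only [this]
    have h4 := pr_mu h j0
    omega
  · push Not at hj
    have h3 : (∑ j, if f k + g i0 + h j = 0 then (1 : ℤ) else 0) = 0 :=
      sum_eq_zero fun j _ => if_neg (hj j)
    have h4 := pr_mu h 0
    omega

/-- Two disjoint resonances if there are two equal exponents at the first point. -/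
theorem dis_eq {f g h : Fin 3 → ℤ} (p1 : Pos f g h) {k k' : Fin 3} (hk : k ≠ k')
    (hkk : f k = f k') : Dis f g h := by
  have hm := mu_two hk hkk
  obtain ⟨i0, j0, -, h0⟩ := not_row (k := k) p1 hm 0
  obtain ⟨i1, j1, hi1, h1⟩ := not_row (k := k) p1 hm i0
  obtain ⟨j2, i2, hj2, h2⟩ := not_row (k := k) p1.swap hm j0
  by_cases hj : j1 = j0
  · by_cases hi : i2 = i0
    · -- cells (i1, j0), (i0, j2)
      refine ⟨k, i1, j1, k', i2, j2, hk, by rw [hi]; exact hi1, by rw [hj]; exact hj2.symm, h1, ?_⟩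
      rw [← h2, hkk]; ring
    · refine ⟨k, i0, j0, k', i2, j2, hk, Ne.symm hi, hj2.symm, h0, ?_⟩
      rw [← h2, hkk]; ring
  · refine ⟨k, i0, j0, k', i1, j1, hk, hi1.symm, Ne.symm hj, h0, ?_⟩
    rw [← h1, hkk]

/-- **Two disjoint resonances.** -/
theorem dis {f g h : Fin 3 → ℤ} (hs : ∑ l, f l + ∑ l, g l + ∑ l, h l = 0) (p1 : Pos f g h)
    (p2 : Pos g f h) (p3 : Pos h f g) : Dis f g h := by
  by_cases hf : Function.Injective f
  · by_cases hg : Function.Injective g
    · by_cases hh : Function.Injective h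
      · -- the largest spread
        have hsp : ∀ a : Fin 3 → ℤ, ∃ P i j, a i - a j = P ∧ ∀ u v, |a u - a v| ≤ P := by
          intro a
          obtain ⟨i, -, hi⟩ := exists_max_image univ a ⟨0, mem_univ _⟩
          obtain ⟨j, -, hj⟩ := exists_min_image univ a ⟨0, mem_univ _⟩
          refine ⟨a i - a j, i, j, rfl, fun u v => ?_⟩
          have := hi u (mem_univ _)
          have := hi v (mem_univ _)
          have := hj u (mem_univ _)
          have := hj v (mem_univ _)
          rw [abs_le]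
          constructor <;> omega
        obtain ⟨Pf, i1, j1, e1, b1⟩ := hsp f
        obtain ⟨Pg, i2, j2, e2, b2⟩ := hsp g
        obtain ⟨Ph, i3, j3, e3, b3⟩ := hsp h
        have hcase : (Pg ≤ Pf ∧ Ph ≤ Pf) ∨ (Pf ≤ Pg ∧ Ph ≤ Pg) ∨ (Pf ≤ Ph ∧ Pg ≤ Ph) := by omega
        rcases hcase with ⟨c1, c2⟩ | ⟨c1, c2⟩ | ⟨c1, c2⟩
        · exact dis_inj hf hg hh hs p1 p2 p3 b1 (fun i j => (b2 i j).trans c1)
            (fun i j => (b3 i j).trans c2) ⟨i1, j1, e1⟩
        · exact Dis.swap' (dis_inj hg hf hh (by rw [← hs]; ring) p2 p1 p3.swap b2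
            (fun i j => (b1 i j).trans c1) (fun i j => (b3 i j).trans c2) ⟨i2, j2, e2⟩)
        · exact Dis.swap (Dis.swap' (dis_inj hh hf hg (by rw [← hs]; ring) p3 p1.swap p2.swap b3
            (fun i j => (b1 i j).trans c1) (fun i j => (b2 i j).trans c2) ⟨i3, j3, e3⟩))
      · obtain ⟨k, k', hkk, hk⟩ := Function.not_injective_iff.1 hh
        exact Dis.swap (Dis.swap' (dis_eq p3 hk hkk))
    · obtain ⟨k, k', hkk, hk⟩ := Function.not_injective_iff.1 hg
      exact Dis.swap' (dis_eq p2 hk hkk)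
  · obtain ⟨k, k', hkk, hk⟩ := Function.not_injective_iff.1 hf
    exact dis_eq p1 hk hkk

/-- **The decomposition.** -/
theorem core3 (v : Fin 3 → Fin 3 → ℤ) (hsum : ∑ x, ∑ l, v x l = 0)
    (hD : ∀ x y z : Fin 3, x ≠ y → y ≠ z → x ≠ z → ∀ (k : Fin 3) (t : ℝ),
      0 ≤ DK (fun l => t * v x l) (fun l => t * v y l) (fun l => t * v z l) k) :
    ∃ σ : Fin 3 → Equiv.Perm (Fin 3), ∀ l, ∑ x, v x (σ x l) = 0 := by
  obtain ⟨a, b, c, a', b', c', h1, h2, h3, h4, h5⟩ := dis (f := v 0) (g := v 1) (h := v 2)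
    (by rw [← hsum]; exact (Fin.sum_univ_three fun x => ∑ l, v x l).symm) (hD 0 1 2 (by decide) (by decide) (by decide))
    (hD 1 0 2 (by decide) (by decide) (by decide)) (hD 2 0 1 (by decide) (by decide) (by decide))
  have hp : ∀ a b : Fin 3, a ≠ b → ∃ σ : Equiv.Perm (Fin 3), σ 0 = a ∧ σ 1 = b := by decide
  obtain ⟨σ0, s0, s0'⟩ := hp a a' h1
  obtain ⟨σ1, s1, s1'⟩ := hp b b' h2
  obtain ⟨σ2, s2, s2'⟩ := hp c c' h3
  have hl0 : ∑ x, v x ((![σ0, σ1, σ2] : Fin 3 → Equiv.Perm (Fin 3)) x 0) = 0 := by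
    rw [Fin.sum_univ_three, ← h4, ← s0, ← s1, ← s2]
    rfl
  have hl1 : ∑ x, v x ((![σ0, σ1, σ2] : Fin 3 → Equiv.Perm (Fin 3)) x 1) = 0 := by
    rw [Fin.sum_univ_three, ← h5, ← s0', ← s1', ← s2']
    rfl
  have htot : ∑ l, ∑ x, v x ((![σ0, σ1, σ2] : Fin 3 → Equiv.Perm (Fin 3)) x l) = 0 := by
    rw [sum_comm, ← hsum]
    exact sum_congr rfl fun x _ => Equiv.sum_comp _ _
  refine ⟨![σ0, σ1, σ2], fun l => ?_⟩
  rw [Fin.sum_univ_three] at htot
  fin_cases l
  · exact hl0
  · exact hl1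
  · show ∑ x, v x ((![σ0, σ1, σ2] : Fin 3 → Equiv.Perm (Fin 3)) x 2) = 0
    rw [hl0, hl1, zero_add, zero_add] at htot
    exact htot

end Pool.Agent.N858.R3
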