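import Pool.Agent.N858.R3.Defs

set_option autoImplicit false

/-!
The condition on the denominators of exponents: definitions.
-/

open Finset

namespace Pool.Agent.N858.R3

open Pool.Agent.N858.R4

/-- The condition for the denominators `d` of a difference and `h` of `d` times a sum, in rank `n`:
`h = 1`, or some prime power `P = p ^ j` divides `h` for which `n` times `P / d`, rounded up, is less
than `φ(P) = P - P / p`. -/
def Mild (n d h : ℕ) : Prop :=
  h = 1 ∨ ∃ p j : ℕ, p.Prime ∧ 0 < j ∧ p ^ j ∣ h ∧
    n * ((p ^ j - 1) / d + 1) < p ^ j - p ^ (j - 1)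

/-- For every sum of exponents `e y (κ y)`, one for each point, and every exponent `e x k'` at a point
`x` not congruent to `e x (κ x)` modulo the integers: let `d` be the denominator of the difference
`e x k' - e x (κ x)` and `h` the denominator of `d` times the sum, then `Mild n d h`. -/
def MildDen {X : Type*} [Fintype X] {n : ℕ} (e : X → Fin n → ℚ) : Prop :=
  ∀ (x : X) (k' : Fin n) (κ : X → Fin n), ¬ Cong (e x (κ x)) (e x k') →
    Mild n (e x k' - e x (κ x)).den (((e x k' - e x (κ x)).den : ℚ) * ∑ y, e y (κ y)).den

end Pool.Agent.N858.R3
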