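import Pool.Agent.N858.R3.Same

set_option autoImplicit false

/-!
The equality case of the strict inequalities: the multiset of the differences from the exponents of a
resonance is symmetric.
-/

open Finset

namespace Pool.Agent.N858.R3

open Pool.Agent.N858.R4

section sym

variable {Y : Type*} [Fintype Y] {n : ℕ}

/-- The number of the entries equal to `d`. -/
def cnt (f : Fin n → ℤ) (d : ℤ) : ℤ := ∑ l, if f l = d then 1 else 0

lemma cnt_nonneg (f : Fin n → ℤ) (d : ℤ) : 0 ≤ cnt f d :=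
  sum_nonneg fun l _ => by split_ifs <;> norm_num

lemma cnt_pos {f : Fin n → ℤ} {d : ℤ} (h : cnt f d ≠ 0) : ∃ l, f l = d := by
  by_contra hno
  push Not at hno
  exact h (sum_eq_zero fun l _ => if_neg (hno l))

/-- The parameter just above `1 / P`. -/
noncomputable def tq (P Q : ℤ) : ℝ := ((Q : ℝ) + 1) / ((P : ℝ) * Q)

variable {P Q : ℤ}

lemma tq_gen (hP : 0 < P) (hQ : 0 < Q) {d : ℤ} (h0 : d ≠ 0) (h1 : |d| < Q) :
    ¬ ∃ z : ℤ, tq P Q * (d : ℝ) = z := by
  rintro ⟨z, hz⟩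
  have hP' : (P : ℝ) ≠ 0 := by exact_mod_cast hP.ne'
  have hQ' : (Q : ℝ) ≠ 0 := by exact_mod_cast hQ.ne'
  rw [tq, div_mul_eq_mul_div, div_eq_iff (mul_ne_zero hP' hQ')] at hz
  have h3 : (Q + 1) * d = z * (P * Q) := by exact_mod_cast hz
  have h4 : Q ∣ d := by
    have h5 : Q ∣ (Q + 1) * d := ⟨z * P, by rw [h3]; ring⟩
    have h6 : IsCoprime Q (Q + 1) := ⟨-1, 1, by ring⟩
    exact h6.dvd_of_dvd_mul_left h5
  have := Int.le_of_dvd (abs_pos.2 h0) ((dvd_abs Q d).2 h4)
  omega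

lemma tq_small (hP : 0 < P) (hPQ : P < Q) {d : ℤ} (h0 : 0 < d) (h1 : d < P) :
    ⌊tq P Q * (d : ℝ)⌋ = 0 := by
  have hP' : (0 : ℝ) < P := by exact_mod_cast hP
  have hQ' : (0 : ℝ) < Q := by exact_mod_cast hP.trans hPQ
  have h0' : (0 : ℝ) < d := by exact_mod_cast h0
  have h1' : (d : ℝ) + 1 ≤ P := by exact_mod_cast h1
  have h2' : (P : ℝ) + 1 ≤ Q := by exact_mod_cast hPQ
  rw [Int.floor_eq_iff, tq]
  push_cast
  constructor
  · positivity
  · rw [div_mul_eq_mul_div, div_lt_iff₀ (by positivity)]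
    nlinarith

lemma tq_one (hP : 0 < P) (hPQ : P < Q) : ⌊tq P Q * (P : ℝ)⌋ = 1 := by
  have hP' : (0 : ℝ) < P := by exact_mod_cast hP
  have hQ' : (0 : ℝ) < Q := by exact_mod_cast hP.trans hPQ
  have hQ1 : (1 : ℝ) < Q := by
    have : 1 < Q := by omega
    exact_mod_cast this
  rw [Int.floor_eq_iff, tq]
  push_cast
  constructor
  · rw [div_mul_eq_mul_div, le_div_iff₀ (by positivity)]
    nlinarith
  · rw [div_mul_eq_mul_div, div_lt_iff₀ (by positivity)]
    nlinarith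

lemma floor_neg_add {x : ℝ} (h : ¬ ∃ z : ℤ, x = z) : ⌊-x⌋ = -⌊x⌋ - 1 := by
  rw [Int.floor_neg]
  have h1 : ⌈x⌉ = ⌊x⌋ + 1 := by
    apply le_antisymm (Int.ceil_le_floor_add_one x)
    rw [Int.add_one_le_iff, Int.floor_lt]
    refine lt_of_le_of_ne (Int.le_ceil x) fun he => h ⟨⌈x⌉, he⟩
  omega

/-- **The symmetry.** -/
theorem symm_diff {v : Y → Fin n → ℤ} (hs : Strict v) {κ : Y → Fin n} (hκ : ∑ y, v y (κ y) = 0)
    (hm : ∑ y, cnt (v y) (v y (κ y)) + 2 * n = Fintype.card Y * n) (D : ℤ) :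
    ∑ y, cnt (v y) (v y (κ y) + D) = ∑ y, cnt (v y) (v y (κ y) - D) := by
  classical
  obtain ⟨hl, hg⟩ := hs.less hκ
  obtain ⟨M, hM⟩ : ∃ M : ℤ, M = 2 + ∑ y, ∑ l, ∑ l', |v y l - v y l'| := ⟨_, rfl⟩
  have hb : ∀ y l l', |v y l - v y l'| < M := by
    intro y l l'
    have h1 : |v y l - v y l'| ≤ ∑ l', |v y l - v y l'| :=
      single_le_sum (f := fun l' => |v y l - v y l'|) (fun _ _ => abs_nonneg _) (mem_univ l')
    have h2 : ∑ l', |v y l - v y l'| ≤ ∑ l, ∑ l', |v y l - v y l'| :=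
      single_le_sum (f := fun l => ∑ l', |v y l - v y l'|)
        (fun _ _ => sum_nonneg fun _ _ => abs_nonneg _) (mem_univ l)
    have h3 : ∑ l, ∑ l', |v y l - v y l'| ≤ ∑ y, ∑ l, ∑ l', |v y l - v y l'| :=
      single_le_sum (f := fun y => ∑ l, ∑ l', |v y l - v y l'|)
        (fun _ _ => sum_nonneg fun _ _ => sum_nonneg fun _ _ => abs_nonneg _) (mem_univ y)
    omega
  set δ : Y × Fin n → ℤ := fun t => v t.1 t.2 - v t.1 (κ t.1) with hδ
  have hbδ : ∀ t, |δ t| < M := fun t => hb t.1 t.2 (κ t.1)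
  set c : ℤ → ℤ := fun d => ∑ y, cnt (v y) (v y (κ y) + d) with hc
  have hcsum : ∀ d, c d = ∑ t : Y × Fin n, if δ t = d then 1 else 0 := by
    intro d
    rw [Fintype.sum_prod_type]
    refine sum_congr rfl fun y _ => sum_congr rfl fun l _ => ?_
    have : (v y l = v y (κ y) + d) ↔ (δ (y, l) = d) := by
      simp only [hδ]
      omega
    simp only [this]
  have hc0 : ∀ d, M ≤ |d| → c d = 0 := by
    intro d hd
    rw [hcsum]
    refine sum_eq_zero fun t _ => if_neg ?_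
    rintro rfl
    have := hbδ t
    omega
  show c D = ∑ y, cnt (v y) (v y (κ y) - D)
  have hcD : ∑ y, cnt (v y) (v y (κ y) - D) = c (-D) := by
    simp only [hc, ← sub_eq_add_neg]
  rw [hcD]
  by_contra hne
  -- the largest unbalanced difference
  have hex : ∃ P, 0 < P ∧ c P ≠ c (-P) := by
    rcases lt_trichotomy D 0 with h | h | h
    · exact ⟨-D, by omega, fun h' => hne (by rw [neg_neg] at h'; exact h'.symm)⟩
    · exact absurd (by rw [h, neg_zero]) hne
    · exact ⟨D, h, hne⟩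
  obtain ⟨P, hP0, hPne, hPmax⟩ : ∃ P, 0 < P ∧ c P ≠ c (-P) ∧ ∀ d, P < d → c d = c (-d) := by
    obtain ⟨P₀, hP₀, hP₀'⟩ := hex
    have hlt : ∀ d, 0 < d → c d ≠ c (-d) → d < M := by
      intro d hd h
      by_contra hcon
      push Not at hcon
      apply h
      rw [hc0 d (by rw [abs_of_pos hd]; exact hcon), hc0 (-d) (by rw [abs_neg, abs_of_pos hd]; exact hcon)]
    obtain ⟨P, hP, hPm⟩ := exists_max_image ((Icc 1 M).filter fun d => c d ≠ c (-d)) id
      ⟨P₀, mem_filter.2 ⟨mem_Icc.2 ⟨hP₀, (hlt P₀ hP₀ hP₀').le⟩, hP₀'⟩⟩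
    obtain ⟨h1, h2⟩ := mem_filter.1 hP
    refine ⟨P, by have := (mem_Icc.1 h1).1; omega, h2, fun d hd => ?_⟩
    by_contra hcon
    have hd0 : 0 < d := by have := (mem_Icc.1 h1).1; omega
    have := hPm d (mem_filter.2 ⟨mem_Icc.2 ⟨hd0, (hlt d hd0 hcon).le⟩, hcon⟩)
    simp only [id] at this
    omega
  have hPM : P < M := by
    by_contra hcon
    push Not at hcon
    apply hPne
    rw [hc0 P (by rw [abs_of_pos hP0]; exact hcon), hc0 (-P) (by rw [abs_neg, abs_of_pos hP0]; exact hcon)]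
  have hM0 : 0 < M := hP0.trans hPM
  set t : ℝ := tq P M with ht
  have hG : ∀ s : ℝ, (s = 1 ∨ s = -1) → Gen v (s * t) := by
    intro s hs y l l' hne' ⟨z, hz⟩
    have h1 : v y l - v y l' ≠ 0 := sub_ne_zero.2 hne'
    rcases hs with rfl | rfl
    · rw [one_mul] at hz
      exact tq_gen hP0 hM0 h1 (hb y l l') ⟨z, hz⟩
    · refine tq_gen hP0 hM0 h1 (hb y l l') ⟨-z, ?_⟩
      push_cast at hz ⊢
      rw [← hz, ht]
      ring
  have h1 := hs (1 * t) κ (hG 1 (Or.inl rfl)) hκ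
  have h2 := hs (-1 * t) κ (hG (-1) (Or.inr rfl)) hκ
  rw [one_mul] at h1
  rw [← Fintype.sum_prod_type' (fun y l => ⌊t * ((v y l - v y (κ y) : ℤ) : ℝ)⌋)] at h1
  rw [← Fintype.sum_prod_type' (fun y l => ⌊-1 * t * ((v y l - v y (κ y) : ℤ) : ℝ)⌋)] at h2
  have e2 : ∀ x : Y × Fin n, ⌊-1 * t * ((v x.1 x.2 - v x.1 (κ x.1) : ℤ) : ℝ)⌋ =
      -⌊t * ((δ x : ℤ) : ℝ)⌋ - (if δ x ≠ 0 then 1 else 0) := by
    intro x
    show ⌊-1 * t * ((δ x : ℤ) : ℝ)⌋ = _
    by_cases h0 : δ x = 0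
    · rw [h0]
      simp
    · rw [if_pos h0, neg_one_mul, neg_mul, floor_neg_add (tq_gen hP0 hM0 h0 (hbδ x))]
  rw [sum_congr rfl fun x _ => e2 x, sum_sub_distrib, sum_neg_distrib] at h2
  -- the numbers of the differences
  rw [← Fintype.sum_prod_type' (fun y l => if v y l < v y (κ y) then (1 : ℤ) else 0)] at hl
  rw [← Fintype.sum_prod_type' (fun y l => if v y (κ y) < v y l then (1 : ℤ) else 0)] at hg
  have e3 : ∀ x : Y × Fin n, (if v x.1 x.2 < v x.1 (κ x.1) then (1 : ℤ) else 0) =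
      if δ x < 0 then 1 else 0 := by
    intro x
    have : (v x.1 x.2 < v x.1 (κ x.1)) ↔ (δ x < 0) := by
      simp only [hδ]
      omega
    simp only [this]
  have e4 : ∀ x : Y × Fin n, (if v x.1 (κ x.1) < v x.1 x.2 then (1 : ℤ) else 0) =
      if 0 < δ x then 1 else 0 := by
    intro x
    have : (v x.1 (κ x.1) < v x.1 x.2) ↔ (0 < δ x) := by
      simp only [hδ]
      omega
    simp only [this]
  rw [sum_congr rfl fun x _ => e3 x] at hl
  rw [sum_congr rfl fun x _ => e4 x] at hg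
  have hc00 : c 0 = ∑ y, cnt (v y) (v y (κ y)) := by simp only [hc, add_zero]
  have h00 := hcsum 0
  have e5 : ∑ x, (if δ x ≠ 0 then (1 : ℤ) else 0) =
      ∑ x, (if δ x < 0 then (1 : ℤ) else 0) + ∑ x, (if 0 < δ x then (1 : ℤ) else 0) := by
    rw [← sum_add_distrib]
    refine sum_congr rfl fun x _ => ?_
    rcases lt_trichotomy (δ x) 0 with h | h | h
    · rw [if_pos h.ne, if_pos h, if_neg (by omega)]; norm_num
    · rw [if_neg (by omega), if_neg (by omega), if_neg (by omega)]; norm_num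
    · rw [if_pos h.ne', if_neg (by omega), if_pos h]; norm_num
  have e6 : ∑ x, (if δ x ≠ 0 then (1 : ℤ) else 0) + ∑ x, (if δ x = 0 then (1 : ℤ) else 0) =
      Fintype.card Y * n := by
    rw [← sum_add_distrib]
    have : ∀ x : Y × Fin n, (if δ x ≠ 0 then (1 : ℤ) else 0) + (if δ x = 0 then (1 : ℤ) else 0) =
        1 := by
      intro x
      by_cases h : δ x = 0
      · rw [if_neg (by simpa using h), if_pos h]; norm_num
      · rw [if_pos h, if_neg h]; norm_num
    rw [sum_congr rfl fun x _ => this x]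
    simp
  rw [← h00, hc00] at e6
  have hneg : ∑ x, (if δ x < 0 then (1 : ℤ) else 0) = n := by linarith
  have hS : ∑ x : Y × Fin n, ⌊t * ((δ x : ℤ) : ℝ)⌋ = -n := by
    have h1' : ∑ x : Y × Fin n, ⌊t * ((δ x : ℤ) : ℝ)⌋ + (n : ℤ) ≤ 0 := h1
    linarith
  -- the odd function
  set h : ℤ → ℤ := fun d => ⌊t * (d : ℝ)⌋ + if d < 0 then 1 else 0 with hh
  have hA : ∑ x : Y × Fin n, h (δ x) = 0 := by
    simp only [hh, sum_add_distrib]
    rw [hS, hneg]
    ring
  have hodd : ∀ d, |d| < M → h (-d) = -h d := by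
    intro d hd
    rcases lt_trichotomy d 0 with h0 | h0 | h0
    · have h3 := floor_neg_add (tq_gen hP0 hM0 h0.ne hd)
      simp only [hh]
      rw [if_neg (by omega), if_pos h0]
      push_cast
      rw [mul_neg, h3]
      ring
    · rw [h0]; simp [hh]
    · have h3 := floor_neg_add (tq_gen hP0 hM0 h0.ne' hd)
      simp only [hh]
      rw [if_pos (by omega), if_neg (by omega)]
      push_cast
      rw [mul_neg, h3]
      ring
  have hfib : ∑ x : Y × Fin n, h (δ x) = ∑ d ∈ Icc (-M) M, c d * h d := by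
    rw [← sum_fiberwise_of_maps_to (g := δ) (t := Icc (-M) M) (fun x _ => by
      have := abs_lt.1 (hbδ x)
      rw [mem_Icc]
      omega)]
    refine sum_congr rfl fun d _ => ?_
    rw [hcsum, sum_mul, sum_filter]
    refine sum_congr rfl fun x _ => ?_
    split_ifs with hx
    · rw [hx]; ring
    · ring
  have hrefl : ∑ d ∈ Icc (-M) M, c d * h d = ∑ d ∈ Icc (-M) M, c (-d) * h (-d) := by
    refine sum_nbij' (fun d => -d) (fun d => -d) ?_ ?_ ?_ ?_ ?_
    · intro d hd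
      rw [mem_Icc] at hd ⊢
      omega
    · intro d hd
      rw [mem_Icc] at hd ⊢
      omega
    · intro d _; exact neg_neg d
    · intro d _; exact neg_neg d
    · intro d _
      rw [neg_neg]
  have hsum2 : ∑ d ∈ Icc (-M) M, (c d * h d + c (-d) * h (-d)) = 0 := by
    rw [sum_add_distrib, ← hrefl, ← hfib, hA]
    ring
  have hterm : ∀ d ∈ Icc (-M) M, d ∉ ({P, -P} : Finset ℤ) → c d * h d + c (-d) * h (-d) = 0 := by
    intro d hd hdP
    rw [mem_Icc] at hd
    simp only [mem_insert, mem_singleton, not_or] at hdP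
    rcases lt_or_ge |d| M with hdM | hdM
    · rw [hodd d hdM]
      rcases lt_or_ge P |d| with h3 | h3
      · have h4 : c d = c (-d) := by
          rcases le_total 0 d with h5 | h5
          · exact hPmax d (by rwa [abs_of_nonneg h5] at h3)
          · have := hPmax (-d) (by rwa [abs_of_nonpos h5] at h3)
            rw [neg_neg] at this
            exact this.symm
        rw [h4]
        ring
      · have h4 : h d = 0 := by
          rcases lt_trichotomy d 0 with h0 | h0 | h0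
          · have h5 : h (-d) = 0 := by
              simp only [hh]
              rw [if_neg (by omega), tq_small hP0 hPM (by omega) (by
                rw [abs_of_neg h0] at h3
                omega)]
              norm_num
            rw [hodd d hdM] at h5
            omega
          · rw [h0]; simp [hh]
          · simp only [hh]
            rw [if_neg (by omega), tq_small hP0 hPM h0 (by
              rw [abs_of_pos h0] at h3
              omega)]
            norm_num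
        rw [h4]
        ring
    · rw [hc0 d hdM, hc0 (-d) (by rwa [abs_neg])]
      ring
  have hsub : ({P, -P} : Finset ℤ) ⊆ Icc (-M) M := by
    intro d hd
    rw [mem_insert, mem_singleton] at hd
    rw [mem_Icc]
    omega
  rw [← sum_subset hsub hterm, sum_pair (by omega)] at hsum2
  have hP1 : h P = 1 := by
    simp only [hh]
    rw [tq_one hP0 hPM, if_neg (by omega)]
    norm_num
  have hP2 : h (-P) = -1 := by
    rw [hodd P (by rw [abs_of_pos hP0]; exact hPM), hP1]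
  rw [neg_neg, hP1, hP2] at hsum2
  apply hPne
  linarith

end sym

section bal

variable {n : ℕ}

lemma cnt_self_pos (f : Fin n → ℤ) (l : Fin n) : 0 < cnt f (f l) := by
  have := single_le_sum (f := fun i => if f i = f l then (1 : ℤ) else 0)
    (fun i _ => by show (0 : ℤ) ≤ if f i = f l then 1 else 0; split_ifs <;> norm_num) (mem_univ l)
  simp only [if_true] at this
  unfold cnt
  omega

lemma cnt_three (f : Fin n → ℤ) {a b d : ℤ} (hab : a ≠ b) (had : a ≠ d) (hbd : b ≠ d) :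
    cnt f a + cnt f b + cnt f d ≤ n := by
  unfold cnt
  rw [← sum_add_distrib, ← sum_add_distrib]
  calc _ ≤ ∑ _l : Fin n, (1 : ℤ) := sum_le_sum fun l _ => by
        split_ifs <;> omega
    _ = n := by simp

/-- One step. -/
lemma bal_step {v : Fin 3 → Fin n → ℤ} (hs : Strict v) {μ : Fin 3 → ℤ}
    (hμ : ∀ y l, cnt (v y) (v y l) = μ y) (h0 : 2 * μ 0 = n) (h12 : μ 1 + μ 2 = μ 0)
    {κ : Fin 3 → Fin n} (hκ : ∑ y, v y (κ y) = 0) {l' : Fin n} (hl' : v 0 l' ≠ v 0 (κ 0)) :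
    (∃ l, v 1 l = v 1 (κ 1) + (v 0 (κ 0) - v 0 l')) ∧
      (∃ l, v 2 l = v 2 (κ 2) + (v 0 (κ 0) - v 0 l')) ∧
      cnt (v 2) (v 2 (κ 2) - (v 0 (κ 0) - v 0 l')) = 0 := by
  have key := symm_diff hs hκ (by
    rw [Fin.sum_univ_three, hμ, hμ, hμ, Fintype.card_fin]
    push_cast
    linarith) (v 0 (κ 0) - v 0 l')
  obtain ⟨D, hD⟩ : ∃ D, D = v 0 (κ 0) - v 0 l' := ⟨_, rfl⟩
  rw [← hD] at key ⊢
  rw [Fin.sum_univ_three, Fin.sum_univ_three] at key
  have hD0 : D ≠ 0 := by omega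
  have e1 : v 0 (κ 0) - D = v 0 l' := by omega
  rw [e1, hμ] at key
  have e0 : cnt (v 0) (v 0 (κ 0) + D) = 0 := by
    by_contra hne
    obtain ⟨l, hl⟩ := cnt_pos hne
    have h1 := cnt_three (v 0) (a := v 0 (κ 0)) (b := v 0 l') (d := v 0 l) hl'.symm (by omega)
      (by omega)
    rw [hμ, hμ] at h1
    have h2 := cnt_self_pos (v 0) l
    linarith
  rw [e0] at key
  have hle : ∀ y d, cnt (v y) d ≤ μ y := by
    intro y d
    by_cases h : cnt (v y) d = 0
    · rw [h]
      have := cnt_self_pos (v y) (κ y)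
      rw [hμ] at this
      exact this.le
    · obtain ⟨l, rfl⟩ := cnt_pos h
      exact (hμ y l).le
  have p1 := cnt_self_pos (v 1) (κ 1)
  have p2 := cnt_self_pos (v 2) (κ 2)
  rw [hμ] at p1 p2
  have a1 := hle 1 (v 1 (κ 1) + D)
  have a2 := hle 2 (v 2 (κ 2) + D)
  have b1 := cnt_nonneg (v 1) (v 1 (κ 1) - D)
  have b2 := cnt_nonneg (v 2) (v 2 (κ 2) - D)
  refine ⟨cnt_pos (by linarith), cnt_pos (by linarith), by linarith⟩

/-- **No resonances.** -/
theorem no_balanced {v : Fin 3 → Fin n → ℤ} (hs : Strict v) {μ : Fin 3 → ℤ}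
    (hμ : ∀ y l, cnt (v y) (v y l) = μ y) (h0 : 2 * μ 0 = n) (h12 : μ 1 + μ 2 = μ 0)
    {κ : Fin 3 → Fin n} (hκ : ∑ y, v y (κ y) = 0) : False := by
  have hpos : 0 < μ 0 := by
    rw [← hμ 0 (κ 0)]
    exact cnt_self_pos _ _
  have hex : ∃ l', v 0 l' ≠ v 0 (κ 0) := by
    by_contra hno
    push Not at hno
    have h1 : cnt (v 0) (v 0 (κ 0)) = n := by
      unfold cnt
      rw [sum_congr rfl fun l _ => if_pos (hno l)]
      simp
    rw [hμ] at h1
    linarith
  obtain ⟨l', hl'⟩ := hex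
  obtain ⟨⟨l1, hl1⟩, -, h2⟩ := bal_step hs hμ h0 h12 hκ hl'
  rw [Fin.sum_univ_three] at hκ
  have hκ' : ∑ y, v y ((![l', l1, κ 2] : Fin 3 → Fin n) y) = 0 := by
    rw [Fin.sum_univ_three]
    show v 0 l' + v 1 l1 + v 2 (κ 2) = 0
    rw [hl1]
    linarith
  obtain ⟨-, ⟨l2, hl2⟩, -⟩ := bal_step hs hμ h0 h12 hκ' (l' := κ 0) hl'.symm
  have hl2' : v 2 l2 = v 2 (κ 2) + (v 0 l' - v 0 (κ 0)) := hl2
  have e : v 2 (κ 2) - (v 0 (κ 0) - v 0 l') = v 2 l2 := by rw [hl2']; ring
  rw [e, hμ] at h2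
  have := cnt_self_pos (v 2) l2
  rw [hμ, h2] at this
  exact absurd this (lt_irrefl _)

end bal

end Pool.Agent.N858.R3
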