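import Pool.Agent.N858.R3.Irr3
import Pool.Agent.N858.R3.Sym

set_option autoImplicit false

/-!
Irreducible systems with rough denominators and balanced multiplicities.
-/

open Finset Filter

namespace Pool.Agent.N858.R3

open Pool.Agent.N858.PC
open Pool.Agent.N858.R4

variable {X : Type*} [Fintype X] [DecidableEq X] {n : ℕ}

/-- At each of the three points `p x` all the classes of the exponents modulo the integers have the
same multiplicity `μ x`, and `μ 0 = n / 2`, `μ 1 + μ 2 = n / 2`. -/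
def Balanced {X : Type*} {n : ℕ} (e : X → Fin n → ℚ) (p : Fin 3 → X) : Prop :=
  ∃ μ : Fin 3 → ℕ, 2 * μ 0 = n ∧ μ 1 + μ 2 = μ 0 ∧ ∀ x k, mult e (p x) k = μ x

omit [Fintype X] [DecidableEq X] in
lemma mult_congr {X' : Type*} {e : X → Fin n → ℚ} {e' : X' → Fin n → ℚ} {x : X} {x' : X'}
    (h : e x = e' x') (k : Fin n) : mult e x k = mult e' x' k := by
  unfold mult
  congr 1
  ext l
  simp only [mem_filter, h]

lemma crit_bal {n : ℕ} (hn : 0 < n) {r : Fin 3 → Fin n → Fin n → Prop} [∀ x i j, Decidable (r x i j)]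
    (hrefl : ∀ x i, r x i i) {μ : Fin 3 → ℤ} (h0 : 2 * μ 0 = n) (h12 : μ 1 + μ 2 = μ 0)
    (hμ : ∀ x k, mu (r x) k = μ x) : Crit r := by
  right
  have hpr : ∀ x, pr (r x) = n * μ x := by
    intro x
    have : pr (r x) = ∑ k, mu (r x) k := rfl
    rw [this, sum_congr rfl fun k _ => hμ x k]
    simp
  have hpos : ∀ x, 0 < μ x := by
    intro x
    rw [← hμ x ⟨0, hn⟩]
    unfold mu
    refine sum_pos' (fun _ _ => by split_ifs <;> norm_num) ⟨⟨0, hn⟩, mem_univ _, ?_⟩
    rw [if_pos (hrefl x _)]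
    norm_num
  intro x k k' _
  rw [hμ, hμ, hpr, Fin.sum_univ_three, hpr, hpr, hpr]
  have hle : μ x ≤ μ 0 := by
    have h1 := hpos 1
    have h2 := hpos 2
    fin_cases x
    · exact le_refl _
    · show μ 1 ≤ μ 0
      omega
    · show μ 2 ≤ μ 0
      omega
  have h3 := hpos x
  have h4 : μ x < n := by
    have := hpos 0
    omega
  have h5 : (n : ℤ) * μ 0 + n * μ 1 + n * μ 2 = (n : ℤ) ^ 2 := by
    have : μ 1 = μ 0 - μ 2 := by omega
    rw [this]
    have h6 : (n : ℤ) = 2 * μ 0 := h0.symm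
    rw [h6]
    ring
  rw [h5]
  nlinarith

open Classical in
/-- No balanced exponents. -/
theorem no_bal [Nonempty X] (S : Seq X n) (F : Ultrafilter ℕ) (hF : (F : Filter ℕ) ≤ atTop)
    (hn : 0 < n) {p : Fin 3 → X} (hp : Function.Injective p) (l0 : Fin n)
    (hD : ∀ᶠ j in (F : Filter ℕ), ∀ a : ℤ, IsCoprime a (S.N j : ℤ) →
      DPos p l0 fun x l => (a : ℝ) * S.e j x l)
    (hSt : ∀ᶠ j in (F : Filter ℕ), ∀ a : ℤ, IsCoprime a (S.N j : ℤ) →
      LineSt fun x l => (a : ℝ) * S.e j x l)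
    (hsc : ∀ x, (∀ i, x ≠ p i) → ∀ l, S.cl F (x, l) = S.cl F (x, l0))
    {μ : Fin 3 → ℤ} (h0 : 2 * μ 0 = n) (h12 : μ 1 + μ 2 = μ 0)
    (hμ : ∀ x k, mu (fun i j => S.cl F (p x, i) = S.cl F (p x, j)) k = μ x) : False := by
  obtain ⟨V, hV⟩ := exists_gv S F hF
  have hout : ∀ q ∈ out p, ∀ l, V (q, l) = V (q, l0) := fun q hq l =>
    eq_of_cl hV (hsc q (mem_out.1 hq) l)
  obtain ⟨κ, hκ⟩ := exists_del S F hF hn hp l0 hD hsc
    (crit_bal hn (fun _ _ => rfl) h0 h12 hμ)
  have hVκ : ∑ x, V (x, κ x) = 0 := by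
    have h1 := hV.rel _ hκ
    have := sum_del' (R := ℤ) κ V
    simp only [Int.cast_id] at this
    rw [← this]
    exact h1
  have hdiff : ∀ y l l', vec V p l0 0 y l - vec V p l0 0 y l' = V (p y, l) - V (p y, l') := by
    intro y l l'
    unfold vec
    ring
  have hres : ∑ y, vec V p l0 0 y (κ (p y)) = 0 := by
    rw [sum_vec V hp l0 0 fun y => κ (p y), ← hVκ]
    refine sum_congr rfl fun x _ => ?_
    by_cases hx : x ∈ out p
    · rw [hout x hx, hout x hx (κ x)]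
    · rw [mem_out] at hx
      push Not at hx
      obtain ⟨y, rfl⟩ := hx
      rw [ex_p hp]
  refine no_balanced (strict_torus S F hF hn hSt hV hp l0 hsc 0) (μ := μ) ?_ h0 h12 hres
  intro y l
  rw [← hμ y l]
  unfold cnt mu
  refine sum_congr rfl fun i _ => ?_
  have hiff : (vec V p l0 0 y i = vec V p l0 0 y l) ↔ (S.cl F (p y, l) = S.cl F (p y, i)) := by
    have := hdiff y l i
    constructor
    · intro h
      exact cl_of_dif S F (hV.dif _ _ _ (by omega))
    · intro h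
      have := eq_of_cl hV h
      omega
  simp only [hiff]

open Classical in
/-- The abstract theorem. -/
theorem abs_bal (X : Type*) [Fintype X] [DecidableEq X] [Nonempty X] (n : ℕ) (hn : 0 < n) :
    ∃ B : ℕ, ∀ (e : X → Fin n → ℚ) (q N : ℕ) (p : Fin 3 → X), Function.Injective p →
      0 < q → 0 < N →
      (∀ p : ℕ, p.Prime → p ∣ q → B < p) →
      (∀ x l l', ∃ w : ℤ, (q : ℚ) * (e x l - e x l') = w) →
      (∃ w : ℤ, ∑ x, ∑ l, e x l = w) →
      (∀ a : ℤ, IsCoprime a (N : ℤ) → LineSS fun x l => (a : ℝ) * e x l) →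
      (∀ a : ℤ, IsCoprime a (N : ℤ) → LineSt fun x l => (a : ℝ) * e x l) →
      (∀ a : ℤ, IsCoprime a (N : ℤ) → DPos p ⟨0, hn⟩ fun x l => (a : ℝ) * e x l) →
      (∀ x, (∀ i, x ≠ p i) → ∀ l l', ∃ z : ℤ, e x l - e x l' = z) →
      ¬ Balanced e p := by
  by_contra hcon
  push Not at hcon
  choose e q N p hp hq hN hrough hd ht hSS hSt hDP hsc hB using fun j : ℕ => hcon (j + n)
  have hnorm : ∀ j, ∃ (E : X → Fin n → ℚ) (ε : X → ℚ), (∀ x l, e j x l = E x l + ε x) ∧
      (∀ x l, ∃ z : ℤ, (q j : ℚ) * E x l = z) ∧ ∃ k : ℤ, (n : ℚ) * ∑ x, ε x = k := fun j =>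
    normalize hn (hq j) (coprime_rough (hrough j) hn (by omega)) (hd j) (ht j)
  choose E ε he hE hε using hnorm
  let S : Seq X n :=
    { e := e, E := E, ε := ε, q := q, N := N, hq := hq, hN := hN
      rough := fun j p hp hpq => by have := hrough j p hp hpq; omega
      he := he, hE := hE, hε := hε, htr := ht, hSS := hSS }
  set F : Ultrafilter ℕ := Filter.hyperfilter ℕ with hFdef
  have hF : (F : Filter ℕ) ≤ atTop := Nat.hyperfilter_le_atTop
  -- the three points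
  obtain ⟨p₀, hp₀⟩ : ∃ p₀ : Fin 3 → X, ∀ᶠ j in (F : Filter ℕ), p j = p₀ := by
    by_contra hno
    have h1 : ∀ p₀ : Fin 3 → X, ∀ᶠ j in (F : Filter ℕ), ¬ p j = p₀ := fun p₀ =>
      Ultrafilter.eventually_not.2 fun h => hno ⟨p₀, h⟩
    obtain ⟨j, hj⟩ := (Filter.eventually_all.2 h1).exists
    exact hj (p j) rfl
  have hp₀i : Function.Injective p₀ := by
    obtain ⟨j, hj⟩ := hp₀.exists
    rw [← hj]
    exact hp j
  have hDP' : ∀ᶠ j in (F : Filter ℕ), ∀ a : ℤ, IsCoprime a (S.N j : ℤ) →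
      DPos p₀ ⟨0, hn⟩ fun x l => (a : ℝ) * S.e j x l := by
    filter_upwards [hp₀] with j hj a ha
    rw [← hj]
    exact hDP j a ha
  have hsc' : ∀ x, (∀ i, x ≠ p₀ i) → ∀ l, S.cl F (x, l) = S.cl F (x, ⟨0, hn⟩) := by
    intro x hx l
    rw [cl_eq_iff S F hF]
    filter_upwards [hp₀] with j hj
    exact hsc j x (by rw [hj]; exact hx) l ⟨0, hn⟩
  -- the multiplicities
  have h1 : ∀ᶠ N in (F : Filter ℕ), ∀ (x : Fin 3) (i j : Fin n),
      ((∃ w : ℤ, e N (p₀ x) i - e N (p₀ x) j = w) ↔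
        S.cl F (p₀ x, i) = S.cl F (p₀ x, j)) := by
    refine Filter.eventually_all.2 fun x => Filter.eventually_all.2 fun i =>
      Filter.eventually_all.2 fun j => ?_
    by_cases h : S.cl F (p₀ x, i) = S.cl F (p₀ x, j)
    · filter_upwards [(cl_eq_iff S F hF _ _ _).1 h] with N hN
      exact ⟨fun _ => h, fun _ => hN⟩
    · have h2 : ∀ᶠ N in (F : Filter ℕ), ¬ ∃ w : ℤ, S.e N (p₀ x) i - S.e N (p₀ x) j = w :=
        Ultrafilter.eventually_not.2 fun h3 => h ((cl_eq_iff S F hF _ _ _).2 h3)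
      filter_upwards [h2] with N hN
      exact ⟨fun h3 => absurd h3 hN, fun h3 => absurd h3 h⟩
  obtain ⟨j, hj, hpj⟩ := (h1.and hp₀).exists
  obtain ⟨μ, hμ0, hμ12, hμ⟩ := hB j
  rw [hpj] at hμ
  refine no_bal S F hF hn hp₀i ⟨0, hn⟩ hDP' (Eventually.of_forall hSt) hsc'
    (μ := fun x => (μ x : ℤ)) (by exact_mod_cast hμ0) (by exact_mod_cast hμ12) ?_
  intro x k
  rw [← hμ x k]
  unfold mu mult Cong
  rw [card_filter]
  push_cast
  exact sum_congr rfl fun l _ => by simp only [hj x k l]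

open Pool.Agent.W432.PC Pool.Agent.W432.TC Pool.Agent.Y227.SS

theorem bal_weights (m n : ℕ) (hn : 0 < n) :
    ∃ B : ℕ, ∀ (lam : Fin m → Fin n → ℚ)
    (phi : Fin n → ℚ) (N : ℕ) (F : ℤ) (p : Fin 3 → Option (Fin m)), 0 < N →
    ∑ j, ∑ l, lam j l = ∑ l, phi l + F →
    Rough B (allExp lam phi) → Function.Injective p → ScalarOutside (allExp lam phi) p →
    (∀ a : ℤ, IsCoprime a (N : ℤ) → StableWeights ℂ
      (fun j l => (a : ℝ) * lam j l) (fun l => (a : ℝ) * phi l)) →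
    ¬ Balanced (allExp lam phi) p := by
  classical
  obtain ⟨B, hB⟩ := abs_bal (Option (Fin m)) n hn
  refine ⟨B, fun lam phi N F p hN hF hR hp hsc hSt hbal => ?_⟩
  have hn1 : 1 < n := by
    obtain ⟨μ, hμ, -, -⟩ := hbal
    omega
  refine absurd hbal ?_
  obtain ⟨q, hq, hrough, hd⟩ := hR
  have htr : ∃ w : ℤ, ∑ x, ∑ l, allExp lam phi x l = w := by
    refine ⟨F, ?_⟩
    rw [Fintype.sum_option]
    simp only [allExp, sum_neg_distrib, hF]
    ring
  have hSS := fun a ha => semistable_of_stable (hSt a ha)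
  have hFa : ∀ a : ℤ, ∑ j, ∑ l, (a : ℝ) * lam j l = ∑ l, (a : ℝ) * phi l + ((a * F : ℤ) : ℝ) := by
    intro a
    have h1 := congrArg (fun r : ℚ => (a : ℝ) * (r : ℝ)) hF
    push_cast at h1 ⊢
    simp only [← mul_sum]
    linarith
  exact hB (allExp lam phi) q N p hp hq hN hrough hd htr
    (fun a ha => (conj_ineq hn hF hp hsc hSS a ha).1)
    (fun a ha => by
      rw [allExp_mul]
      exact lineSt_of hn1 (hSt a ha) _ (hFa a))
    (fun a ha => (conj_ineq hn hF hp hsc hSS a ha).2)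
    (fun x hx l l' => hsc x hx l l')

universe u

theorem bal_sys (n r : ℕ) (hr : 0 < r) :
    ∃ (ε : ℝ) (B : ℕ), 0 < ε ∧
      ∀ (R : Type u) [CommRing R] [IsDomain R] [CharZero R] [Algebra.FiniteType ℤ R]
        (α : Fin n → R) (A : Fin n → Matrix (Fin r) (Fin r) R)
        (lam : Fin n → Fin r → ℚ) (phi : Fin r → ℚ) (N : ℕ) (p : Fin 3 → Option (Fin n)),
        (∀ i j, i ≠ j → IsUnit (α i - α j)) → AbsIrreducible α A →
        (∀ j, HasExponents (A j) (lam j)) → HasExponents (∑ j, A j) phi →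
        0 < N → (∀ j l, ∃ m : ℤ, (N : ℚ) * lam j l = m) → (∀ l, ∃ m : ℤ, (N : ℚ) * phi l = m) →
        Rough B (allExp lam phi) → Function.Injective p → ScalarOutside (allExp lam phi) p →
        Balanced (allExp lam phi) p →
          (∃ g : R, g ≠ 0 ∧ BadClasses α A N ε g) ∧ ¬ CondII α A := by
  obtain ⟨ε, 𝒟, hε, -, huni⟩ := uniform.{u} n r
  obtain ⟨B, hB⟩ := bal_weights n r hr
  refine ⟨ε, B, hε, ?_⟩
  intro R _ _ _ _ α A lam phi N p hα hirr hlam hphi hN hNlam hNphi hR hp hsc hbal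
  have hF : ∑ j, ∑ l, lam j l = ∑ l, phi l + ((0 : ℤ) : ℚ) := by
    rw [sum_exponents hlam hphi]; simp
  rcases (huni R α A lam phi N hα hlam hphi hN hNlam hNphi).2 hirr with h | h
  · exact absurd hbal (hB lam phi N 0 p hN hF hR hp hsc h)
  · exact h

/-- Systems on the thrice punctured line. -/
theorem bal_thrice (r : ℕ) (hr : 0 < r) :
    ∃ (ε : ℝ) (B : ℕ), 0 < ε ∧
      ∀ (R : Type u) [CommRing R] [IsDomain R] [CharZero R] [Algebra.FiniteType ℤ R]
        (b c : Matrix (Fin r) (Fin r) R) (lam : Fin 3 → Fin r → ℚ) (N : ℕ) (p : Fin 3 → Fin 3),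
        AbsIrreducible (![0, 1] : Fin 2 → R) ![b, c] →
        HasExponents b (lam 0) → HasExponents c (lam 1) →
        HasExponents (b + c) (fun l => -lam 2 l) →
        0 < N → (∀ j l, ∃ m : ℤ, (N : ℚ) * lam j l = m) → Rough B lam →
        Function.Injective p → Balanced lam p →
          (∃ g : R, g ≠ 0 ∧ BadClasses ![0, 1] ![b, c] N ε g) ∧ ¬ CondII ![0, 1] ![b, c] := by
  obtain ⟨ε, B, hε, h⟩ := bal_sys.{u} 2 r hr
  refine ⟨ε, B, hε, ?_⟩
  intro R _ _ _ _ b c lam N p' hirr h0 h1 h2 hN hNlam hR hp' hbal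
  obtain ⟨p, hpdef⟩ : ∃ p : Fin 3 → Option (Fin 2), p = ![some 0, some 1, none] := ⟨_, rfl⟩
  have hp : Function.Injective p := by rw [hpdef]; decide
  have hps : Function.Surjective p := by rw [hpdef]; decide
  have hE' : ∀ x, allExp (fun j : Fin 2 => lam j.castSucc) (fun l => -lam 2 l) (p x) = lam x :=
    fun x => by rw [hpdef]; exact thrice_aux lam x
  have hps' : Function.Surjective (p ∘ p') :=
    hps.comp (Finite.surjective_of_injective hp')
  refine h R ![0, 1] ![b, c] (fun j => lam j.castSucc) (fun l => -lam 2 l) N (p ∘ p') (by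
      intro i j hij
      fin_cases i <;> fin_cases j
      · exact absurd rfl hij
      · simp
      · simp
      · exact absurd rfl hij) hirr (by
      intro j
      fin_cases j
      · exact h0
      · exact h1) (by
      rw [Fin.sum_univ_two]
      exact h2) hN (fun j l => hNlam _ l) (fun l => by
      obtain ⟨m, hm⟩ := hNlam 2 l
      exact ⟨-m, by push_cast; rw [← hm]; ring⟩) (by
      obtain ⟨q, hq, hrough, hd⟩ := hR
      refine ⟨q, hq, hrough, fun x l l' => ?_⟩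
      obtain ⟨y, rfl⟩ := hps x
      rw [hE']
      exact hd y l l') (hp.comp hp') (by
      intro x hx
      obtain ⟨y, rfl⟩ := hps' x
      exact absurd rfl (hx y)) ?_
  obtain ⟨μ, hμ0, hμ12, hμ⟩ := hbal
  refine ⟨μ, hμ0, hμ12, fun x k => ?_⟩
  rw [← hμ x k]
  exact mult_congr (hE' (p' x)) k

end Pool.Agent.N858.R3
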