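import Pool.Agent.N858.R3.Eff
import Pool.Agent.N858.R3.IrrB

set_option autoImplicit false

/-!
Irreducible systems with large multiplicities or with index of rigidity at least zero: the effective
theorem.
-/

open Finset

namespace Pool.Agent.N858.R3

open Pool.Agent.N858.PC
open Pool.Agent.N858.R4
open Pool.Agent.W432.PC Pool.Agent.W432.TC Pool.Agent.Y227.SS

theorem eff_weights {m n : ℕ} (hn : 1 < n) (lam : Fin m → Fin n → ℚ)
    (phi : Fin n → ℚ) (N : ℕ) (F : ℤ) (hN : 0 < N)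
    (hF : ∑ j, ∑ l, lam j l = ∑ l, phi l + F)
    (hR : RoughSums (2 * n) (allExp lam phi))
    (hSt : ∀ a : ℤ, IsCoprime a (N : ℤ) → StableWeights ℂ
      (fun j l => (a : ℝ) * lam j l) (fun l => (a : ℝ) * phi l)) :
    ¬ LargeMult (allExp lam phi) ∧ (IndexNonneg (allExp lam phi) → ExcType (allExp lam phi)) := by
  have hFa : ∀ a : ℤ, ∑ j, ∑ l, (a : ℝ) * lam j l = ∑ l, (a : ℝ) * phi l + ((a * F : ℤ) : ℝ) := by
    intro a
    have h1 := congrArg (fun r : ℚ => (a : ℝ) * (r : ℝ)) hF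
    push_cast at h1 ⊢
    simp only [← mul_sum]
    linarith
  have htr : ∃ w : ℤ, ∑ x, ∑ l, allExp lam phi x l = w := by
    refine ⟨F, ?_⟩
    rw [Fintype.sum_option]
    simp only [allExp, sum_neg_distrib, hF]
    ring
  have hL : ∀ a : ℤ, IsCoprime a (N : ℤ) → LineSt fun x l => (a : ℝ) * allExp lam phi x l := by
    intro a ha
    rw [allExp_mul]
    exact lineSt_of hn (hSt a ha) _ (hFa a)
  have h1 := eff_bound (by omega) hN hR hL
  have h3 := eff_card (by omega) hL
  have h2 := eff_ns (by omega) (by omega) hR htr hL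
  exact ⟨h1, fun hI => (index_class (by omega) h3 h2 hI).resolve_left h1⟩

universe u

/-- Systems. -/
theorem eff_sys (n r : ℕ) (hr : 1 < r) :
    ∃ ε : ℝ, 0 < ε ∧
      ∀ (R : Type u) [CommRing R] [IsDomain R] [CharZero R] [Algebra.FiniteType ℤ R]
        (α : Fin n → R) (A : Fin n → Matrix (Fin r) (Fin r) R)
        (lam : Fin n → Fin r → ℚ) (phi : Fin r → ℚ) (N : ℕ),
        (∀ i j, i ≠ j → IsUnit (α i - α j)) → AbsIrreducible α A →
        (∀ j, HasExponents (A j) (lam j)) → HasExponents (∑ j, A j) phi →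
        0 < N → (∀ j l, ∃ m : ℤ, (N : ℚ) * lam j l = m) → (∀ l, ∃ m : ℤ, (N : ℚ) * phi l = m) →
        RoughSums (2 * r) (allExp lam phi) →
        (LargeMult (allExp lam phi) ∨
          (IndexNonneg (allExp lam phi) ∧ ¬ ExcType (allExp lam phi))) →
          (∃ g : R, g ≠ 0 ∧ BadClasses α A N ε g) ∧ ¬ CondII α A := by
  obtain ⟨ε, 𝒟, hε, -, huni⟩ := uniform.{u} n r
  refine ⟨ε, hε, ?_⟩
  intro R _ _ _ _ α A lam phi N hα hirr hlam hphi hN hNlam hNphi hR hor
  have hF : ∑ j, ∑ l, lam j l = ∑ l, phi l + ((0 : ℤ) : ℚ) := by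
    rw [sum_exponents hlam hphi]; simp
  rcases (huni R α A lam phi N hα hlam hphi hN hNlam hNphi).2 hirr with h | h
  · obtain ⟨h1, h2⟩ := eff_weights hr lam phi N 0 hN hF hR h
    rcases hor with h3 | ⟨h3, h4⟩
    · exact absurd h3 h1
    · exact absurd (h2 h3) h4
  · exact h

section move

variable {X Y : Type*} [Fintype X] [Fintype Y] {n : ℕ} {e : X → Fin n → ℚ} {e' : Y → Fin n → ℚ}

/-- The conditions do not depend on the names of the points. -/
lemma move_pairs (φ : X ≃ Y) (h : ∀ x, e' (φ x) = e x) : ∑ y, pairs e' y = ∑ x, pairs e x := by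
  rw [← Equiv.sum_comp φ]
  refine sum_congr rfl fun x _ => ?_
  unfold pairs
  exact sum_congr rfl fun k _ => mult_congr (h x) k

lemma move_index (φ : X ≃ Y) (h : ∀ x, e' (φ x) = e x) (hI : IndexNonneg e) : IndexNonneg e' := by
  unfold IndexNonneg at hI ⊢
  rw [move_pairs φ h, ← Fintype.card_congr φ]
  exact hI

lemma move_large (φ : X ≃ Y) (h : ∀ x, e' (φ x) = e x) (hL : LargeMult e) : LargeMult e' := by
  classical
  obtain ⟨x, z, hxz, k, k', κ, hk, hlt⟩ := hL
  refine ⟨φ x, φ z, fun he => hxz (φ.injective he), k, k', fun y => κ (φ.symm y), ?_, ?_⟩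
  · rw [h x]
    exact hk
  · rw [← Fintype.card_congr φ, mult_congr (h x) k, mult_congr (h x) k']
    refine lt_of_lt_of_le hlt ?_
    refine Nat.add_le_add_right (Nat.add_le_add_left (le_of_eq ?_) _) _
    refine sum_nbij' (fun y => φ y) (fun y => φ.symm y) ?_ ?_ ?_ ?_ ?_
    · intro y hy
      simp only [mem_erase, mem_univ, and_true] at hy ⊢
      exact ⟨fun he => hy.1 (φ.injective he), fun he => hy.2 (φ.injective he)⟩
    · intro y hy
      simp only [mem_erase, mem_univ, and_true] at hy ⊢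
      exact ⟨fun he => hy.1 (by rw [← he]; simp), fun he => hy.2 (by rw [← he]; simp)⟩
    · intro y _; simp
    · intro y _; simp
    · intro y _
      simp only [Equiv.symm_apply_apply]
      exact (mult_congr (h y) _).symm

omit [Fintype X] [Fintype Y] in
lemma move_exc (φ : X ≃ Y) (h : ∀ x, e' (φ x) = e x) (hE : ExcType e) : ExcType e' := by
  classical
  have key : ∀ (S : Finset X) (c : ℕ), ScalarOff e S → (∀ x ∈ S, ∀ k, c * mult e x k = n) →
      ScalarOff e' (S.map φ.toEmbedding) ∧ ∀ y ∈ S.map φ.toEmbedding, ∀ k, c * mult e' y k = n := by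
    intro S c h1 h2
    constructor
    · intro y hy l l'
      obtain ⟨x, rfl⟩ := φ.surjective y
      rw [h x]
      exact h1 x (fun hx => hy (mem_map.2 ⟨x, hx, rfl⟩)) l l'
    · intro y hy k
      obtain ⟨x, hx, rfl⟩ := mem_map.1 hy
      show c * mult e' (φ x) k = n
      rw [mult_congr (h x) k]
      exact h2 x hx k
  rcases hE with ⟨S, h1, h2, h3⟩ | ⟨S, h1, h2, h3⟩
  · obtain ⟨k1, k2⟩ := key S 3 h2 h3
    exact Or.inl ⟨_, by rw [card_map, h1], k1, k2⟩
  · obtain ⟨k1, k2⟩ := key S 2 h2 h3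
    exact Or.inr ⟨_, by rw [card_map, h1], k1, k2⟩

lemma move_rough (φ : X ≃ Y) (h : ∀ x, e' (φ x) = e x) {B : ℕ} (hR : RoughSums B e) :
    RoughSums B e' := by
  obtain ⟨q, hq, hr, hd, hs⟩ := hR
  refine ⟨q, hq, hr, fun y l l' => ?_, fun κ => ?_⟩
  · obtain ⟨x, rfl⟩ := φ.surjective y
    rw [h x]
    exact hd x l l'
  · obtain ⟨w, hw⟩ := hs fun x => κ (φ x)
    refine ⟨w, ?_⟩
    rw [← hw, ← Equiv.sum_comp φ]
    congr 1
    exact sum_congr rfl fun x _ => by rw [h x]

end move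

/-- Systems on the thrice punctured line. -/
theorem eff_thrice (r : ℕ) (hr : 1 < r) :
    ∃ ε : ℝ, 0 < ε ∧
      ∀ (R : Type u) [CommRing R] [IsDomain R] [CharZero R] [Algebra.FiniteType ℤ R]
        (b c : Matrix (Fin r) (Fin r) R) (lam : Fin 3 → Fin r → ℚ) (N : ℕ),
        AbsIrreducible (![0, 1] : Fin 2 → R) ![b, c] →
        HasExponents b (lam 0) → HasExponents c (lam 1) →
        HasExponents (b + c) (fun l => -lam 2 l) →
        0 < N → (∀ j l, ∃ m : ℤ, (N : ℚ) * lam j l = m) →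
        RoughSums (2 * r) lam →
        (LargeMult lam ∨ (IndexNonneg lam ∧ ¬ ExcType lam)) →
          (∃ g : R, g ≠ 0 ∧ BadClasses ![0, 1] ![b, c] N ε g) ∧ ¬ CondII ![0, 1] ![b, c] := by
  obtain ⟨ε, hε, h⟩ := eff_sys.{u} 2 r hr
  refine ⟨ε, hε, ?_⟩
  intro R _ _ _ _ b c lam N hirr h0 h1 h2 hN hNlam hR hor
  obtain ⟨p, hpdef⟩ : ∃ p : Fin 3 → Option (Fin 2), p = ![some 0, some 1, none] := ⟨_, rfl⟩
  have hp : Function.Injective p := by rw [hpdef]; decide
  have hps : Function.Surjective p := by rw [hpdef]; decide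
  have hE' : ∀ x, allExp (fun j : Fin 2 => lam j.castSucc) (fun l => -lam 2 l) (p x) = lam x :=
    fun x => by rw [hpdef]; exact thrice_aux lam x
  let φ : Fin 3 ≃ Option (Fin 2) := Equiv.ofBijective p ⟨hp, hps⟩
  have hφ : ∀ x, allExp (fun j : Fin 2 => lam j.castSucc) (fun l => -lam 2 l) (φ x) = lam x := hE'
  have hφ' : ∀ y, lam (φ.symm y) = allExp (fun j : Fin 2 => lam j.castSucc) (fun l => -lam 2 l) y :=
    fun y => by rw [← hφ (φ.symm y), Equiv.apply_symm_apply]
  exact h R ![0, 1] ![b, c] (fun j => lam j.castSucc) (fun l => -lam 2 l) N (by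
      intro i j hij
      fin_cases i <;> fin_cases j
      · exact absurd rfl hij
      · simp
      · simp
      · exact absurd rfl hij) hirr (by
      intro j
      fin_cases j
      · exact h0
      · exact h1) (by
      rw [Fin.sum_univ_two]
      exact h2) hN (fun j l => hNlam _ l) (fun l => by
      obtain ⟨m, hm⟩ := hNlam 2 l
      exact ⟨-m, by push_cast; rw [← hm]; ring⟩) (move_rough φ hφ hR)
      (hor.imp (move_large φ hφ) fun ⟨k1, k2⟩ =>
        ⟨move_index φ hφ k1, fun k3 => k2 (move_exc φ.symm hφ' k3)⟩)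

end Pool.Agent.N858.R3
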