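import Pool.Agent.N858.R4.Core2
import Pool.Agent.N858.P5.Four

set_option autoImplicit false

/-!
Rank three: the case of equality in the quadratic inequality.
-/

open Finset

namespace Pool.Agent.N858.R3

open Pool.Agent.N858.R4
open Pool.Agent.N858.P5 (bet bet_add_int bet_int bet_neg vanish bet_abs)

section gen

variable {n : ℕ}

/-- The index set of the terms of the quadratic inequality. -/
abbrev Ix (n : ℕ) : Type :=
  Unit ⊕ (Fin n × Fin n) ⊕ (Fin n × Fin n) ⊕ (Fin n × Fin n) ⊕ (Fin n × Fin n) ⊕ Fin n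

/-- The coefficients. -/
noncomputable def dl (n : ℕ) : Ix n → ℝ :=
  Sum.elim (fun _ => (n : ℝ) ^ 2) (Sum.elim (fun _ => 1) (Sum.elim (fun _ => 2)
    (Sum.elim (fun _ => -1) (Sum.elim (fun _ => -1) fun _ => -2 * n))))

/-- The forms. -/
def xs (f g h : Fin n → ℤ) (k : Fin n) : Ix n → ℤ :=
  Sum.elim (fun _ => 0) (Sum.elim (fun t => f t.1 - f t.2)
    (Sum.elim (fun t => f k + g t.1 + h t.2) (Sum.elim (fun t => g t.1 - g t.2)
    (Sum.elim (fun t => h t.1 - h t.2) fun l => f k - f l))))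

lemma sum_ix (f g h : Fin n → ℤ) (k : Fin n) (φ : ℤ → ℝ) :
    ∑ i, dl n i * φ (xs f g h k i) = (n : ℝ) ^ 2 * φ 0 + ∑ i, ∑ j, φ (f i - f j) +
      2 * ∑ i, ∑ j, φ (f k + g i + h j) - ∑ i, ∑ j, φ (g i - g j) - ∑ i, ∑ j, φ (h i - h j) -
      2 * n * ∑ l, φ (f k - f l) := by
  simp only [dl, xs, Fintype.sum_sum_type, Sum.elim_inl, Sum.elim_inr, Fintype.sum_prod_type,
    univ_unique, sum_singleton, one_mul, ← mul_sum, neg_mul, sum_neg_distrib]
  ring

lemma DK_xs (f g h : Fin n → ℤ) (k : Fin n) (t : ℝ) :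
    DK (fun l => t * f l) (fun l => t * g l) (fun l => t * h l) k =
      ∑ i, dl n i * bet (t * xs f g h k i) := by
  rw [sum_ix f g h k fun z => bet (t * z)]
  have h0 : bet (t * ((0 : ℤ) : ℝ)) = 1 / 6 := by
    have := bet_int 0
    simpa using this
  rw [h0]
  unfold DK
  have e1 : ∀ a : Fin n → ℤ, ∑ i, ∑ j, bet (t * a i - t * a j) =
      ∑ i, ∑ j, bet (t * ((a i - a j : ℤ) : ℝ)) := fun a =>
    sum_congr rfl fun i _ => sum_congr rfl fun j _ => by push_cast; congr 1; ring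
  have e2 : ∑ i, ∑ j, bet (t * f k + t * g i + t * h j) =
      ∑ i, ∑ j, bet (t * ((f k + g i + h j : ℤ) : ℝ)) :=
    sum_congr rfl fun i _ => sum_congr rfl fun j _ => by push_cast; congr 1; ring
  have e3 : ∑ l, bet (t * f k - t * f l) = ∑ l, bet (t * ((f k - f l : ℤ) : ℝ)) :=
    sum_congr rfl fun j _ => by push_cast; congr 1; ring
  rw [e1, e1, e1, e2, e3]
  ring

/-- The total count. -/
def TT (N : ℕ) (f g h : Fin n → ℤ) (k : Fin n) : ℤ :=
  (n : ℤ) ^ 2 + pr (fun i j => (N : ℤ) ∣ f i - f j) +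
      2 * nr (fun i j => (N : ℤ) ∣ f k + g i + h j) - pr (fun i j => (N : ℤ) ∣ g i - g j) -
      pr (fun i j => (N : ℤ) ∣ h i - h j) - 2 * n * mu (fun i j => (N : ℤ) ∣ f i - f j) k

lemma TT_xs (N : ℕ) (f g h : Fin n → ℤ) (k : Fin n) :
    ∑ i, (if (N : ℤ) ∣ xs f g h k i then dl n i else 0) = (TT N f g h k : ℝ) := by
  have h1 : ∑ i, (if (N : ℤ) ∣ xs f g h k i then dl n i else 0) =
      ∑ i, dl n i * (fun z : ℤ => if (N : ℤ) ∣ z then (1 : ℝ) else 0) (xs f g h k i) := by
    refine sum_congr rfl fun i _ => ?_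
    simp only
    split_ifs <;> simp
  rw [h1, sum_ix f g h k (fun z : ℤ => if (N : ℤ) ∣ z then (1 : ℝ) else 0)]
  unfold TT pr nr mu
  push_cast
  simp

theorem TT_nonneg {N : ℕ} (hN : 0 < N) (f g h : Fin n → ℤ) (k : Fin n)
    (hpos : ∀ t : ℝ, 0 ≤ DK (fun l => t * f l) (fun l => t * g l) (fun l => t * h l) k) :
    0 ≤ TT N f g h k ∧ (TT N f g h k ≤ 0 → ∀ j : ℕ, j < N →
      DK (fun l => ((j : ℝ) / N) * f l) (fun l => ((j : ℝ) / N) * g l)
        (fun l => ((j : ℝ) / N) * h l) k = 0) := by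
  have hNr : (N : ℝ) ≠ 0 := by exact_mod_cast hN.ne'
  have hv := vanish hN univ (dl n) (xs f g h k) (fun j => by
    have h2 := hpos ((j : ℝ) / N)
    rw [DK_xs] at h2
    refine h2.trans_eq (sum_congr rfl fun i _ => ?_)
    congr 2
    field_simp)
  rw [TT_xs] at hv
  refine ⟨?_, fun hle j hj => ?_⟩
  · by_contra hcon
    push Not at hcon
    have h1 := (hv (by exact_mod_cast hcon.le)).1
    have h2 : TT N f g h k = 0 := by exact_mod_cast h1
    omega
  · have h1 := (hv (by exact_mod_cast hle)).2 j hj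
    rw [DK_xs, ← h1]
    refine sum_congr rfl fun i _ => ?_
    congr 2
    field_simp

/-- If the quadratic function vanishes on `(1 / N) ℤ`, so does the count. -/
theorem TT_zero {N : ℕ} (hN : 0 < N) (f g h : Fin n → ℤ) (k : Fin n)
    (hz : ∀ j : ℕ, j < N → DK (fun l => ((j : ℝ) / N) * f l) (fun l => ((j : ℝ) / N) * g l)
        (fun l => ((j : ℝ) / N) * h l) k = 0) : TT N f g h k = 0 := by
  have hNr : (N : ℝ) ≠ 0 := by exact_mod_cast hN.ne'
  have hN' : (0 : ℤ) < N := by exact_mod_cast hN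
  have hall : ∀ j : ℤ, ∑ i, dl n i * bet (j * xs f g h k i / N) = 0 := by
    intro j
    obtain ⟨r, hr⟩ := Int.eq_ofNat_of_zero_le (Int.emod_nonneg j hN'.ne')
    have hrN : r < N := by
      have := Int.emod_lt_of_pos j hN'
      rw [hr] at this
      exact_mod_cast this
    have h1 := hz r hrN
    rw [DK_xs] at h1
    rw [← h1]
    refine sum_congr rfl fun i _ => ?_
    congr 1
    have h2 := Int.emod_add_mul_ediv j N
    rw [hr] at h2
    have h3 : (j : ℝ) * xs f g h k i / N = (r : ℝ) / N * xs f g h k i +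
        ((j / N * xs f g h k i : ℤ) : ℝ) := by
      have h4 : (j : ℝ) = (r : ℝ) + N * ((j / N : ℤ) : ℝ) := by exact_mod_cast h2.symm
      rw [h4]
      push_cast
      field_simp
    rw [h3, bet_add_int]
  rcases le_total (TT N f g h k) 0 with h1 | h1
  · have h2 := (vanish hN univ (dl n) (xs f g h k) (fun j => (hall j).ge)
      (by rw [TT_xs]; exact_mod_cast h1)).1
    rw [TT_xs] at h2
    exact_mod_cast h2
  · have e : ∑ i, (if (N : ℤ) ∣ xs f g h k i then -dl n i else 0) = -(TT N f g h k : ℝ) := by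
      rw [← TT_xs, ← sum_neg_distrib]
      refine sum_congr rfl fun i _ => ?_
      split_ifs <;> simp
    have h2 := (vanish hN univ (fun i => -dl n i) (xs f g h k) (fun j => by
      have := hall j
      simp only [neg_mul, sum_neg_distrib, this, neg_zero, le_refl])
      (by rw [e]; simpa using h1)).1
    rw [e] at h2
    have h3 : (TT N f g h k : ℝ) = 0 := by linarith
    exact_mod_cast h3

end gen

section three

/-- The three exponents at each point are distinct, and the exponent number `k` at the first point is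
on no resonance; the quadratic inequality holds. -/
structure NR (f g h : Fin 3 → ℤ) (k : Fin 3) : Prop where
  hf : Function.Injective f
  hg : Function.Injective g
  hh : Function.Injective h
  hs : ∑ l, f l + ∑ l, g l + ∑ l, h l = 0
  pos : ∀ t : ℝ, 0 ≤ DK (fun l => t * f l) (fun l => t * g l) (fun l => t * h l) k
  no : ∀ i j, f k + g i + h j ≠ 0

variable {f g h : Fin 3 → ℤ} {k : Fin 3}

lemma pr_inj {a : Fin 3 → ℤ} (ha : Function.Injective a) {M : ℕ}
    (hM : ∀ i j, |a i - a j| < M) : pr (fun i j => (M : ℤ) ∣ a i - a j) = 3 := by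
  have h1 : ∀ i j, ((M : ℤ) ∣ a i - a j ↔ i = j) := by
    intro i j
    constructor
    · intro hd
      have := Int.eq_zero_of_abs_lt_dvd hd (hM i j)
      exact ha (by omega)
    · rintro rfl
      simp
  rw [pr_congr h1]
  rfl

lemma pr_three {a : Fin 3 → ℤ} (M : ℕ) : 3 ≤ pr (fun i j => (M : ℤ) ∣ a i - a j) := by
  have h1 : pr (fun i j : Fin 3 => i = j) ≤ pr (fun i j => (M : ℤ) ∣ a i - a j) :=
    pr_mono fun i j e => by rw [e]; simp
  exact h1

/-- A bound for all the forms in the inequality. -/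
lemma exists_bound (f g h : Fin 3 → ℤ) : ∃ S : ℕ, 0 < S ∧ (∀ i j, |f i - f j| < S) ∧
    (∀ i j, |g i - g j| < S) ∧ (∀ i j, |h i - h j| < S) ∧ ∀ k i j, |f k + g i + h j| < S := by
  classical
  set s : ℤ := ∑ i, (|f i| + |g i| + |h i|) with hs
  have hb : ∀ i, |f i| + |g i| + |h i| ≤ s := fun i =>
    single_le_sum (f := fun i => |f i| + |g i| + |h i|) (fun _ _ => by positivity) (mem_univ i)
  have hs0 : 0 ≤ s := (by positivity : (0 : ℤ) ≤ |f 0| + |g 0| + |h 0|).trans (hb 0)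
  have h1 : ∀ i, |f i| ≤ s ∧ |g i| ≤ s ∧ |h i| ≤ s := by
    intro i
    have := hb i
    have a1 := abs_nonneg (f i)
    have a2 := abs_nonneg (g i)
    have a3 := abs_nonneg (h i)
    refine ⟨by linarith, by linarith, by linarith⟩
  refine ⟨(3 * s + 1).toNat, by omega, ?_, ?_, ?_, ?_⟩
  · intro i j
    have a1 := (h1 i).1
    have a2 := (h1 j).1
    rw [abs_le] at a1 a2
    rw [abs_lt]
    constructor <;> omega
  · intro i j
    have a1 := (h1 i).2.1
    have a2 := (h1 j).2.1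
    rw [abs_le] at a1 a2
    rw [abs_lt]
    constructor <;> omega
  · intro i j
    have a1 := (h1 i).2.2
    have a2 := (h1 j).2.2
    rw [abs_le] at a1 a2
    rw [abs_lt]
    constructor <;> omega
  · intro k i j
    have a1 := (h1 k).1
    have a2 := (h1 i).2.1
    have a3 := (h1 j).2.2
    rw [abs_le] at a1 a2 a3
    rw [abs_lt]
    constructor <;> omega

lemma mu_one {a : Fin 3 → ℤ} (ha : Function.Injective a) {M : ℕ} (k : Fin 3)
    (hM : ∀ j, |a k - a j| < M) : mu (fun i j => (M : ℤ) ∣ a i - a j) k = 1 := by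
  have h1 : ∀ j, ((M : ℤ) ∣ a k - a j ↔ k = j) := by
    intro j
    constructor
    · intro hd
      have := Int.eq_zero_of_abs_lt_dvd hd (hM j)
      exact ha (by omega)
    · rintro rfl
      simp
  unfold mu
  simp only [h1]
  simp

/-- The quadratic function vanishes at all rational points. -/
lemma NR.zero (H : NR f g h k) {M : ℕ} (hM : 0 < M) (j : ℕ) (hj : j < M) :
    DK (fun l => ((j : ℝ) / M) * f l) (fun l => ((j : ℝ) / M) * g l)
        (fun l => ((j : ℝ) / M) * h l) k = 0 := by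
  obtain ⟨S, hS, b1, b2, b3, b4⟩ := exists_bound f g h
  set N := M * S with hN
  have hN0 : 0 < N := Nat.mul_pos hM hS
  have hSN : (S : ℤ) ≤ N := by exact_mod_cast Nat.le_mul_of_pos_left S hM
  have key := (TT_nonneg hN0 f g h k H.pos).2 (by
    unfold TT
    rw [pr_inj H.hf fun i j => (b1 i j).trans_le hSN, pr_inj H.hg fun i j => (b2 i j).trans_le hSN,
      pr_inj H.hh fun i j => (b3 i j).trans_le hSN, mu_one H.hf k fun j => (b1 k j).trans_le hSN,
      nr_zero fun i j hd => H.no i j (Int.eq_zero_of_abs_lt_dvd hd ((b4 k i j).trans_le hSN))]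
    norm_num) (j * S) (Nat.mul_lt_mul_of_pos_right hj hS)
  have hSr : (S : ℝ) ≠ 0 := by exact_mod_cast hS.ne'
  have e : (((j * S : ℕ) : ℝ) / ((N : ℕ) : ℝ)) = (j : ℝ) / M := by
    rw [hN]
    push_cast
    rw [mul_div_mul_right _ _ hSr]
  rw [e] at key
  exact key

/-- The counts vanish. -/
lemma NR.count (H : NR f g h k) {M : ℕ} (hM : 0 < M) : TT M f g h k = 0 :=
  TT_zero hM f g h k fun j hj => H.zero hM j hj

/-- All the sums are bounded by the spreads. -/
lemma NR.bound (H : NR f g h k) {R : ℤ} (hf : ∀ j, |f k - f j| ≤ R) (hg : ∀ i j, |g i - g j| ≤ R)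
    (hh : ∀ i j, |h i - h j| ≤ R) (i j : Fin 3) : |f k + g i + h j| ≤ R := by
  by_contra hcon
  push Not at hcon
  have hR : 0 ≤ R := (abs_nonneg _).trans (hf k)
  set M : ℕ := |f k + g i + h j|.toNat with hM
  have hMz : (M : ℤ) = |f k + g i + h j| := Int.toNat_of_nonneg (abs_nonneg _)
  have hM0 : 0 < M := by omega
  have h1 := H.count hM0
  unfold TT at h1
  rw [pr_inj H.hg (M := M) fun i j => by have := hg i j; omega,
    pr_inj H.hh (M := M) fun i j => by have := hh i j; omega,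
    mu_one H.hf (M := M) k fun j => by have := hf j; omega] at h1
  have h2 := pr_three (a := f) M
  have h3 : 1 ≤ nr (fun i j => (M : ℤ) ∣ f k + g i + h j) := by
    unfold nr
    have h4 : (1 : ℤ) ≤ ∑ j', if (M : ℤ) ∣ f k + g i + h j' then 1 else 0 := by
      calc (1 : ℤ) = if (M : ℤ) ∣ f k + g i + h j then 1 else 0 := by
            rw [if_pos]; rw [hMz]; exact (abs_dvd _ _).2 dvd_rfl
        _ ≤ _ := single_le_sum (f := fun j' => if (M : ℤ) ∣ f k + g i + h j' then (1 : ℤ) else 0)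
          (fun _ _ => by split_ifs <;> norm_num) (mem_univ j)
    refine h4.trans (single_le_sum
      (f := fun i => ∑ j', if (M : ℤ) ∣ f k + g i + h j' then (1 : ℤ) else 0)
      (fun _ _ => sum_nonneg fun _ _ => by split_ifs <;> norm_num) (mem_univ i))
  push_cast at h1
  omega

/-- The linear identity. -/
lemma NR.linear (H : NR f g h k) : ∑ i, ∑ j, |f i - f j| + 2 * ∑ i, ∑ j, |f k + g i + h j| =
    ∑ i, ∑ j, |g i - g j| + ∑ i, ∑ j, |h i - h j| + 6 * ∑ l, |f k - f l| := by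
  obtain ⟨S, hS, b1, b2, b3, b4⟩ := exists_bound f g h
  have hSr : (0 : ℝ) < S := by exact_mod_cast hS
  rcases Nat.lt_or_ge 1 S with hS1 | hS1
  · have h1 := H.zero (M := S) hS 1 hS1
    rw [DK_xs] at h1
    have hx : ∀ i, |xs f g h k i| < S := by
      rintro (i | i | i | i | i | i)
      · simpa [xs] using hS
      · exact b1 _ _
      · exact b4 _ _ _
      · exact b2 _ _
      · exact b3 _ _
      · exact b1 _ _
    have h2 : ∀ i, bet (((1 : ℕ) : ℝ) / S * xs f g h k i) =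
        (fun z : ℤ => ((z : ℝ) / S) ^ 2 - |(z : ℝ)| / S + 1 / 6) (xs f g h k i) := by
      intro i
      have e1 : ((1 : ℕ) : ℝ) / S * xs f g h k i = (xs f g h k i : ℝ) / S := by
        push_cast; ring
      have e2 : |(xs f g h k i : ℝ) / S| ≤ 1 := by
        rw [abs_div, abs_of_pos hSr, div_le_one hSr]
        have : ((|xs f g h k i| : ℤ) : ℝ) < ((S : ℤ) : ℝ) := by exact_mod_cast hx i
        push_cast at this
        exact this.le
      rw [e1, bet_abs e2, abs_div, abs_of_pos hSr]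
    rw [sum_congr rfl fun i _ => by rw [h2 i],
      sum_ix f g h k (fun z : ℤ => ((z : ℝ) / S) ^ 2 - |(z : ℝ)| / S + 1 / 6)] at h1
    have hs : (f 0 : ℝ) + f 1 + f 2 + (g 0 + g 1 + g 2) + (h 0 + h 1 + h 2) = 0 := by
      have := H.hs
      simp only [Fin.sum_univ_three] at this
      exact_mod_cast this
    have hgoal : ((∑ i, ∑ j, |f i - f j| + 2 * ∑ i, ∑ j, |f k + g i + h j| : ℤ) : ℝ) =
        ((∑ i, ∑ j, |g i - g j| + ∑ i, ∑ j, |h i - h j| + 6 * ∑ l, |f k - f l| : ℤ) : ℝ) := by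
      have e1 : ∀ a : Fin 3 → ℤ, ∑ i, ∑ j, ((((a i - a j : ℤ) : ℝ) / S) ^ 2 -
          |((a i - a j : ℤ) : ℝ)| / S + 1 / 6) = (∑ i, ∑ j, ((a i : ℝ) - a j) ^ 2) / S ^ 2 -
          ((∑ i, ∑ j, |a i - a j| : ℤ) : ℝ) / S + 3 / 2 := by
        intro a
        simp only [Fin.sum_univ_three]
        push_cast
        ring
      have e2 : ∑ i, ∑ j, ((((f k + g i + h j : ℤ) : ℝ) / S) ^ 2 -
          |((f k + g i + h j : ℤ) : ℝ)| / S + 1 / 6) =
          (∑ i, ∑ j, ((f k : ℝ) + g i + h j) ^ 2) / S ^ 2 -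
          ((∑ i, ∑ j, |f k + g i + h j| : ℤ) : ℝ) / S + 3 / 2 := by
        simp only [Fin.sum_univ_three]
        push_cast
        ring
      have e3 : ∑ l, ((((f k - f l : ℤ) : ℝ) / S) ^ 2 -
          |((f k - f l : ℤ) : ℝ)| / S + 1 / 6) = (∑ l, ((f k : ℝ) - f l) ^ 2) / S ^ 2 -
          ((∑ l, |f k - f l| : ℤ) : ℝ) / S + 1 / 2 := by
        simp only [Fin.sum_univ_three]
        push_cast
        ring
      rw [e1, e1, e1, e2, e3] at h1
      have e4 : (∑ i, ∑ j, ((f i : ℝ) - f j) ^ 2) + 2 * (∑ i, ∑ j, ((f k : ℝ) + g i + h j) ^ 2) -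
          (∑ i, ∑ j, ((g i : ℝ) - g j) ^ 2) - (∑ i, ∑ j, ((h i : ℝ) - h j) ^ 2) -
          6 * (∑ l, ((f k : ℝ) - f l) ^ 2) = 0 := by
        simp only [Fin.sum_univ_three]
        linear_combination (2 * (((g 0 : ℝ) + g 1 + g 2) + (h 0 + h 1 + h 2) - (f 0 + f 1 + f 2)) +
          12 * f k) * hs
      have e5 : ((∑ i, ∑ j, |f i - f j| + 2 * ∑ i, ∑ j, |f k + g i + h j| -
          (∑ i, ∑ j, |g i - g j| + ∑ i, ∑ j, |h i - h j| + 6 * ∑ l, |f k - f l|) : ℤ) : ℝ) =
          0 := by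
        have e6 : (S : ℝ) * ((((∑ i, ∑ j, ((f i : ℝ) - f j) ^ 2) + 2 * (∑ i, ∑ j, ((f k : ℝ) + g i + h j) ^ 2) -
          (∑ i, ∑ j, ((g i : ℝ) - g j) ^ 2) - (∑ i, ∑ j, ((h i : ℝ) - h j) ^ 2) -
          6 * (∑ l, ((f k : ℝ) - f l) ^ 2)) / S ^ 2) -
          ((∑ i, ∑ j, |f i - f j| + 2 * ∑ i, ∑ j, |f k + g i + h j| -
          (∑ i, ∑ j, |g i - g j| + ∑ i, ∑ j, |h i - h j| + 6 * ∑ l, |f k - f l|) : ℤ) : ℝ) / S) =
          0 := by
          push_cast at h1 ⊢
          have : (0 : ℝ) = S * 0 := by ring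
          rw [this]
          congr 1
          rw [← h1]
          ring
        rw [e4, zero_div, zero_sub, mul_neg, mul_div_cancel₀ _ hSr.ne'] at e6
        linarith
      push_cast at e5 ⊢
      linarith
    exact_mod_cast hgoal
  · exfalso
    have h1 : S = 1 := by omega
    subst h1
    have h2 := b1 0 1
    have h3 : f 0 ≠ f 1 := fun e => absurd (H.hf e) (by decide)
    have h4 : 0 < |f 0 - f 1| := abs_pos.2 (sub_ne_zero.2 h3)
    push_cast at h2
    omega

end three

end Pool.Agent.N858.R3
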