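import Mathlib

set_option autoImplicit false

/-!
Units modulo a number without small prime factors.
-/ 

open Finset

namespace Pool.Agent.N858.R3

/-- The number of the terms of an arithmetic progression of order `p` just below the modulus. -/
lemma count_bad {p Q a k K g : ℕ} (hp : p.Prime) (hQ : 0 < Q) (hk : ¬ p ∣ k) (hK : g ≤ K * Q) :
    ((range p).filter fun i => p * Q < (a + i * (Q * k)) % (p * Q) + g).card ≤ K := by
  have hpQ : 0 < p * Q := Nat.mul_pos hp.pos hQ
  have hcard : (Icc 1 K).card = K := by simp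
  rw [← hcard]
  have hmod : ∀ i, ((a + i * (Q * k)) % (p * Q)) % Q = a % Q := by
    intro i
    rw [Nat.mod_mul_left_mod]
    have : a + i * (Q * k) = a + Q * (i * k) := by ring
    rw [this, Nat.add_mul_mod_self_left]
  have hlt : ∀ i, ((a + i * (Q * k)) % (p * Q)) / Q < p := fun i =>
    (Nat.div_lt_iff_lt_mul hQ).2 (Nat.mod_lt _ hpQ)
  refine card_le_card_of_injOn (fun i => p - ((a + i * (Q * k)) % (p * Q)) / Q) ?_ ?_
  · intro i hi
    have hi' := (mem_filter.1 (mem_coe.1 hi)).2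
    have h1 := hlt i
    have h2 := Nat.div_add_mod ((a + i * (Q * k)) % (p * Q)) Q
    rw [hmod] at h2
    have h3 : a % Q < Q := Nat.mod_lt _ hQ
    set v := ((a + i * (Q * k)) % (p * Q)) / Q with hv
    simp only [coe_Icc, Set.mem_Icc]
    refine ⟨by omega, ?_⟩
    by_contra hcon
    push Not at hcon
    have h4 : K + 1 + v ≤ p := by omega
    have h5 : (K + 1 + v) * Q ≤ p * Q := Nat.mul_le_mul_right Q h4
    rw [← h2] at hi'
    nlinarith
  · intro i hi i' hi' he
    have hi0 := mem_range.1 (mem_filter.1 (mem_coe.1 hi)).1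
    have hi0' := mem_range.1 (mem_filter.1 (mem_coe.1 hi')).1
    simp only at he
    have h1 := hlt i
    have h1' := hlt i'
    have h2 : ((a + i * (Q * k)) % (p * Q)) / Q = ((a + i' * (Q * k)) % (p * Q)) / Q := by omega
    have h3 : (a + i * (Q * k)) % (p * Q) = (a + i' * (Q * k)) % (p * Q) := by
      rw [← Nat.div_add_mod ((a + i * (Q * k)) % (p * Q)) Q,
        ← Nat.div_add_mod ((a + i' * (Q * k)) % (p * Q)) Q, h2, hmod, hmod]
    have h4 : a + i * (Q * k) ≡ a + i' * (Q * k) [MOD p * Q] := h3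
    have h5 : i * (Q * k) ≡ i' * (Q * k) [MOD p * Q] := Nat.ModEq.add_left_cancel' a h4
    have h6 : Q * (i * k) ≡ Q * (i' * k) [MOD Q * p] := by
      have e1 : i * (Q * k) = Q * (i * k) := by ring
      have e2 : i' * (Q * k) = Q * (i' * k) := by ring
      rwa [e1, e2, mul_comm p Q] at h5
    have h7 : i * k ≡ i' * k [MOD p] := Nat.ModEq.mul_left_cancel' hQ.ne' h6
    have h8 : i ≡ i' [MOD p] := by
      refine Nat.ModEq.cancel_right_of_coprime ?_ h7
      exact (hp.coprime_iff_not_dvd.2 hk)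
    exact Nat.ModEq.eq_of_lt_of_lt h8 hi0 hi0'

/-- The final inequality. -/
lemma fin_ineq {n p d : ℕ} (hn : 0 < n) (hp : 2 * n < p) (hd : 2 * n < d) :
    n * ((p - 1) / d + 1) < p - 1 := by
  rcases Nat.lt_or_ge (p - 1) d with h | h
  · rw [Nat.div_eq_of_lt h]
    omega
  · have hd0 : 0 < d := by omega
    obtain ⟨x, hx⟩ : ∃ x, x = (p - 1) / d := ⟨_, rfl⟩
    have h1 : x * d ≤ p - 1 := by rw [hx]; exact Nat.div_mul_le_self _ _
    have h2 : 1 ≤ x := by rw [hx]; exact (Nat.one_le_div_iff hd0).2 h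
    rw [← hx]
    have h3 : n * (x + 1) < x * d := by nlinarith
    omega

/-- Few units are bad. -/
lemma bad_few {n q g : ℕ} [NeZero q] (hn : 0 < n) (hr : ∀ p, p.Prime → p ∣ q → 2 * n < p)
    (hg : g ∣ q) (hgq : g < q) (c : ZMod q) (A : Finset (ZMod q)ˣ) (hA : A.Nonempty)
    (hAm : ∀ u ∈ A, ∀ v : (ZMod q)ˣ, (v : ZMod q) * g = g → u * v ∈ A) :
    n * (A.filter fun u : (ZMod q)ˣ => q < ((u : ZMod q) * c).val + g).card < A.card := by
  classical
  have hq0 : q ≠ 0 := NeZero.ne q
  have hg0 : g ≠ 0 := fun h => hq0 (Nat.eq_zero_of_zero_dvd (h ▸ hg))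
  obtain ⟨C, hC⟩ : ∃ C, C = c.val := ⟨_, rfl⟩
  have hval : ∀ (u : (ZMod q)ˣ) (x : ℕ), ((u : ZMod q) * c * (x : ℕ)).val =
      ((u : ZMod q).val * C * x) % q := by
    intro u x
    have : (u : ZMod q) * c * (x : ℕ) = (((u : ZMod q).val * C * x : ℕ) : ZMod q) := by
      push_cast
      rw [ZMod.natCast_zmod_val, hC, ZMod.natCast_zmod_val]
    rw [this, ZMod.val_natCast]
  have hval1 : ∀ (u : (ZMod q)ˣ), ((u : ZMod q) * c).val = ((u : ZMod q).val * C) % q := by
    intro u
    have := hval u 1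
    simpa using this
  by_cases hgC : g ∣ C
  · have : (A.filter fun u : (ZMod q)ˣ => q < ((u : ZMod q) * c).val + g) = ∅ := by
      refine filter_eq_empty_iff.2 fun u _ hlt => ?_
      rw [hval1] at hlt
      have h1 : g ∣ ((u : ZMod q).val * C) % q := (Nat.dvd_mod_iff hg).2 (Dvd.dvd.mul_left hgC _)
      have h2 : ((u : ZMod q).val * C) % q < q := Nat.mod_lt _ (Nat.pos_of_ne_zero hq0)
      obtain ⟨x, hx⟩ := h1
      obtain ⟨y, hy⟩ := hg
      rw [hx] at hlt h2
      rw [hy] at hlt h2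
      have h3 : x < y := lt_of_mul_lt_mul_left h2 (Nat.zero_le _)
      have h4 : g * (x + 1) ≤ g * y := Nat.mul_le_mul_left _ h3
      have h5 : g * (x + 1) = g * x + g := by ring
      omega
    rw [this, card_empty, mul_zero]
    exact card_pos.2 hA
  · have hC0 : C ≠ 0 := fun h => hgC (h ▸ dvd_zero g)
    obtain ⟨p, hp, hpv⟩ : ∃ p, p.Prime ∧ C.factorization p < g.factorization p := by
      by_contra hno
      push Not at hno
      exact hgC ((Nat.factorization_prime_le_iff_dvd hg0 hC0).1 fun p hp => hno p hp)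
    obtain ⟨v, hv⟩ : ∃ v, v = C.factorization p := ⟨_, rfl⟩
    obtain ⟨s, hs⟩ : ∃ s, s = q.factorization p := ⟨_, rfl⟩
    rw [← hv] at hpv
    have hvs : v + 1 ≤ s := by
      have := (Nat.factorization_prime_le_iff_dvd hg0 hq0).2 hg p hp
      omega
    obtain ⟨m, hm⟩ : ∃ m, m = q / p ^ s := ⟨_, rfl⟩
    have hqm : q = p ^ s * m := by
      rw [hm, hs]
      exact (Nat.ordProj_mul_ordCompl_eq_self q p).symm
    have hpm : ¬ p ∣ m := by
      rw [hm, hs]
      exact Nat.not_dvd_ordCompl hp hq0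
    obtain ⟨C', hC'⟩ : ∃ C', C' = C / p ^ v := ⟨_, rfl⟩
    have hCC' : C = p ^ v * C' := by
      rw [hC', hv]
      exact (Nat.ordProj_mul_ordCompl_eq_self C p).symm
    have hpC' : ¬ p ∣ C' := by
      rw [hC', hv]
      exact Nat.not_dvd_ordCompl hp hC0
    obtain ⟨w, hw⟩ : ∃ w, w = m * p ^ (s - 1 - v) := ⟨_, rfl⟩
    obtain ⟨Q, hQ⟩ : ∃ Q, Q = m * p ^ (s - 1) := ⟨_, rfl⟩
    have hqQ : q = p * Q := by
      rw [hqm, hQ]
      have : p ^ s = p * p ^ (s - 1) := by
        rw [← pow_succ']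
        congr 1
        omega
      rw [this]
      ring
    have hwC : w * C = Q * C' := by
      rw [hw, hQ, hCC']
      have : p ^ (s - 1) = p ^ (s - 1 - v) * p ^ v := by
        rw [← pow_add]
        congr 1
        omega
      rw [this]
      ring
    have hwg : q ∣ w * g := by
      have h1 : p ^ (v + 1) ∣ g := (hp.pow_dvd_iff_le_factorization hg0).2 hpv
      obtain ⟨g', hg'⟩ := h1
      refine ⟨g', ?_⟩
      rw [hw, hg', hqm]
      have : p ^ s = p ^ (s - 1 - v) * p ^ (v + 1) := by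
        rw [← pow_add]
        congr 1
        omega
      rw [this]
      ring
    have hQ0 : 0 < Q := by
      rcases Nat.eq_zero_or_pos Q with h | h
      · exact absurd (by rw [hqQ, h, mul_zero]) hq0
      · exact h
    -- the shifts
    set I : Finset ℕ := (range p).filter fun i => Nat.Coprime (1 + i * w) q with hI
    have hnc : ∀ i, ¬ Nat.Coprime (1 + i * w) q → p ∣ 1 + i * w := by
      intro i hi
      obtain ⟨r, hr1, hr2, hr3⟩ := Nat.Prime.not_coprime_iff_dvd.1 hi
      rw [hqm] at hr3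
      rcases (Nat.Prime.dvd_mul hr1).1 hr3 with h | h
      · rwa [(Nat.prime_dvd_prime_iff_eq hr1 hp).1 (hr1.dvd_of_dvd_pow h)] at hr2
      · exfalso
        have h1 : r ∣ i * w := by rw [hw]; exact Dvd.dvd.mul_left (Dvd.dvd.mul_right h _) _
        have h2 : r ∣ 1 := (Nat.dvd_add_left h1).1 hr2
        exact hr1.one_lt.ne' (Nat.dvd_one.1 h2)
    have hIcard : p - 1 ≤ I.card := by
      have h1 : ((range p).filter fun i => ¬ Nat.Coprime (1 + i * w) q).card ≤ 1 := by
        refine card_le_one.2 fun i hi i' hi' => ?_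
        obtain ⟨hi1, hi2⟩ := mem_filter.1 hi
        obtain ⟨hi1', hi2'⟩ := mem_filter.1 hi'
        have a1 := hnc i hi2
        have a2 := hnc i' hi2'
        have hpw : ¬ p ∣ w := by
          intro h
          have h2 : p ∣ 1 := (Nat.dvd_add_left (Dvd.dvd.mul_left h i)).1 a1
          exact hp.one_lt.ne' (Nat.dvd_one.1 h2)
        have h2 : 1 + i * w ≡ 1 + i' * w [MOD p] :=
          (Nat.modEq_zero_iff_dvd.2 a1).trans (Nat.modEq_zero_iff_dvd.2 a2).symm
        have h3 : i ≡ i' [MOD p] :=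
          Nat.ModEq.cancel_right_of_coprime (hp.coprime_iff_not_dvd.2 hpw)
            (Nat.ModEq.add_left_cancel' 1 h2)
        exact Nat.ModEq.eq_of_lt_of_lt h3 (mem_range.1 hi1) (mem_range.1 hi1')
      have h2 := card_filter_add_card_filter_not (s := range p)
        (fun i => Nat.Coprime (1 + i * w) q)
      rw [card_range] at h2
      rw [hI]
      omega
    -- the count for one unit
    obtain ⟨d, hd⟩ := hg
    have hd1 : 1 < d := by
      by_contra hle
      push Not at hle
      have : g * d ≤ g * 1 := Nat.mul_le_mul_left _ hle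
      omega
    have hpq : p ∣ q := ⟨Q, hqQ⟩
    have hp2 := hr p hp hpq
    have hd2 : 2 * n < d := by
      obtain ⟨r, hr1, hr2⟩ := Nat.exists_prime_and_dvd hd1.ne'
      exact (hr r hr1 (hr2.trans ⟨g, by rw [hd]; ring⟩)).trans_le
        (Nat.le_of_dvd (by omega) hr2)
    obtain ⟨K, hK⟩ : ∃ K, K = (p - 1) / d + 1 := ⟨_, rfl⟩
    have hKg : g ≤ K * Q := by
      have h1 : p ≤ K * d := by
        have := Nat.lt_div_mul_add (a := p - 1) (b := d) (by omega)
        rw [hK, add_mul, one_mul]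
        omega
      have h2 : p * g ≤ p * (K * Q) := by
        calc p * g ≤ K * d * g := Nat.mul_le_mul_right _ h1
          _ = K * (g * d) := by ring
          _ = K * (p * Q) := by rw [← hd, hqQ]
          _ = p * (K * Q) := by ring
      exact le_of_mul_le_mul_left h2 hp.pos
    have hcount : ∀ u ∈ A, (I.filter fun i : ℕ =>
        q < ((u : ZMod q) * c * ((1 + i * w : ℕ) : ZMod q)).val + g).card ≤ K := by
      intro u _
      have h1 : ¬ p ∣ (u : ZMod q).val * C' := by
        intro h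
        rcases (Nat.Prime.dvd_mul hp).1 h with h | h
        · have h2 := ZMod.val_coe_unit_coprime u
          exact Nat.Prime.not_coprime_iff_dvd.2 ⟨p, hp, h, hpq⟩ h2
        · exact hpC' h
      refine le_trans (card_le_card fun i hi => ?_)
        (count_bad (a := (u : ZMod q).val * C) hp hQ0 h1 hKg)
      obtain ⟨hi1, hi2⟩ := mem_filter.1 hi
      refine mem_filter.2 ⟨(mem_filter.1 hi1).1, ?_⟩
      rw [hval] at hi2
      have e1 : (u : ZMod q).val * C * (1 + i * w) =
          (u : ZMod q).val * C + i * (Q * ((u : ZMod q).val * C')) := by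
        calc _ = (u : ZMod q).val * C + i * ((u : ZMod q).val * (w * C)) := by ring
          _ = _ := by rw [hwC]; ring
      rw [e1] at hi2
      rw [← hqQ]
      exact hi2
    -- the invariance
    have hinv : ∀ i ∈ I, (A.filter fun u : (ZMod q)ˣ =>
        q < ((u : ZMod q) * c * ((1 + i * w : ℕ) : ZMod q)).val + g).card =
        (A.filter fun u : (ZMod q)ˣ => q < ((u : ZMod q) * c).val + g).card := by
      intro i hi
      have hco := (mem_filter.1 hi).2
      set V : (ZMod q)ˣ := ZMod.unitOfCoprime (1 + i * w) hco with hV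
      have hVc : (V : ZMod q) = ((1 + i * w : ℕ) : ZMod q) := ZMod.coe_unitOfCoprime _ _
      have hVg : (V : ZMod q) * g = g := by
        rw [hVc]
        have h1 : ((w * g : ℕ) : ZMod q) = 0 := (ZMod.natCast_eq_zero_iff _ _).2 hwg
        push_cast at h1 ⊢
        rw [add_mul, one_mul, mul_assoc, h1, mul_zero, add_zero]
      have hVg' : ((V⁻¹ : (ZMod q)ˣ) : ZMod q) * g = g := by
        conv_lhs => rw [← hVg]
        rw [← mul_assoc, Units.inv_mul, one_mul]
      refine card_nbij' (fun u => u * V) (fun u => u * V⁻¹) ?_ ?_ ?_ ?_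
      · intro u hu
        obtain ⟨h1, h2⟩ := mem_filter.1 (mem_coe.1 hu)
        refine mem_coe.2 (mem_filter.2 ⟨hAm u h1 V hVg, ?_⟩)
        rw [Units.val_mul, hVc]
        have e1 : (u : ZMod q) * ((1 + i * w : ℕ) : ZMod q) * c =
          (u : ZMod q) * c * ((1 + i * w : ℕ) : ZMod q) := by ring
        rw [e1]
        exact h2
      · intro u hu
        obtain ⟨h1, h2⟩ := mem_filter.1 (mem_coe.1 hu)
        refine mem_coe.2 (mem_filter.2 ⟨hAm u h1 V⁻¹ hVg', ?_⟩)
        rw [Units.val_mul, ← hVc]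
        have e1 : (u : ZMod q) * ((V⁻¹ : (ZMod q)ˣ) : ZMod q) * c * (V : ZMod q) =
          (u : ZMod q) * c := by
          calc _ = (u : ZMod q) * c * (((V⁻¹ : (ZMod q)ˣ) : ZMod q) * (V : ZMod q)) := by ring
            _ = _ := by rw [Units.inv_mul, mul_one]
        rw [e1]
        exact h2
      · intro u _
        simp
      · intro u _
        simp
    have hdc : I.card * (A.filter fun u : (ZMod q)ˣ => q < ((u : ZMod q) * c).val + g).card ≤ A.card * K := by
      calc I.card * (A.filter fun u : (ZMod q)ˣ => q < ((u : ZMod q) * c).val + g).card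
          = ∑ i ∈ I, (A.filter fun u : (ZMod q)ˣ =>
              q < ((u : ZMod q) * c * ((1 + i * w : ℕ) : ZMod q)).val + g).card := by
            rw [sum_congr rfl hinv, sum_const, smul_eq_mul]
        _ = ∑ u ∈ A, (I.filter fun i : ℕ =>
              q < ((u : ZMod q) * c * ((1 + i * w : ℕ) : ZMod q)).val + g).card := by
            simp only [card_filter]
            exact sum_comm
        _ ≤ ∑ _u ∈ A, K := sum_le_sum hcount
        _ = A.card * K := by rw [sum_const, smul_eq_mul]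
    set b := (A.filter fun u : (ZMod q)ˣ => q < ((u : ZMod q) * c).val + g).card with hb
    have hfin := fin_ineq hn hp2 hd2
    rw [← hK] at hfin
    have hA0 : 0 < A.card := card_pos.2 hA
    have h1 : (p - 1) * b ≤ A.card * K := le_trans (Nat.mul_le_mul_right _ hIcard) hdc
    have h2 : (p - 1) * (n * b) < (p - 1) * A.card := by
      calc (p - 1) * (n * b) = n * ((p - 1) * b) := by ring
        _ ≤ n * (A.card * K) := Nat.mul_le_mul_left _ h1
        _ = n * K * A.card := by ring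
        _ < (p - 1) * A.card := Nat.mul_lt_mul_of_pos_right hfin hA0
    exact lt_of_mul_lt_mul_left h2 (Nat.zero_le _)

/-- **A good unit.** -/
theorem exists_unit {n q : ℕ} (hn : 0 < n) (hq : 0 < q) (hr : ∀ p, p.Prime → p ∣ q → 2 * n < p)
    {c0 : ℤ} (hc0 : ¬ (q : ℤ) ∣ c0) (c : Fin n → ℤ) :
    ∃ (u : ℤ) (g : ℕ), IsCoprime u (q : ℤ) ∧ 0 < g ∧ g < q ∧ g ∣ q ∧ (q : ℤ) ∣ u * c0 - g ∧
      ∀ l, (u * c l) % (q : ℤ) + g ≤ q := by
  classical
  have : NeZero q := ⟨hq.ne'⟩
  obtain ⟨g, hg, u0, hu0, hc⟩ := ZMod.eq_unit_mul_divisor (c0 : ZMod q)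
  have hg0 : 0 < g := Nat.pos_of_dvd_of_pos hg hq
  have hgq : g < q := by
    refine lt_of_le_of_ne (Nat.le_of_dvd hq hg) fun h => hc0 ?_
    rw [h, ZMod.natCast_self, mul_zero] at hc
    exact (ZMod.intCast_zmod_eq_zero_iff_dvd _ _).1 hc
  obtain ⟨U, rfl⟩ := hu0
  set A : Finset (ZMod q)ˣ := univ.filter fun u => (u : ZMod q) * (c0 : ZMod q) = g with hA
  have hAne : A.Nonempty := ⟨U⁻¹, mem_filter.2 ⟨mem_univ _, by
    rw [hc, ← mul_assoc, Units.inv_mul, one_mul]⟩⟩
  have hAm : ∀ u ∈ A, ∀ v : (ZMod q)ˣ, (v : ZMod q) * g = g → u * v ∈ A := by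
    intro u hu v hv
    have h1 := (mem_filter.1 hu).2
    refine mem_filter.2 ⟨mem_univ _, ?_⟩
    rw [Units.val_mul]
    calc (u : ZMod q) * v * (c0 : ZMod q) = v * ((u : ZMod q) * (c0 : ZMod q)) := by ring
      _ = g := by rw [h1, hv]
  have hex : ∃ u ∈ A, ∀ l, ¬ q < ((u : ZMod q) * ((c l : ℤ) : ZMod q)).val + g := by
    by_contra hno
    push Not at hno
    have h1 : A ⊆ univ.biUnion fun l => A.filter fun u : (ZMod q)ˣ =>
        q < ((u : ZMod q) * ((c l : ℤ) : ZMod q)).val + g := by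
      intro u hu
      obtain ⟨l, hl⟩ := hno u hu
      exact mem_biUnion.2 ⟨l, mem_univ _, mem_filter.2 ⟨hu, hl⟩⟩
    have h2 := (card_le_card h1).trans card_biUnion_le
    have h3 : n * A.card ≤ ∑ l, n * (A.filter fun u : (ZMod q)ˣ =>
        q < ((u : ZMod q) * ((c l : ℤ) : ZMod q)).val + g).card := by
      rw [← mul_sum]
      exact Nat.mul_le_mul_left _ h2
    have h4 : ∑ l, n * (A.filter fun u : (ZMod q)ˣ =>
        q < ((u : ZMod q) * ((c l : ℤ) : ZMod q)).val + g).card < ∑ _l : Fin n, A.card :=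
      sum_lt_sum_of_nonempty ⟨⟨0, hn⟩, mem_univ _⟩ fun l _ => bad_few hn hr hg hgq _ A hAne hAm
    simp only [sum_const, card_univ, Fintype.card_fin, smul_eq_mul] at h4
    omega
  obtain ⟨u, hu, hgood⟩ := hex
  refine ⟨((u : ZMod q).val : ℤ), g, ?_, hg0, hgq, hg, ?_, fun l => ?_⟩
  · exact Nat.isCoprime_iff_coprime.2 (ZMod.val_coe_unit_coprime u)
  · rw [← ZMod.intCast_zmod_eq_zero_iff_dvd]
    push_cast
    rw [ZMod.natCast_zmod_val, (mem_filter.1 hu).2, sub_self]
  · have h1 := hgood l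
    have h2 : (((u : ZMod q).val : ℤ) * c l) % (q : ℤ) =
        (((u : ZMod q) * ((c l : ℤ) : ZMod q)).val : ℤ) := by
      have h3 : (u : ZMod q) * ((c l : ℤ) : ZMod q) = ((((u : ZMod q).val : ℤ) * c l : ℤ) : ZMod q) := by
        push_cast
        rw [ZMod.natCast_zmod_val]
      rw [h3, ZMod.val_intCast]
    rw [h2]
    omega

end Pool.Agent.N858.R3
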