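import Pool.Agent.N858.R3.Defs2

set_option autoImplicit false

/-!
Units modulo a number without small prime factors.
-/ 

open Finset

namespace Pool.Agent.N858.R3

/-- The number of the terms of an arithmetic progression of order `p` just below the modulus. -/
lemma count_bad2 {p Q a k K g : ℕ} (hp : 0 < p) (hQ : 0 < Q) (hk : Nat.Coprime p k)
    (hK : g ≤ K * Q) :
    ((range p).filter fun i => p * Q < (a + i * (Q * k)) % (p * Q) + g).card ≤ K := by
  have hpQ : 0 < p * Q := Nat.mul_pos hp hQ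
  have hcard : (Icc 1 K).card = K := by simp
  rw [← hcard]
  have hmod : ∀ i, ((a + i * (Q * k)) % (p * Q)) % Q = a % Q := by
    intro i
    rw [Nat.mod_mul_left_mod]
    have : a + i * (Q * k) = a + Q * (i * k) := by ring
    rw [this, Nat.add_mul_mod_self_left]
  have hlt : ∀ i, ((a + i * (Q * k)) % (p * Q)) / Q < p := fun i =>
    (Nat.div_lt_iff_lt_mul hQ).2 (Nat.mod_lt _ hpQ)
  refine card_le_card_of_injOn (fun i => p - ((a + i * (Q * k)) % (p * Q)) / Q) ?_ ?_
  · intro i hi
    have hi' := (mem_filter.1 (mem_coe.1 hi)).2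
    have h1 := hlt i
    have h2 := Nat.div_add_mod ((a + i * (Q * k)) % (p * Q)) Q
    rw [hmod] at h2
    have h3 : a % Q < Q := Nat.mod_lt _ hQ
    set v := ((a + i * (Q * k)) % (p * Q)) / Q with hv
    simp only [coe_Icc, Set.mem_Icc]
    refine ⟨by omega, ?_⟩
    by_contra hcon
    push Not at hcon
    have h4 : K + 1 + v ≤ p := by omega
    have h5 : (K + 1 + v) * Q ≤ p * Q := Nat.mul_le_mul_right Q h4
    rw [← h2] at hi'
    nlinarith
  · intro i hi i' hi' he
    have hi0 := mem_range.1 (mem_filter.1 (mem_coe.1 hi)).1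
    have hi0' := mem_range.1 (mem_filter.1 (mem_coe.1 hi')).1
    simp only at he
    have h1 := hlt i
    have h1' := hlt i'
    have h2 : ((a + i * (Q * k)) % (p * Q)) / Q = ((a + i' * (Q * k)) % (p * Q)) / Q := by omega
    have h3 : (a + i * (Q * k)) % (p * Q) = (a + i' * (Q * k)) % (p * Q) := by
      rw [← Nat.div_add_mod ((a + i * (Q * k)) % (p * Q)) Q,
        ← Nat.div_add_mod ((a + i' * (Q * k)) % (p * Q)) Q, h2, hmod, hmod]
    have h4 : a + i * (Q * k) ≡ a + i' * (Q * k) [MOD p * Q] := h3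
    have h5 : i * (Q * k) ≡ i' * (Q * k) [MOD p * Q] := Nat.ModEq.add_left_cancel' a h4
    have h6 : Q * (i * k) ≡ Q * (i' * k) [MOD Q * p] := by
      have e1 : i * (Q * k) = Q * (i * k) := by ring
      have e2 : i' * (Q * k) = Q * (i' * k) := by ring
      rwa [e1, e2, mul_comm p Q] at h5
    have h7 : i * k ≡ i' * k [MOD p] := Nat.ModEq.mul_left_cancel' hQ.ne' h6
    have h8 : i ≡ i' [MOD p] := Nat.ModEq.cancel_right_of_coprime hk h7
    exact Nat.ModEq.eq_of_lt_of_lt h8 hi0 hi0'

/-- Few units are bad. -/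
lemma bad_few2 {n q g : ℕ} [NeZero q]
    (hg : g ∣ q) (c : ZMod q) (hmild : Mild n (q / g) (g / Nat.gcd g c.val))
    (A : Finset (ZMod q)ˣ) (hA : A.Nonempty)
    (hAm : ∀ u ∈ A, ∀ v : (ZMod q)ˣ, (v : ZMod q) * g = g → u * v ∈ A) :
    n * (A.filter fun u : (ZMod q)ˣ => q < ((u : ZMod q) * c).val + g).card < A.card := by
  classical
  have hq0 : q ≠ 0 := NeZero.ne q
  have hg0 : g ≠ 0 := fun h => hq0 (Nat.eq_zero_of_zero_dvd (h ▸ hg))
  obtain ⟨C, hC⟩ : ∃ C, C = c.val := ⟨_, rfl⟩
  have hval : ∀ (u : (ZMod q)ˣ) (x : ℕ), ((u : ZMod q) * c * (x : ℕ)).val =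
      ((u : ZMod q).val * C * x) % q := by
    intro u x
    have : (u : ZMod q) * c * (x : ℕ) = (((u : ZMod q).val * C * x : ℕ) : ZMod q) := by
      push_cast
      rw [ZMod.natCast_zmod_val, hC, ZMod.natCast_zmod_val]
    rw [this, ZMod.val_natCast]
  have hval1 : ∀ (u : (ZMod q)ˣ), ((u : ZMod q) * c).val = ((u : ZMod q).val * C) % q := by
    intro u
    have := hval u 1
    simpa using this
  rw [← hC] at hmild
  have hg0' : 0 < g := Nat.pos_of_ne_zero hg0
  rcases hmild with hh | ⟨p, j, hp, hj, hpj, hineq⟩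
  · have hgC : g ∣ C := by
      have h1 : g = Nat.gcd g C := by
        have := Nat.div_mul_cancel (Nat.gcd_dvd_left g C)
        rw [hh, one_mul] at this
        exact this.symm
      rw [h1]
      exact Nat.gcd_dvd_right g C
    have : (A.filter fun u : (ZMod q)ˣ => q < ((u : ZMod q) * c).val + g) = ∅ := by
      refine filter_eq_empty_iff.2 fun u _ hlt => ?_
      rw [hval1] at hlt
      have h1 : g ∣ ((u : ZMod q).val * C) % q := (Nat.dvd_mod_iff hg).2 (Dvd.dvd.mul_left hgC _)
      have h2 : ((u : ZMod q).val * C) % q < q := Nat.mod_lt _ (Nat.pos_of_ne_zero hq0)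
      obtain ⟨x, hx⟩ := h1
      obtain ⟨y, hy⟩ := hg
      rw [hx] at hlt h2
      rw [hy] at hlt h2
      have h3 : x < y := lt_of_mul_lt_mul_left h2 (Nat.zero_le _)
      have h4 : g * (x + 1) ≤ g * y := Nat.mul_le_mul_left _ h3
      have h5 : g * (x + 1) = g * x + g := by ring
      omega
    rw [this, card_empty, mul_zero]
    exact card_pos.2 hA
  · have hP0 : 0 < p ^ j := Nat.pow_pos hp.pos
    have hC0 : C ≠ 0 := by
      intro h
      rw [h, Nat.gcd_zero_right, Nat.div_self hg0'] at hpj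
      have := Nat.dvd_one.1 hpj
      have h1 : 1 < p ^ j := Nat.one_lt_pow hj.ne' hp.one_lt
      omega
    obtain ⟨v, hv⟩ : ∃ v, v = C.factorization p := ⟨_, rfl⟩
    obtain ⟨s, hs⟩ : ∃ s, s = q.factorization p := ⟨_, rfl⟩
    have hpv : v + j ≤ g.factorization p := by
      have h1 : p ^ j * Nat.gcd g C ∣ g := by
        obtain ⟨y, hy⟩ := hpj
        refine ⟨y, ?_⟩
        have h2 := Nat.div_mul_cancel (Nat.gcd_dvd_left g C)
        rw [hy] at h2
        calc g = p ^ j * y * Nat.gcd g C := h2.symm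
          _ = p ^ j * Nat.gcd g C * y := by ring
      have hG0 : Nat.gcd g C ≠ 0 := Nat.gcd_ne_zero_left hg0
      have h2 := (Nat.factorization_prime_le_iff_dvd (mul_ne_zero hP0.ne' hG0) hg0).2 h1 p hp
      rw [Nat.factorization_mul hP0.ne' hG0, Nat.factorization_gcd hg0 hC0, Finsupp.add_apply,
        Finsupp.inf_apply, hp.factorization_pow, Finsupp.single_eq_same, ← hv] at h2
      rcases le_total (g.factorization p) v with h3 | h3
      · rw [inf_of_le_left h3] at h2
        omega
      · rw [inf_of_le_right h3] at h2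
        omega
    have hvs : v + j ≤ s := by
      have := (Nat.factorization_prime_le_iff_dvd hg0 hq0).2 hg p hp
      omega
    obtain ⟨m, hm⟩ : ∃ m, m = q / p ^ s := ⟨_, rfl⟩
    have hqm : q = p ^ s * m := by
      rw [hm, hs]
      exact (Nat.ordProj_mul_ordCompl_eq_self q p).symm
    have hpm : ¬ p ∣ m := by
      rw [hm, hs]
      exact Nat.not_dvd_ordCompl hp hq0
    obtain ⟨C', hC'⟩ : ∃ C', C' = C / p ^ v := ⟨_, rfl⟩
    have hCC' : C = p ^ v * C' := by
      rw [hC', hv]
      exact (Nat.ordProj_mul_ordCompl_eq_self C p).symm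
    have hpC' : ¬ p ∣ C' := by
      rw [hC', hv]
      exact Nat.not_dvd_ordCompl hp hC0
    obtain ⟨w, hw⟩ : ∃ w, w = m * p ^ (s - j - v) := ⟨_, rfl⟩
    obtain ⟨Q, hQ⟩ : ∃ Q, Q = m * p ^ (s - j) := ⟨_, rfl⟩
    have hqQ : q = p ^ j * Q := by
      rw [hqm, hQ]
      have : p ^ s = p ^ j * p ^ (s - j) := by
        rw [← pow_add]
        congr 1
        omega
      rw [this]
      ring
    have hwC : w * C = Q * C' := by
      rw [hw, hQ, hCC']
      have : p ^ (s - j) = p ^ (s - j - v) * p ^ v := by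
        rw [← pow_add]
        congr 1
        omega
      rw [this]
      ring
    have hwg : q ∣ w * g := by
      have h1 : p ^ (v + j) ∣ g := (hp.pow_dvd_iff_le_factorization hg0).2 hpv
      obtain ⟨g', hg'⟩ := h1
      refine ⟨g', ?_⟩
      rw [hw, hg', hqm]
      have : p ^ s = p ^ (s - j - v) * p ^ (v + j) := by
        rw [← pow_add]
        congr 1
        omega
      rw [this]
      ring
    have hQ0 : 0 < Q := by
      rcases Nat.eq_zero_or_pos Q with h | h
      · exact absurd (by rw [hqQ, h, mul_zero]) hq0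
      · exact h
    -- the shifts
    set I : Finset ℕ := (range (p ^ j)).filter fun i => Nat.Coprime (1 + i * w) q with hI
    have hnc : ∀ i, ¬ Nat.Coprime (1 + i * w) q → p ∣ 1 + i * w := by
      intro i hi
      obtain ⟨r, hr1, hr2, hr3⟩ := Nat.Prime.not_coprime_iff_dvd.1 hi
      rw [hqm] at hr3
      rcases (Nat.Prime.dvd_mul hr1).1 hr3 with h | h
      · rwa [(Nat.prime_dvd_prime_iff_eq hr1 hp).1 (hr1.dvd_of_dvd_pow h)] at hr2
      · exfalso
        have h1 : r ∣ i * w := by rw [hw]; exact Dvd.dvd.mul_left (Dvd.dvd.mul_right h _) _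
        have h2 : r ∣ 1 := (Nat.dvd_add_left h1).1 hr2
        exact hr1.one_lt.ne' (Nat.dvd_one.1 h2)
    have hIcard : p ^ j - p ^ (j - 1) ≤ I.card := by
      have h1 : ((range (p ^ j)).filter fun i => ¬ Nat.Coprime (1 + i * w) q).card ≤
          p ^ (j - 1) := by
        have hpp : p ^ j = p ^ (j - 1) * p := by
          rw [← pow_succ]
          congr 1
          omega
        rw [← card_range (p ^ (j - 1))]
        refine card_le_card_of_injOn (fun i => i / p) ?_ ?_
        · intro i hi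
          have h2 := mem_range.1 (mem_filter.1 (mem_coe.1 hi)).1
          rw [coe_range, Set.mem_Iio]
          exact (Nat.div_lt_iff_lt_mul hp.pos).2 (by rw [← hpp]; exact h2)
        · intro i hi i' hi' he
          have a1 := hnc i (mem_filter.1 (mem_coe.1 hi)).2
          have a2 := hnc i' (mem_filter.1 (mem_coe.1 hi')).2
          have hpw : ¬ p ∣ w := by
            intro h
            have h2 : p ∣ 1 := (Nat.dvd_add_left (Dvd.dvd.mul_left h i)).1 a1
            exact hp.one_lt.ne' (Nat.dvd_one.1 h2)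
          have h2 : 1 + i * w ≡ 1 + i' * w [MOD p] :=
            (Nat.modEq_zero_iff_dvd.2 a1).trans (Nat.modEq_zero_iff_dvd.2 a2).symm
          have h3 : i ≡ i' [MOD p] :=
            Nat.ModEq.cancel_right_of_coprime (hp.coprime_iff_not_dvd.2 hpw)
              (Nat.ModEq.add_left_cancel' 1 h2)
          have h4 : i % p = i' % p := h3
          simp only at he
          rw [← Nat.div_add_mod i p, ← Nat.div_add_mod i' p, he, h4]
      have h2 := card_filter_add_card_filter_not (s := range (p ^ j))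
        (fun i => Nat.Coprime (1 + i * w) q)
      rw [card_range] at h2
      rw [hI]
      omega
    -- the count for one unit
    obtain ⟨d, hd⟩ := hg
    have hd0 : 0 < d := by
      rcases Nat.eq_zero_or_pos d with h | h
      · rw [h, mul_zero] at hd
        exact absurd hd hq0
      · exact h
    have hqg : q / g = d := by rw [hd, Nat.mul_div_cancel_left _ hg0']
    rw [hqg] at hineq
    have hpq : p ∣ q := (dvd_pow_self p hj.ne').trans ⟨Q, hqQ⟩
    obtain ⟨K, hK⟩ : ∃ K, K = (p ^ j - 1) / d + 1 := ⟨_, rfl⟩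
    have hKg : g ≤ K * Q := by
      have h1 : p ^ j ≤ K * d := by
        have := Nat.lt_div_mul_add (a := p ^ j - 1) (b := d) hd0
        rw [hK, add_mul, one_mul]
        omega
      have h2 : p ^ j * g ≤ p ^ j * (K * Q) := by
        calc p ^ j * g ≤ K * d * g := Nat.mul_le_mul_right _ h1
          _ = K * (g * d) := by ring
          _ = K * (p ^ j * Q) := by rw [← hd, hqQ]
          _ = p ^ j * (K * Q) := by ring
      exact le_of_mul_le_mul_left h2 hP0
    have hcount : ∀ u ∈ A, (I.filter fun i : ℕ =>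
        q < ((u : ZMod q) * c * ((1 + i * w : ℕ) : ZMod q)).val + g).card ≤ K := by
      intro u _
      have h1 : Nat.Coprime (p ^ j) ((u : ZMod q).val * C') := by
        refine Nat.Coprime.pow_left j (hp.coprime_iff_not_dvd.2 fun h => ?_)
        rcases (Nat.Prime.dvd_mul hp).1 h with h | h
        · have h2 := ZMod.val_coe_unit_coprime u
          exact Nat.Prime.not_coprime_iff_dvd.2 ⟨p, hp, h, hpq⟩ h2
        · exact hpC' h
      refine le_trans (card_le_card fun i hi => ?_)
        (count_bad2 (a := (u : ZMod q).val * C) hP0 hQ0 h1 hKg)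
      obtain ⟨hi1, hi2⟩ := mem_filter.1 hi
      refine mem_filter.2 ⟨(mem_filter.1 hi1).1, ?_⟩
      rw [hval] at hi2
      have e1 : (u : ZMod q).val * C * (1 + i * w) =
          (u : ZMod q).val * C + i * (Q * ((u : ZMod q).val * C')) := by
        calc _ = (u : ZMod q).val * C + i * ((u : ZMod q).val * (w * C)) := by ring
          _ = _ := by rw [hwC]; ring
      rw [e1] at hi2
      rw [← hqQ]
      exact hi2
    -- the invariance
    have hinv : ∀ i ∈ I, (A.filter fun u : (ZMod q)ˣ =>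
        q < ((u : ZMod q) * c * ((1 + i * w : ℕ) : ZMod q)).val + g).card =
        (A.filter fun u : (ZMod q)ˣ => q < ((u : ZMod q) * c).val + g).card := by
      intro i hi
      have hco := (mem_filter.1 hi).2
      set V : (ZMod q)ˣ := ZMod.unitOfCoprime (1 + i * w) hco with hV
      have hVc : (V : ZMod q) = ((1 + i * w : ℕ) : ZMod q) := ZMod.coe_unitOfCoprime _ _
      have hVg : (V : ZMod q) * g = g := by
        rw [hVc]
        have h1 : ((w * g : ℕ) : ZMod q) = 0 := (ZMod.natCast_eq_zero_iff _ _).2 hwg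
        push_cast at h1 ⊢
        rw [add_mul, one_mul, mul_assoc, h1, mul_zero, add_zero]
      have hVg' : ((V⁻¹ : (ZMod q)ˣ) : ZMod q) * g = g := by
        conv_lhs => rw [← hVg]
        rw [← mul_assoc, Units.inv_mul, one_mul]
      refine card_nbij' (fun u => u * V) (fun u => u * V⁻¹) ?_ ?_ ?_ ?_
      · intro u hu
        obtain ⟨h1, h2⟩ := mem_filter.1 (mem_coe.1 hu)
        refine mem_coe.2 (mem_filter.2 ⟨hAm u h1 V hVg, ?_⟩)
        rw [Units.val_mul, hVc]
        have e1 : (u : ZMod q) * ((1 + i * w : ℕ) : ZMod q) * c =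
          (u : ZMod q) * c * ((1 + i * w : ℕ) : ZMod q) := by ring
        rw [e1]
        exact h2
      · intro u hu
        obtain ⟨h1, h2⟩ := mem_filter.1 (mem_coe.1 hu)
        refine mem_coe.2 (mem_filter.2 ⟨hAm u h1 V⁻¹ hVg', ?_⟩)
        rw [Units.val_mul, ← hVc]
        have e1 : (u : ZMod q) * ((V⁻¹ : (ZMod q)ˣ) : ZMod q) * c * (V : ZMod q) =
          (u : ZMod q) * c := by
          calc _ = (u : ZMod q) * c * (((V⁻¹ : (ZMod q)ˣ) : ZMod q) * (V : ZMod q)) := by ring
            _ = _ := by rw [Units.inv_mul, mul_one]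
        rw [e1]
        exact h2
      · intro u _
        simp
      · intro u _
        simp
    have hdc : I.card * (A.filter fun u : (ZMod q)ˣ => q < ((u : ZMod q) * c).val + g).card ≤ A.card * K := by
      calc I.card * (A.filter fun u : (ZMod q)ˣ => q < ((u : ZMod q) * c).val + g).card
          = ∑ i ∈ I, (A.filter fun u : (ZMod q)ˣ =>
              q < ((u : ZMod q) * c * ((1 + i * w : ℕ) : ZMod q)).val + g).card := by
            rw [sum_congr rfl hinv, sum_const, smul_eq_mul]
        _ = ∑ u ∈ A, (I.filter fun i : ℕ =>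
              q < ((u : ZMod q) * c * ((1 + i * w : ℕ) : ZMod q)).val + g).card := by
            simp only [card_filter]
            exact sum_comm
        _ ≤ ∑ _u ∈ A, K := sum_le_sum hcount
        _ = A.card * K := by rw [sum_const, smul_eq_mul]
    set b := (A.filter fun u : (ZMod q)ˣ => q < ((u : ZMod q) * c).val + g).card with hb
    have hfin := hineq
    rw [← hK] at hfin
    have hA0 : 0 < A.card := card_pos.2 hA
    have h1 : (p ^ j - p ^ (j - 1)) * b ≤ A.card * K := le_trans (Nat.mul_le_mul_right _ hIcard) hdc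
    have h2 : (p ^ j - p ^ (j - 1)) * (n * b) < (p ^ j - p ^ (j - 1)) * A.card := by
      calc (p ^ j - p ^ (j - 1)) * (n * b) = n * ((p ^ j - p ^ (j - 1)) * b) := by ring
        _ ≤ n * (A.card * K) := Nat.mul_le_mul_left _ h1
        _ = n * K * A.card := by ring
        _ < (p ^ j - p ^ (j - 1)) * A.card := Nat.mul_lt_mul_of_pos_right hfin hA0
    exact lt_of_mul_lt_mul_left h2 (Nat.zero_le _)

/-- **A good unit.** -/
theorem exists_unit2 {n q : ℕ} (hn : 0 < n) (hq : 0 < q)
    {c0 : ℤ} (hc0 : ¬ (q : ℤ) ∣ c0) (c : Fin n → ℤ)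
    (hmild : ∀ (g : ℕ) (u : (ZMod q)ˣ), g ∣ q → (c0 : ZMod q) = u * g →
      ∀ l, Mild n (q / g) (g / Nat.gcd g ((c l : ℤ) : ZMod q).val)) :
    ∃ (u : ℤ) (g : ℕ), IsCoprime u (q : ℤ) ∧ 0 < g ∧ g < q ∧ g ∣ q ∧ (q : ℤ) ∣ u * c0 - g ∧
      ∀ l, (u * c l) % (q : ℤ) + g ≤ q := by
  classical
  have : NeZero q := ⟨hq.ne'⟩
  obtain ⟨g, hg, u0, hu0, hc⟩ := ZMod.eq_unit_mul_divisor (c0 : ZMod q)
  have hg0 : 0 < g := Nat.pos_of_dvd_of_pos hg hq
  have hgq : g < q := by
    refine lt_of_le_of_ne (Nat.le_of_dvd hq hg) fun h => hc0 ?_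
    rw [h, ZMod.natCast_self, mul_zero] at hc
    exact (ZMod.intCast_zmod_eq_zero_iff_dvd _ _).1 hc
  obtain ⟨U, rfl⟩ := hu0
  set A : Finset (ZMod q)ˣ := univ.filter fun u => (u : ZMod q) * (c0 : ZMod q) = g with hA
  have hAne : A.Nonempty := ⟨U⁻¹, mem_filter.2 ⟨mem_univ _, by
    rw [hc, ← mul_assoc, Units.inv_mul, one_mul]⟩⟩
  have hAm : ∀ u ∈ A, ∀ v : (ZMod q)ˣ, (v : ZMod q) * g = g → u * v ∈ A := by
    intro u hu v hv
    have h1 := (mem_filter.1 hu).2
    refine mem_filter.2 ⟨mem_univ _, ?_⟩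
    rw [Units.val_mul]
    calc (u : ZMod q) * v * (c0 : ZMod q) = v * ((u : ZMod q) * (c0 : ZMod q)) := by ring
      _ = g := by rw [h1, hv]
  have hex : ∃ u ∈ A, ∀ l, ¬ q < ((u : ZMod q) * ((c l : ℤ) : ZMod q)).val + g := by
    by_contra hno
    push Not at hno
    have h1 : A ⊆ univ.biUnion fun l => A.filter fun u : (ZMod q)ˣ =>
        q < ((u : ZMod q) * ((c l : ℤ) : ZMod q)).val + g := by
      intro u hu
      obtain ⟨l, hl⟩ := hno u hu
      exact mem_biUnion.2 ⟨l, mem_univ _, mem_filter.2 ⟨hu, hl⟩⟩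
    have h2 := (card_le_card h1).trans card_biUnion_le
    have h3 : n * A.card ≤ ∑ l, n * (A.filter fun u : (ZMod q)ˣ =>
        q < ((u : ZMod q) * ((c l : ℤ) : ZMod q)).val + g).card := by
      rw [← mul_sum]
      exact Nat.mul_le_mul_left _ h2
    have h4 : ∑ l, n * (A.filter fun u : (ZMod q)ˣ =>
        q < ((u : ZMod q) * ((c l : ℤ) : ZMod q)).val + g).card < ∑ _l : Fin n, A.card :=
      sum_lt_sum_of_nonempty ⟨⟨0, hn⟩, mem_univ _⟩ fun l _ =>
        bad_few2 hg _ (hmild g U hg hc l) A hAne hAm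
    simp only [sum_const, card_univ, Fintype.card_fin, smul_eq_mul] at h4
    omega
  obtain ⟨u, hu, hgood⟩ := hex
  refine ⟨((u : ZMod q).val : ℤ), g, ?_, hg0, hgq, hg, ?_, fun l => ?_⟩
  · exact Nat.isCoprime_iff_coprime.2 (ZMod.val_coe_unit_coprime u)
  · rw [← ZMod.intCast_zmod_eq_zero_iff_dvd]
    push_cast
    rw [ZMod.natCast_zmod_val, (mem_filter.1 hu).2, sub_self]
  · have h1 := hgood l
    have h2 : (((u : ZMod q).val : ℤ) * c l) % (q : ℤ) =
        (((u : ZMod q) * ((c l : ℤ) : ZMod q)).val : ℤ) := by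
      have h3 : (u : ZMod q) * ((c l : ℤ) : ZMod q) = ((((u : ZMod q).val : ℤ) * c l : ℤ) : ZMod q) := by
        push_cast
        rw [ZMod.natCast_zmod_val]
      rw [h3, ZMod.val_intCast]
    rw [h2]
    omega

end Pool.Agent.N858.R3
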