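import Pool.Agent.N858.R4.Abs4
import Pool.Agent.N858.PC.Irr

set_option autoImplicit false

/-!
The strict inequalities at the generic points of the annihilator of the relations.
-/

open Finset Filter

namespace Pool.Agent.N858.R3

open Pool.Agent.N858.PC
open Pool.Agent.N858.R4
open Pool.Agent.N858.P5 (common_den)

variable {X : Type*} [Fintype X] [DecidableEq X] {n : ℕ}

lemma step_str [Nonempty X] (hn : 0 < n) {e E : X → Fin n → ℚ} {ε : X → ℚ} {a k₀ : ℤ}
    {y : X → Fin n → ℝ} {w : X → Fin n → ℤ} {δ : ℝ}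
    (hSt : LineSt fun x l => (a : ℝ) * e x l) (he : ∀ x l, e x l = E x l + ε x)
    (hε : ∑ x, ε x = k₀)
    (hw : ∀ x l, |(a : ℝ) * E x l - y x l - w x l| < δ)
    (hδ : (n : ℝ) * Fintype.card X * δ ≤ 1) (hE : ∃ k : ℤ, ∑ x, ∑ l, E x l = k)
    (hy : ∑ x, ∑ l, y x l = 0) (κ : X → Fin n) (hκE : ∃ k : ℤ, ∑ x, E x (κ x) = k)
    (hκy : ∑ x, y x (κ x) = 0)
    (hfl : ∀ x l, (⌊y x l - y x (κ x)⌋ : ℝ) ≤
      ((a : ℝ) * E x l - w x l) - ((a : ℝ) * E x (κ x) - w x (κ x))) :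
    ∑ x, ∑ l, ⌊y x l - y x (κ x)⌋ + n ≤ 0 := by
  obtain ⟨x₀⟩ := ‹Nonempty X›
  have : Nonempty X := ⟨x₀⟩
  have : Nonempty (Fin n) := ⟨⟨0, hn⟩⟩
  obtain ⟨k, hk⟩ := hκE
  have hk2 : ∑ x, (E x (κ x) : ℝ) = k := by
    have := congrArg (fun r : ℚ => (r : ℝ)) hk
    push_cast at this
    exact this
  have hε' : ∑ x, (ε x : ℝ) = k₀ := by
    have := congrArg (fun r : ℚ => (r : ℝ)) hε
    push_cast at this
    exact this
  -- the integral part of the relation
  have h0 : (a : ℝ) * k = ((∑ x, w x (κ x) : ℤ) : ℝ) := by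
    have h1 : |∑ x, ((a : ℝ) * E x (κ x) - y x (κ x) - w x (κ x))| < 1 := by
      calc |∑ x, ((a : ℝ) * E x (κ x) - y x (κ x) - w x (κ x))|
          ≤ ∑ x, |(a : ℝ) * E x (κ x) - y x (κ x) - w x (κ x)| := abs_sum_le_sum_abs _ _
        _ < ∑ _x : X, δ := sum_lt_sum_of_nonempty univ_nonempty fun x _ => hw x (κ x)
        _ = 1 * (Fintype.card X * δ) := by
            simp only [sum_const, card_univ, nsmul_eq_mul, one_mul]
        _ ≤ n * (Fintype.card X * δ) := by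
            have h2 : (1 : ℝ) ≤ n := by exact_mod_cast hn
            have hδ0 : 0 < δ := (abs_nonneg _).trans_lt (hw x₀ ⟨0, hn⟩)
            gcongr
        _ ≤ 1 := by linarith
    have h3 : ∑ x, ((a : ℝ) * E x (κ x) - y x (κ x) - w x (κ x)) =
        ((a * k - ∑ x, w x (κ x) : ℤ) : ℝ) := by
      push_cast
      rw [sum_sub_distrib, sum_sub_distrib, hκy, sub_zero, ← mul_sum, hk2]
    have h4 := eq_of_abs_lt h3 h1
    rw [h3] at h4
    push_cast at h4 ⊢
    linarith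
  have h1 := hSt (fun x => (a : ℝ) * e x (κ x) - w x (κ x) - if x = x₀ then ((a * k₀ : ℤ) : ℝ) else 0) (by
    have h2 : ∑ x, (a : ℝ) * e x (κ x) = a * k + a * k₀ := by
      rw [← hk2, ← hε', mul_sum, mul_sum, ← sum_add_distrib]
      refine sum_congr rfl fun x _ => ?_
      rw [he]; push_cast; ring
    rw [sum_sub_distrib, sum_sub_distrib, h2, sum_ite_eq', if_pos (mem_univ _), h0]
    push_cast
    linarith)
  have h2 : ∀ x l, ⌊y x l - y x (κ x)⌋ + w x l + (if x = x₀ then a * k₀ else 0) ≤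
      ⌊(a : ℝ) * e x l - ((a : ℝ) * e x (κ x) - w x (κ x) -
        if x = x₀ then ((a * k₀ : ℤ) : ℝ) else 0)⌋ := by
    intro x l
    rw [Int.le_floor]
    have h5 : (e x l : ℝ) = E x l + ε x := by rw [he]; push_cast; ring
    have h6 : (e x (κ x) : ℝ) = E x (κ x) + ε x := by rw [he]; push_cast; ring
    have h7 := hfl x l
    rw [h5, h6]
    push_cast
    split_ifs <;> linarith
  have h3 : ∑ x, ∑ l, ⌊y x l - y x (κ x)⌋ + ∑ x, ∑ l, w x l + n * (a * k₀) ≤
      ∑ x, ∑ l, ⌊(a : ℝ) * e x l - ((a : ℝ) * e x (κ x) - w x (κ x) -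
        if x = x₀ then ((a * k₀ : ℤ) : ℝ) else 0)⌋ := by
    calc _ = ∑ x, ∑ l, (⌊y x l - y x (κ x)⌋ + w x l + (if x = x₀ then a * k₀ else 0)) := by
          simp only [sum_add_distrib]
          congr 1
          have : ∀ x : X, ∑ _l : Fin n, (if x = x₀ then a * k₀ else 0) =
                if x = x₀ then n * (a * k₀) else 0 := by
              intro x
              split_ifs <;> simp
          rw [sum_congr rfl fun x _ => this x, sum_ite_eq', if_pos (mem_univ _)]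
      _ ≤ _ := sum_le_sum fun x _ => sum_le_sum fun l _ => h2 x l
  have h4 := sum_eq_zero_of_small hn hw hδ hE ⟨0, by simpa using hy⟩
  have h5 : ∑ x, ∑ l, (a : ℝ) * e x l =
      ∑ x, ∑ l, (a : ℝ) * E x l + n * (a * ∑ x, (ε x : ℝ)) := by
    have : ∀ x, ∑ l, (a : ℝ) * e x l = ∑ l, (a : ℝ) * E x l + n * (a * ε x) := by
      intro x
      have h6 : ∀ l, (a : ℝ) * e x l = (a : ℝ) * E x l + a * ε x := by
        intro l
        rw [he]; push_cast; ring
      rw [sum_congr rfl fun l _ => h6 l, sum_add_distrib, sum_const, card_univ, Fintype.card_fin,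
        nsmul_eq_mul]
    rw [sum_congr rfl fun x _ => this x, sum_add_distrib, ← mul_sum, ← mul_sum]
  have h6 : ((∑ x, ∑ l, ⌊y x l - y x (κ x)⌋ + ∑ x, ∑ l, w x l + n * (a * k₀) : ℤ) : ℝ) ≤
      ((∑ x, ∑ l, ⌊(a : ℝ) * e x l - ((a : ℝ) * e x (κ x) - w x (κ x) -
        if x = x₀ then ((a * k₀ : ℤ) : ℝ) else 0)⌋ : ℤ) : ℝ) := by
    exact_mod_cast h3
  rw [h5, h4, hy, hε'] at h1
  have h7 : ((∑ x, ∑ l, ⌊y x l - y x (κ x)⌋ + n : ℤ) : ℝ) ≤ ((0 : ℤ) : ℝ) := by
    push_cast at h1 h6 ⊢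
    linarith
  exact_mod_cast h7

/-- The strict inequality for a relation of degree one at a generic point of the annihilator. -/
lemma strict_close [Nonempty X] (S : Seq X n) (F : Ultrafilter ℕ) (hF : (F : Filter ℕ) ≤ atTop)
    (hn : 0 < n)
    (hSt : ∀ᶠ j in (F : Filter ℕ), ∀ a : ℤ, IsCoprime a (S.N j : ℤ) →
      LineSt fun x l => (a : ℝ) * S.e j x l)
    {y : X × Fin n → ℝ} (hy : S.Ann F y) (hy0 : ∑ x, ∑ l, y (x, l) = 0) (κ : X → Fin n)
    (hκ : del κ ∈ S.R F) (hκy : ∑ x, y (x, κ x) = 0)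
    (hgen : ∀ x l, (∃ z : ℤ, y (x, l) - y (x, κ x) = z) →
      S.cl F (x, l) = S.cl F (x, κ x) ∧ y (x, l) = y (x, κ x)) :
    ∑ x, ∑ l, ⌊y (x, l) - y (x, κ x)⌋ + n ≤ 0 := by
  classical
  have hn' : (0 : ℝ) < n := by exact_mod_cast hn
  have hX : (0 : ℝ) < Fintype.card X := by exact_mod_cast Fintype.card_pos
  have hnX : (0 : ℝ) < n * Fintype.card X := mul_pos hn' hX
  -- a lower bound for the fractional parts
  obtain ⟨g, hg0, hg⟩ : ∃ g : ℝ, 0 < g ∧ ∀ t : X × Fin n, y t - y (t.1, κ t.1) ≠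
      ⌊y t - y (t.1, κ t.1)⌋ → (⌊y t - y (t.1, κ t.1)⌋ : ℝ) + g ≤ y t - y (t.1, κ t.1) := by
    set A := univ.filter fun t : X × Fin n => y t - y (t.1, κ t.1) ≠
      ⌊y t - y (t.1, κ t.1)⌋ with hA
    rcases A.eq_empty_or_nonempty with h | h
    · refine ⟨1, one_pos, fun t h1 => ?_⟩
      have : t ∈ A := by rw [hA]; simp only [mem_filter, mem_univ, true_and]; exact h1
      rw [h] at this
      simp at this
    · obtain ⟨t₀, ht₀, hmin⟩ := exists_min_image A
        (fun t => (y t - y (t.1, κ t.1)) - (⌊y t - y (t.1, κ t.1)⌋ : ℝ)) h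
      rw [hA] at ht₀ hmin
      simp only [mem_filter, mem_univ, true_and] at ht₀ hmin
      refine ⟨(y t₀ - y (t₀.1, κ t₀.1)) - (⌊y t₀ - y (t₀.1, κ t₀.1)⌋ : ℝ), ?_,
        fun t h1 => by have := hmin t h1; linarith⟩
      have h2 := Int.floor_le (y t₀ - y (t₀.1, κ t₀.1))
      rcases h2.lt_or_eq with h3 | h3
      · linarith
      · exact absurd h3.symm ht₀
  set δ : ℝ := min (min (1 / (n * Fintype.card X)) (g / 2)) (1 / 4) with hδ
  have hδ0 : 0 < δ := by
    rw [hδ]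
    exact lt_min (lt_min (by positivity) (by positivity)) (by norm_num)
  have hδ1 : (n : ℝ) * Fintype.card X * δ ≤ 1 := by
    calc (n : ℝ) * Fintype.card X * δ ≤ (n : ℝ) * Fintype.card X * (1 / (n * Fintype.card X)) := by
          have : δ ≤ 1 / (n * Fintype.card X) := (min_le_left _ _).trans (min_le_left _ _)
          gcongr
      _ = 1 := by field_simp
  have hδ2 : 2 * δ ≤ g := by
    have : δ ≤ g / 2 := (min_le_left _ _).trans (min_le_right _ _)
    linarith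
  have hδ3 : δ ≤ 1 / 4 := min_le_right _ _
  have hcl : ∀ᶠ j in (F : Filter ℕ), ∀ x l, S.cl F (x, l) = S.cl F (x, κ x) →
      ∃ w : ℤ, S.e j x l - S.e j x (κ x) = w := by
    refine Filter.eventually_all.2 fun x => Filter.eventually_all.2 fun l => ?_
    by_cases h : S.cl F (x, l) = S.cl F (x, κ x)
    · filter_upwards [(cl_eq_iff S F hF x l (κ x)).1 h] with j hj _
      exact hj
    · exact Eventually.of_forall fun j h' => absurd h' h
  obtain ⟨j, ⟨⟨a, ha, -, w, hw⟩, ⟨k, hk⟩⟩, ⟨⟨hj1, ⟨k', hk'⟩⟩, hj2⟩⟩ :=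
    (((S.apx F hF hn hy hδ0).and (S.eps_int F hF hn)).and
      ((hSt.and (mem_rel.1 hκ)).and hcl)).exists
  refine step_str hn (y := fun x l => y (x, l)) (hj1 a ha) (S.he j) hk hw hδ1 (S.traceE j) hy0 κ
    ⟨k', ?_⟩ hκy fun x l => ?_
  · rw [← hk', Fintype.sum_prod_type]
    refine sum_congr rfl fun x _ => ?_
    rw [sum_eq_single (κ x)]
    · simp [del]
    · intro l _ hl
      simp [del, hl]
    · simp
  · have a1 := abs_lt.1 (hw x l)
    have a2 := abs_lt.1 (hw x (κ x))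
    by_cases h : y (x, l) - y (x, κ x) = ⌊y (x, l) - y (x, κ x)⌋
    · obtain ⟨h1, h2⟩ := hgen x l ⟨_, h⟩
      obtain ⟨z, hz⟩ := hj2 x l h1
      have h3 : (a : ℝ) * S.E j x l - w x l - ((a : ℝ) * S.E j x (κ x) - w x (κ x)) =
          ((a * z - w x l + w x (κ x) : ℤ) : ℝ) := by
        have h4 : (S.E j x l : ℝ) - S.E j x (κ x) = z := by
          have h5 := congrArg (fun r : ℚ => (r : ℝ)) hz
          rw [S.he, S.he] at h5
          push_cast at h5
          linarith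
        push_cast
        rw [← h4]
        ring
      have h5 : |(a : ℝ) * S.E j x l - w x l - ((a : ℝ) * S.E j x (κ x) - w x (κ x))| < 1 := by
        rw [abs_lt]
        constructor <;> linarith
      rw [eq_of_abs_lt h3 h5, h2, sub_self, Int.floor_zero, Int.cast_zero]
    · have h1 := hg (x, l) h
      simp only at h1
      linarith

/-- A generic vector in the annihilator. -/
lemma generic (S : Seq X n) (F : Ultrafilter ℕ) (hF : (F : Filter ℕ) ≤ atTop)
    (𝒞 : Finset (X × Fin n → ℤ)) :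
    ∃ V : X × Fin n → ℤ, (∀ t : ℝ, S.Ann F fun i => t * (V i : ℝ)) ∧
      (∀ c ∈ S.R F, ∑ i, c i * V i = 0) ∧ ∀ c ∈ 𝒞, ∑ i, c i * V i = 0 → c ∈ S.R F := by
  classical
  have hfin : Finite {c : X × Fin n → ℤ // c ∈ 𝒞 ∧ ∑ i, (c i : ℚ) • S.cl F i ≠ 0} :=
    Finite.of_injective (β := {c : X × Fin n → ℤ // c ∈ 𝒞}) (fun c => ⟨c.1, c.2.1⟩) (by
      intro c c' h
      apply Subtype.ext
      simpa using h)
  obtain ⟨f, hf⟩ := Module.exists_dual_forall_apply_ne_zero (K := ℚ)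
    (fun c : {c : X × Fin n → ℤ // c ∈ 𝒞 ∧ ∑ i, (c i : ℚ) • S.cl F i ≠ 0} =>
      ∑ i, (c.1 i : ℚ) • S.cl F i) (fun c => c.2.2)
  obtain ⟨m, V, hm, hV⟩ := common_den fun t : X × Fin n => f (S.cl F t)
  have hm' : (0 : ℚ) < m := by exact_mod_cast hm
  have hann : ∀ t : ℝ, ∀ c ∈ S.R F, ∑ i, (c i : ℝ) * (t * (V i : ℝ)) = 0 := by
    intro t c hc
    rw [← S.ann_of_form F f (t * m) c hc]
    refine sum_congr rfl fun i _ => ?_
    have h1 : ((m : ℚ) : ℝ) * ((f (S.cl F i) : ℚ) : ℝ) = ((V i : ℚ) : ℝ) := by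
      exact_mod_cast congrArg (fun r : ℚ => (r : ℝ)) (hV i)
    push_cast at h1
    rw [← h1]
    ring
  refine ⟨V, fun t c hc => ⟨0, by rw [hann t c hc]; simp⟩, fun c hc => ?_, fun c hc h => ?_⟩
  · have h1 := hann 1 c hc
    simp only [one_mul] at h1
    exact_mod_cast h1
  · have h2 : ∑ i, (c i : ℚ) • S.cl F i = 0 := by
      by_contra hne
      apply hf ⟨c, hc, hne⟩
      have h3 : (m : ℚ) * ∑ i, (c i : ℚ) * f (S.cl F i) = 0 := by
        rw [mul_sum]
        have h4 : ((∑ i, c i * V i : ℤ) : ℚ) = 0 := by rw [h]; simp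
        push_cast at h4
        rw [← h4]
        refine sum_congr rfl fun i _ => ?_
        rw [← hV i]
        ring
      simpa [map_sum, map_smul, smul_eq_mul] using (mul_eq_zero.1 h3).resolve_left hm'.ne'
    have h1 : (fun t => (c t : ℚ)) ∈ S.U F := by
      rw [← Submodule.ker_mkQ (S.U F), LinearMap.mem_ker, ← S.sum_cl F, ← h2]
    obtain ⟨d, hd, c', hc', hdc⟩ := S.clear F h1
    refine rel_sat hF (q := S.q) (E := fun j (t : X × Fin n) => S.E j t.1 t.2)
      (fun j i => S.hE j i.1 i.2) S.rough (d := d) hd ?_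
    have : (fun i : X × Fin n => (d : ℤ) * c i) = c' := by
      funext t
      have := hdc t
      exact_mod_cast this
    rw [this]
    exact hc'

end Pool.Agent.N858.R3
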