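import Pool.Agent.N858.R3.Ident
import Pool.Agent.N858.R4.Close

set_option autoImplicit false

/-!
Rank three, three points: the quadratic inequality for all arrangements of the points implies that
there are two disjoint resonances.
-/

open Finset

namespace Pool.Agent.N858.R3

open Pool.Agent.N858.R4
open Pool.Agent.N858.P5 (bet)

/-- Two disjoint resonances. -/
def Dis (f g h : Fin 3 → ℤ) : Prop :=
  ∃ a b c a' b' c' : Fin 3, a ≠ a' ∧ b ≠ b' ∧ c ≠ c' ∧ f a + g b + h c = 0 ∧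
    f a' + g b' + h c' = 0

/-- The quadratic inequality. -/
def Pos (f g h : Fin 3 → ℤ) : Prop :=
  ∀ (k : Fin 3) (t : ℝ), 0 ≤ DK (fun l => t * f l) (fun l => t * g l) (fun l => t * h l) k

lemma Dis.swap {f g h : Fin 3 → ℤ} : Dis f h g → Dis f g h := by
  rintro ⟨a, b, c, a', b', c', h1, h2, h3, h4, h5⟩
  exact ⟨a, c, b, a', c', b', h1, h3, h2, by rw [← h4]; ring, by rw [← h5]; ring⟩

lemma Dis.swap' {f g h : Fin 3 → ℤ} : Dis g f h → Dis f g h := by
  rintro ⟨a, b, c, a', b', c', h1, h2, h3, h4, h5⟩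
  exact ⟨b, a, c, b', a', c', h2, h1, h3, by rw [← h4]; ring, by rw [← h5]; ring⟩

lemma Pos.swap {f g h : Fin 3 → ℤ} (H : Pos f g h) : Pos f h g := by
  intro k t
  rw [DK_symm]
  exact H k t

lemma DK_perm (f g h : Fin 3 → ℝ) (σ τ ρ : Equiv.Perm (Fin 3)) (k : Fin 3) :
    DK (fun l => f (σ l)) (fun l => g (τ l)) (fun l => h (ρ l)) k = DK f g h (σ k) := by
  unfold DK
  have e1 : ∀ (a : Fin 3 → ℝ) (σ : Equiv.Perm (Fin 3)), ∑ i, ∑ j, bet (a (σ i) - a (σ j)) =
      ∑ i, ∑ j, bet (a i - a j) := by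
    intro a σ
    rw [← Equiv.sum_comp σ fun i => ∑ j, bet (a i - a j)]
    exact sum_congr rfl fun i _ => Equiv.sum_comp σ fun j => bet (a (σ i) - a j)
  have e2 : ∑ i, ∑ j, bet (f (σ k) + g (τ i) + h (ρ j)) =
      ∑ i, ∑ j, bet (f (σ k) + g i + h j) := by
    rw [← Equiv.sum_comp τ fun i => ∑ j, bet (f (σ k) + g i + h j)]
    exact sum_congr rfl fun i _ => Equiv.sum_comp ρ fun j => bet (f (σ k) + g (τ i) + h j)
  have e3 : ∑ l, bet (f (σ k) - f (σ l)) = ∑ l, bet (f (σ k) - f l) :=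
    Equiv.sum_comp σ fun l => bet (f (σ k) - f l)
  rw [e1, e1, e1, e2, e3]

lemma Pos.perm {f g h : Fin 3 → ℤ} (H : Pos f g h) (σ τ ρ : Equiv.Perm (Fin 3)) :
    Pos (f ∘ σ) (g ∘ τ) (h ∘ ρ) := by
  intro k t
  have := DK_perm (fun l => t * f l) (fun l => t * g l) (fun l => t * h l) σ τ ρ k
  simp only [Function.comp_apply]
  rw [this]
  exact H (σ k) t

lemma Dis.perm {f g h : Fin 3 → ℤ} {σ τ ρ : Equiv.Perm (Fin 3)}
    (H : Dis (f ∘ σ) (g ∘ τ) (h ∘ ρ)) : Dis f g h := by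
  obtain ⟨a, b, c, a', b', c', h1, h2, h3, h4, h5⟩ := H
  exact ⟨σ a, τ b, ρ c, σ a', τ b', ρ c', fun e => h1 (σ.injective e), fun e => h2 (τ.injective e),
    fun e => h3 (ρ.injective e), h4, h5⟩

/-- The extreme exponents at the point with the largest spread are on a resonance. -/
theorem extreme {f g h : Fin 3 → ℤ} {k : Fin 3} (hf : Function.Injective f)
    (hg : Function.Injective g) (hh : Function.Injective h)
    (hs : ∑ l, f l + ∑ l, g l + ∑ l, h l = 0) (hpos : Pos f g h) {P : ℤ} {b : Fin 3}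
    (hkb : |f k - f b| = P) (hfP : ∀ i j, |f i - f j| ≤ P) (hgP : ∀ i j, |g i - g j| ≤ P)
    (hhP : ∀ i j, |h i - h j| ≤ P) : ∃ i j, f k + g i + h j = 0 := by
  by_contra hcon
  push Not at hcon
  have H : NR f g h k := ⟨hf, hg, hh, hs, hpos k, hcon⟩
  have hL : ∀ i j, |f k + g i + h j| ≤ P := H.bound (hfP k) hgP hhP
  have hP0 : 0 ≤ P := (abs_nonneg _).trans (hfP 0 0)
  have hPpos : 0 < P := by
    rcases hP0.lt_or_eq with h1 | h1
    · exact h1
    · exfalso
      have h2 := hfP 0 1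
      rw [← h1] at h2
      have h3 := abs_nonpos_iff.1 h2
      exact absurd (hf (sub_eq_zero.1 h3)) (by decide)
  have hkb' : k ≠ b := by
    rintro rfl
    rw [sub_self, abs_zero] at hkb
    omega
  obtain ⟨M, hM⟩ : ∃ M : ℕ, (M : ℤ) = P := ⟨P.toNat, Int.toNat_of_nonneg hP0⟩
  have hM0 : 0 < M := by omega
  -- divisibility
  have hdvd : ∀ z : ℤ, |z| ≤ P → ((M : ℤ) ∣ z ↔ z = 0 ∨ z = P ∨ z = -P) := by
    intro z hz
    rw [hM]
    constructor
    · rintro ⟨c, hc⟩
      have h1 : |z| = P * |c| := by rw [hc, abs_mul, abs_of_pos hPpos]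
      have h2 : |c| ≤ 1 := by
        by_contra h3
        push Not at h3
        nlinarith
      have h3 : c = 0 ∨ c = 1 ∨ c = -1 := by
        rw [abs_le] at h2; omega
      rcases h3 with e | e | e <;> rw [hc, e] <;> simp
    · rintro (e | e | e) <;> rw [e]
      · exact dvd_zero _
      · exact (dvd_neg).2 dvd_rfl
  have hrel : ∀ i j, ((M : ℤ) ∣ f i - f j ↔ (i = j ∨ (i = k ∧ j = b) ∨ (i = b ∧ j = k))) := by
    intro i j
    rw [hdvd _ (hfP i j)]
    constructor
    · rintro (e | e)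
      · left; exact hf (by omega)
      · right
        have b1 := hfP i k
        have b2 := hfP i b
        have b3 := hfP j k
        have b4 := hfP j b
        rw [abs_le] at b1 b2 b3 b4
        have h1 : (f i = f k ∧ f j = f b) ∨ (f i = f b ∧ f j = f k) := by
          rcases abs_cases (f k - f b) with ⟨h2, -⟩ | ⟨h2, -⟩ <;> rw [hkb] at h2 <;>
            rcases e with e | e <;> omega
        rcases h1 with ⟨h1, h2⟩ | ⟨h1, h2⟩
        · exact Or.inl ⟨hf h1, hf h2⟩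
        · exact Or.inr ⟨hf h1, hf h2⟩
    · have h2 : f k - f b = P ∨ f k - f b = -P := by
        rcases abs_cases (f k - f b) with ⟨h2, -⟩ | ⟨h2, -⟩ <;> rw [hkb] at h2 <;> omega
      rintro (e | ⟨e, e'⟩ | ⟨e, e'⟩)
      · rw [e, sub_self]; left; rfl
      · rw [e, e']; right; exact h2
      · rw [e, e']; right; omega
  have hpr : pr (fun i j => (M : ℤ) ∣ f i - f j) = 5 := by
    rw [pr_congr hrel]
    clear * - hkb'
    revert k b
    decide +kernel
  have hmu : mu (fun i j => (M : ℤ) ∣ f i - f j) k = 2 := by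
    rw [mu_congr hrel]
    clear * - hkb'
    revert k b
    decide +kernel
  have hc := H.count hM0
  unfold TT at hc
  rw [hpr, hmu] at hc
  have h1 := pr_three (a := g) M
  have h2 := pr_three (a := h) M
  push_cast at hc
  have h3 : 2 ≤ nr (fun i j => (M : ℤ) ∣ f k + g i + h j) := by omega
  have hcell : ∀ i j, (M : ℤ) ∣ f k + g i + h j → f k + g i + h j = P ∨ f k + g i + h j = -P :=
    fun i j hd => ((hdvd _ (hL i j)).1 hd).resolve_left (hcon i j)
  -- there is a cell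
  obtain ⟨i, j, hij⟩ : ∃ i j, (M : ℤ) ∣ f k + g i + h j := by
    by_contra hno
    push Not at hno
    rw [nr_zero hno] at h3
    omega
  -- it is unique
  have huniq : ∀ i' j', (M : ℤ) ∣ f k + g i' + h j' → i' = i ∧ j' = j := by
    intro i' j' hij'
    have a1 := hL i j'
    have a2 := hL i' j
    have a3 := hcon i j'
    have a4 := hcon i' j
    have a5 := hgP i i'
    have a6 := hhP j j'
    rw [abs_le] at a1 a2 a5 a6
    rcases hcell i j hij with e | e <;> rcases hcell i' j' hij' with e' | e'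
    · exact ⟨hg (by omega), hh (by omega)⟩
    · exfalso; omega
    · exfalso; omega
    · exact ⟨hg (by omega), hh (by omega)⟩
  have h4 : nr (fun i' j' => (M : ℤ) ∣ f k + g i' + h j') ≤ 1 := by
    have h5 : nr (fun i' j' => (M : ℤ) ∣ f k + g i' + h j') ≤
        nr (fun i' j' => i' = i ∧ j' = j) := pr_mono huniq
    refine h5.trans (le_of_eq ?_)
    clear * -
    revert i j
    decide +kernel
  omega

/-- The arithmetic of the linear identity. -/
lemma arith {f0 f1 f2 g0 g1 g2 h0 h1 h2 : ℤ} (hf01 : f0 < f1) (hf12 : f1 < f2) (hg01 : g0 < g1)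
    (hg12 : g1 < g2) (hh01 : h0 < h1) (hh12 : h1 < h2)
    (hs : f0 + f1 + f2 + (g0 + g1 + g2) + (h0 + h1 + h2) = 0)
    (l0 : 0 ≤ f1 + g0 + h2) (l1 : 0 ≤ f1 + g1 + h2) (l2 : 0 ≤ f1 + g2 + h2)
    (l0' : f1 + g0 + h0 ≤ 0) (l1' : f1 + g1 + h0 ≤ 0) (l2' : f1 + g2 + h0 ≤ 0)
    (hlin : |f0 - f0| + |f0 - f1| + |f0 - f2| + (|f1 - f0| + |f1 - f1| + |f1 - f2|) +
        (|f2 - f0| + |f2 - f1| + |f2 - f2|) +
      2 * (|f1 + g0 + h0| + |f1 + g0 + h1| + |f1 + g0 + h2| +
        (|f1 + g1 + h0| + |f1 + g1 + h1| + |f1 + g1 + h2|) +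
        (|f1 + g2 + h0| + |f1 + g2 + h1| + |f1 + g2 + h2|)) =
      |g0 - g0| + |g0 - g1| + |g0 - g2| + (|g1 - g0| + |g1 - g1| + |g1 - g2|) +
        (|g2 - g0| + |g2 - g1| + |g2 - g2|) +
      (|h0 - h0| + |h0 - h1| + |h0 - h2| + (|h1 - h0| + |h1 - h1| + |h1 - h2|) +
        (|h2 - h0| + |h2 - h1| + |h2 - h2|)) + 6 * (|f1 - f0| + |f1 - f1| + |f1 - f2|))
    (gi : ℤ) (h1' : f0 + gi + h2 = 0) (h2' : f2 + gi + h0 = 0) :
    |f1 + g0 + h1| + |f1 + g1 + h1| + |f1 + g2 + h1| = 2 * (g2 - g0) ∧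
      f1 + h1 = 2 * gi - g0 - g1 - g2 := by
  simp only [sub_self, abs_zero] at hlin
  rw [abs_of_neg (a := f0 - f1) (by omega), abs_of_neg (a := f0 - f2) (by omega),
      abs_of_pos (a := f1 - f0) (by omega), abs_of_neg (a := f1 - f2) (by omega),
      abs_of_pos (a := f2 - f0) (by omega), abs_of_pos (a := f2 - f1) (by omega),
      abs_of_neg (a := g0 - g1) (by omega), abs_of_neg (a := g0 - g2) (by omega),
      abs_of_pos (a := g1 - g0) (by omega), abs_of_neg (a := g1 - g2) (by omega),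
      abs_of_pos (a := g2 - g0) (by omega), abs_of_pos (a := g2 - g1) (by omega),
      abs_of_neg (a := h0 - h1) (by omega), abs_of_neg (a := h0 - h2) (by omega),
      abs_of_pos (a := h1 - h0) (by omega), abs_of_neg (a := h1 - h2) (by omega),
      abs_of_pos (a := h2 - h0) (by omega), abs_of_pos (a := h2 - h1) (by omega),
      abs_of_nonpos l0', abs_of_nonpos l1', abs_of_nonpos l2',
      abs_of_nonneg l0, abs_of_nonneg l1, abs_of_nonneg l2] at hlin
  constructor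
  · linarith
  · linarith

lemma arith2 {g0 g1 g2 s : ℤ} {gi : ℤ} (hg01 : g0 < g1) (hg12 : g1 < g2)
    (h : |s + g0| + |s + g1| + |s + g2| = 2 * (g2 - g0)) (hs : s = 2 * gi - g0 - g1 - g2)
    (hgi : gi = g0 ∨ gi = g1 ∨ gi = g2) : False := by
  rcases hgi with rfl | rfl | rfl
  · rw [abs_of_neg (by omega), abs_of_neg (by omega), abs_of_neg (by omega)] at h
    omega
  · rw [abs_of_neg (a := s + g0) (by omega), abs_of_pos (a := s + g2) (by omega)] at h
    rcases abs_cases (s + gi) with ⟨e2, e2'⟩ | ⟨e2, e2'⟩ <;> rw [e2] at h <;> omega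
  · rw [abs_of_pos (by omega), abs_of_pos (by omega), abs_of_pos (by omega)] at h
    omega

/-- If the first and the last exponents at the point with the largest spread are on two resonances
through the same exponent at the second point, then there are two disjoint resonances. -/
theorem same {f g h : Fin 3 → ℤ} (hf01 : f 0 < f 1) (hf12 : f 1 < f 2) (hg01 : g 0 < g 1)
    (hg12 : g 1 < g 2) (hh01 : h 0 < h 1) (hh12 : h 1 < h 2) (hgP : g 2 - g 0 ≤ f 2 - f 0)
    (hhP : h 2 - h 0 ≤ f 2 - f 0) (hs : ∑ l, f l + ∑ l, g l + ∑ l, h l = 0) (hpos : Pos f g h)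
    (hpos' : Pos g f h) {i j j' : Fin 3} (h1 : f 0 + g i + h j = 0) (h2 : f 2 + g i + h j' = 0) :
    Dis f g h := by
  have inj : ∀ {a : Fin 3 → ℤ}, a 0 < a 1 → a 1 < a 2 → Function.Injective a := by
    intro a b1 b2 u v huv
    fin_cases u <;> fin_cases v <;> simp at huv ⊢ <;> omega
  have hf := inj hf01 hf12
  have hg := inj hg01 hg12
  have hh := inj hh01 hh12
  set P := f 2 - f 0 with hP
  have spr : ∀ {a : Fin 3 → ℤ}, a 0 < a 1 → a 1 < a 2 → a 2 - a 0 ≤ P → ∀ u v, |a u - a v| ≤ P := by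
    intro a b1 b2 b3 u v
    rw [abs_le]
    fin_cases u <;> fin_cases v <;> simp <;> omega
  have hfs := spr hf01 hf12 le_rfl
  have hgs := spr hg01 hg12 hgP
  have hhs := spr hh01 hh12 hhP
  have hj : j = 2 ∧ j' = 0 := by
    have h3 : h j - h j' = P := by omega
    fin_cases j <;> fin_cases j' <;> simp at h3 ⊢ <;> omega
  obtain ⟨rfl, rfl⟩ := hj
  -- the middle exponent is on a resonance
  have hmid : ∃ i2 j2, f 1 + g i2 + h j2 = 0 := by
    by_contra hcon
    push Not at hcon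
    have H : NR f g h 1 := ⟨hf, hg, hh, hs, hpos 1, hcon⟩
    have hL : ∀ i j, |f 1 + g i + h j| ≤ P := H.bound (hfs 1) hgs hhs
    have hlin := H.linear
    simp only [Fin.sum_univ_three] at hlin hs
    have l00 := hL 0 0
    have l10 := hL 1 0
    have l20 := hL 2 0
    have l02 := hL 0 2
    have l12 := hL 1 2
    have l22 := hL 2 2
    rw [abs_le] at l00 l10 l20 l02 l12 l22
    obtain ⟨e1, e2⟩ := arith hf01 hf12 hg01 hg12 hh01 hh12 hs (by omega) (by omega) (by omega)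
      (by omega) (by omega) (by omega) hlin (g i) h1 h2
    refine arith2 (s := f 1 + h 1) (gi := g i) hg01 hg12 ?_ e2 ?_
    · rw [← e1]
      congr 1
      · congr 1
        · congr 1; ring
        · congr 1; ring
      · congr 1; ring
    · fin_cases i
      · exact Or.inl rfl
      · exact Or.inr (Or.inl rfl)
      · exact Or.inr (Or.inr rfl)
  obtain ⟨i2, j2, hm⟩ := hmid
  by_cases hi : i2 = i
  · subst hi
    have hj2 : j2 = 1 := by
      fin_cases j2
      · exfalso; simp at hm; omega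
      · rfl
      · exfalso; simp at hm; omega
    subst hj2
    -- the exponent number two at the second point
    have hi1 : i2 = 1 := by
      simp only [Fin.sum_univ_three] at hs
      fin_cases i2
      · exfalso; simp at h1 h2 hm; omega
      · rfl
      · exfalso; simp at h1 h2 hm; omega
    subst hi1
    obtain ⟨a, b, hab⟩ : ∃ a b, g 2 + f a + h b = 0 := by
      by_contra hcon
      push Not at hcon
      have H : NR g f h 2 := ⟨hg, hf, hh, by rw [← hs]; ring, hpos' 2, hcon⟩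
      have h3 := H.bound (hgs 2) hfs hhs 2 2
      rw [abs_le] at h3
      omega
    have key : ∃ a' b' : Fin 3, a' ≠ a ∧ b' ≠ b ∧ f a' + g 1 + h b' = 0 := by
      have hd : ∀ a b : Fin 3, ((0 : Fin 3) ≠ a ∧ (2 : Fin 3) ≠ b) ∨
          ((1 : Fin 3) ≠ a ∧ (1 : Fin 3) ≠ b) ∨ ((2 : Fin 3) ≠ a ∧ (0 : Fin 3) ≠ b) := by decide
      rcases hd a b with h3 | h3 | h3
      · exact ⟨0, 2, h3.1, h3.2, h1⟩
      · exact ⟨1, 1, h3.1, h3.2, hm⟩
      · exact ⟨2, 0, h3.1, h3.2, h2⟩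
    obtain ⟨a', b', ha', hb', hab'⟩ := key
    exact ⟨a', 1, b', a, 2, b, ha', by decide, hb', hab', by rw [← hab]; ring⟩
  · by_cases hj2 : j2 = 2
    · exact ⟨1, i2, j2, 2, i, 0, by decide, hi, by rw [hj2]; decide, hm, h2⟩
    · exact ⟨1, i2, j2, 0, i, 2, by decide, hi, hj2, hm, h1⟩

lemma exists_sort {a : Fin 3 → ℤ} (ha : Function.Injective a) :
    ∃ σ : Equiv.Perm (Fin 3), (a ∘ σ) 0 < (a ∘ σ) 1 ∧ (a ∘ σ) 1 < (a ∘ σ) 2 := by
  have hm : StrictMono (a ∘ Tuple.sort a) :=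
    (Tuple.monotone_sort a).strictMono_of_injective (ha.comp (Tuple.sort a).injective)
  exact ⟨Tuple.sort a, hm (by decide), hm (by decide)⟩

/-- Two disjoint resonances if the exponents at each point are distinct. -/
theorem dis_inj {f g h : Fin 3 → ℤ} (hf : Function.Injective f)
    (hg : Function.Injective g) (hh : Function.Injective h)
    (hs : ∑ l, f l + ∑ l, g l + ∑ l, h l = 0) (p1 : Pos f g h) (p2 : Pos g f h) (p3 : Pos h f g)
    {P : ℤ} (hfP : ∀ i j, |f i - f j| ≤ P) (hgP : ∀ i j, |g i - g j| ≤ P)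
    (hhP : ∀ i j, |h i - h j| ≤ P) (hP : ∃ i j, f i - f j = P) : Dis f g h := by
  obtain ⟨σ, s1, s2⟩ := exists_sort hf
  obtain ⟨τ, t1, t2⟩ := exists_sort hg
  obtain ⟨ρ, r1, r2⟩ := exists_sort hh
  have q1 := p1.perm σ τ ρ
  have q2 := p2.perm τ σ ρ
  have q3 := p3.perm ρ σ τ
  have hf' := hf.comp σ.injective
  have hg' := hg.comp τ.injective
  have hh' := hh.comp ρ.injective
  have hs' : ∑ l, (f ∘ σ) l + ∑ l, (g ∘ τ) l + ∑ l, (h ∘ ρ) l = 0 := by
    rw [← hs, ← Equiv.sum_comp σ f, ← Equiv.sum_comp τ g, ← Equiv.sum_comp ρ h]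
    rfl
  have bf : ∀ i j, |(f ∘ σ) i - (f ∘ σ) j| ≤ P := fun i j => hfP _ _
  have bg : ∀ i j, |(g ∘ τ) i - (g ∘ τ) j| ≤ P := fun i j => hgP _ _
  have bh : ∀ i j, |(h ∘ ρ) i - (h ∘ ρ) j| ≤ P := fun i j => hhP _ _
  have hP' : (f ∘ σ) 2 - (f ∘ σ) 0 = P := by
    obtain ⟨i, j, hij⟩ := hP
    have e1 : (f ∘ σ) (σ.symm i) = f i := by simp
    have e2 : (f ∘ σ) (σ.symm j) = f j := by simp
    rw [← e1, ← e2] at hij
    have h1 := bf 2 0
    rw [abs_le] at h1
    have hub : ∀ u, (f ∘ σ) u ≤ (f ∘ σ) 2 := by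
      intro u; fin_cases u <;> simp at s1 s2 ⊢ <;> omega
    have hlb : ∀ u, (f ∘ σ) 0 ≤ (f ∘ σ) u := by
      intro u; fin_cases u <;> simp at s1 s2 ⊢ <;> omega
    have h2 := hub (σ.symm i)
    have h3 := hlb (σ.symm j)
    omega
  refine Dis.perm (σ := σ) (τ := τ) (ρ := ρ) ?_
  generalize f ∘ σ = f' at *
  generalize g ∘ τ = g' at *
  generalize h ∘ ρ = h' at *
  have hPpos : 0 < P := by omega
  obtain ⟨i, j, hij⟩ := extreme (k := 0) (b := 2) hf' hg' hh' hs' q1
    (by rw [abs_sub_comm, hP', abs_of_pos hPpos]) bf bg bh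
  obtain ⟨i', j', hij'⟩ := extreme (k := 2) (b := 0) hf' hg' hh' hs' q1
    (by rw [hP', abs_of_pos hPpos]) bf bg bh
  have bg2 := bg 2 0
  have bh2 := bh 2 0
  rw [abs_le, ← hP'] at bg2 bh2
  by_cases hi : i = i'
  · subst hi
    exact same s1 s2 t1 t2 r1 r2 bg2.2 bh2.2 hs' q1 q2 hij hij'
  · by_cases hj : j = j'
    · subst hj
      refine Dis.swap ?_
      exact same (i := j) (j := i) (j' := i') s1 s2 r1 r2 t1 t2 bh2.2 bg2.2 (by rw [← hs']; ring)
        q1.swap q3 (by rw [← hij]; ring) (by rw [← hij']; ring)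
    · exact ⟨0, i, j, 2, i', j', by decide, hi, hj, hij, hij'⟩

end Pool.Agent.N858.R3
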